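import Pool.Agent.Lib.PM.Blue
import Pool.Agent.Lib.PM81.Avg

/-! Project pm78: the average over the circle. -/

open MeasureTheory Complex

namespace Pool.Agent.Lib.PM

open Pool.Agent.Lib.SV (E)

theorem st_FAV : St_FAV := by
  intro n φ G f hφ hG hf h
  refine ⟨fun j => star (fderiv ℂ f 0 (Pi.single j 1)), ?_⟩
  have e : ∀ z : E n, star (fun j => star (fderiv ℂ f 0 (Pi.single j 1))) ⬝ᵥ z =
      fderiv ℂ f 0 z := fun z => by
    conv_rhs => rw [pi_eq_sum_univ' z, map_sum]
    simp [dotProduct, mul_comm]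
  simpa only [e, normSq_eq_norm_sq] using PM81.avg_lin (W := fun v => Real.exp (-φ v)) hG
    (by fun_prop) (fun v => (Real.exp_pos _).le) (fun c hc v => (h v c hc).2)
    (fun c hc v => by rw [(h v c hc).1]) hf

end Pool.Agent.Lib.PM
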