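import Pool.Agent.Lib.PM81.Pg

/-! Project pm78: the distance to the linear forms. -/

open scoped Classical Topology ContDiff
open Set MeasureTheory Complex Metric Filter

noncomputable section

namespace Pool.Agent.Lib.PM

open Pool.Agent.Lib.SV (E)
open Pool.Agent.Lib.HS32 Pool.Agent.Lib.PM81

namespace FB1

variable {n : ℕ} {Φ : E n × E n → ℝ} {z v : E n} {p : E n × E n}

theorem bessel {P : Type} [NormedAddCommGroup P] [NormedSpace ℝ P] [NormedSpace ℂ P]
    [IsScalarTower ℝ ℂ P] (B : P →L[ℝ] P →L[ℝ] ℝ) (hs : ∀ p q, B p q = B q p)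
    (h0 : ∀ q, 0 ≤ B q q + B (I • q) (I • q)) (W A : P) :
    (B W A + B (I • W) (I • A)) ^ 2 + (B (I • W) A - B W (I • A)) ^ 2 ≤
      (B A A + B (I • A) (I • A)) * (B W W + B (I • W) (I • W)) := by
  set x := B W A + B (I • W) (I • A) with hx
  set y := B (I • W) A - B W (I • A) with hy
  set a := B A A + B (I • A) (I • A) with ha
  set w := B W W + B (I • W) (I • W) with hw
  have hII : I • I • W = -W := by rw [smul_smul, I_mul_I, neg_smul, one_smul]
  have key : ∀ s : ℝ, 0 ≤ (x ^ 2 + y ^ 2) * w * (s * s) + 2 * (x ^ 2 + y ^ 2) * s + a := fun s => by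
    have h1 := h0 (A + (s * x) • W + (s * y) • (I • W))
    rw [smul_add, smul_add, smul_comm I (s * x), smul_comm I (s * y), hII] at h1
    simp only [map_add, map_smul, map_neg, add_apply,
      smul_apply, neg_apply, smul_eq_mul] at h1
    rw [hs A W, hs A (I • W), hs (I • A) W, hs (I • A) (I • W), hs W (I • W)] at h1
    refine h1.trans_eq ?_
    have e1 : B W A = x - B (I • W) (I • A) := by rw [hx]; ring
    have e2 : B (I • W) A = y + B W (I • A) := by rw [hy]; ring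
    have e3 : B A A = a - B (I • A) (I • A) := by rw [ha]; ring
    have e4 : B W W = w - B (I • W) (I • W) := by rw [hw]; ring
    rw [e1, e2, e3, e4]
    ring
  have h2 := discrim_le_zero key
  rw [discrim] at h2
  have h3 : 0 ≤ a * w := mul_nonneg (h0 A) (h0 W)
  rcases (show 0 ≤ x ^ 2 + y ^ 2 by positivity).eq_or_lt with h4 | h4
  · rw [← h4]; exact h3
  · exact le_of_mul_le_mul_left (by nlinarith) h4

theorem d2_symm (h : ContDiffAt ℝ ∞ Φ p) (q q' : E n × E n) :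
    fderiv ℝ (fderiv ℝ Φ) p q q' = fderiv ℝ (fderiv ℝ Φ) p q' q :=
  (h.isSymmSndFDerivAt (by
    rw [minSmoothness_of_isRCLikeNormedField]; exact WithTop.coe_le_coe.2 le_top)).eq q q'

theorem lev_fib (hs : ∀ v, ContDiffAt ℝ ∞ Φ (z, v)) (v w : E n) :
    HW.levi (fun x => Φ (z, x)) v w = levi2 Φ (z, v) (0, w) := by
  have h1 : ∀ w, fderiv ℝ (fun y => fderiv ℝ (fun x => Φ (z, x)) y w) v w =
      fderiv ℝ (fun q => fderiv ℝ Φ q (0, w)) (z, v) (0, w) := fun w => by
    have e : (fun y => fderiv ℝ (fun x => Φ (z, x)) y w) =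
        fun y => (fun q => fderiv ℝ Φ q (0, w)) (z, y) := by
      funext y; rw [(fd_fib (hs y)).fderiv]; rfl
    rw [e, (fd_fib (dir_sm (hs v) (0, w))).fderiv]
    rfl
  rw [HW.levi, h1, h1, levi2, smul_fib]

theorem da_sm (hs : ∀ v, ContDiffAt ℝ ∞ Φ (z, v)) (a : E n) : ContDiff ℝ ∞ (da Φ z a) :=
  ((ofRealCLM.contDiff.comp (cont_fib fun v => dir_sm (hs v) (a, 0))).sub (contDiff_const.mul
    (ofRealCLM.contDiff.comp (cont_fib fun v => dir_sm (hs v) (I • a, 0))))).div_const 2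

theorem fd_da (hs : ContDiffAt ℝ ∞ Φ (z, v)) (a w : E n) :
    fderiv ℝ (da Φ z a) v w = ((fderiv ℝ (fderiv ℝ Φ) (z, v) (0, w) (a, 0) : ℝ) -
        I * (fderiv ℝ (fderiv ℝ Φ) (z, v) (0, w) (I • a, 0) : ℝ)) / 2 := by
  have h1 : ∀ b : E n, HasFDerivAt (fun x => (fderiv ℝ Φ (z, x) (b, 0) : ℂ)) _ v := fun b =>
    ofRealCLM.hasFDerivAt.comp v (fd_fib (dir_sm hs (b, 0)))
  have h2 := ((h1 a).sub ((h1 (I • a)).const_mul I)).mul_const (2 : ℂ)⁻¹
  have e : da Φ z a = fun x => ((fderiv ℝ Φ (z, x) (a, 0) : ℂ) -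
      I * (fderiv ℝ Φ (z, x) (I • a, 0) : ℂ)) * (2 : ℂ)⁻¹ := by
    funext x; rw [da, div_eq_mul_inv]
  rw [e]
  refine (DFunLike.congr_fun h2.fderiv w).trans ?_
  rw [← fd_dir hs, ← fd_dir hs]
  simp only [smul_apply, sub_apply,
    ContinuousLinearMap.comp_apply, ContinuousLinearMap.inr_apply, ofRealCLM_apply, smul_eq_mul]
  ring

theorem dbar_G (hs : ∀ v, ContDiffAt ℝ ∞ Φ (z, v)) (a m v w : E n) :
    ∑ i, star (w i) * dzb i (fun x => da Φ z a x * lf m x) v = lf m v *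
      ((((fderiv ℝ (fderiv ℝ Φ) (z, v) (0, w) (a, 0) +
        fderiv ℝ (fderiv ℝ Φ) (z, v) (0, I • w) (I • a, 0)) / 4 : ℝ) : ℂ) +
      (((fderiv ℝ (fderiv ℝ Φ) (z, v) (0, I • w) (a, 0) -
        fderiv ℝ (fderiv ℝ Φ) (z, v) (0, w) (I • a, 0)) / 4 : ℝ) : ℂ) * I) := by
  have d1 := ((da_sm hs a).differentiable (by simp) v).hasFDerivAt.mul
    ((lf m).restrictScalars ℝ).hasFDerivAt
  have e1 : ∀ u, fderiv ℝ (fun x => da Φ z a x * lf m x) v u =
      da Φ z a v * lf m u + lf m v * fderiv ℝ (da Φ z a) v u := fun u => by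
    refine (DFunLike.congr_fun d1.fderiv u).trans ?_
    simp
  have e2 : fderiv ℝ (fun x => da Φ z a x * lf m x) v w +
      I * fderiv ℝ (fun x => da Φ z a x * lf m x) v (I • w) =
      2 * ∑ i, star (w i) * dzb i (fun x => da Φ z a x * lf m x) v := by
    rw [fderiv_eq_sum, fderiv_eq_sum, Finset.mul_sum, Finset.mul_sum, ← Finset.sum_add_distrib]
    refine Finset.sum_congr rfl fun j _ => ?_
    rw [Pi.smul_apply, smul_eq_mul, star_mul', star_def, conj_I]
    linear_combination (dz j (fun x => da Φ z a x * lf m x) v * w j -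
      dzb j (fun x => da Φ z a x * lf m x) v * (starRingEnd ℂ) (w j)) * I_mul_I
  rw [e1, e1, fd_da (hs v), fd_da (hs v), map_smul, smul_eq_mul] at e2
  push_cast
  linear_combination (-1 / 2 : ℂ) * e2 + (da Φ z a v * lf m w / 2 -
    lf m v * (fderiv ℝ (fderiv ℝ Φ) (z, v) (0, I • w) (I • a, 0) : ℝ) / 4) * I_mul_I

end FB1

open FB1

theorem st_FB1 (hH : St_FHO) (hA : St_FAV) (hC : St_FCH) : St_FB1 := by
  intro n Φ z a m h
  have hg : Gs n := hC.2.1 n
  have hs := h.sm.self_of_nhds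
  obtain ⟨c, C, hc, hC0, hb⟩ := h.bd
  obtain ⟨w0, w1, w2⟩ := pg_wt (S := (univ : Set Unit)) (w := fun _ => z) hc hC0 (fun _ _ => hs)
    fun _ _ => hb.self_of_nhds
  have sΦ := cont_fib hs
  have sG : ContDiff ℝ ∞ fun x => da Φ z a x * lf m x :=
    (da_sm hs a).mul ((lf m).restrictScalars ℝ).contDiff
  have p1 : Pg (univ : Set Unit) fun _ v => levi2 Φ (z, v) (a, 0) * normSq (lf m v) := by
    simp only [levi2_eq (hs _), div_eq_mul_inv]
    exact (((w2 _ _).add (w2 _ _)).mul (Pg.const _)).mul (pg_lf m).nsq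
  have p2 : Pg (univ : Set Unit) fun _ v => da Φ z a v * lf m v := by
    simp only [da, div_eq_mul_inv]
    exact ((((w1 _).clm ofRealCLM).sub ((Pg.const I).mul ((w1 _).clm ofRealCLM))).mul
      (Pg.const _)).mul (pg_lf m)
  have j1 := p1.intg hg w0 (mem_univ ())
  have h0 : ∀ v, 0 ≤ levi2 Φ (z, v) (a, 0) * normSq (lf m v) := fun v =>
    mul_nonneg (h.psh v _) (normSq_nonneg _)
  obtain ⟨f, f1, f2⟩ := hH n (fun v => Φ (z, v)) _ _ (sΦ.of_le (WithTop.coe_le_coe.2 le_top))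
    (sG.of_le (WithTop.coe_le_coe.2 le_top)) (p1.cont () (mem_univ _))
    (fun v => ⟨h0 v, fun w => ⟨by rw [lev_fib hs]; exact h.psh v _, by
      have b := bessel (fderiv ℝ (fderiv ℝ Φ) (z, v)) (d2_symm (hs v))
        (fun q => by linarith [h.psh v q, levi2_eq (hs v) q]) (0, w) (a, 0)
      rw [dbar_G hs, lev_fib hs, levi2_eq (hs v), levi2_eq (hs v), map_mul, normSq_add_mul_I,
        mul_right_comm, mul_comm]
      rw [smul_fib, smul_base] at *
      refine mul_le_mul_of_nonneg_right ?_ (normSq_nonneg _)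
      linarith⟩⟩) j1 fun i => by
    have e : ∀ v, dzb i (fun x => da Φ z a x * lf m x) v =
        ∑ j, star ((Pi.single i 1 : E n) j) * dzb j (fun x => da Φ z a x * lf m x) v := fun v => by
      simp [Pi.single_apply, apply_ite]
    simp only [e, dbar_G hs, div_eq_mul_inv]
    exact ((pg_lf m).mul (((((w2 _ _).add (w2 _ _)).mul (Pg.const _)).clm ofRealCLM).add
      (((((w2 _ _).sub (w2 _ _)).mul (Pg.const _)).clm ofRealCLM).mul (Pg.const I)))).nsq.intg
      hg w0 (mem_univ ())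
  obtain ⟨m₁, a1⟩ := hA n (fun v => Φ (z, v)) _ f sΦ.continuous sG.continuous f1 fun v k hk => by
    have e : ∀ b : E n, fderiv ℝ Φ (z, k • v) (b, 0) = fderiv ℝ Φ (z, v) (b, 0) := fun b =>
      DFunLike.congr_fun ((fd_base (hs (k • v))).unique ((fd_base (hs v)).congr_of_eventuallyEq
        (h.rot.mono fun x hx => hx v k hk))) b
    refine ⟨h.rot.self_of_nhds v k hk, ?_⟩
    rw [da, da, e, e, map_smul, smul_eq_mul]
    ring
  simp only [← lf_apply] at a1 ⊢
  have j3 := (p2.sub (pg_lf m₁)).nsq.intg hg w0 (mem_univ ())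
  have a2 := a1.trans f2
  rw [← ofReal_integral_eq_lintegral_ofReal j3 (.of_forall fun v =>
    mul_nonneg (normSq_nonneg _) (Real.exp_pos _).le), ENNReal.ofReal_le_ofReal_iff
    (integral_nonneg fun v => mul_nonneg (h0 v) (Real.exp_pos _).le)] at a2
  refine ⟨m₁, ?_⟩
  have e : ∀ v, normSq (lf m₁ v - da Φ z a v * lf m v) = normSq (da Φ z a v * lf m v - lf m₁ v) :=
    fun v => by rw [← normSq_neg, neg_sub]
  simp only [e, sub_mul]
  rw [integral_sub j3 j1]
  linarith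

end Pool.Agent.Lib.PM
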