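import Pool.Agent.Lib.PM81.Pg

/-! Project pm78: the second variation. -/

open scoped Classical Topology ContDiff
open Set MeasureTheory Complex Metric Filter

noncomputable section

namespace Pool.Agent.Lib.PM

open Pool.Agent.Lib.SV (E)
open Pool.Agent.Lib.HS32 Pool.Agent.Lib.PM81

namespace FB2

variable {n : ℕ} {Φ : E n × E n → ℝ} {z : E n}

theorem line {F : Type} [NormedAddCommGroup F] [NormedSpace ℝ F] {f : E n × E n → F} {b v : E n}
    {s : ℝ} (h : ContDiffAt ℝ ∞ f (z + s • b, v)) :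
    HasDerivAt (fun s : ℝ => f (z + s • b, v)) (fderiv ℝ f (z + s • b, v) (b, 0)) s := by
  have h1 : HasDerivAt (fun s : ℝ => z + s • b) b s := by
    simpa using ((hasDerivAt_id s).smul_const b).const_add z
  exact (h.differentiableAt (by simp)).hasFDerivAt.comp_hasDerivAt s
    (h1.prodMk (hasDerivAt_const s v))

/-- The second derivative along a real line. -/
theorem second (hg : Gs n) (h : Wg Φ z) (b : E n) {A B D : E n → ℝ}
    (hA : Pg (univ : Set ℝ) fun _ => A) (hB : Pg (univ : Set ℝ) fun _ => B)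
    (hD : Pg (univ : Set ℝ) fun _ => D) :
    deriv (deriv fun s : ℝ => ∫ v, (A v + B v * s + D v * (s * s)) *
      Real.exp (-Φ (z + s • b, v))) 0 =
    ∫ v, (2 * D v - 2 * B v * fderiv ℝ Φ (z, v) (b, 0) + A v * (fderiv ℝ Φ (z, v) (b, 0) ^ 2 -
      fderiv ℝ (fderiv ℝ Φ) (z, v) (b, 0) (b, 0))) * Real.exp (-Φ (z, v)) := by
  obtain ⟨c, C, hc, hC, hb⟩ := h.bd
  have t0 : Tendsto (fun s : ℝ => z + s • b) (𝓝 0) (𝓝 z) :=
    Continuous.tendsto' (by fun_prop) _ _ (by simp)
  obtain ⟨r, r0, hr⟩ := Metric.eventually_nhds_iff_ball.1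
    ((t0.eventually (h.sm.and hb)).and (ball_mem_nhds (0 : ℝ) one_pos))
  obtain ⟨w0, w1, w2⟩ := pg_wt (S := ball (0 : ℝ) r) (w := fun s => z + s • b) hc hC
    (fun s hs => (hr s hs).1.1) fun s hs => (hr s hs).1.2
  have m : ∀ {X : E n → ℝ}, (Pg (univ : Set ℝ) fun _ => X) → Pg (ball (0 : ℝ) r) fun _ => X :=
    fun hX => ⟨fun s _ => hX.cont s (mem_univ _), hX.bd.imp fun _ h => h.imp fun _ h =>
      ⟨h.1, fun s _ => h.2 s (mem_univ _)⟩⟩
  have ps : Pg (ball (0 : ℝ) r) fun s (_ : E n) => s :=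
    Pg.of_bd (C := 1) fun s hs => (mem_ball_zero_iff.1 (hr s hs).2).le
  have q0 := ((m hA).add ((m hB).mul ps)).add ((m hD).mul (ps.mul ps))
  have q1 := (m hB).add ((m hD).mul (ps.add ps))
  have p1 := q1.sub (q0.mul (w1 (b, 0)))
  have p2 := ((((m hD).add (m hD)).sub (q1.mul (w1 (b, 0)))).sub (q0.mul (w2 (b, 0) (b, 0)))).sub
    (p1.mul (w1 (b, 0)))
  have d0 : ∀ v (s : ℝ), HasDerivAt (fun s : ℝ => A v + B v * s + D v * (s * s))
      (B v + D v * (s + s)) s := fun v s => by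
    simpa using (((hasDerivAt_id s).const_mul (B v)).const_add (A v)).fun_add
      (((hasDerivAt_id s).fun_mul (hasDerivAt_id s)).const_mul (D v))
  have d1 : ∀ v (s : ℝ), HasDerivAt (fun s : ℝ => B v + D v * (s + s)) (D v + D v) s :=
    fun v s => ((((hasDerivAt_id s).fun_add (hasDerivAt_id s)).const_mul (D v)).const_add
      (B v)).congr_deriv (by ring)
  have e1 := fun s hs => Pg.der isOpen_ball hg w0 q0 p1 (s := s) (fun v s hs =>
    ((d0 v s).fun_mul (line ((hr s hs).1.1 v)).fun_neg.exp).congr_deriv (by ring)) hs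
  have e2 := Pg.der isOpen_ball hg w0 p1 p2 (fun v s hs =>
    (((d1 v s).fun_sub ((d0 v s).fun_mul (line (dir_sm ((hr s hs).1.1 v) (b, 0))))).fun_mul
      (line ((hr s hs).1.1 v)).fun_neg.exp).congr_deriv
      (by rw [fd_dir ((hr s hs).1.1 v)]; ring)) (mem_ball_self r0)
  rw [Filter.EventuallyEq.deriv_eq ((isOpen_ball.eventually_mem (mem_ball_self r0)).mono
    fun s hs => (e1 s hs).deriv), e2.deriv]
  refine integral_congr_ae (.of_forall fun v => ?_)
  simp only [zero_smul, add_zero]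
  ring

end FB2

theorem st_FB2 (hC : St_FCH) : St_FB2 := by
  intro n Φ z a c c' h
  have hg : Gs n := hC.2.1 n
  have hs := h.sm.self_of_nhds
  have e : ∀ (t : ℂ) (v : E n), star (c + star t • c') ⬝ᵥ v = lf c v + t * lf c' v := fun t v => by
    rw [star_add, star_smul, star_star, add_dotProduct, smul_dotProduct, lf_apply, lf_apply,
      smul_eq_mul]
  have pB : ∀ u : ℂ, Pg (univ : Set ℝ) fun _ v => 2 * (lf c v * star (u * lf c' v)).re := fun u =>
    (Pg.const 2).mul (((pg_lf c).mul (((Pg.const u).mul (pg_lf c')).clm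
      (conjCLE : ℂ →L[ℝ] ℂ))).clm reCLM)
  have key : ∀ u : ℂ, ‖u‖ = 1 → deriv (deriv fun s : ℝ => ∫ v,
      normSq (lf c v + s * u * lf c' v) * Real.exp (-Φ (z + (s * u) • a, v))) 0 = _ := fun u hu => by
    refine Eq.trans ?_ (FB2.second hg h (u • a) (pg_lf c).nsq (pB u) (pg_lf c').nsq)
    congr 2
    funext s
    refine integral_congr_ae (.of_forall fun v => ?_)
    beta_reduce
    rw [mul_smul, coe_smul, normSq_add, mul_assoc (s : ℂ), normSq_mul, normSq_mul,
      normSq_eq_norm_sq u, hu, normSq_ofReal, map_mul, conj_ofReal, mul_left_comm (lf c v),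
      re_ofReal_mul, star_def]
    ring
  obtain ⟨c₀, C, hc, hC0, hb⟩ := h.bd
  obtain ⟨w0, w1, w2⟩ := pg_wt (S := (univ : Set ℝ)) (w := fun _ => z) hc hC0 (fun _ _ => hs)
    fun _ _ => hb.self_of_nhds
  have j : ∀ u : ℂ, Integrable fun v => (2 * normSq (lf c' v) -
      2 * (2 * (lf c v * star (u * lf c' v)).re) * fderiv ℝ Φ (z, v) (u • a, 0) +
      normSq (lf c v) * (fderiv ℝ Φ (z, v) (u • a, 0) ^ 2 -
      fderiv ℝ (fderiv ℝ Φ) (z, v) (u • a, 0) (u • a, 0))) * Real.exp (-Φ (z, v)) := fun u => by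
    simp only [sq]
    exact ((((Pg.const 2).mul (pg_lf c').nsq).sub (((Pg.const 2).mul (pB u)).mul (w1 _))).add
      ((pg_lf c).nsq.mul (((w1 _).mul (w1 _)).sub (w2 _ _)))).intg hg w0 (mem_univ 0)
  have k1 := key 1 norm_one
  simp only [mul_one] at k1
  simp only [lap1, e, ← lf_apply]
  rw [k1, key I norm_I, ← integral_add (j 1) (j I), ← integral_const_mul]
  refine integral_congr_ae (.of_forall fun v => ?_)
  beta_reduce
  rw [levi2_eq (hs v), smul_base, da, one_smul]
  simp only [normSq_apply, star_def, mul_re, mul_im, sub_re, sub_im, conj_re, conj_im, one_re,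
    one_im, I_re, I_im, div_ofNat_re, div_ofNat_im, ofReal_re, ofReal_im]
  ring

end Pool.Agent.Lib.PM
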