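import Pool.Agent.Lib.PM.Blue

/-! The function `chi`, and weights with Gaussian decay. -/

open scoped Classical Topology ContDiff ComplexOrder Matrix Manifold ENNReal
open Set MeasureTheory Complex Metric Filter

noncomputable section

namespace Pool.Agent.Lib.PM

open Pool.Agent.Lib.SV (E Pluri)
open Pool.Agent.Lib.HS32 Pool.Agent.Lib.GH

namespace X51

theorem d0 (t : ℝ) : HasDerivAt expNegInvGlue (t⁻¹ ^ 2 * expNegInvGlue t) t := by
  simpa using expNegInvGlue.hasDerivAt_polynomial_eval_inv_mul 1 t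

theorem d1 (r : ℝ) : HasDerivAt chi ((1 + (r - 1)⁻¹) * expNegInvGlue (r - 1)) r := by
  have h : (r - 1) * (r - 1)⁻¹ * (r - 1)⁻¹ = (r - 1)⁻¹ := by
    by_cases h : r - 1 = 0
    · rw [h, inv_zero, mul_zero]
    · rw [mul_inv_cancel₀ h, one_mul]
  refine (((hasDerivAt_id' r).sub_const 1).mul ((d0 (r - 1)).comp_sub_const r 1)).congr_deriv ?_
  rw [sq, ← mul_assoc, ← mul_assoc, h, add_mul]

theorem d2 (r : ℝ) : deriv (deriv chi) r = (r - 1)⁻¹ ^ 3 * expNegInvGlue (r - 1) := by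
  have h := (expNegInvGlue.hasDerivAt_polynomial_eval_inv_mul (1 + Polynomial.X)
    (r - 1)).comp_sub_const r 1
  rw [funext fun r => (d1 r).deriv]
  simpa [← pow_succ] using h.deriv

theorem glue {t : ℝ} (h : 0 < t) : expNegInvGlue t = (Real.exp t⁻¹)⁻¹ := by
  rw [expNegInvGlue, if_neg (not_le.mpr h), Real.exp_neg]

theorem gauss (n m : ℕ) {c : ℝ} (hc : 0 < c) :
    Integrable fun v : E n => (1 + ‖v‖) ^ m * Real.exp (-(c * ‖v‖ ^ 2)) := by
  set N := Module.finrank ℝ (E n) + 1 with hN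
  refine ((integrable_one_add_norm (r := N) (by rw [hN]; push_cast; linarith)).const_mul
    (Real.exp (((m + N : ℕ) : ℝ) ^ 2 / (4 * c)))).mono' (by fun_prop)
    (Eventually.of_forall fun v => ?_)
  have h0 := norm_nonneg v
  have h1 : (1 + ‖v‖) ^ (m + N) ≤ Real.exp ((m + N : ℕ) * ‖v‖) := by
    rw [Real.exp_nat_mul]
    exact pow_le_pow_left₀ (by linarith) (by linarith [Real.add_one_le_exp ‖v‖]) _
  have h2 : ((m + N : ℕ) : ℝ) * ‖v‖ + -(c * ‖v‖ ^ 2) ≤ ((m + N : ℕ) : ℝ) ^ 2 / (4 * c) := by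
    rw [le_div_iff₀ (by linarith)]
    nlinarith [sq_nonneg (((m + N : ℕ) : ℝ) - 2 * c * ‖v‖)]
  rw [Real.norm_of_nonneg (by positivity), Real.rpow_neg (by linarith), Real.rpow_natCast,
    ← div_eq_mul_inv, le_div_iff₀ (by positivity), mul_right_comm, ← pow_add]
  refine (mul_le_mul_of_nonneg_right h1 (Real.exp_pos _).le).trans ?_
  rw [← Real.exp_add]
  exact Real.exp_le_exp.mpr h2

variable {n : ℕ} {φ : E n → ℝ} {c C : ℝ}

theorem int_entry (hφ : Continuous φ) (hc : 0 < c) (h : ∀ v, c * ‖v‖ ^ 2 - C ≤ φ v) (i j : Fin n) :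
    Integrable fun v : E n => (Real.exp (-φ v) : ℂ) * (v i * star (v j)) := by
  refine ((gauss n 2 hc).const_mul (Real.exp C)).mono' (by fun_prop)
    (Eventually.of_forall fun v => ?_)
  have h0 := norm_nonneg v
  rw [norm_mul, norm_mul, norm_star, Complex.norm_real, Real.norm_of_nonneg (Real.exp_pos _).le,
    mul_left_comm (Real.exp C), ← Real.exp_add, mul_comm]
  refine mul_le_mul ((mul_le_mul (norm_le_pi_norm v i) (norm_le_pi_norm v j) (norm_nonneg _)
    h0).trans (by nlinarith)) (Real.exp_le_exp.mpr (by linarith [h v])) (Real.exp_pos _).le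
    (by positivity)

theorem expand (φ : E n → ℝ) (a v : E n) :
    ((normSq (star a ⬝ᵥ v) * Real.exp (-φ v) : ℝ) : ℂ) =
      ∑ i, ∑ j, star (a i) * ((Real.exp (-φ v) : ℂ) * (v i * star (v j)) * a j) := by
  rw [ofReal_mul, ← mul_conj, dotProduct, map_sum, Finset.sum_mul_sum, Finset.sum_mul]
  refine Finset.sum_congr rfl fun i _ => ?_
  rw [Finset.sum_mul]
  refine Finset.sum_congr rfl fun j _ => ?_
  simp only [Pi.star_apply, map_mul, RCLike.star_def, conj_conj]
  ring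

theorem int_sq (hφ : Continuous φ) (hc : 0 < c) (h : ∀ v, c * ‖v‖ ^ 2 - C ≤ φ v) (a : E n) :
    Integrable fun v => normSq (star a ⬝ᵥ v) * Real.exp (-φ v) := by
  have h1 : Integrable fun v => ((normSq (star a ⬝ᵥ v) * Real.exp (-φ v) : ℝ) : ℂ) := by
    simp only [expand]
    exact integrable_finsetSum _ fun i _ => integrable_finsetSum _ fun j _ =>
      ((int_entry hφ hc h i j).mul_const _).const_mul _
  exact h1.re.congr (Eventually.of_forall fun v => ofReal_re _)

theorem quad (hφ : Continuous φ) (hc : 0 < c) (h : ∀ v, c * ‖v‖ ^ 2 - C ≤ φ v) (a : E n) :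
    star a ⬝ᵥ gm φ *ᵥ a = ((∫ v, normSq (star a ⬝ᵥ v) * Real.exp (-φ v) : ℝ) : ℂ) := by
  rw [← integral_complex_ofReal]
  simp only [expand]
  rw [integral_finsetSum _ fun i _ => integrable_finsetSum _ fun j _ =>
    ((int_entry hφ hc h i j).mul_const _).const_mul _, dotProduct]
  refine Finset.sum_congr rfl fun i _ => ?_
  rw [integral_finsetSum _ fun j _ => ((int_entry hφ hc h i j).mul_const _).const_mul _,
    Matrix.mulVec, dotProduct, Finset.mul_sum]
  refine Finset.sum_congr rfl fun j _ => ?_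
  rw [integral_const_mul, integral_mul_const]
  rfl

theorem posDef (hφ : Continuous φ) (hc : 0 < c) (h : ∀ v, c * ‖v‖ ^ 2 - C ≤ φ v) :
    (gm φ).PosDef := by
  refine Matrix.PosDef.of_dotProduct_mulVec_pos (Matrix.IsHermitian.ext fun i j => ?_)
    fun a ha => ?_
  · simp only [gm, Matrix.of_apply, RCLike.star_def]
    rw [← integral_conj]
    exact integral_congr_ae (Eventually.of_forall fun v => by
      simp only [map_mul, conj_ofReal, conj_conj, mul_comm (v i)])
  · rw [quad hφ hc h, zero_lt_real]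
    refine integral_pos_of_integrable_nonneg_nonzero (x := a) (by fun_prop) (int_sq hφ hc h a)
      (fun v => mul_nonneg (normSq_nonneg _) (Real.exp_pos _).le)
      (mul_ne_zero (fun e => ha ?_) (Real.exp_pos _).ne')
    exact dotProduct_star_self_eq_zero.mp (normSq_eq_zero.mp e)

theorem fib {F : E n → ℝ} (h : Fib F) :
    ∃ c C : ℝ, 0 < c ∧ ∀ v, c * ‖v‖ ^ 2 ≤ F v ∧ F v ≤ C * ‖v‖ ^ 2 := by
  have h1 : sphere (0 : E n) 1 ⊆ {0}ᶜ := fun v hv => ne_zero_of_mem_unit_sphere ⟨v, hv⟩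
  obtain ⟨c, hc, h2⟩ := (isCompact_sphere (0 : E n) 1).exists_forall_le' (h.cont.mono h1)
    fun v hv => h.pos v (h1 hv)
  obtain ⟨C, h3⟩ := (isCompact_sphere (0 : E n) 1).bddAbove_image (h.cont.mono h1)
  refine ⟨c, C, hc, fun v => ?_⟩
  by_cases hv : v = 0
  · have h4 := h.hom 0 v
    rw [zero_smul, map_zero, zero_mul] at h4
    simp [hv, h4]
  have h4 : (‖v‖ : ℂ) ≠ 0 := ofReal_ne_zero.mpr (norm_ne_zero_iff.mpr hv)
  have h5 : (‖v‖ : ℂ)⁻¹ • v ∈ sphere (0 : E n) 1 := by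
    rw [mem_sphere_zero_iff_norm, norm_smul, norm_inv, Complex.norm_real, norm_norm,
      inv_mul_cancel₀ (norm_ne_zero_iff.mpr hv)]
  have h6 := h.hom ‖v‖ ((‖v‖ : ℂ)⁻¹ • v)
  rw [smul_inv_smul₀ h4, normSq_ofReal, ← sq, mul_comm] at h6
  rw [h6]
  exact ⟨mul_le_mul_of_nonneg_right (h2 _ h5) (sq_nonneg _),
    mul_le_mul_of_nonneg_right (h3 ⟨_, h5, rfl⟩) (sq_nonneg _)⟩

end X51

theorem st_FCH : St_FCH := by
  refine ⟨⟨(contDiff_id.sub contDiff_const).mul
    (expNegInvGlue.contDiff.comp (contDiff_id.sub contDiff_const)), fun r hr => ?_, fun r => ?_,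
    fun r => ?_, 6, fun r => ?_⟩, fun n m c hc => X51.gauss n m hc,
    fun n φ c C hφ hc h => ⟨X51.posDef hφ hc h, fun a => ⟨X51.int_sq hφ hc h a, ?_⟩⟩,
    fun n F h => ?_⟩
  · rw [chi, expNegInvGlue.zero_of_nonpos (sub_nonpos.mpr hr), mul_zero]
  · rw [chi]
    rcases le_or_gt (r - 1) 0 with h | h
    · rw [expNegInvGlue.zero_of_nonpos h, mul_zero]
      exact ⟨by linarith, le_rfl⟩
    · refine ⟨?_, mul_nonneg h.le (expNegInvGlue.nonneg _)⟩
      have h1 := mul_le_mul_of_nonneg_left (Real.add_one_le_exp (-(r - 1)⁻¹)) h.le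
      rw [mul_add, mul_neg, mul_inv_cancel₀ h.ne', Real.exp_neg, ← X51.glue h] at h1
      linarith
  · rw [(X51.d1 r).deriv]
    rcases le_or_gt (r - 1) 0 with h | h
    · rw [expNegInvGlue.zero_of_nonpos h, mul_zero]
      exact ⟨le_rfl, zero_le_one⟩
    · rw [X51.glue h, ← div_eq_mul_inv, div_le_one (Real.exp_pos _), add_comm]
      exact ⟨by positivity, Real.add_one_le_exp _⟩
  · rw [X51.d2]
    rcases le_or_gt (r - 1) 0 with h | h
    · rw [expNegInvGlue.zero_of_nonpos h, mul_zero]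
      exact ⟨le_rfl, by norm_num⟩
    · have h1 := Real.pow_div_factorial_le_exp (r - 1)⁻¹ (inv_nonneg.mpr h.le) 3
      rw [X51.glue h, ← div_eq_mul_inv, div_le_iff₀ (Real.exp_pos _)]
      norm_num [Nat.factorial] at h1
      exact ⟨by positivity, by rw [inv_pow]; linarith⟩
  · rw [nq, X51.quad hφ hc h, ofReal_re]
  · obtain ⟨c, C, hc, h1⟩ := X51.fib h
    have h0 : F 0 = 0 := le_antisymm (by simpa using (h1 0).2) (by simpa using (h1 0).1)
    refine ⟨continuous_iff_continuousAt.mpr fun v => ?_, h0, c, C, hc, h1⟩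
    by_cases hv : v = 0
    · rw [hv, ContinuousAt, h0]
      exact squeeze_zero (fun w => (mul_nonneg hc.le (sq_nonneg _)).trans (h1 w).1)
        (fun w => (h1 w).2) (Continuous.tendsto' (by fun_prop) _ _ (by simp))
    · exact h.cont.continuousAt (isOpen_compl_singleton.mem_nhds hv)

end Pool.Agent.Lib.PM
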