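import Pool.Agent.Lib.PM.Blue
import Pool.Agent.Lib.HS32.MKit
import Pool.Agent.Lib.HS32.B_COF

/-! Project pm78: curvature of the dual metric and of a conformal change. -/

open scoped Classical Topology ContDiff ComplexOrder Matrix
open Set Complex Filter

noncomputable section

namespace Pool.Agent.Lib.PM

open Pool.Agent.Lib.SV (E)
open Pool.Agent.Lib.HS32

namespace X99

/-- Value and two derivatives at the origin. -/
def D2 (f : ℝ → ℂ) (a b c : ℂ) : Prop :=
  f 0 = a ∧ ∃ g : ℝ → ℂ, (∀ᶠ s in 𝓝 (0 : ℝ), HasDerivAt f (g s) s) ∧ g 0 = b ∧ HasDerivAt g c 0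

variable {f f' : ℝ → ℂ} {a b c a' b' c' : ℂ}

theorem D2.add (h : D2 f a b c) (h' : D2 f' a' b' c') :
    D2 (fun s => f s + f' s) (a + a') (b + b') (c + c') := by
  obtain ⟨rfl, g, h1, rfl, h2⟩ := h
  obtain ⟨rfl, g', h3, rfl, h4⟩ := h'
  exact ⟨rfl, fun s => g s + g' s, (h1.and h3).mono fun s hs => hs.1.add hs.2, rfl, h2.add h4⟩

theorem D2.mul (h : D2 f a b c) (h' : D2 f' a' b' c') :
    D2 (fun s => f s * f' s) (a * a') (b * a' + a * b') (c * a' + 2 * (b * b') + a * c') := by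
  obtain ⟨rfl, g, h1, rfl, h2⟩ := h
  obtain ⟨rfl, g', h3, rfl, h4⟩ := h'
  refine ⟨rfl, fun s => g s * f' s + f s * g' s, (h1.and h3).mono fun s hs => hs.1.mul hs.2, rfl,
    ((h2.mul h3.self_of_nhds).add (h1.self_of_nhds.mul h4)).congr_deriv (by ring)⟩

theorem d2_lin (τ : ℂ) : D2 (fun s => s * τ) 0 τ 0 :=
  ⟨by simp, fun _ => τ, .of_forall fun s => by
    simpa using (hasDerivAt_id s).ofReal_comp.mul_const τ, rfl, hasDerivAt_const _ _⟩

theorem D2.re (h : D2 f a b c) : deriv (deriv fun s => (f s).re) 0 = c.re := by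
  obtain ⟨-, g, h1, -, h2⟩ := h
  have e : (deriv fun s => (f s).re) =ᶠ[𝓝 0] fun s => (g s).re :=
    h1.mono fun s hs => (reCLM.hasFDerivAt.comp_hasDerivAt s hs).deriv
  rw [e.deriv_eq]
  exact (reCLM.hasFDerivAt.comp_hasDerivAt 0 h2).deriv

variable {n : ℕ} {z : E n} {φ : E n → ℂ} {T : E n → Mat n}

theorem d2_line (h : ContDiffAt ℝ ∞ φ z) (b : E n) : D2 (fun s => φ (z + s • b)) (φ z)
    (fderiv ℝ φ z b) (fderiv ℝ (fun w => fderiv ℝ φ w b) z b) := by
  have d : ∀ s : ℝ, HasDerivAt (fun s : ℝ => z + s • b) b s := fun s => by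
    simpa using ((hasDerivAt_id s).smul_const b).const_add z
  have t : Tendsto (fun s : ℝ => z + s • b) (𝓝 0) (𝓝 z) := by
    simpa using (d 0).continuousAt.tendsto
  refine ⟨by simp, fun s => fderiv ℝ φ (z + s • b) b,
    (t.eventually (cd_ev_diff h)).mono fun s hs => hs.hasFDerivAt.comp_hasDerivAt s (d s),
    by simp, ?_⟩
  exact (cd_diff (cd_fderiv h b)).hasFDerivAt.comp_hasDerivAt_of_eq 0 (d 0) (by simp)

theorem lap2 (h : ContDiffAt ℝ ∞ φ z) (a : E n) : fderiv ℝ (fun w => fderiv ℝ φ w a) z a +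
    fderiv ℝ (fun w => fderiv ℝ φ w (I • a)) z (I • a) =
      4 * ∑ k, ∑ l, a k * star (a l) * dzb l (dz k φ) z := by
  have e : ∀ b : E n, fderiv ℝ (fun w => fderiv ℝ φ w b) z b =
      ∑ l, ∑ k, ((dz k (dz l φ) z * b k + dzb k (dz l φ) z * star (b k)) * b l +
        (dzb l (dz k φ) z * b k + dzb k (dzb l φ) z * star (b k)) * star (b l)) := fun b => by
    rw [fderiv_eq_sum]
    refine Finset.sum_congr rfl fun l _ => ?_
    rw [← fderiv_dz h, ← fderiv_dzb h, fderiv_eq_sum (dz l φ), fderiv_eq_sum (dzb l φ),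
      Finset.sum_mul, Finset.sum_mul, ← Finset.sum_add_distrib]
    simp only [dz_dzb h]
  have e2 : ∑ k, ∑ l, a k * star (a l) * dzb l (dz k φ) z =
    ∑ l, ∑ k, a k * star (a l) * dzb l (dz k φ) z := Finset.sum_comm
  rw [e, e, show ∀ x : ℂ, 4 * x = 2 * (x + x) from fun x => by ring]
  nth_rewrite 2 [e2]
  simp only [← Finset.sum_add_distrib, Finset.mul_sum]
  refine Finset.sum_congr rfl fun l _ => Finset.sum_congr rfl fun k _ => ?_
  simp only [Pi.smul_apply, smul_eq_mul, star_mul', RCLike.star_def, conj_I]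
  linear_combination (dz k (dz l φ) z * a k * a l - dzb k (dz l φ) z * (starRingEnd ℂ) (a k) * a l -
    dzb l (dz k φ) z * a k * (starRingEnd ℂ) (a l) +
    dzb k (dzb l φ) z * (starRingEnd ℂ) (a k) * (starRingEnd ℂ) (a l)) * I_mul_I

theorem fd_sub (a : E n) : fderiv ℝ φ z a - I * fderiv ℝ φ z (I • a) = 2 * ∑ k, a k * dz k φ z := by
  simp only [fderiv_eq_sum, Finset.mul_sum, ← Finset.sum_sub_distrib]
  refine Finset.sum_congr rfl fun k _ => ?_
  simp only [Pi.smul_apply, smul_eq_mul, star_mul', RCLike.star_def, conj_I]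
  linear_combination (dzb k φ z * (starRingEnd ℂ) (a k) - dz k φ z * a k) * I_mul_I

theorem fd_add (a : E n) :
    fderiv ℝ φ z a + I * fderiv ℝ φ z (I • a) = 2 * ∑ k, star (a k) * dzb k φ z := by
  simp only [fderiv_eq_sum, Finset.mul_sum, ← Finset.sum_add_distrib]
  refine Finset.sum_congr rfl fun k _ => ?_
  simp only [Pi.smul_apply, smul_eq_mul, star_mul', RCLike.star_def, conj_I]
  linear_combination (dz k φ z * a k - dzb k φ z * (starRingEnd ℂ) (a k)) * I_mul_I

/-- A matrix coefficient. -/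
def co (T : E n → Mat n) (x y w : E n) : ℂ := x ⬝ᵥ T w *ᵥ y

theorem co_eq (x y : E n) : co T x y = fun w => ∑ i, ∑ j, x i * y j * T w i j := by
  funext w
  simp only [co, dotProduct, Matrix.mulVec, Finset.mul_sum]
  exact Finset.sum_congr rfl fun i _ => Finset.sum_congr rfl fun j _ => by ring

theorem cd_co (h : SmM T z) (x y : E n) : ContDiffAt ℝ ∞ (co T x y) z := by
  rw [co_eq]
  exact ContDiffAt.sum fun i _ => ContDiffAt.sum fun j _ => contDiffAt_const.mul (h i j)

theorem dz_co (h : ∀ i j, DifferentiableAt ℝ (fun w => T w i j) z) (x y : E n) (k : Fin n) :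
    dz k (co T x y) z = co (dM k T) x y z ∧ dzb k (co T x y) z = co (dMb k T) x y z := by
  have d := fun i j => (h i j).const_mul (x i * y j)
  rw [co_eq, co_eq, co_eq, dz_sum fun i _ => DifferentiableAt.fun_sum fun j _ => d i j,
    dzb_sum fun i _ => DifferentiableAt.fun_sum fun j _ => d i j]
  constructor <;> refine Finset.sum_congr rfl fun i _ => ?_
  · rw [dz_sum fun j _ => d i j]
    exact Finset.sum_congr rfl fun j _ => dz_const_mul _ (h i j)
  · rw [dzb_sum fun j _ => d i j]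
    exact Finset.sum_congr rfl fun j _ => dzb_const_mul _ (h i j)

theorem dd_co (h : SmM T z) (x y : E n) (k l : Fin n) :
    dzb l (dz k (co T x y)) z = co (dMb l (dM k T)) x y z := by
  rw [← (dz_co (h.dM k).diff x y l).2]
  exact dzb_congr (h.ev_diff.mono fun w hw => (dz_co hw x y k).1)

theorem sec (h : SmM T z) (a m c : E n) (τ : ℂ) :
    deriv (deriv fun s : ℝ => nq (T (z + ((s : ℂ) * τ) • a)) (m + star ((s : ℂ) * τ) • c)) 0 =
      (fderiv ℝ (fun w => fderiv ℝ (co T (star m) m) w (τ • a)) z (τ • a) +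
        2 * (τ * fderiv ℝ (co T (star c) m) z (τ • a)) +
        2 * (star τ * fderiv ℝ (co T (star m) c) z (τ • a)) +
        2 * (τ * star τ) * co T (star c) c z).re := by
  have l := fun x y => d2_line (cd_co h x y) (τ • a)
  have k := ((((l (star m) m).add ((d2_lin τ).mul (l (star c) m))).add
    ((d2_lin (star τ)).mul (l (star m) c))).add
    (((d2_lin τ).mul (d2_lin (star τ))).mul (l (star c) c))).re
  simp only [zero_mul, mul_zero, zero_add, add_zero] at k
  rw [← k]
  congr 2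
  funext s
  have e : ((s : ℂ) * τ) • a = s • τ • a := by rw [mul_smul]; rfl
  have e' : star ((s : ℂ) * τ) = s * star τ := by simp
  simp only [nq, co, e, star_add, star_smul, star_star, Matrix.mulVec_add, Matrix.mulVec_smul,
    add_dotProduct, dotProduct_add, smul_dotProduct, dotProduct_smul, smul_eq_mul]
  rw [e']
  congr 1
  ring

theorem lap (h : SmM T z) (a m c : E n) :
    lap1 (fun t => nq (T (z + t • a)) (m + star t • c)) / 4 =
      (∑ k, ∑ l, a k * star (a l) * co (dMb l (dM k T)) (star m) m z +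
        ∑ k, star (a k) * co (dMb k T) (star c) m z + ∑ k, a k * co (dM k T) (star m) c z +
        co T (star c) c z).re := by
  have h1 := sec h a m c 1
  simp only [mul_one, one_smul, star_one, one_mul] at h1
  rw [lap1, h1, sec h a m c I, ← add_re, div_eq_iff four_ne_zero, ← re_mul_ofReal]
  congr 1
  have h2 := lap2 (cd_co h (star m) m) a
  have h3 := fd_add (φ := co T (star c) m) (z := z) a
  have h4 := fd_sub (φ := co T (star m) c) (z := z) a
  simp only [dd_co h, (dz_co h.diff _ _ _).1, (dz_co h.diff _ _ _).2] at h2 h3 h4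
  rw [show star I = -I from conj_I]
  push_cast
  linear_combination h2 + 2 * h3 + 2 * h4 - 2 * co T (star c) c z * I_mul_I

theorem th_inv (h : SmM T z) (h0 : (T z).det ≠ 0) (k l : Fin n) : th (fun w => (T w)⁻¹) k l z =
    (dMb l (dM k T) z - dM k T z * (T z)⁻¹ * dMb l T z) * (T z)⁻¹ := by
  have e : gam (fun w => (T w)⁻¹) k =ᶠ[𝓝 z] fun w => -(dM k T w * (T w)⁻¹) := by
    filter_upwards [h.ev_diff, (h.inv h0).ev_diff, (h.ev_det h0).eventually_nhds] with w h1 h2 h3
    have h4 := dM_mul' (k := k) h1 h2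
    rw [dM_congr (T := fun _ => 1) (h3.mono fun x hx => Matrix.mul_nonsing_inv _ hx.isUnit),
      dM_const] at h4
    rw [gam, Matrix.nonsing_inv_nonsing_inv _ h3.self_of_nhds.isUnit]
    exact eq_neg_of_add_eq_zero_right h4.symm
  rw [th, dMb_congr e, dMb_neg, neg_neg, dMb_mul (h.dM k) (h.inv h0),
    (((stCOF n T z h).2.2.2.2.1 h0).2 l).2]
  noncomm_ring

theorem part1 (h : SmM T z) (hp : ∀ᶠ w in 𝓝 z, (T w).PosDef) (a v c : E n) :
    (rm (fun w => (T w)⁻¹) z a a v v).re ≤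
      lap1 (fun t => nq (T (z + t • a)) ((T z)⁻¹ *ᵥ v + star t • c)) / 4 := by
  have h0 := hp.self_of_nhds
  have hd := Mf.pd_det_ne h0
  have hb : ∀ l, dMb l T z = (dM l T z)ᴴ := fun l => dMb_herm h (hp.mono fun w hw => hw.1)
  rw [lap h, rm]
  set m := (T z)⁻¹ *ᵥ v with hm
  set y : E n := ∑ l, star (a l) • dMb l T z *ᵥ m with hy
  have sy : star y = ∑ k, a k • star m ᵥ* dM k T z := by
    simp only [hy, star_sum, star_smul, star_star, hb, Matrix.star_mulVec,
      Matrix.conjTranspose_conjTranspose]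
  have sm : ∀ x : E n, star v ⬝ᵥ (T z)⁻¹ *ᵥ x = star m ⬝ᵥ x := fun x => by
    rw [hm, Matrix.star_mulVec, h0.1.inv.eq, Matrix.dotProduct_mulVec]
  have e1 : ∑ k, ∑ l, a k * star (a l) *
      (star v ⬝ᵥ ((T z)⁻¹ * th (fun w => (T w)⁻¹) k l z) *ᵥ v) =
      ∑ k, ∑ l, a k * star (a l) * co (dMb l (dM k T)) (star m) m z - star y ⬝ᵥ (T z)⁻¹ *ᵥ y := by
    rw [sy, hy]
    simp only [th_inv h hd, ← Matrix.mulVec_mulVec, sm, ← hm, Matrix.sub_mulVec, dotProduct_sub,
      mul_sub, Finset.sum_sub_distrib, co, sum_dotProduct, Matrix.mulVec_sum, dotProduct_sum,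
      Matrix.mulVec_smul, smul_dotProduct, dotProduct_smul, smul_eq_mul,
      ← Matrix.dotProduct_mulVec, Finset.mul_sum, mul_assoc]
    rw [sub_right_inj, Finset.sum_comm]
    exact Finset.sum_congr rfl fun i _ => Finset.sum_congr rfl fun j _ => mul_left_comm _ _ _
  have e2 : ∑ k, star (a k) * co (dMb k T) (star c) m z = star c ⬝ᵥ y := by
    simp only [hy, co, dotProduct_sum, dotProduct_smul, smul_eq_mul]
  have e3 : ∑ k, a k * co (dM k T) (star m) c z = star y ⬝ᵥ c := by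
    simp only [sy, co, sum_dotProduct, smul_dotProduct, smul_eq_mul, ← Matrix.dotProduct_mulVec]
  have e4 := (Complex.nonneg_iff.1 (h0.posSemidef.dotProduct_mulVec_nonneg (c + (T z)⁻¹ *ᵥ y))).1
  have e5 : star (c + (T z)⁻¹ *ᵥ y) ⬝ᵥ T z *ᵥ (c + (T z)⁻¹ *ᵥ y) =
      star c ⬝ᵥ y + star y ⬝ᵥ c + co T (star c) c z + star y ⬝ᵥ (T z)⁻¹ *ᵥ y := by
    rw [Matrix.mulVec_add, Matrix.mulVec_mulVec, Matrix.mul_nonsing_inv _ hd.isUnit,
      Matrix.one_mulVec, star_add, Matrix.star_mulVec, h0.1.inv.eq, add_dotProduct, dotProduct_add,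
      ← Matrix.dotProduct_mulVec, Matrix.mulVec_add, Matrix.mulVec_mulVec,
      Matrix.nonsing_inv_mul _ hd.isUnit, Matrix.one_mulVec, dotProduct_add, co]
    ring
  rw [e1, e2, e3]
  rw [e5] at e4
  simp only [add_re, sub_re] at e4 ⊢
  linarith

theorem rs (r : ℝ) (A : Mat n) : r • A = (r : ℂ) • A := by
  ext i j; simp

theorem th_exp {ψ : E n → ℝ} (h : SmM T z) (hp : ∀ᶠ w in 𝓝 z, (T w).PosDef)
    (hψ : ContDiffAt ℝ ∞ ψ z) (k l : Fin n) : th (fun w => Real.exp (ψ w) • T w) k l z =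
      th T k l z - hess (fun w => (ψ w : ℂ)) z l k • (1 : Mat n) := by
  have e : gam (fun w => Real.exp (ψ w) • T w) k =ᶠ[𝓝 z]
      fun w => gam T k w + dz k (fun w => (ψ w : ℂ)) w • (1 : Mat n) := by
    filter_upwards [h.ev_diff, cd_ev_diff hψ, cd_ev_diff (cd_ofReal hψ.exp), hp] with w h1 h2 h3 h4
    have h5 : dM k (fun w => Real.exp (ψ w) • T w) w = (Real.exp (ψ w) • T w) *
        (gam T k w + dz k (fun w => (ψ w : ℂ)) w • (1 : Mat n)) := by
      rw [Matrix.smul_mul, mul_add, gam,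
        Matrix.mul_nonsing_inv_cancel_left _ _ (Mf.pd_det_ne h4).isUnit, Matrix.mul_smul, mul_one]
      ext i j
      refine (dz_mul h3 (h1 i j)).trans ?_
      rw [dz_comp_real (Real.hasDerivAt_exp _) h2]
      simp only [Matrix.smul_apply, Matrix.add_apply, dM_apply, real_smul, smul_eq_mul]
      ring
    rw [gam, h5, Matrix.nonsing_inv_mul_cancel_left _ _
      (Mf.pd_det_ne (Mf.pd_rsmul h4 (Real.exp_pos _))).isUnit]
  have h1 := cd_dz (cd_ofReal hψ) k
  rw [th, dMb_congr e, dMb_add (h.gam (Mf.pd_det_ne hp.self_of_nhds) k) ((smM_const 1).smul h1),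
    dMb_smul (cd_diff h1) (smM_const 1), dMb_const, smul_zero, add_zero, th, hess_apply, neg_add']

end X99

open X99 in
theorem st_FCV : St_FCV := by
  intro n T z h hp
  refine ⟨part1 h hp, fun ψ hψ => ⟨fun a v => ?_, ?_⟩⟩
  · have h1 := (Complex.nonneg_iff.1 (hp.self_of_nhds.posSemidef.dotProduct_mulVec_nonneg v)).2
    have e : rm (fun w => Real.exp (ψ w) • T w) z a a v v = Real.exp (ψ z) * (rm T z a a v v -
        (star a ⬝ᵥ hess (fun w => (ψ w : ℂ)) z *ᵥ a) * (star v ⬝ᵥ T z *ᵥ v)) := by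
      have e2 : star a ⬝ᵥ hess (fun w => (ψ w : ℂ)) z *ᵥ a =
          ∑ k, ∑ l, a k * star (a l) * hess (fun w => (ψ w : ℂ)) z l k := by
        rw [Finset.sum_comm]
        simp only [dotProduct, Matrix.mulVec, Finset.mul_sum, Pi.star_apply]
        exact Finset.sum_congr rfl fun i _ => Finset.sum_congr rfl fun j _ => by ring
      simp only [rm, th_exp h hp hψ]
      simp only [e2, rs, Matrix.smul_mul, mul_sub, Matrix.mul_smul, mul_one,
        Matrix.sub_mulVec, Matrix.smul_mulVec, dotProduct_sub, dotProduct_smul, smul_eq_mul,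
        Finset.mul_sum, Finset.sum_mul, ← Finset.sum_sub_distrib]
      exact Finset.sum_congr rfl fun i _ => Finset.sum_congr rfl fun j _ => by ring
    rw [e, re_ofReal_mul, sub_re, mul_re, ← h1, mul_zero, sub_zero, nq, nq]
  · have e : (ld fun w => Real.exp (ψ w) • T w) =ᶠ[𝓝 z]
        fun w => ld T w + ((n : ℝ) : ℂ) * (ψ w : ℂ) := hp.mono fun w hw => by
      simp only [ld]
      rw [rs, Matrix.det_smul, Fintype.card_fin, ← ofReal_pow, re_ofReal_mul,
        Real.log_mul (by positivity) (Mf.pd_det_re hw).ne', Real.log_pow, Real.log_exp]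
      push_cast
      ring
    rw [hess_congr e, hess_add ((stCOF n T z h).2.2.2.2.2 hp).1
      (contDiffAt_const.mul (cd_ofReal hψ)), hess_const_mul _ (cd_ofReal hψ), rs]

end Pool.Agent.Lib.PM
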