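import Pool.Agent.Lib.PM.Blue

/-! Project pm78, block FG1: scaling and linear change of variables in the moments. -/

open scoped Classical Topology ContDiff ComplexOrder Matrix Manifold ENNReal
open Set MeasureTheory Complex Metric Filter

noncomputable section

namespace Pool.Agent.Lib.PM

open Pool.Agent.Lib.SV (E Pluri)
open Pool.Agent.Lib.HS32 Pool.Agent.Lib.GH

namespace X38G

variable {n : ℕ}

/-- Linear change of variables. -/
theorem int_lin (J : Mat n) (hJ : J.det ≠ 0) (f : E n → ℂ) (hf : Continuous f) :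
    (normSq J.det : ℂ) * ∫ v, f (J *ᵥ v) = ∫ w, f w := by
  let L : E n →ₗ[ℝ] E n := (Matrix.toLin' J).restrictScalars ℝ
  have hd : LinearMap.det L = normSq J.det := by
    rw [LinearMap.det_restrictScalars, LinearMap.det_toLin', Algebra.norm_complex_apply]
  have hp : 0 < normSq J.det := normSq_pos.mpr hJ
  have hm := Measure.map_linearMap_addHaar_eq_smul_addHaar (volume : Measure (E n))
    (f := L) (by rw [hd]; exact hp.ne')
  have hc : Continuous L := L.continuous_of_finiteDimensional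
  have h1 : ∫ w, f w ∂(Measure.map L volume) = ∫ v, f (L v) :=
    integral_map hc.measurable.aemeasurable hf.aestronglyMeasurable
  have h2 : ∫ v, f (J *ᵥ v) = ∫ v, f (L v) := rfl
  rw [h2, ← h1, hm, integral_smul_measure, hd, abs_of_pos (inv_pos.mpr hp),
    ENNReal.toReal_ofReal (inv_pos.mpr hp).le, Complex.real_smul, ← mul_assoc, ofReal_inv,
    mul_inv_cancel₀ (ofReal_ne_zero.mpr hp.ne'), one_mul]

theorem fib_comp {F : E n → ℝ} (hF : Fib F) (J : Mat n) (hJ : J.det ≠ 0) :
    Fib fun v => F (J *ᵥ v) := by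
  have hne : ∀ v : E n, v ≠ 0 → J *ᵥ v ≠ 0 := fun v hv h =>
    hv (Matrix.eq_zero_of_mulVec_eq_zero hJ h)
  have hc : Continuous fun v : E n => J *ᵥ v :=
    (Matrix.toLin' J).continuous_of_finiteDimensional
  refine ⟨hF.cont.comp hc.continuousOn fun v hv => hne v hv, fun v hv => hF.pos _ (hne v hv),
    fun c v => ?_⟩
  rw [Matrix.mulVec_smul, hF.hom]

theorem cont_w (hFCH : St_FCH) {F : E n → ℝ} (hF : Fib F) :
    Continuous fun v => chi (F v) :=
  hFCH.1.1.continuous.comp (hFCH.2.2.2 n F hF).1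

theorem low_w (hFCH : St_FCH) {F : E n → ℝ} (hF : Fib F) :
    ∃ c : ℝ, 0 < c ∧ ∀ v, c * ‖v‖ ^ 2 - 2 ≤ chi (F v) := by
  obtain ⟨c, C, hc, h⟩ := (hFCH.2.2.2 n F hF).2.2
  refine ⟨c, hc, fun v => ?_⟩
  have h1 := (h v).1
  have h2 := (hFCH.1.2.2.1 (F v)).1
  linarith

theorem int_mom (hFCH : St_FCH) {F : E n → ℝ} (hF : Fib F) (i j : Fin n) :
    Integrable fun v : E n => (Real.exp (-chi (F v)) : ℂ) * (v i * star (v j)) := by
  obtain ⟨c, hc, h⟩ := low_w hFCH hF
  have hw := cont_w hFCH hF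
  refine ((hFCH.2.1 n 2 c hc).const_mul (Real.exp 2)).mono' ?_ (Eventually.of_forall fun v => ?_)
  · refine Continuous.aestronglyMeasurable ?_
    exact (continuous_ofReal.comp (Real.continuous_exp.comp hw.neg)).mul
      ((continuous_apply i).mul (continuous_apply j).star)
  · have hi := norm_le_pi_norm v i
    have hj := norm_le_pi_norm v j
    have h0 := norm_nonneg v
    have e1 : Real.exp (-chi (F v)) ≤ Real.exp 2 * Real.exp (-(c * ‖v‖ ^ 2)) := by
      rw [← Real.exp_add]
      exact Real.exp_le_exp.mpr (by linarith [h v])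
    have e2 : ‖v i‖ * ‖v j‖ ≤ (1 + ‖v‖) ^ 2 := by
      have := mul_le_mul hi hj (norm_nonneg _) h0
      nlinarith
    rw [norm_mul, norm_mul, norm_star, Complex.norm_real, Real.norm_eq_abs,
      abs_of_pos (Real.exp_pos _)]
    calc Real.exp (-chi (F v)) * (‖v i‖ * ‖v j‖)
        ≤ Real.exp 2 * Real.exp (-(c * ‖v‖ ^ 2)) * (1 + ‖v‖) ^ 2 :=
          mul_le_mul e1 e2 (by positivity) (by positivity)
      _ = _ := by ring

theorem lin (hFCH : St_FCH) {F : E n → ℝ} (hF : Fib F) (J : Mat n) (hJ : J.det ≠ 0) :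
    normSq J.det • (J * gF (fun v => F (J *ᵥ v)) * Jᴴ) = gF F := by
  ext i j
  have hI := int_mom hFCH (fib_comp hF J hJ)
  have hw := cont_w hFCH hF
  have key := int_lin J hJ (fun w => (Real.exp (-chi (F w)) : ℂ) * (w i * star (w j)))
    ((continuous_ofReal.comp (Real.continuous_exp.comp hw.neg)).mul
      ((continuous_apply i).mul (continuous_apply j).star))
  have e : (J * gF (fun v => F (J *ᵥ v)) * Jᴴ) i j =
      ∫ v, (Real.exp (-chi (F (J *ᵥ v))) : ℂ) * ((J *ᵥ v) i * star ((J *ᵥ v) j)) := by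
    have e1 : ∀ v : E n, (Real.exp (-chi (F (J *ᵥ v))) : ℂ) * ((J *ᵥ v) i * star ((J *ᵥ v) j)) =
        ∑ l, ∑ k, J i k * ((Real.exp (-chi (F (J *ᵥ v))) : ℂ) * (v k * star (v l))) *
          star (J j l) := by
      intro v
      have a1 : (J *ᵥ v) i = ∑ k, J i k * v k := rfl
      have a2 : star ((J *ᵥ v) j) = ∑ l, star (J j l) * star (v l) := by
        have : (J *ᵥ v) j = ∑ k, J j k * v k := rfl
        rw [this, star_sum]
        exact Finset.sum_congr rfl fun l _ => star_mul' _ _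
      rw [a1, a2, Finset.sum_mul_sum, Finset.sum_comm, Finset.mul_sum]
      refine Finset.sum_congr rfl fun l _ => ?_
      rw [Finset.mul_sum]
      exact Finset.sum_congr rfl fun k _ => by ring
    rw [integral_congr_ae (Eventually.of_forall e1), integral_finsetSum _ fun l _ =>
      integrable_finsetSum _ fun k _ => ((hI k l).const_mul _).mul_const _, Matrix.mul_apply]
    refine Finset.sum_congr rfl fun l _ => ?_
    rw [integral_finsetSum _ fun k _ => ((hI k l).const_mul _).mul_const _, Matrix.mul_apply,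
      Finset.sum_mul]
    refine Finset.sum_congr rfl fun k _ => ?_
    rw [integral_mul_const, integral_const_mul]
    rfl
  rw [Matrix.smul_apply, e, Complex.real_smul]
  exact key

end X38G

theorem st_FG1 (hFCH : St_FCH) : St_FG1 := by
  intro n F hF
  refine ⟨?_, fun t ht => ?_, X38G.lin hFCH hF⟩
  · obtain ⟨c, hc, h⟩ := X38G.low_w hFCH hF
    exact (hFCH.2.2.1 n _ c 2 (X38G.cont_w hFCH hF) hc h).1
  · have hs : ((√t : ℝ) : ℂ) ≠ 0 := ofReal_ne_zero.mpr (Real.sqrt_pos.mpr ht).ne'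
    have hq : normSq ((√t : ℝ) : ℂ) = t := by
      rw [normSq_ofReal, Real.mul_self_sqrt ht.le]
    have hdet : (((√t : ℝ) : ℂ) • (1 : Mat n)).det = ((√t : ℝ) : ℂ) ^ n := by
      rw [Matrix.det_smul, Matrix.det_one, mul_one, Fintype.card_fin]
    have key := X38G.lin hFCH hF (((√t : ℝ) : ℂ) • (1 : Mat n))
      (by rw [hdet]; exact pow_ne_zero _ hs)
    have e : (fun v : E n => F ((((√t : ℝ) : ℂ) • (1 : Mat n)) *ᵥ v)) = fun v => t * F v := by
      funext v
      rw [Matrix.smul_mulVec, Matrix.one_mulVec, hF.hom, hq]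
    rw [e, hdet, map_pow, hq, Matrix.conjTranspose_smul, Matrix.conjTranspose_one,
      Matrix.smul_mul, Matrix.one_mul, Matrix.mul_smul, Matrix.mul_one, smul_smul] at key
    have e2 : star ((√t : ℝ) : ℂ) * ((√t : ℝ) : ℂ) = (t : ℂ) := by
      rw [star_def, conj_ofReal, ← ofReal_mul, Real.mul_self_sqrt ht.le]
    rw [e2, Complex.coe_smul, smul_smul, ← pow_succ] at key
    rw [← key, smul_smul, inv_mul_cancel₀ (pow_ne_zero _ ht.ne'), one_smul]

end Pool.Agent.Lib.PM
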