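import Pool.Agent.Lib.PM.Blue

/-! Project pm78: the moments depend smoothly on the parameter. -/

open scoped Classical Topology ContDiff Convolution
open Set MeasureTheory Complex Metric Filter

noncomputable section

namespace Pool.Agent.Lib.PM

open Pool.Agent.Lib.SV (E)
open Pool.Agent.Lib.HS32

namespace FG2

variable {n : ℕ}

theorem finrank_E : Module.finrank ℝ (E n) = 2 * n := by
  simp [Module.finrank_pi_fintype, Complex.finrank_real_complex, mul_comm]

/-- Polar coordinates. -/
theorem polar [Nonempty (Fin n)] {f : E n → ℂ} (hf : Integrable f) :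
    ∫ v, f v = ∫ u : sphere (0 : E n) 1, (∫ r in Ioi (0 : ℝ), r ^ (2 * n - 1) • f (r • (u : E n)))
      ∂(volume : Measure (E n)).toSphere := by
  have hm := (volume : Measure (E n)).measurePreserving_homeomorphUnitSphereProd
  have he := (homeomorphUnitSphereProd (E n)).measurableEmbedding
  have h0 := (measurableSet_singleton (0 : E n)).compl
  set g : sphere (0 : E n) 1 × Ioi (0 : ℝ) → ℂ := fun p => f ((p.2 : ℝ) • (p.1 : E n)) with hg
  have e : g ∘ homeomorphUnitSphereProd (E n) = fun x : ({0}ᶜ : Set (E n)) => f x := by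
    funext x
    rw [Function.comp_apply, hg]
    beta_reduce
    rw [← homeomorphUnitSphereProd_symm_apply_coe, Homeomorph.symm_apply_apply]
  have hi := (hm.integrable_comp_emb he (g := g)).1 (by
    rw [e]; exact (integrableOn_iff_comap_subtypeVal h0).1 hf.integrableOn)
  have h1 := hm.integral_comp he g
  rw [integral_prod _ hi] at h1
  have h2 := integral_subtype_comap (μ := volume) h0 f
  rw [restrict_compl_singleton] at h2
  rw [← h2, ← e]
  refine h1.trans (integral_congr_ae (.of_forall fun u => ?_))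
  simp only [Measure.volumeIoiPow, ENNReal.ofReal, hg, finrank_E]
  rw [integral_withDensity_eq_integral_smul (measurable_subtype_coe.pow_const _).real_toNNReal,
    integral_subtype_comap measurableSet_Ioi
      fun a : ℝ => Real.toNNReal (a ^ (2 * n - 1)) • f (a • (u : E n))]
  refine setIntegral_congr_fun measurableSet_Ioi fun x hx => ?_
  rw [NNReal.smul_def, Real.coe_toNNReal _ (pow_nonneg hx.out.le _)]

theorem radial (k : ℝ → ℝ) (m : ℕ) {a : ℝ} (ha : 0 < a) :
    ∫ r in Ioi (0 : ℝ), r ^ (2 * m + 1) * k (r ^ 2 * a) =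
      (a ^ (m + 1))⁻¹ * ∫ r in Ioi (0 : ℝ), r ^ (2 * m + 1) * k (r ^ 2) := by
  have hs := Real.sqrt_pos.2 ha
  have h1 := integral_comp_mul_left_Ioi (fun r => r ^ (2 * m + 1) * k (r ^ 2)) 0 hs
  simp only [mul_pow, Real.sq_sqrt ha.le, mul_assoc, mul_zero, smul_eq_mul] at h1
  rw [integral_const_mul] at h1
  have h2 : a ^ (m + 1) = √a * √a ^ (2 * m + 1) := by
    rw [← pow_succ', show 2 * m + 1 + 1 = 2 * (m + 1) by ring, pow_mul, Real.sq_sqrt ha.le]
  simp only [mul_comm _ a]
  rw [h2, mul_inv, mul_right_comm, ← h1]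
  field_simp

theorem gF_eq (hC : St_FCH) {F : E n → ℝ} (h : Fib F) (i j : Fin n) :
    gF F i j = ((∫ r in Ioi (0 : ℝ), r ^ (2 * n + 1) * Real.exp (-chi (r ^ 2)) : ℝ) : ℂ) *
      ∫ u : sphere (0 : E n) 1, (((F u ^ (n + 1))⁻¹ : ℝ) : ℂ) * ((u : E n) i * star ((u : E n) j))
        ∂(volume : Measure (E n)).toSphere := by
  have : Nonempty (Fin n) := ⟨i⟩
  obtain ⟨⟨c1, -, c2, -⟩, c3, -, c4⟩ := hC
  obtain ⟨f1, -, c, C, hc, f2⟩ := c4 n F h
  have c5 := c1.continuous
  have hi : Integrable fun v : E n => (Real.exp (-chi (F v)) : ℂ) * (v i * star (v j)) := by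
    refine ((c3 n 2 c hc).const_mul (Real.exp 2)).mono'
      (Continuous.aestronglyMeasurable (by fun_prop)) (.of_forall fun v => ?_)
    rw [norm_mul, norm_mul, norm_star, norm_real, Real.norm_of_nonneg (Real.exp_pos _).le,
      mul_left_comm (Real.exp 2), ← Real.exp_add, mul_comm, sq]
    refine mul_le_mul (mul_le_mul ?_ ?_ (norm_nonneg _) (by positivity)) (Real.exp_le_exp.2 ?_)
      (Real.exp_pos _).le (by positivity)
    · linarith [norm_le_pi_norm v i]
    · linarith [norm_le_pi_norm v j]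
    · linarith [(f2 v).1, (c2 (F v)).1]
  rw [gF, gm, Matrix.of_apply, polar hi, ← integral_const_mul]
  refine integral_congr_ae (.of_forall fun u => ?_)
  beta_reduce
  rw [← mul_assoc, ← ofReal_mul, mul_comm _ (_ ^ _)⁻¹,
    ← radial (fun r => Real.exp (-chi r)) n (h.pos u (ne_zero_of_mem_unit_sphere u)),
    ← integral_complex_ofReal, ← integral_mul_const]
  refine setIntegral_congr_fun measurableSet_Ioi fun r _ => ?_
  have e : 2 * n + 1 = 2 * n - 1 + 2 := by have := i.pos; omega
  rw [← coe_smul r, h.hom, normSq_ofReal, e, pow_add, sq, Pi.smul_apply, Pi.smul_apply, real_smul,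
    smul_eq_mul, smul_eq_mul, star_mul', star_def, conj_ofReal]
  push_cast
  ring

end FG2

theorem st_FG2 (hC : St_FCH) : St_FG2 := by
  intro n F z h i j
  obtain ⟨U, h1, hU, hz⟩ := _root_.eventually_nhds_iff.1 h
  let b₁ : ContDiffBump (0 : E n) := ⟨1, 2, one_pos, one_lt_two⟩
  let b₂ : ContDiffBump (0 : E n) := ⟨1 / 4, 1 / 2, by norm_num, by norm_num⟩
  let g : E n × E n → ℂ := fun p =>
    ((b₁ p.2 - b₂ p.2 : ℝ) : ℂ) * ((((F p.1 p.2 ^ (n + 1))⁻¹ : ℝ) : ℂ) * (p.2 i * star (p.2 j)))
  have hg : ∀ w ∈ U, ∀ v, ContDiffAt ℝ ∞ g (w, v) := fun w hw v => by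
    by_cases hv : v = 0
    · refine (contDiffAt_const (c := 0)).congr_of_eventuallyEq ?_
      have : ∀ᶠ p : E n × E n in 𝓝 (w, v), p.2 ∈ ball (0 : E n) (1 / 4) :=
        continuous_snd.continuousAt.eventually (by rw [hv]; exact ball_mem_nhds _ (by norm_num))
      filter_upwards [this] with p hp
      simp only [g]
      rw [b₂.one_of_mem_closedBall (ball_subset_closedBall hp), b₁.one_of_mem_closedBall
        (closedBall_subset_closedBall (show (1 / 4 : ℝ) ≤ 1 by norm_num)
          (ball_subset_closedBall hp)), sub_self, ofReal_zero, zero_mul]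
    · have s1 : ∀ k, ContDiff ℝ ∞ fun p : E n × E n => p.2 k := fun k =>
        (contDiff_apply ℝ ℂ k).comp contDiff_snd
      exact (ofRealCLM.contDiff.comp
        ((b₁.contDiff.sub b₂.contDiff).comp contDiff_snd)).contDiffAt.mul
        ((ofRealCLM.contDiff.contDiffAt.comp _ ((((h1 w hw).sm v hv).pow (n + 1)).inv
          (pow_pos ((h1 w hw).fib.pos v hv) _).ne')).mul
          ((s1 i).mul (conjCLE.contDiff.comp (s1 j))).contDiffAt)
  have he : MeasurableEmbedding ((↑) : sphere (0 : E n) 1 → E n) :=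
    MeasurableEmbedding.subtype_coe isClosed_sphere.measurableSet
  have h2 := contDiffOn_convolution_right_with_param_comp
    (μ := (volume : Measure (E n)).toSphere.map (↑)) (n := ⊤)
    (ContinuousLinearMap.mul ℝ ℂ) (v := fun _ : E n => (0 : E n)) contDiffOn_const
    (f := fun _ => (1 : ℂ)) (g := fun x y => g (x, -y)) (k := closedBall 0 2) hU
    (isCompact_closedBall _ _) (fun x y _ hy => by
      rw [mem_closedBall_zero_iff, not_le, ← norm_neg, ← dist_zero_right] at hy
      simp only [g]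
      rw [b₁.zero_of_le_dist hy.le, b₂.zero_of_le_dist
        ((show (1 / 2 : ℝ) ≤ 2 by norm_num).trans hy.le), sub_self, ofReal_zero, zero_mul])
    (locallyIntegrable_const _) fun p hp => ContDiffAt.contDiffWithinAt
      (ContDiffAt.comp (f := fun p : E n × E n => (p.1, -p.2)) p (hg p.1 hp.1 (-p.2))
        (contDiffAt_fst.prodMk contDiffAt_snd.neg))
  refine (contDiffAt_const.mul (h2.contDiffAt (hU.mem_nhds hz))).congr_of_eventuallyEq
    ((hU.eventually_mem hz).mono fun w hw =>
      (FG2.gF_eq hC (h1 w hw).fib i j).trans (congrArg (HMul.hMul _) ?_))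
  rw [convolution_def, he.integral_map]
  refine integral_congr_ae (.of_forall fun u => ?_)
  have hu : dist (u : E n) 0 = 1 := u.2
  simp only [g, zero_sub, neg_neg, ContinuousLinearMap.mul_apply', one_mul]
  rw [b₁.one_of_mem_closedBall hu.le, b₂.zero_of_le_dist
    ((show (1 / 2 : ℝ) ≤ 1 by norm_num).trans hu.ge), sub_zero, ofReal_one, one_mul]

end Pool.Agent.Lib.PM
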