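import Pool.Agent.Lib.PM.Blue
import Pool.Agent.Lib.PM81.Hor
import Pool.Agent.Lib.HS32.EKit

/-! Project pm78: the theorem of Hörmander on the whole space, with constant one. -/

open MeasureTheory Complex

namespace Pool.Agent.Lib.PM

open Pool.Agent.Lib.SV (E levE d2)
open Pool.Agent.Lib.HS32

theorem dbar_eq {n : ℕ} (G : E n → ℂ) (z v : E n) :
    fderiv ℝ G z v + I * fderiv ℝ G z (I • v) = 2 * ∑ i, star (v i) * dzb i G z := by
  rw [fderiv_eq_sum, fderiv_eq_sum, Finset.mul_sum, Finset.mul_sum, ← Finset.sum_add_distrib]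
  refine Finset.sum_congr rfl fun j _ => ?_
  rw [Pi.smul_apply, smul_eq_mul, star_mul', star_def, conj_I]
  linear_combination (dz j G z * v j - dzb j G z * (starRingEnd ℂ) (v j)) * I_mul_I

theorem st_FHO : St_FHO := by
  intro n φ b G hφ hG hb h hi hj
  have e : ∀ y v, levE φ y v = 4 * HW.levi φ y v := fun y v => by
    rw [levE, d2, d2, HW.levi]; ring
  obtain ⟨f, f1, f2⟩ := PM81.hor (h := b) hφ hG (fun y => (h y).1)
    (fun y v => by rw [e]; linarith [((h y).2 v).1])
    (fun y v => by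
      rw [e, dbar_eq, norm_mul, mul_pow, Complex.norm_ofNat, ← normSq_eq_norm_sq]
      linarith [((h y).2 v).2]) hi
    fun j => by simpa only [SV.dzb, PM81.dd_id', ← normSq_eq_norm_sq, dzb] using hj j
  exact ⟨f, f1, by simpa only [← normSq_eq_norm_sq] using f2⟩

end Pool.Agent.Lib.PM
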