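import Pool.Agent.Lib.PM.Blue
import Pool.Agent.Lib.HS32.MKit
import Pool.Agent.Lib.HS32.B_TR
import Pool.Agent.Lib.HS32.B_CHN
import Pool.Agent.Lib.HS32.B_HOL

/-! The Hermitian metric given by the second moments of a Finsler metric. -/

open scoped Classical Topology ContDiff ComplexOrder Matrix Manifold ENNReal
open Set MeasureTheory Complex Metric Filter

noncomputable section

namespace Pool.Agent.Lib.PM

open Pool.Agent.Lib.SV (E Pluri)
open Pool.Agent.Lib.HS32 Pool.Agent.Lib.GH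
open Pool.Agent.Lib.HS32.Mf

namespace X44

variable {n : ℕ}

theorem levi2_congr {φ ψ : E n × E n → ℝ} {p : E n × E n} (e : φ =ᶠ[𝓝 p] ψ) (w : E n × E n) :
    levi2 φ p w = levi2 ψ p w := by
  have h : ∀ u, (fun q => fderiv ℝ φ q u) =ᶠ[𝓝 p] fun q => fderiv ℝ ψ q u := fun u =>
    (e.fderiv (𝕜 := ℝ)).mono fun q hq => by simp only [hq]
  simp only [levi2, (h _).fderiv_eq]

theorem lap1_congr {f g : ℂ → ℝ} (e : f =ᶠ[𝓝 0] g) : lap1 f = lap1 g := by
  have h1 : (fun s : ℝ => f s) =ᶠ[𝓝 0] fun s : ℝ => g s :=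
    (continuous_ofReal.tendsto' 0 0 (by simp)).eventually e
  have h2 : (fun s : ℝ => f (s * I)) =ᶠ[𝓝 0] fun s : ℝ => g (s * I) :=
    ((continuous_ofReal.mul continuous_const).tendsto' 0 0 (by simp)).eventually e
  rw [lap1, lap1, h1.deriv.deriv_eq, h2.deriv.deriv_eq]

theorem inv_rsmul {A : Mat n} (hA : A.det ≠ 0) {c : ℝ} (hc : c ≠ 0) :
    (c • A)⁻¹ = c⁻¹ • A⁻¹ :=
  Matrix.inv_eq_left_inv (by
    rw [smul_mul_smul_comm, inv_mul_cancel₀ hc, Matrix.nonsing_inv_mul A (IsUnit.mk0 _ hA),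
      one_smul])

theorem inv_conj {G G' J : Mat n} {N : ℝ} (hG : G.det ≠ 0) (hJ : J.det ≠ 0)
    (h : N • (J * G' * Jᴴ) = G) : G'⁻¹ = N • (Jᴴ * G⁻¹ * J) := by
  refine Matrix.inv_eq_right_inv ?_
  have h1 : J * (G' * N • (Jᴴ * G⁻¹ * J)) = J * 1 := by
    have h2 := Matrix.mul_nonsing_inv G (IsUnit.mk0 _ hG)
    calc _ = N • (J * G' * Jᴴ) * G⁻¹ * J := by
          simp only [Matrix.mul_smul, Matrix.smul_mul, Matrix.mul_assoc]
      _ = _ := by rw [h, h2, Matrix.one_mul, Matrix.mul_one]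
  have h3 := congrArg (J⁻¹ * ·) h1
  simpa only [← Matrix.mul_assoc, Matrix.nonsing_inv_mul J (IsUnit.mk0 _ hJ), Matrix.one_mul]
    using h3

theorem nq_rsmul (c : ℝ) (A : Mat n) (v : E n) : nq (c • A) v = c * nq A v := by
  simp only [nq, Matrix.smul_mulVec, dotProduct_smul, smul_re, smul_eq_mul]

theorem fibAt_mul {F : E n → E n → ℝ} {u : E n → ℝ} {z : E n} (h : FibAt F z)
    (hu : ContDiffAt ℝ ∞ u z) : FibAt (fun w v => Real.exp (u w) * F w v) z where
  fib := ⟨continuousOn_const.mul h.fib.cont, fun v hv => mul_pos (Real.exp_pos _) (h.fib.pos v hv),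
    fun c v => by rw [h.fib.hom]; ring⟩
  sm := fun v hv => (ContDiffAt.comp (g := u) (z, v) hu contDiffAt_fst).exp.mul (h.sm v hv)

/-- The curvature of the inverse of the matrix of moments is not positive. -/
theorem rm_le (hFG1 : St_FG1) (hFG2 : St_FG2) (hFPH : St_FPH) (hFB1 : St_FB1) (hFB2 : St_FB2)
    (hFCV : St_FCV) (hFCH : St_FCH) {F : E n → E n → ℝ} {z : E n} (hF : ∀ᶠ w in 𝓝 z, FibAt F w)
    (hp : ∀ v, v ≠ 0 → ∀ p, 0 ≤ levi2 (fun q => Real.log (F q.1 q.2)) (z, v) p) (a v : E n) :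
    (rm (fun w => (gF (F w))⁻¹) z a a v v).re ≤ 0 := by
  have hW := hFPH n F z hF hp
  obtain ⟨c', hc⟩ := hFB1 n _ z a ((gF (F z))⁻¹ *ᵥ v) hW
  have h1 := (hFCV n _ z (hFG2 n F z hF) (hF.mono fun w hw => (hFG1 n _ hw.fib).1)).1 a v c'
  have h2 := hFB2 n _ z a ((gF (F z))⁻¹ *ᵥ v) c' hW
  have h3 : Tendsto (fun t : ℂ => z + t • a) (𝓝 0) (𝓝 z) :=
    Continuous.tendsto' (by fun_prop) 0 z (by simp)
  rw [lap1_congr (g := fun t => nq (gF (F (z + t • a))) ((gF (F z))⁻¹ *ᵥ v + star t • c'))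
    ((h3.eventually hF).mono fun t ht => ?_)] at h2
  · linarith
  obtain ⟨k1, -, c, C, k2, k3⟩ := hFCH.2.2.2 n _ ht.fib
  exact ((hFCH.2.2.1 n _ c 2 (hFCH.1.1.continuous.comp k1) k2 fun u =>
    (sub_le_sub_right (k3 u).1 2).trans (hFCH.1.2.2.1 _).1).2 _).2.symm

end X44

open X44 in
theorem st_FMF (hFG1 : St_FG1) (hFG2 : St_FG2) (hFPH : St_FPH) (hFB1 : St_FB1) (hFB2 : St_FB2)
    (hFCV : St_FCV) (hFCH : St_FCH) : St_FMF := by
  intro n M g F a hg hF hP
  have gp : M.All fun e z => (gF (F e z)).PosDef := fun e he z hz =>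
    (hFG1 n _ (hF.loc e he z hz).fib).1
  have dp : M.All fun e z => 0 < (g e z).det.re := fun e he z hz => pd_det_re (hg.pos e he z hz)
  have hp : M.All fun e z => (((g e z).det.re)⁻¹ • (gF (F e z))⁻¹).PosDef := fun e he z hz =>
    pd_rsmul (gp e he z hz).inv (inv_pos.2 (dp e he z hz))
  have Ls : M.All fun e z => ContDiffAt ℝ ∞ (fun w => Real.log (g e w).det.re) z :=
    fun e he z hz => (cd_re (hg.sm e he z hz).det).log (dp e he z hz).ne'
  refine ⟨fun e z => ((g e z).det.re)⁻¹ • (gF (F e z))⁻¹,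
    ⟨⟨⟨fun e he z hz => ?_, fun e he e' he' x hx hx' => ?_⟩, fun e he z hz => (hp e he z hz).1⟩, hp⟩,
    fun x => ?_⟩
  · exact SmM.rsmul ((cd_re (hg.sm e he z hz).det).inv (dp e he z hz).ne')
      ((hFG2 n _ z (hF.loc.ev he hz)).inv (pd_det_ne (gp e he z hz)))
  · have hJ := ((stTR (stCHN stHOL) n M).2.1 e he e' he' x hx hx').2.1
    have h1 := (hFG1 n _ (hF.loc.at he hx).fib).2.2 _ hJ
    rw [← funext (hF.cmp e he e' he' x hx hx')] at h1
    have h2 : (g e' (e' x)).det.re = normSq (M.J e e' x).det * (g e (e x)).det.re := by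
      rw [hg.cmp e he e' he' x hx hx', Matrix.det_mul, Matrix.det_mul, Matrix.det_conjTranspose,
        mul_right_comm, ← re_ofReal_mul, normSq_eq_conj_mul_self]
      rfl
    have h3 : normSq (M.J e e' x).det ≠ 0 := fun h => hJ (normSq_eq_zero.1 h)
    show _ • (gF (F e' (e' x)))⁻¹ = _
    rw [inv_conj (pd_det_ne (gp.at he hx)) hJ h1, h2, smul_smul, Matrix.mul_smul, Matrix.smul_mul,
      mul_inv, mul_right_comm, inv_mul_cancel₀ h3, one_mul]
  · obtain ⟨e, he, hx, h⟩ := hP x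
    refine ⟨e, he, hx, fun b v => ?_⟩
    have hz := e.map_source hx
    set z := e x
    set L : E n → ℝ := fun w => Real.log (g e w).det.re with hL
    have f0 := hF.loc.ev he hz
    have f1 : ∀ᶠ w in 𝓝 z, FibAt (fun w v => Real.exp (a * L w) * F e w v) w :=
      (f0.and (Ls.ev he hz)).mono fun w hw => fibAt_mul hw.1 (contDiffAt_const.mul hw.2)
    have f2 := rm_le hFG1 hFG2 hFPH hFB1 hFB2 hFCV hFCH f1 (fun u hu p => by
      refine (h u hu p).trans_eq (levi2_congr ?_ p)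
      filter_upwards [(continuous_fst.tendsto (z, u)).eventually f0,
        (continuous_snd.tendsto (z, u)).eventually_ne hu] with q h1 h2
      rw [Real.log_mul (Real.exp_pos _).ne' (h1.fib.pos _ h2).ne', Real.log_exp, add_comm]) b v
    have f3 := f1.mono fun w hw => (hFG1 n _ hw.fib).1
    set β : ℝ := 1 + a * (n + 1) with hβ
    have f4 := ((hFCV n _ z ((hFG2 n _ z f1).inv (pd_det_ne f3.self_of_nhds))
      (f3.mono fun w hw => hw.inv)).2 (fun w => -β * L w)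
      (contDiffAt_const.mul (Ls e he z hz))).1 b v
    have f5 : (fun w => ((g e w).det.re)⁻¹ • (gF (F e w))⁻¹) =ᶠ[𝓝 z] fun w =>
        Real.exp (-β * L w) • (gF fun v => Real.exp (a * L w) * F e w v)⁻¹ := by
      filter_upwards [f0, gp.ev he hz, dp.ev he hz] with w h1 h2 h3
      rw [(hFG1 n _ h1.fib).2.1 _ (Real.exp_pos _), inv_rsmul (pd_det_ne h2) (by positivity),
        inv_inv, smul_smul, ← Real.exp_nat_mul, ← Real.exp_add, ← Real.exp_log h3, ← Real.exp_neg]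
      congr 2
      simp only [hβ, hL]
      push_cast
      ring
    have f6 : hess (fun w => ((-β * L w : ℝ) : ℂ)) z = (-β) • hess (ld (g e)) z := by
      simp only [ofReal_mul]
      exact hess_const_mul _ (cd_ofReal (Ls e he z hz))
    show (rm (fun w => _) z b b v v).re ≤ β * _ * nq (_ • _) v
    rw [rm_congr f5, f4, f6, f5.eq_of_nhds, nq_rsmul, nq_rsmul]
    nlinarith [mul_nonneg (Real.exp_pos (-β * L z)).le (neg_nonneg.2 f2)]

end Pool.Agent.Lib.PM
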