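import Pool.Agent.Lib.PM.Blue

/-! The weight attached to a Finsler function. -/

open scoped Classical Topology ContDiff
open Set Complex Metric Filter

noncomputable section

namespace Pool.Agent.Lib.PM

open Pool.Agent.Lib.SV (E)
open Pool.Agent.Lib.HS32

namespace FPH30

theorem two_le : (2 : WithTop ℕ∞) ≤ ∞ := WithTop.coe_le_coe.mpr le_top

section gen

variable {V : Type} [NormedAddCommGroup V] [NormedSpace ℝ V]

theorem ev_diff {u : V → ℝ} {p : V} (hu : ContDiffAt ℝ 2 u p) :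
    ∀ᶠ q in 𝓝 p, DifferentiableAt ℝ u q :=
  (hu.eventually (by simp)).mono fun _ h => h.differentiableAt (by simp)

theorem diff2 {u : V → ℝ} {p : V} (hu : ContDiffAt ℝ 2 u p) :
    HasFDerivAt (fderiv ℝ u) (fderiv ℝ (fderiv ℝ u) p) p :=
  ((hu.fderiv_right (m := 1) (by norm_num)).differentiableAt (by simp)).hasFDerivAt

theorem chain {u f : V → ℝ} {p : V} {g g1 : ℝ → ℝ} {g2 : ℝ} (hu : ContDiffAt ℝ 2 u p)
    (hg : ∀ x, HasDerivAt g (g1 x) x) (hg1 : HasDerivAt g1 g2 (u p))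
    (hf : f =ᶠ[𝓝 p] fun q => g (u q)) :
    fderiv ℝ f p = g1 (u p) • fderiv ℝ u p ∧ DifferentiableAt ℝ (fderiv ℝ f) p ∧
      ∀ x y, fderiv ℝ (fderiv ℝ f) p x y =
        g1 (u p) * fderiv ℝ (fderiv ℝ u) p x y + g2 * (fderiv ℝ u p x * fderiv ℝ u p y) := by
  have h1 : fderiv ℝ f =ᶠ[𝓝 p] fun q => g1 (u q) • fderiv ℝ u q := by
    filter_upwards [hf.fderiv (𝕜 := ℝ), ev_diff hu] with q a b
    rw [a]
    exact ((hg (u q)).comp_hasFDerivAt q b.hasFDerivAt).fderiv
  have h2 := ((hg1.comp_hasFDerivAt p (ev_diff hu).self_of_nhds.hasFDerivAt).smul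
    (diff2 hu)).congr_of_eventuallyEq h1
  refine ⟨h1.eq_of_nhds, h2.differentiableAt, fun x y => ?_⟩
  rw [h2.fderiv]
  simp only [add_apply, smul_apply,
    ContinuousLinearMap.smulRight_apply, smul_eq_mul, Function.comp_apply, mul_assoc]

theorem scale {u f : V → ℝ} {p : V} {a C : ℝ} (L : V →L[ℝ] V) (ha : 0 ≤ a)
    (hu : ContDiffAt ℝ 2 u (L p)) (hf : f =ᶠ[𝓝 p] fun q => a * u (L q))
    (h1 : ‖fderiv ℝ u (L p)‖ ≤ C) (h2 : ‖fderiv ℝ (fderiv ℝ u) (L p)‖ ≤ C) :
    ‖fderiv ℝ f p‖ ≤ a * (C * ‖L‖) ∧ ‖fderiv ℝ (fderiv ℝ f) p‖ ≤ a * (C * ‖L‖ ^ 2) := by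
  have hC : 0 ≤ C := (norm_nonneg _).trans h1
  have e1 : fderiv ℝ f =ᶠ[𝓝 p] fun q => a • (fderiv ℝ u (L q)).comp L := by
    filter_upwards [hf.fderiv (𝕜 := ℝ), L.continuous.continuousAt.eventually (ev_diff hu)]
      with q b c
    rw [b]
    exact ((c.hasFDerivAt.comp q L.hasFDerivAt).const_mul a).fderiv
  have e2 := ((((diff2 hu).comp p L.hasFDerivAt).clm_comp (hasFDerivAt_const L p)).const_smul
    a).congr_of_eventuallyEq e1
  constructor
  · rw [e1.eq_of_nhds, norm_smul, Real.norm_of_nonneg ha]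
    exact mul_le_mul_of_nonneg_left ((ContinuousLinearMap.opNorm_comp_le _ _).trans
      (mul_le_mul_of_nonneg_right h1 (norm_nonneg _))) ha
  · refine ContinuousLinearMap.opNorm_le_bound₂ _ (by positivity) fun x y => ?_
    have e3 : fderiv ℝ (fderiv ℝ f) p x y = a * fderiv ℝ (fderiv ℝ u) (L p) (L x) (L y) := by
      rw [e2.fderiv]
      simp
    have h3 := mul_le_mul (mul_le_mul h2 (L.le_opNorm x) (norm_nonneg _) hC) (L.le_opNorm y)
      (norm_nonneg _) (by positivity)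
    rw [e3, norm_mul, Real.norm_of_nonneg ha]
    exact (mul_le_mul_of_nonneg_left (((fderiv ℝ (fderiv ℝ u) (L p)).le_opNorm₂ _ _).trans h3)
      ha).trans_eq (by ring)

theorem zero {f : V → ℝ} {p : V} (hf : f =ᶠ[𝓝 p] fun _ => 0) :
    fderiv ℝ f p = 0 ∧ DifferentiableAt ℝ (fderiv ℝ f) p ∧ fderiv ℝ (fderiv ℝ f) p = 0 := by
  have h1 : fderiv ℝ f =ᶠ[𝓝 p] fun _ => 0 :=
    (hf.fderiv (𝕜 := ℝ)).trans (.of_forall fun q => fderiv_const_apply 0)
  have h2 := (hasFDerivAt_const (𝕜 := ℝ) (0 : V →L[ℝ] ℝ) p).congr_of_eventuallyEq h1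
  exact ⟨h1.eq_of_nhds, h2.differentiableAt, h2.fderiv⟩

end gen

variable {n : ℕ}

theorem levi_eq {φ : E n × E n → ℝ} {p : E n × E n} (h : DifferentiableAt ℝ (fderiv ℝ φ) p)
    (w : E n × E n) : levi2 φ p w = (fderiv ℝ (fderiv ℝ φ) p w w +
      fderiv ℝ (fderiv ℝ φ) p (I • w) (I • w)) / 4 := by
  rw [levi2, fderiv_clm_apply h (differentiableAt_const _),
    fderiv_clm_apply h (differentiableAt_const _)]
  simp

/-- Scaling along the fibre. -/
def sL (n : ℕ) (t : ℝ) : E n × E n →L[ℝ] E n × E n :=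
  (ContinuousLinearMap.id ℝ (E n)).prodMap (t • ContinuousLinearMap.id ℝ (E n))

theorem sL_apply (t : ℝ) (q : E n × E n) : sL n t q = (q.1, t • q.2) := rfl

theorem sL_le {t : ℝ} (ht : 0 ≤ t) : ‖sL n t‖ ≤ 1 + t := by
  refine ContinuousLinearMap.opNorm_le_bound _ (by positivity) fun q => ?_
  have h1 := norm_fst_le q
  have h2 := mul_le_mul_of_nonneg_left (norm_snd_le q) ht
  have h3 := mul_nonneg ht (norm_nonneg q)
  rw [sL_apply, Prod.norm_mk, norm_smul, Real.norm_of_nonneg ht]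
  exact max_le (by linarith) (by linarith [norm_nonneg q])

theorem hom_real {F : E n → ℝ} (h : Fib F) (t : ℝ) (v : E n) : F (t • v) = t ^ 2 * F v := by
  have := h.hom t v
  rwa [normSq_ofReal, coe_smul, ← sq] at this

theorem bounds {F : E n → E n → ℝ} {z : E n} (h : ∀ᶠ w in 𝓝 z, FibAt F w) :
    ∃ r c C : ℝ, 0 < r ∧ 0 < c ∧ 0 ≤ C ∧ ∀ w ∈ ball z r, FibAt F w ∧ ∀ v,
      c * ‖v‖ ^ 2 ≤ F w v ∧ F w v ≤ C * ‖v‖ ^ 2 ∧ (v ≠ 0 →
        ‖fderiv ℝ (fun q : E n × E n => F q.1 q.2) (w, v)‖ ≤ C * (1 + ‖v‖) ^ 2 ∧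
        ‖fderiv ℝ (fderiv ℝ fun q : E n × E n => F q.1 q.2) (w, v)‖ ≤ C * (1 + ‖v‖) ^ 2) := by
  obtain ⟨r, hr, hb⟩ := nhds_basis_closedBall.eventually_iff.mp h
  have hK : IsCompact (closedBall z r ×ˢ sphere (0 : E n) 1) :=
    (isCompact_closedBall z r).prod (isCompact_sphere 0 1)
  have hs : ∀ q ∈ closedBall z r ×ˢ sphere (0 : E n) 1,
      ContDiffAt ℝ 2 (fun q : E n × E n => F q.1 q.2) q := fun q hq =>
    ((hb hq.1).sm q.2 (ne_zero_of_mem_sphere one_ne_zero ⟨q.2, hq.2⟩)).of_le two_le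
  have c0 : ContinuousOn (fun q : E n × E n => F q.1 q.2) (closedBall z r ×ˢ sphere 0 1) :=
    fun q hq => (hs q hq).continuousAt.continuousWithinAt
  obtain ⟨c, hc, hc'⟩ := hK.exists_forall_le' c0 (a := 0) fun q hq =>
    (hb hq.1).fib.pos _ (ne_zero_of_mem_sphere one_ne_zero ⟨q.2, hq.2⟩)
  obtain ⟨C0, h0⟩ := hK.exists_bound_of_continuousOn c0
  obtain ⟨C1, h1⟩ := hK.exists_bound_of_continuousOn fun q hq =>
    (diff2 (hs q hq)).continuousAt.continuousWithinAt
  obtain ⟨C2, h2⟩ := hK.exists_bound_of_continuousOn fun q hq =>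
    (((hs q hq).fderiv_right (m := 1) (by norm_num)).fderiv_right (m := 0)
      (by norm_num)).continuousAt.continuousWithinAt
  refine ⟨r, c, |C0| + |C1| + |C2|, hr, hc, by positivity, fun w hw =>
    ⟨hb (ball_subset_closedBall hw), fun v => ?_⟩⟩
  have hF := (hb (ball_subset_closedBall hw)).fib
  by_cases hv : v = 0
  · have := hom_real hF 0 0
    simp only [hv, norm_zero, ne_eq, not_true_eq_false, false_imp_iff, and_true]
    rw [zero_smul] at this
    constructor <;> linarith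
  have ht : 0 < ‖v‖ := norm_pos_iff.mpr hv
  have hq : (w, ‖v‖⁻¹ • v) ∈ closedBall z r ×ˢ sphere (0 : E n) 1 :=
    ⟨ball_subset_closedBall hw, by
      rw [mem_sphere_zero_iff_norm, norm_smul, norm_inv, norm_norm, inv_mul_cancel₀ ht.ne']⟩
  have e : ∀ {G : E n → ℝ}, Fib G → ∀ x, G x = ‖v‖ ^ 2 * G (‖v‖⁻¹ • x) := fun hG x => by
    rw [hom_real hG, ← mul_assoc, ← mul_pow, mul_inv_cancel₀ ht.ne', one_pow, one_mul]
  have a0 := le_abs_self C0
  have a1 := le_abs_self C1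
  have a2 := le_abs_self C2
  have b0 := abs_nonneg C0
  have b1 := abs_nonneg C1
  have b2 := abs_nonneg C2
  refine ⟨?_, ?_, fun _ => ?_⟩
  · rw [e hF, mul_comm]
    exact mul_le_mul_of_nonneg_left (hc' _ hq) (sq_nonneg _)
  · rw [e hF, mul_comm]
    exact mul_le_mul_of_nonneg_right (((le_abs_self _).trans (h0 _ hq)).trans (by linarith))
      (sq_nonneg _)
  · have hsc := scale (f := fun q : E n × E n => F q.1 q.2) (p := (w, v))
      (C := |C0| + |C1| + |C2|) (sL n ‖v‖⁻¹) (sq_nonneg ‖v‖) (hs _ hq)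
      (mem_of_superset ((isOpen_ball.preimage continuous_fst).mem_nhds hw) fun q hq =>
        e (hb (ball_subset_closedBall hq)).fib q.2)
      ((h1 _ hq).trans (by linarith)) ((h2 _ hq).trans (by linarith))
    have hL : ‖v‖ * ‖sL n ‖v‖⁻¹‖ ≤ 1 + ‖v‖ :=
      (mul_le_mul_of_nonneg_left (sL_le (inv_nonneg.mpr ht.le)) ht.le).trans_eq (by
        rw [mul_add, mul_one, mul_inv_cancel₀ ht.ne', add_comm])
    have hL0 := mul_nonneg ht.le (norm_nonneg (sL n ‖v‖⁻¹))
    have hC : 0 ≤ |C0| + |C1| + |C2| := by positivity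
    refine ⟨hsc.1.trans ?_, hsc.2.trans ?_⟩
    · rw [mul_left_comm, sq, sq, mul_assoc]
      exact mul_le_mul_of_nonneg_left (mul_le_mul (by linarith) hL hL0 (by linarith)) hC
    · rw [mul_left_comm, ← mul_pow]
      exact mul_le_mul_of_nonneg_left (pow_le_pow_left₀ hL0 hL 2) hC

end FPH30

open FPH30 in
theorem st_FPH (hFCH : St_FCH) : St_FPH := by
  intro n F z h hp
  obtain ⟨⟨k0, k1, k2, k3, D, k4⟩, -⟩ := hFCH
  have d1 : ∀ x, HasDerivAt chi (deriv chi x) x := fun x =>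
    (k0.differentiable (by simp) x).hasDerivAt
  have d2 : ∀ x, HasDerivAt (deriv chi) (deriv (deriv chi) x) x := fun x =>
    ((ContDiff.deriv' (n := 1) (k0.of_le two_le)).differentiable (by simp) x).hasDerivAt
  obtain ⟨r, c, C, hr, hc, hC, hb⟩ := bounds h
  have hz : ∀ w ∈ ball z r, (fun q : E n × E n => chi (F q.1 q.2)) =ᶠ[𝓝 (w, 0)] fun _ => 0 := by
    intro w hw
    have h1 : ∀ᶠ q : E n × E n in 𝓝 (w, 0), C * ‖q.2‖ ^ 2 < 1 :=
      (isOpen_lt (by fun_prop) continuous_const).mem_nhds (by simp)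
    filter_upwards [h1, (isOpen_ball.preimage continuous_fst).mem_nhds (x := (w, (0 : E n))) hw]
      with q a b
    exact k1 _ (((hb _ b).2 _).2.1.trans a.le)
  have hD : 0 ≤ D := (k4 0).1.trans (k4 0).2
  refine ⟨mem_of_superset (ball_mem_nhds z hr) fun w hw v => ?_,
    mem_of_superset (ball_mem_nhds z hr) fun w hw v a ha => ?_, fun v p => ?_,
    c, 2 + C + D * C ^ 2, hc, by positivity,
    mem_of_superset (ball_mem_nhds z hr) fun w hw v => ?_⟩
  · by_cases hv : v = 0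
    · rw [hv]
      exact contDiffAt_const.congr_of_eventuallyEq (hz w hw)
    · exact k0.contDiffAt.comp (w, v) ((hb w hw).1.sm v hv)
  · simp only
    rw [(hb w hw).1.fib.hom, normSq_eq_norm_sq, ha, one_pow, one_mul]
  · by_cases hv : v = 0
    · obtain ⟨-, h1, h2⟩ := zero (hz z (mem_ball_self hr))
      rw [hv, levi_eq h1, h2]
      simp
    · have hF := (hb z (mem_ball_self hr)).1
      have h0 := hF.fib.pos v hv
      have hu : ContDiffAt ℝ 2 (fun q : E n × E n => Real.log (F q.1 q.2)) (z, v) :=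
        ((hF.sm v hv).of_le two_le).log h0.ne'
      obtain ⟨-, h1, h2⟩ := chain (f := fun q : E n × E n => chi (F q.1 q.2)) hu
        (fun x => (d1 (Real.exp x)).comp x (Real.hasDerivAt_exp x))
        (((d2 _).comp _ (Real.hasDerivAt_exp _)).mul (Real.hasDerivAt_exp _))
        (((hF.sm v hv).continuousAt.eventually (lt_mem_nhds h0)).mono fun q hq => by
          simp only [Function.comp_apply, Real.exp_log hq])
      have h3 := hp v hv p
      rw [levi_eq (diff2 hu).differentiableAt] at h3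
      rw [levi_eq h1, h2, h2]
      simp only [Function.comp_apply, Real.exp_log h0]
      have h4 := mul_nonneg (k3 (F z v)).1 h0.le
      have h5 := add_nonneg (mul_nonneg (mul_nonneg (k4 (F z v)).1 h0.le) h0.le) h4
      have h6 := mul_nonneg h4 h3
      have h7 := mul_nonneg h5 (mul_self_nonneg
        (fderiv ℝ (fun q : E n × E n => Real.log (F q.1 q.2)) (z, v) p))
      have h8 := mul_nonneg h5 (mul_self_nonneg
        (fderiv ℝ (fun q : E n × E n => Real.log (F q.1 q.2)) (z, v) (I • p)))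
      linarith
  · obtain ⟨hF, hv'⟩ := hb w hw
    obtain ⟨b1, -, b3⟩ := hv' v
    have hDC : 0 ≤ D * C ^ 2 := by positivity
    refine ⟨by linarith [(k2 (F w v)).1], ?_⟩
    by_cases hv : v = 0
    · obtain ⟨h1, -, h2⟩ := zero (hz w hw)
      have h3 : 0 ≤ (2 + C + D * C ^ 2) * (1 + ‖v‖) ^ 4 := by positivity
      rw [hv] at h3 ⊢
      rw [h1, h2]
      exact ⟨norm_zero.le.trans h3, ContinuousLinearMap.opNorm_zero.le.trans h3⟩
    · obtain ⟨b4, b5⟩ := b3 hv
      obtain ⟨h1, -, h2⟩ := chain (f := fun q : E n × E n => chi (F q.1 q.2))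
        ((hF.sm v hv).of_le two_le) d1 (d2 _) (.refl _ _)
      have p0 : 1 ≤ (1 + ‖v‖) ^ 2 := one_le_pow₀ (le_add_of_nonneg_right (norm_nonneg _))
      rw [show (1 + ‖v‖) ^ 4 = ((1 + ‖v‖) ^ 2) ^ 2 by ring]
      generalize (1 + ‖v‖) ^ 2 = T at *
      have p1 : C * T ≤ C * T ^ 2 := mul_le_mul_of_nonneg_left (by nlinarith) hC
      have p2 := mul_nonneg hDC (sq_nonneg T)
      have p3 := sq_nonneg T
      constructor
      · rw [h1, norm_smul, Real.norm_of_nonneg (k3 _).1]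
        have := mul_le_mul (k3 (F w v)).2 b4 (norm_nonneg _) zero_le_one
        linarith
      · refine ContinuousLinearMap.opNorm_le_bound₂ _ (by positivity) fun x y => ?_
        rw [h2]
        generalize fderiv ℝ (fderiv ℝ fun q : E n × E n => F q.1 q.2) (w, v) = A at *
        generalize fderiv ℝ (fun q : E n × E n => F q.1 q.2) (w, v) = B at *
        have q0 := mul_nonneg (norm_nonneg x) (norm_nonneg y)
        have q1 : ‖A x y‖ ≤ C * T ^ 2 * (‖x‖ * ‖y‖) := (A.le_opNorm₂ x y).trans (by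
          rw [mul_assoc]; exact mul_le_mul_of_nonneg_right (b5.trans p1) q0)
        have q2 : ‖B x * B y‖ ≤ C * T * ‖x‖ * (C * T * ‖y‖) := by
          rw [norm_mul]
          exact mul_le_mul (B.le_of_opNorm_le b4 x) (B.le_of_opNorm_le b4 y) (norm_nonneg _)
            (mul_nonneg ((norm_nonneg _).trans b4) (norm_nonneg _))
        refine (norm_add_le _ _).trans ?_
        rw [norm_mul, norm_mul _ (B x * B y), Real.norm_of_nonneg (k3 _).1,
          Real.norm_of_nonneg (k4 _).1]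
        have q3 := mul_le_mul (k3 (F w v)).2 q1 (norm_nonneg _) zero_le_one
        have q4 := mul_le_mul (k4 (F w v)).2 q2 (norm_nonneg _) hD
        have q5 := mul_nonneg p3 q0
        linarith

end Pool.Agent.Lib.PM
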