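import Pool.Agent.Lib.PM.Blue
import Pool.Agent.Lib.GH.B_GA2

/-! Project pm78, row PA0: inequalities between eigenvalues. -/

open scoped ComplexOrder Matrix
open Matrix Finset

noncomputable section

namespace Pool.Agent.Lib.PM

open Pool.Agent.Lib.SV (E)
open Pool.Agent.Lib.HS32 Pool.Agent.Lib.GH Pool.Agent.Lib.GH.G44

namespace PA016

variable {n : ℕ} {G h U V : Mat n} {g : Fin n → ℝ}

theorem psd_dg (V : Mat n) {f : Fin n → ℝ} (hf : ∀ i, 0 ≤ f i) : (Vᴴ * dg f * V).PosSemidef := by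
  refine PosSemidef.conjTranspose_mul_mul_same ?_ V
  rw [dg, posSemidef_diagonal_iff]
  exact fun i => by exact_mod_cast hf i

theorem h_mul (F : Fr G h U V g) (f : Fin n → ℝ) : h * (U * dg f * V) = Vᴴ * dg f * V := by
  conv_lhs => rw [F.hh]
  calc Vᴴ * V * (U * dg f * V) = Vᴴ * (V * U) * dg f * V := by simp only [Matrix.mul_assoc]
    _ = _ := by rw [F.vu, Matrix.mul_one]

theorem nq_le (F : Fr G h U V g) {f : Fin n → ℝ} {c : ℝ} (hf : ∀ i, f i ^ 2 ≤ c) (v : E n) :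
    nq h ((U * dg f * V) *ᵥ v) ≤ c * nq h v := by
  rw [← mulVec_mulVec, ← mulVec_mulVec, F.nq_hU, F.nq_h, mul_sum]
  refine sum_le_sum fun i _ => ?_
  rw [dg_mulVec, norm_mul, mul_pow, Complex.norm_real, Real.norm_eq_abs, sq_abs]
  exact mul_le_mul_of_nonneg_right (hf i) (sq_nonneg _)

theorem sq_eq (F : Fr G h U V g) {s : ℝ} (hs : 0 < s) :
    wmat G h s - wmat G h s * wmat G h s =
      U * dg (fun i => s * (g i + s)⁻¹ * (g i * (g i + s)⁻¹)) * V := by
  have e : wmat G h s - wmat G h s * wmat G h s = wmat G h s * (1 - wmat G h s) := by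
    rw [Matrix.mul_sub, Matrix.mul_one]
  rw [e, F.one_sub_wmat hs, F.wmat_eq hs,
    ← dg_mul (fun i => s * (g i + s)⁻¹) fun i => g i * (g i + s)⁻¹]
  calc U * dg (fun i => s * (g i + s)⁻¹) * V * (U * dg (fun i => g i * (g i + s)⁻¹) * V)
      = U * (dg (fun i => s * (g i + s)⁻¹) * (V * U) * dg fun i => g i * (g i + s)⁻¹) * V := by
        simp only [Matrix.mul_assoc]
    _ = _ := by rw [F.vu, Matrix.mul_one]

theorem tr_mul (U A : Mat n) (f : Fin n → ℝ) :
    (U * dg f * Uᴴ * A).trace.re = ∑ i, f i * ((Uᴴ * A * U) i i).re := by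
  have e : (U * dg f * Uᴴ * A).trace = (dg f * (Uᴴ * A * U)).trace := by
    rw [Matrix.mul_assoc, Matrix.mul_assoc, trace_mul_comm]
    simp only [Matrix.mul_assoc]
  rw [e, trace, Complex.re_sum]
  refine sum_congr rfl fun i _ => ?_
  rw [diag_apply, dg, diagonal_mul, Complex.re_ofReal_mul]

theorem sum_le {f : Fin n → ℝ} (hf : ∀ i, f i ≤ 1) : ∑ i, f i ≤ n := by
  simpa using sum_le_sum (s := univ) fun i _ => hf i

end PA016

open PA016 in
theorem st_PA0 : St_PA0 := by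
  intro n G h s hG hh hs
  obtain ⟨U, V, g, F⟩ := exists_fr hG hh
  have hg := F.pos
  have hgs : ∀ i, 0 < g i + s := fun i => add_pos (hg i) hs
  have h1w : ∀ i, g i * (g i + s)⁻¹ ≤ 1 := fun i => by
    rw [← div_eq_mul_inv, div_le_one (hgs i)]; linarith
  have hw1 : ∀ i, s * (g i + s)⁻¹ ≤ 1 := fun i => by
    rw [← div_eq_mul_inv, div_le_one (hgs i)]; linarith [hg i]
  have h0w : ∀ i, 0 ≤ g i * (g i + s)⁻¹ := fun i => by
    have := hg i; have := hgs i; positivity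
  have hw0 : ∀ i, 0 ≤ s * (g i + s)⁻¹ := fun i => by have := hgs i; positivity
  have hr0 : ∀ i, 0 ≤ s * (g i + s)⁻¹ * (g i * (g i + s)⁻¹) := fun i =>
    mul_nonneg (hw0 i) (h0w i)
  have hr1 : ∀ i, s * (g i + s)⁻¹ * (g i * (g i + s)⁻¹) ≤ 1 := fun i =>
    mul_le_one₀ (hw1 i) (h0w i) (h1w i)
  have hpd : (G + s • h).PosDef := hG.add (hh.smul hs)
  have htw : ∀ t : ℝ, 0 < t → (wmat G h t).trace.re = ∑ i, t * (g i + t)⁻¹ := fun t ht => by
    rw [F.wmat_eq ht, F.trace_conj]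
  refine ⟨hpd, ?_, ?_, ?_, ?_, ?_, ?_, ?_, ?_, fun v => ⟨?_, ?_⟩, fun A hA => ?_⟩
  · rw [F.wmat_eq hs, h_mul F]
    exact psd_dg V hw0
  · have e : h - h * wmat G h s = h * (1 - wmat G h s) := by rw [Matrix.mul_sub, Matrix.mul_one]
    rw [e, F.one_sub_wmat hs, h_mul F]
    exact psd_dg V h0w
  · have e := nonsing_inv_mul _ ((isUnit_iff_isUnit_det _).1 hpd.isUnit)
    rw [Matrix.mul_add] at e
    rw [wmat, ← e, add_sub_cancel_right]
  · rw [htw s hs]; exact sum_nonneg fun i _ => hw0 i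
  · rw [htw s hs]; exact sum_le hw1
  · rw [F.rho_eq hs]; exact sum_nonneg fun i _ => hr0 i
  · rw [F.rho_eq hs]; exact sum_le hr1
  · rw [F.rho_eq hs, htw s hs, htw (2 * s) (by positivity), ← sum_sub_distrib, mul_sum]
    refine sum_le_sum fun i _ => ?_
    have h1 := hg i
    have h2 := hgs i
    have h3 : 0 < g i + 2 * s := by positivity
    have e : 2 * (2 * s * (g i + 2 * s)⁻¹ - s * (g i + s)⁻¹) -
        s * (g i + s)⁻¹ * (g i * (g i + s)⁻¹) =
        s * g i ^ 2 / ((g i + s) ^ 2 * (g i + 2 * s)) := by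
      field_simp
      ring
    have h4 : 0 ≤ s * g i ^ 2 / ((g i + s) ^ 2 * (g i + 2 * s)) := by positivity
    linarith
  · rw [F.wmat_eq hs]
    simpa using nq_le F (c := 1) (fun i => pow_le_one₀ (hw0 i) (hw1 i)) v
  · rw [F.rho_eq hs, sq_eq F hs]
    refine nq_le F (fun i => ?_) v
    refine le_trans ?_ (single_le_sum (fun j _ => hr0 j) (mem_univ i))
    nlinarith [hr0 i, hr1 i]
  · rw [F.inv_add hs, F.inv_G, tr_mul, tr_mul]
    refine sum_le_sum fun i _ => mul_le_mul_of_nonneg_right ?_ ?_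
    · exact inv_anti₀ (hg i) (by linarith)
    · exact (Complex.nonneg_iff.1 (hA.conjTranspose_mul_mul_same U).diag_nonneg).1

end Pool.Agent.Lib.PM
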