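import Pool.Agent.Lib.PM.Blue
import Pool.Agent.Lib.HS68.Fun
import Pool.Agent.Lib.HS32.MKit

/-! Consequences of the pinching condition at a point. -/

open scoped Classical Topology ContDiff ComplexOrder Matrix
open Set Complex Metric Filter Matrix

noncomputable section

namespace Pool.Agent.Lib.PM

open Pool.Agent.Lib.SV (E)
open Pool.Agent.Lib.HS32 Pool.Agent.Lib.GH

namespace A28

variable {n : ℕ}

theorem psd_of_re {A : Mat n} (hA : A.IsHermitian) (h : ∀ x, 0 ≤ (star x ⬝ᵥ A *ᵥ x).re) :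
    A.PosSemidef :=
  .of_dotProduct_mulVec_nonneg hA fun x =>
    Complex.nonneg_iff.2 ⟨h x, (hA.im_star_dotProduct_mulVec_self x).symm⟩

theorem zero_of_form {A : Mat n} (h : ∀ x, star x ⬝ᵥ A *ᵥ x = 0) : A = 0 := by
  have hb : ∀ x y : Fin n → ℂ, star x ⬝ᵥ A *ᵥ y + star y ⬝ᵥ A *ᵥ x = 0 := fun x y => by
    have := h (x + y)
    rw [star_add, mulVec_add, add_dotProduct, dotProduct_add, dotProduct_add, h x, h y] at this
    linear_combination this
  have hc : ∀ x y : Fin n → ℂ, star x ⬝ᵥ A *ᵥ y = 0 := fun x y => by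
    have h1 := hb x y
    have h2 := hb x (I • y)
    rw [mulVec_smul, dotProduct_smul, star_smul, smul_dotProduct, smul_eq_mul, smul_eq_mul,
      Complex.star_def, Complex.conj_I] at h2
    have h3 : 2 * I * (star x ⬝ᵥ A *ᵥ y) = 0 := by linear_combination h2 + I * h1
    simpa [I_ne_zero] using h3
  ext i j
  simpa using hc (Pi.single i 1) (Pi.single j 1)

theorem star_form (M : Mat n) (v : Fin n → ℂ) :
    star (star v ⬝ᵥ M *ᵥ v) = star v ⬝ᵥ Mᴴ *ᵥ v := by
  rw [← star_dotProduct_star, star_star, star_mulVec, dotProduct_mulVec]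

theorem tr_rows (W M : Mat n) :
    (Wᴴ * W * M).trace = ∑ i, star (star (W i)) ⬝ᵥ M *ᵥ star (W i) := by
  rw [Matrix.mul_assoc, trace_mul_comm, Matrix.mul_assoc]
  simp [Matrix.trace, Matrix.mul_apply, dotProduct, mulVec]

/-- The matrix of the values of the forms `S k l` on a vector. -/
def Q (S : Fin n → Fin n → Mat n) (v : Fin n → ℂ) : Mat n :=
  Matrix.of fun l k => star v ⬝ᵥ S k l *ᵥ v

theorem Q_herm {S : Fin n → Fin n → Mat n} (hS : ∀ k l, (S k l)ᴴ = S l k) (v : Fin n → ℂ) :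
    (Q S v).IsHermitian := by
  ext l k
  rw [conjTranspose_apply, Q, of_apply, of_apply, star_form, hS]

theorem Q_form (S : Fin n → Fin n → Mat n) (v a : Fin n → ℂ) :
    star a ⬝ᵥ Q S v *ᵥ a = ∑ k, ∑ l, a k * star (a l) * (star v ⬝ᵥ S k l *ᵥ v) := by
  rw [Finset.sum_comm]
  simp only [Q, dotProduct, mulVec, of_apply, Pi.star_apply, Finset.mul_sum]
  refine Finset.sum_congr rfl fun l _ => Finset.sum_congr rfl fun k _ => ?_
  simp only [← Finset.mul_sum]
  ring

theorem Q_form' (S : Fin n → Fin n → Mat n) (v a : Fin n → ℂ) :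
    star a ⬝ᵥ Q S v *ᵥ a = star v ⬝ᵥ (∑ k, ∑ l, (a k * star (a l)) • S k l) *ᵥ v := by
  rw [Q_form]
  simp only [sum_mulVec, dotProduct_sum, smul_mulVec, dotProduct_smul, smul_eq_mul]

theorem Q_vec (S : Fin n → Fin n → Mat n) (v a : Fin n → ℂ) (l : Fin n) :
    (Q S v *ᵥ a) l = star v ⬝ᵥ (∑ k, a k • S k l) *ᵥ v := by
  simp only [sum_mulVec, dotProduct_sum, smul_mulVec, dotProduct_smul, smul_eq_mul]
  change ∑ k, Q S v l k * a k = _
  exact Finset.sum_congr rfl fun k _ => by rw [Q, of_apply, mul_comm]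

section
variable {H η : Mat n} {T : Fin n → Fin n → Mat n} {α : ℝ}

theorem N_psd (hη : η.IsHermitian) (hS : ∀ k l, (H * T k l)ᴴ = H * T l k)
    (h : ∀ a v : Fin n → ℂ, (∑ k, ∑ l, a k * star (a l) * (star v ⬝ᵥ (H * T k l) *ᵥ v)).re ≤
      α * nq η a * nq H v) (v : Fin n → ℂ) :
    ((α * nq H v) • η - Q (fun k l => H * T k l) v).PosSemidef := by
  refine psd_of_re ((hη.smul (IsSelfAdjoint.all _)).sub (Q_herm hS v)) fun a => ?_
  have := h a v
  rw [sub_mulVec, dotProduct_sub, Q_form, smul_mulVec, dotProduct_smul, sub_re, smul_re,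
    smul_eq_mul]
  unfold nq at this ⊢
  linarith

theorem two (hH : H.PosDef) (hη : η.IsHermitian) (hS : ∀ k l, (H * T k l)ᴴ = H * T l k)
    (h : ∀ a v : Fin n → ℂ, (∑ k, ∑ l, a k * star (a l) * (star v ⬝ᵥ (H * T k l) *ᵥ v)).re ≤
      α * nq η a * nq H v) (A : Mat n) (hA : (A * H⁻¹).PosSemidef) :
    ((Matrix.of fun l k => -(A * T k l).trace : Mat n) + (α * A.trace.re) • η).PosSemidef := by
  obtain ⟨W, hW⟩ := Mf.psd_factor hA
  have e : A = Wᴴ * W * H := by
    rw [← hW, Matrix.mul_assoc, nonsing_inv_mul _ hH.det_pos.ne'.isUnit, Matrix.mul_one]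
  have hs := posSemidef_sum Finset.univ fun i _ => N_psd hη hS h (star (W i))
  convert hs using 1
  rw [Finset.sum_sub_distrib, ← Finset.sum_smul, ← Finset.mul_sum, add_comm, sub_eq_add_neg]
  congr 1
  · rw [e, tr_rows, re_sum]; rfl
  · ext l k
    rw [of_apply, e, Matrix.mul_assoc, tr_rows, neg_apply, Matrix.sum_apply]
    rfl

theorem three (hH : H.PosDef) (hη : η.IsHermitian) (hS : ∀ k l, (H * T k l)ᴴ = H * T l k)
    (ht : ∀ l k, η l k = -(T k l).trace)
    (h : ∀ a v : Fin n → ℂ, (∑ k, ∑ l, a k * star (a l) * (star v ⬝ᵥ (H * T k l) *ᵥ v)).re ≤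
      α * nq η a * nq H v) (a : Fin n → ℂ) (ha : η *ᵥ a = 0) (l : Fin n) :
    ∑ k, a k • (H * T k l) = 0 := by
  have hu := hH.det_pos.ne'.isUnit
  set Θ : Mat n := ∑ k, ∑ l, (a k * star (a l)) • (H * T k l) with hΘ
  have f1 : ∀ v : Fin n → ℂ, star a ⬝ᵥ ((α * nq H v) • η - Q (fun k l => H * T k l) v) *ᵥ a =
      star v ⬝ᵥ (-Θ) *ᵥ v := fun v => by
    rw [sub_mulVec, smul_mulVec, ha, smul_zero, zero_sub, dotProduct_neg, Q_form', neg_mulVec,
      dotProduct_neg]
  have hh : Θ.IsHermitian := by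
    rw [hΘ, IsHermitian, conjTranspose_sum, Finset.sum_comm]
    refine Finset.sum_congr rfl fun k _ => ?_
    rw [conjTranspose_sum]
    refine Finset.sum_congr rfl fun m _ => ?_
    rw [conjTranspose_smul, hS, star_mul, star_star]
  have hp : (-Θ).PosSemidef := .of_dotProduct_mulVec_nonneg hh.neg fun v => by
    rw [← f1]; exact (N_psd hη hS h v).dotProduct_mulVec_nonneg a
  have htr : (H⁻¹ * Θ).trace = 0 := by
    have h1 : star a ⬝ᵥ η *ᵥ a = 0 := by rw [ha, dotProduct_zero]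
    have h2 : (H⁻¹ * Θ).trace = -(star a ⬝ᵥ η *ᵥ a) := by
      simp only [hΘ, Matrix.mul_sum, Matrix.mul_smul, trace_sum, trace_smul,
        nonsing_inv_mul_cancel_left _ _ hu, smul_eq_mul, dotProduct, mulVec, ht, Pi.star_apply,
        Finset.mul_sum, ← Finset.sum_neg_distrib]
      rw [Finset.sum_comm]
      exact Finset.sum_congr rfl fun l _ => Finset.sum_congr rfl fun k _ => by ring
    rw [h2, h1, neg_zero]
  obtain ⟨W, hW⟩ := Mf.psd_factor hH.inv.posSemidef
  have hz : W * (-Θ) * Wᴴ = 0 := by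
    refine (hp.mul_mul_conjTranspose_same W).trace_eq_zero_iff.1 ?_
    rw [trace_mul_comm, ← Matrix.mul_assoc, ← hW, Matrix.mul_neg, trace_neg, htr, neg_zero]
  have h0 : -Θ = 0 := by
    have h1 : H⁻¹ * (-Θ) * H⁻¹ = 0 := by
      rw [hW]
      calc Wᴴ * W * (-Θ) * (Wᴴ * W) = Wᴴ * (W * (-Θ) * Wᴴ) * W := by simp only [Matrix.mul_assoc]
        _ = 0 := by rw [hz, Matrix.mul_zero, Matrix.zero_mul]
    have h2 := congrArg (fun X => H * X * H) h1
    simp only [← Matrix.mul_assoc, mul_nonsing_inv _ hu, Matrix.one_mul,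
      nonsing_inv_mul_cancel_right _ _ hu, Matrix.mul_zero, Matrix.zero_mul] at h2
    exact h2
  refine zero_of_form fun v => ?_
  have h3 := ((N_psd hη hS h v).dotProduct_mulVec_zero_iff a).1 (by rw [f1, h0]; simp)
  rw [sub_mulVec, smul_mulVec, ha, smul_zero, zero_sub, neg_eq_zero] at h3
  rw [← Q_vec (fun k l => H * T k l), h3, Pi.zero_apply]

end

end A28

open A28 in
theorem st_PA1 : St_PA1 := by
  intro n h z α hs hp hα hr
  have L : HS68.Loc h z := ⟨hs, hp.mono fun _ hw => hw.isHermitian, hp.self_of_nhds⟩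
  have hH := L.pos
  have hu := hH.det_pos.ne'.isUnit
  have hη : (hess (ld h) z).IsHermitian := by
    have := L.ric_herm.neg
    rwa [HS68.ricF, neg_neg] at this
  have ht : ∀ l k, hess (ld h) z l k = -(th h k l z).trace := fun l k => by
    rw [← L.ric_apply, HS68.ricF, neg_apply, neg_neg]
  have h2 := two (T := fun k l => th h k l z) hH hη L.mul_th_herm hr
  refine ⟨?_, h2, fun P hP => ?_⟩
  · have h1 := h2 1 (by rw [Matrix.one_mul]; exact hH.inv.posSemidef)
    have e : (Matrix.of fun l k => -((1 : Mat n) * th h k l z).trace : Mat n) = hess (ld h) z := by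
      ext l k
      rw [of_apply, Matrix.one_mul, ht]
    have c0 : 0 ≤ α * (1 : Mat n).trace.re := by
      rw [trace_one]; simp only [natCast_re]; positivity
    rw [e] at h1
    have h3 := Mf.psd_rsmul h1 (c := (1 + α * (1 : Mat n).trace.re)⁻¹) (by positivity)
    rwa [← one_smul ℝ (hess (ld h) z), smul_smul, ← add_smul, smul_smul, mul_one,
      inv_mul_cancel₀ (by positivity), one_smul] at h3
  · have h3 : ∀ l m, ∑ i, P i m • (h z * th h i l z) = 0 := fun l m =>
      three (T := fun k l => th h k l z) hH hη L.mul_th_herm ht hr (fun i => P i m)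
        (by funext i; exact congrFun (congrFun hP i) m) l
    have cancel : ∀ X : Mat n, h z * X = 0 → X = 0 := fun X hX => by
      rw [← nonsing_inv_mul_cancel_left _ X hu, hX, Matrix.mul_zero]
    refine ⟨fun l m => cancel _ ?_, fun i m => cancel _ ?_⟩
    · simpa only [Matrix.mul_sum, Matrix.mul_smul] using h3 l m
    · have := congrArg conjTranspose (h3 i m)
      simpa only [Matrix.mul_sum, Matrix.mul_smul, conjTranspose_sum, conjTranspose_smul,
        L.mul_th_herm, conjTranspose_zero] using this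

end Pool.Agent.Lib.PM
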