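import Pool.Agent.Lib.PM.Blue
import Pool.Agent.Lib.GH.B_GA2

/-! Project pm78: the number of small eigenvalues. -/

open scoped ComplexOrder Matrix
open Matrix Finset

noncomputable section

namespace Pool.Agent.Lib.PM

open Pool.Agent.Lib.HS32 Pool.Agent.Lib.GH Pool.Agent.Lib.GH.G44

namespace PA2x22

variable {n : ℕ}

lemma det_dg (f : Fin n → ℝ) : (dg f).det = ((∏ i, f i : ℝ) : ℂ) := by
  simp [dg, det_diagonal]

lemma prod_bound (k : ℕ) {g : Fin n → ℝ} {s t c : ℝ} (s0 : 0 < s) (s1 : s ≤ 1) (t0 : 0 < t)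
    (t1 : t ≤ 1) (c0 : 0 < c) (c1 : c ≤ 1) (hg : ∀ i, c ≤ g i) :
    ∏ i, (g i * (g i + s)⁻¹ + t) ≤ 2 ^ n * (t ^ k + (∏ i, g i) / (s ^ n * c ^ (k - 1))) := by
  have g0 : ∀ i, 0 < g i := fun i => c0.trans_le (hg i)
  have a0 : ∀ i, 0 ≤ g i * (g i + s)⁻¹ := fun i => by have := g0 i; positivity
  have a1 : ∀ i, g i * (g i + s)⁻¹ ≤ 1 := fun i => by
    rw [← div_eq_mul_inv, div_le_one (add_pos (g0 i) s0)]; linarith
  have p0 : 0 ≤ (∏ i, g i) / (s ^ n * c ^ (k - 1)) :=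
    div_nonneg (prod_nonneg fun i _ => (g0 i).le) (by positivity)
  rw [prod_add]
  refine (sum_le_card_nsmul _ _ (t ^ k + (∏ i, g i) / (s ^ n * c ^ (k - 1))) fun S _ => ?_).trans
    (le_of_eq (by simp [mul_add]))
  rw [prod_const]
  have b0 : 0 ≤ ∏ i ∈ S, g i * (g i + s)⁻¹ := prod_nonneg fun i _ => a0 i
  rcases le_or_gt k (univ \ S).card with h | h
  · have b1 : ∏ i ∈ S, g i * (g i + s)⁻¹ ≤ 1 := prod_le_one (fun i _ => a0 i) fun i _ => a1 i
    have b2 : t ^ (univ \ S).card ≤ t ^ k := pow_le_pow_of_le_one t0.le t1 h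
    calc _ ≤ 1 * t ^ k := by gcongr
      _ ≤ _ := by linarith
  · have b2 : t ^ (univ \ S).card ≤ 1 := pow_le_one₀ t0.le t1
    have b3 : s ^ n ≤ s ^ S.card :=
      pow_le_pow_of_le_one s0.le s1 (by simpa using card_le_univ S)
    have b4 : c ^ (k - 1) ≤ c ^ (univ \ S).card := pow_le_pow_of_le_one c0.le c1 (by omega)
    have b5 : ∏ i ∈ S, g i * (g i + s)⁻¹ ≤ (∏ i, g i) / (s ^ n * c ^ (k - 1)) := by
      rw [le_div_iff₀ (by positivity)]
      calc _ ≤ (∏ i ∈ S, g i * (g i + s)⁻¹) * (s ^ S.card * c ^ (univ \ S).card) := by gcongr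
        _ = (∏ _i ∈ univ \ S, c) * ∏ i ∈ S, (g i * (g i + s)⁻¹ * s) := by
          rw [prod_mul_distrib (g := fun _ => s), prod_const, prod_const]; ring
        _ ≤ (∏ i ∈ univ \ S, g i) * ∏ i ∈ S, g i := by
          refine mul_le_mul (prod_le_prod (fun _ _ => c0.le) fun i _ => hg i)
            (prod_le_prod (fun i _ => mul_nonneg (a0 i) s0.le) fun i _ => ?_)
            (prod_nonneg fun i _ => mul_nonneg (a0 i) s0.le) (prod_nonneg fun i _ => (g0 i).le)
          rw [mul_assoc]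
          refine mul_le_of_le_one_right (g0 i).le ?_
          rw [← div_eq_inv_mul, div_le_one (add_pos (g0 i) s0)]
          linarith [g0 i]
        _ = _ := prod_sdiff (subset_univ S)
    have := pow_pos t0 k
    calc _ ≤ (∏ i, g i) / (s ^ n * c ^ (k - 1)) * 1 := by gcongr
      _ ≤ _ := by linarith

end PA2x22

open PA2x22 in
theorem st_PA2 : St_PA2 := by
  intro n k G h s t c hG hh hs ht hc hP
  obtain ⟨U, V, g, F⟩ := exists_fr hG hh
  have e1 : t • (1 : Mat n) + (1 - wmat G h s) =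
      U * dg (fun i => g i * (g i + s)⁻¹ + t) * V := by
    rw [F.one_sub_wmat hs.1, ← dg_add_smul, Matrix.mul_add, Matrix.add_mul, Matrix.mul_smul,
      Matrix.smul_mul, Matrix.mul_one, F.uv, add_comm]
  have d1 : U.det * V.det = 1 := by rw [← det_mul, F.uv, det_one]
  have e2 : (t • (1 : Mat n) + (1 - wmat G h s)).det =
      ((∏ i, (g i * (g i + s)⁻¹ + t) : ℝ) : ℂ) := by
    rw [e1, det_mul, det_mul, det_dg, mul_right_comm, d1, one_mul]
  have e3 : G.det / h.det = ((∏ i, g i : ℝ) : ℂ) := by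
    rw [div_eq_iff hh.det_pos.ne']
    conv_lhs => rw [F.gg]
    conv_rhs => rw [F.hh]
    rw [det_mul, det_mul, det_mul, det_dg]
    ring
  have e4 : Uᴴ * (G - c • h) * U = dg fun i => g i + -c := by
    have : G - c • h = Vᴴ * dg (fun i => g i + -c) * V := by
      rw [← dg_add_smul, F.gg, F.hh]
      simp [Matrix.mul_add, Matrix.add_mul, sub_eq_add_neg]
    rw [this]
    calc Uᴴ * (Vᴴ * dg (fun i => g i + -c) * V) * U
        = (Uᴴ * Vᴴ) * dg (fun i => g i + -c) * (V * U) := by simp only [Matrix.mul_assoc]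
      _ = _ := by rw [F.vu, F.vu', Matrix.one_mul, Matrix.mul_one]
  have hg : ∀ i, c ≤ g i := fun i => by
    have h5 := hP.conjTranspose_mul_mul_same U
    rw [e4, dg, posSemidef_diagonal_iff] at h5
    have h6 : 0 ≤ g i + -c := by exact_mod_cast h5 i
    linarith
  rw [e2, e3, Complex.ofReal_re, Complex.ofReal_re]
  exact prod_bound k hs.1 hs.2 ht.1 ht.2 hc.1 hc.2 hg

end Pool.Agent.Lib.PM
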