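import Pool.Agent.Lib.PM.Blue
import Pool.Agent.Lib.HS85.Prod
import Pool.Agent.Lib.HS32.B_HOL

/-! Project pm78: a holomorphic parallel frame along the leaves. -/

open scoped Classical Topology ContDiff ComplexOrder Matrix Manifold
open Set MeasureTheory Complex Metric Filter

noncomputable section

namespace Pool.Agent.Lib.PM

open Pool.Agent.Lib.SV (E)
open Pool.Agent.Lib.HS32 Pool.Agent.HS85

namespace PB1

variable {n k : ℕ} {h P T S : E n → Mat n} {x z : E n}

theorem dM_inv (hT : SmM T z) (h0 : (T z).det ≠ 0) (j : Fin n) :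
    dM j (fun w => (T w)⁻¹) z = -((T z)⁻¹ * dM j T z * (T z)⁻¹) := by
  have a := dM_mul (k := j) hT (hT.inv h0)
  rw [dM_congr (T := fun _ => 1) ((hT.ev_det h0).mono fun w hw =>
    Matrix.mul_nonsing_inv _ hw.isUnit), dM_const] at a
  rw [← Matrix.nonsing_inv_mul_cancel_left _ (dM j (fun w => (T w)⁻¹) z) h0.isUnit,
    eq_neg_of_add_eq_zero_right a.symm, Matrix.mul_neg, Matrix.mul_assoc]

theorem dMb_inv (hT : SmM T z) (h0 : (T z).det ≠ 0) {l : Fin n} (hl : dMb l T z = 0) :
    dMb l (fun w => (T w)⁻¹) z = 0 := by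
  have a := dMb_mul (k := l) hT (hT.inv h0)
  rw [dMb_congr (T := fun _ => 1) ((hT.ev_det h0).mono fun w hw =>
    Matrix.mul_nonsing_inv _ hw.isUnit), dMb_const, hl, zero_mul, zero_add] at a
  rw [← Matrix.nonsing_inv_mul_cancel_left _ (dMb l (fun w => (T w)⁻¹) z) h0.isUnit, ← a, mul_zero]

/-- The transposed connection. -/
def gp (h : E n → Mat n) (j : Fin n) (z : E n) : Mat n := gam h j z - tm h j z

theorem gp_apply (j a b : Fin n) : gp h j z a b = gam h b z a j := by simp [gp, tm]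

theorem gp_sm (hs : SmM h z) (h0 : (h z).det ≠ 0) (j : Fin n) : SmM (gp h j) z := fun a b => by
  simp only [gp_apply]
  exact hs.gam h0 b a j

theorem gam_flat (hs : SmM h z) (h0 : (h z).det ≠ 0) (i j : Fin n) :
    dM i (gam h j) z = dM j (gam h i) z + gam h j z * gam h i z - gam h i z * gam h j z := by
  have a : ∀ i j, dM i (gam h j) z = -(gam h i z * gam h j z) + (h z)⁻¹ * dM i (dM j h) z :=
    fun i j => by
      refine (dM_mul (hs.inv h0) (hs.dM j)).trans ?_
      rw [dM_inv hs h0, gam, gam]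
      simp only [Matrix.neg_mul, Matrix.mul_assoc]
  rw [a, a, dM_dM hs]
  abel

theorem det0 (H : L2 h P z) : (h z).det ≠ 0 := H.pos.det_pos.ne'

theorem f1 (H : L2 h P z) (i : Fin n) : P z * (dM i P z + gp h i z * P z) =
    dM i P z + gp h i z * P z := by
  have a : ∀ A : Mat n, P z * (P z * A) = P z * A := fun A => by rw [← Matrix.mul_assoc, H.idem]
  rw [H.de.1, wr, gp]
  simp only [Matrix.mul_add, Matrix.mul_sub, Matrix.sub_mul, Matrix.mul_assoc, a, Matrix.one_mul]
  abel

theorem f2 (H : L2 h P z) (l : Fin n) : dMb l P z * P z = 0 := by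
  have a : (P z)ᴴ * h z = h z * P z := by
    rw [← H.herm.eq, Matrix.conjTranspose_mul, H.pos.1.eq]
  have b : (1 - P z)ᴴ * (h z * P z) = 0 := by
    rw [Matrix.conjTranspose_sub, Matrix.conjTranspose_one, Matrix.sub_mul, Matrix.one_mul,
      ← Matrix.mul_assoc, a, Matrix.mul_assoc, H.idem, sub_self]
  rw [H.de.2, wb, Matrix.conjTranspose_mul, Matrix.conjTranspose_mul]
  simp only [Matrix.mul_assoc, b, Matrix.mul_zero]

theorem f3 (H : L2 h P z) (l j : Fin n) : dMb l (gp h j) z * P z = 0 := by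
  ext a m
  have b := congrFun (congrFun (H.th1 l m) a) j
  simp only [Matrix.sum_apply, Matrix.smul_apply, th, Matrix.neg_apply, smul_eq_mul, mul_neg,
    Finset.sum_neg_distrib, Matrix.zero_apply, neg_eq_zero, dMb_apply] at b
  simp only [Matrix.mul_apply, dMb_apply, gp_apply, Matrix.zero_apply, ← b, mul_comm]

theorem f4 (H : L2 h P z) (j l : Fin n) : (dM j (gp h l) z + gp h j z * gp h l z) * P z =
    (dM l (gp h j) z + gp h l z * gp h j z) * P z := by
  have g := H.sh.gam (det0 H)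
  have c : ∀ a i, ((dM j (gp h l) z + gp h j z * gp h l z) -
      (dM l (gp h j) z + gp h l z * gp h j z)) a i = nt h i j z a l := by
    intro a i
    have c1 := congrFun (congrFun (gam_flat H.sh (det0 H) i j) a) l
    have c2 := congrFun (congrFun (gam_flat H.sh (det0 H) i l) a) j
    have c3 : dM i (tm h j) z a l = dM i (gam h j) z a l - dM i (gam h l) z a j :=
      dz_sub ((g j).diff a l) ((g l).diff a j)
    have c4 : ∀ j l, dM j (gp h l) z a i = dM j (gam h i) z a l := fun j l => by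
      simp only [dM_apply, gp_apply]
    simp only [nt, Matrix.add_apply, Matrix.sub_apply, c3, c4, c1, c2, Matrix.mul_apply, gp_apply,
      tm, Matrix.of_apply, Matrix.sum_apply, Matrix.smul_apply, smul_eq_mul, mul_sub, sub_mul,
      Finset.sum_sub_distrib, mul_comm (gam h i z _ j)]
    ring
  rw [← sub_eq_zero, ← Matrix.sub_mul]
  ext a m
  have b := congrFun (congrFun (H.nab j m) a) l
  simp only [Matrix.sum_apply, Matrix.smul_apply, smul_eq_mul, Matrix.zero_apply] at b
  simp only [Matrix.mul_apply, c, Matrix.zero_apply, ← b, mul_comm]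

/-- A holomorphic frame adapted to the image of `P`. -/
structure Ad (P S : E n → Mat n) (k : ℕ) (z : E n) : Prop where
  det : (S z).det ≠ 0
  sm : SmM S z
  hol : ∀ l, dMb l S z = 0
  im : P z * (S z * pr k) = S z * pr k
  su : pr k * ((S z)⁻¹ * P z) = (S z)⁻¹ * P z

theorem frame0 (hk : k ≤ n) (H : ∀ᶠ z in 𝓝 x, L2 h P z)
    (hd : (1 + (1 : ℝ) • P x).det = ((1 + 1 : ℝ) : ℂ) ^ k) : ∃ S, ∀ᶠ z in 𝓝 x, Ad P S k z := by
  have hx := H.self_of_nhds
  obtain ⟨U, hU1, hU2⟩ := adapt hk hx.pos hx.herm hx.idem hd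
  have hU0 : U.det ≠ 0 := fun h0 => det0 hx (by rw [← hU1, Matrix.det_mul, h0, mul_zero])
  have p0 := hx.idem
  have hC : U⁻¹ * pr k = P x * U⁻¹ := by
    rw [← Matrix.mul_nonsing_inv_cancel_right U (U⁻¹ * pr k) hU0.isUnit, Matrix.mul_assoc U⁻¹,
      ← hU2, Matrix.nonsing_inv_mul_cancel_left _ _ hU0.isUnit]
  have hC0 : (U⁻¹).det ≠ 0 := (Matrix.isUnit_nonsing_inv_det U hU0.isUnit).ne_zero
  generalize U⁻¹ = C at hC hC0
  obtain ⟨P0, e0⟩ : ∃ P0, P0 = P x := ⟨_, rfl⟩
  rw [← e0] at p0 hC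
  set A : E n → Mat n := fun w => P w * P0 + (1 - P0) with hA
  set R : E n → Mat n := fun w => P w * P0 + (1 - P w) * (1 - P0) with hR
  set Q : E n → Mat n := fun w => P w * P0 * (A w)⁻¹ with hQ
  have q0 : P0 * (1 - P0) = 0 := by rw [Matrix.mul_sub, p0, Matrix.mul_one, sub_self]
  have q1 : (1 - P0) * P0 = 0 := by rw [Matrix.sub_mul, p0, Matrix.one_mul, sub_self]
  have q2 : (1 - P0) * (1 - P0) = 1 - P0 := by rw [Matrix.sub_mul, q0, Matrix.one_mul, sub_zero]
  have sA : ∀ w, SmM P w → SmM A w := fun w hw => (hw.mul (smM_const _)).add (smM_const _)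
  have Ax : A x = 1 := by simp only [hA, ← e0, p0, add_sub_cancel]
  have Rx : R x = 1 := by simp only [hR, ← e0, p0, q2, add_sub_cancel]
  have dA := (sA x hx.sp).ev_det (by rw [Ax]; simp)
  have dR := SmM.ev_det (T := R) ((hx.sp.mul (smM_const _)).add
    (((smM_const _).sub hx.sp).mul (smM_const _))) (by rw [Rx]; simp)
  have h1 : ∀ᶠ z in 𝓝 x, SmM Q z ∧ P z * Q z = Q z ∧ Q z * P z = P z ∧ Q z * (1 - P0) = 0 := by
    filter_upwards [H, dA, dR] with z a b c
    have i1 : (A z)⁻¹ * (P z * P0) = P0 := by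
      rw [show P z * P0 = A z * P0 by
        simp only [hA, Matrix.add_mul, Matrix.mul_assoc, p0, q1, add_zero],
        Matrix.nonsing_inv_mul_cancel_left _ _ b.isUnit]
    have i2 : (A z)⁻¹ * (1 - P0) = 1 - P0 := by
      nth_rewrite 1 [show 1 - P0 = A z * (1 - P0) by
        simp only [hA, Matrix.add_mul, Matrix.mul_assoc, q0, q2, Matrix.mul_zero, zero_add]]
      rw [Matrix.nonsing_inv_mul_cancel_left _ _ b.isUnit]
    have i3 : P z * R z = P z * P0 := by
      simp only [hR, Matrix.mul_add, ← Matrix.mul_assoc, a.idem, Matrix.mul_sub (P z) 1,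
        Matrix.mul_one, sub_self, Matrix.zero_mul, add_zero]
    refine ⟨(a.sp.mul (smM_const _)).mul ((sA z a.sp).inv b), ?_, ?_, ?_⟩
    · simp only [hQ, ← Matrix.mul_assoc, a.idem]
    · rw [← Matrix.mul_nonsing_inv_cancel_right (R z) (Q z * P z) c.isUnit, Matrix.mul_assoc (Q z),
        i3, hQ]
      simp only
      rw [Matrix.mul_assoc _ (A z)⁻¹, i1, Matrix.mul_assoc (P z), p0, ← i3,
        Matrix.mul_nonsing_inv_cancel_right _ _ c.isUnit]
    · simp only [hQ, Matrix.mul_assoc, i2, q0, Matrix.mul_zero]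
  have Qx : Q x = P0 := by simp only [hQ, Ax, ← e0, p0, inv_one, Matrix.mul_one]
  clear_value Q
  have sS : ∀ w, SmM Q w → SmM (fun w => (Q w + (1 - P0)) * C) w := fun w hw =>
    (hw.add (smM_const _)).mul (smM_const _)
  refine ⟨fun w => (Q w + (1 - P0)) * C, ?_⟩
  filter_upwards [H, dA, h1, h1.eventually_nhds, (sS x h1.self_of_nhds.1).ev_det
    (by simpa only [Qx, add_sub_cancel, Matrix.one_mul] using hC0)] with z a b c d e
  have j0 : Q z * P0 = Q z := by
    have := c.2.2.2
    rwa [Matrix.mul_sub, Matrix.mul_one, sub_eq_zero, eq_comm] at this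
  have j1 : (Q z + (1 - P0)) * C * pr k = Q z * C := by
    rw [Matrix.mul_assoc, hC, ← Matrix.mul_assoc, Matrix.add_mul, q1, add_zero, j0]
  have j2 : Q z * ((Q z + (1 - P0)) * C) = Q z * C := by
    rw [← Matrix.mul_assoc, Matrix.mul_add, c.2.2.2, add_zero]
    nth_rewrite 2 [← c.2.1]
    rw [← Matrix.mul_assoc, c.2.2.1, c.2.1]
  refine ⟨e, sS z c.1, fun l => ?_, by rw [j1, ← Matrix.mul_assoc, c.2.1], ?_⟩
  · have k1 : dMb l Q z * P z = 0 := by
      have := congrArg (· * P z) ((dMb_mul (k := l) c.1 a.sp).symm.trans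
        (dMb_congr (d.mono fun w hw => hw.2.2.1)))
      simpa only [Matrix.add_mul, Matrix.mul_assoc, f2 a, a.idem, Matrix.mul_zero, add_zero]
        using this
    have k2 : dMb l Q z * (1 - P0) = 0 := by
      have := (dMb_mul (k := l) c.1 (smM_const (1 - P0))).symm.trans
        (dMb_congr (T := fun _ => 0) (d.mono fun w hw => hw.2.2.2))
      simpa only [dMb_const, Matrix.mul_zero, add_zero] using this
    have k3 : dMb l Q z = 0 := by
      rw [← Matrix.mul_nonsing_inv_cancel_right (A z) (dMb l Q z) b.isUnit, hA]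
      simp only [Matrix.mul_add, ← Matrix.mul_assoc, k1, k2, Matrix.zero_mul, add_zero]
    rw [dMb_mul (c.1.add (smM_const _)) (smM_const _), dMb_add c.1 (smM_const _), k3]
    simp
  · rw [← Matrix.nonsing_inv_mul_cancel_left _ (pr k * _) e.isUnit, ← Matrix.mul_assoc _ (pr k), j1,
      ← j2, Matrix.mul_assoc (Q z), Matrix.mul_nonsing_inv_cancel_left _ _ e.isUnit, c.2.2.1]

/-- The connection in the frame. -/
def bb (h S : E n → Mat n) (k : ℕ) (j : Fin n) (z : E n) : Mat n :=
  (S z)⁻¹ * ((dM j S z + gp h j z * S z) * pr k)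

theorem conn (H : ∀ᶠ w in 𝓝 z, L2 h P w ∧ Ad P S k w) :
    (∀ j, SmM (bb h S k j) z) ∧ (∀ j, pr k * bb h S k j z = bb h S k j z) ∧
      ∀ j l, dMb l (bb h S k j) z = 0 := by
  obtain ⟨a, b⟩ := H.self_of_nhds
  have g := gp_sm a.sh (det0 a)
  have s1 := fun j => ((b.sm.dM j).add ((g j).mul b.sm)).mul (smM_const (pr k))
  refine ⟨fun j => (b.sm.inv b.det).mul (s1 j), fun j => ?_, fun j l => ?_⟩
  · have s2 := b.sm.mul (smM_const (pr k))
    have c1 := (dM_mul (k := j) a.sp s2).symm.trans (dM_congr (H.mono fun w hw => hw.2.im))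
    have c2 : dM j (fun w => S w * pr k) z = dM j S z * pr k := by
      rw [dM_mul b.sm (smM_const _)]; simp
    have c3 := congrArg (· * (S z * pr k)) (f1 a j)
    have c4 : P z * (dM j P z * (S z * pr k)) = 0 := by
      have := congrArg (P z * ·) c1
      simpa only [Matrix.mul_add, ← Matrix.mul_assoc (P z) (P z), a.idem, add_eq_right] using this
    simp only [Matrix.mul_add, Matrix.add_mul, Matrix.mul_assoc, b.im, c4, zero_add] at c3
    rw [c2] at c1
    have c5 : (dM j S z + gp h j z * S z) * pr k = P z * ((dM j S z + gp h j z * S z) * pr k) := by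
      rw [Matrix.add_mul, Matrix.mul_add, Matrix.mul_assoc, c3]
      nth_rewrite 1 [← c1]
      abel
    rw [bb, c5, ← Matrix.mul_assoc (S z)⁻¹, ← Matrix.mul_assoc (pr k), b.su]
  · have c1 : dMb l (dM j S) z = 0 := by
      rw [← dM_dMb b.sm, dM_congr (T := fun _ => 0) (H.mono fun w hw => hw.2.hol l), dM_const]
    have c2 : dMb l (gp h j) z * S z * pr k = 0 := by
      rw [Matrix.mul_assoc, ← b.im, ← Matrix.mul_assoc, f3 a, Matrix.zero_mul]
    refine (dMb_mul (b.sm.inv b.det) (s1 j)).trans ?_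
    rw [dMb_inv b.sm b.det (b.hol l), dMb_mul ((b.sm.dM j).add ((g j).mul b.sm)) (smM_const _),
      dMb_add (b.sm.dM j) ((g j).mul b.sm), dMb_mul (g j) b.sm, c1, b.hol]
    simp [c2]

theorem conn_flat (H : ∀ᶠ w in 𝓝 z, L2 h P w ∧ Ad P S k w) (j l : Fin n) :
    dM j (bb h S k l) z + bb h S k j z * bb h S k l z =
      dM l (bb h S k j) z + bb h S k l z * bb h S k j z := by
  obtain ⟨a, b⟩ := H.self_of_nhds
  obtain ⟨s, p, -⟩ := conn H
  have g := gp_sm a.sh (det0 a)
  have e : ∀ j w, (S w).det ≠ 0 → S w * bb h S k j w = (dM j S w + gp h j w * S w) * pr k :=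
    fun j w hw => Matrix.mul_nonsing_inv_cancel_left _ _ hw.isUnit
  have key : ∀ j l, S z * (dM j (bb h S k l) z + bb h S k j z * bb h S k l z) =
      dM j (dM l S) z * pr k + (gp h l z * dM j S z * pr k + gp h j z * dM l S z * pr k) +
        (dM j (gp h l) z + gp h j z * gp h l z) * P z * (S z * pr k) := by
    intro j l
    have c1 := (dM_mul (k := j) b.sm (s l)).symm.trans
      (dM_congr (H.mono fun w hw => e l w hw.2.det))
    rw [dM_mul ((b.sm.dM l).add ((g l).mul b.sm)) (smM_const _),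
      dM_add (b.sm.dM l) ((g l).mul b.sm), dM_mul (g l) b.sm, dM_const, Matrix.mul_zero,
      add_zero] at c1
    rw [Matrix.mul_add, ← Matrix.mul_assoc, e j z b.det, Matrix.mul_assoc _ (pr k), p,
      Matrix.add_mul, Matrix.mul_assoc (gp h j z), e l z b.det, ← add_assoc,
      add_comm (S z * _), c1, Matrix.mul_assoc _ (P z), b.im]
    simp only [Matrix.add_mul, Matrix.mul_add, Matrix.mul_assoc]
    abel
  refine ((Matrix.isUnit_iff_isUnit_det _).2 b.det.isUnit).mul_left_cancel ?_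
  rw [key, key, f4 a, dM_dM b.sm, add_comm (gp h l z * dM j S z * pr k)]

theorem solve {B : Fin n → E n → Mat n} (H : ∀ᶠ z in 𝓝 x, (∀ j, SmM (B j) z) ∧
    (∀ j l, dMb l (B j) z = 0) ∧ ∀ j l, dM j (B l) z + B j z * B l z = dM l (B j) z + B l z * B j z) :
    ∃ T : E n → Mat n, T x = 1 ∧ ∀ᶠ z in 𝓝 x, SmM T z ∧ (∀ l, dMb l T z = 0) ∧
      ∀ j, dM j T z = T z * B j z := by
  have h1 : ∀ᶠ z in 𝓝 x, FlatAt (fun w => lin fun j => op (B j w)) (fun _ => 1) z := by
    filter_upwards [H] with z ⟨a, b, c⟩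
    have hL := hasFDerivAt_lin fun j => hasFDerivAt_op (a j) (b j)
    have e4 : ∀ ξ η, fderiv ℂ (fun w => lin fun j => op (B j w)) z ξ η +
        (lin fun j => op (B j z)) ξ * (lin fun j => op (B j z)) η =
        ∑ l, ∑ j, (ξ l * η j) • op (dM l (B j) z + B l z * B j z) := by
      intro ξ η
      rw [hL.fderiv]
      simp only [lin_apply, ContinuousLinearMap.sum_apply, ContinuousLinearMap.smul_apply, map_mul,
        map_add, Finset.sum_mul, Finset.mul_sum, Finset.smul_sum, smul_add, Finset.sum_add_distrib,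
        mul_smul', smul_mul', smul_smul]
      congr 1
      rw [Finset.sum_comm]
    refine ⟨hL.differentiableAt, differentiableAt_const _, fun ξ => by simp, fun ξ η => ?_⟩
    rw [e4, e4, Finset.sum_comm]
    simp only [mul_comm (η _)]
    exact congrArg _ (Finset.sum_congr rfl fun j _ => Finset.sum_congr rfl fun l _ => by rw [c])
  obtain ⟨T, t0, hT⟩ := frame h1 (T₀ := 1) (mul_one 1)
  have ent : ∀ (A : E n →L[ℂ] E n) a b, op.symm A a b = A (Pi.single b 1) a := fun A a b => by
    conv_rhs => rw [← op.apply_symm_apply A, op_apply, Matrix.mulVec_single_one]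
    rfl
  have dif : ∀ w, DifferentiableAt ℂ T w → ∀ a b,
      DifferentiableAt ℂ (fun w => op.symm (T w) a b) w := fun w hw a b => by
    simp only [ent]
    exact differentiableAt_pi.1 (hw.clm_apply (differentiableAt_const _)) a
  refine ⟨fun w => op.symm (T w), by simp only [t0, map_one], ?_⟩
  filter_upwards [hT, hT.eventually_nhds] with z a b
  have s : SmM (fun w => op.symm (T w)) z := fun i j =>
    ((stHOL n _ z).2.2 (b.mono fun w hw => dif w hw.1 i j)).1
  have d : ∀ l, dMb l (fun w => op.symm (T w)) z = 0 := fun l => by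
    ext i j
    exact ((stHOL n _ z).1 (s.diff i j)).1 (dif z a.1 i j) l
  refine ⟨s, d, fun j => op.injective ?_⟩
  have c := hasFDerivAt_op s d
  have c2 := a.2.2 (Pi.single j 1)
  simp only [AlgEquiv.apply_symm_apply] at c
  rw [c.fderiv, lin_single, lin_single] at c2
  rw [c2, map_mul, AlgEquiv.apply_symm_apply]

end PB1

open PB1 in
theorem st_PB1 : St_PB1 := by
  intro n k h P x hk H hd
  obtain ⟨S, hS⟩ := frame0 hk H hd
  have H2 := (H.and hS).eventually_nhds
  obtain ⟨T, t0, hT⟩ := solve (B := bb h S k) (x := x)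
    (H2.mono fun z hz => ⟨(conn hz).1, (conn hz).2.2, conn_flat hz⟩)
  have pp : (pr k * pr k : Mat n) = pr k := pr_mul_pr k
  set V : E n → Mat n := fun w => pr k * T w * pr k + (1 - pr k) with hV
  have sV : ∀ w, SmM T w → SmM V w := fun w hw =>
    (((smM_const _).mul hw).mul (smM_const _)).add (smM_const _)
  have Vx : V x = 1 := by simp only [hV, t0, Matrix.mul_one, pp, add_sub_cancel]
  refine ⟨fun w => S w * (V w)⁻¹, ?_⟩
  filter_upwards [hS, H2, hT, (sV x hT.self_of_nhds.1).ev_det (by rw [Vx]; simp)] with z a b c d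
  have s := sV z c.1
  have p := (conn b).2.1
  have p' : ∀ j, bb h S k j z * pr k = bb h S k j z := fun j => by
    simp only [bb, Matrix.mul_assoc, pp]
  have v1 : V z * pr k = pr k * V z := by
    simp only [hV, Matrix.add_mul, Matrix.mul_add, Matrix.sub_mul, Matrix.mul_sub, Matrix.one_mul,
      Matrix.mul_one, Matrix.mul_assoc, pp, ← Matrix.mul_assoc (pr k) (pr k)]
  have v2 : (V z)⁻¹ * pr k = pr k * (V z)⁻¹ := by
    rw [← Matrix.mul_nonsing_inv_cancel_right (V z) ((V z)⁻¹ * pr k) d.isUnit,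
      Matrix.mul_assoc (V z)⁻¹, ← v1, Matrix.nonsing_inv_mul_cancel_left _ _ d.isUnit]
  have v3 : ∀ l, dMb l V z = 0 := fun l => by
    rw [hV, dMb_add (((smM_const _).mul c.1).mul (smM_const _)) (smM_const _),
      dMb_mul ((smM_const _).mul c.1) (smM_const _), dMb_mul (smM_const _) c.1, c.2.1]
    simp
  have v4 : ∀ j, dM j V z = V z * bb h S k j z := fun j => by
    rw [hV, dM_add (((smM_const _).mul c.1).mul (smM_const _)) (smM_const _),
      dM_mul ((smM_const _).mul c.1) (smM_const _), dM_mul (smM_const _) c.1, c.2.2]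
    simp only [dM_const, Matrix.zero_mul, Matrix.mul_zero, zero_add, add_zero, Matrix.add_mul,
      Matrix.sub_mul, Matrix.one_mul, Matrix.mul_assoc, p, p', sub_self]
  clear_value V
  refine ⟨?_, a.sm.mul (s.inv d), fun l => ?_, ?_, ?_, fun j => ?_⟩
  · rw [Matrix.det_mul]
    exact mul_ne_zero a.det (Matrix.isUnit_nonsing_inv_det _ d.isUnit).ne_zero
  · rw [dMb_mul a.sm (s.inv d), a.hol, dMb_inv s d (v3 l)]
    simp
  · rw [Matrix.mul_assoc, Matrix.mul_assoc, v2, ← Matrix.mul_assoc (S z), ← Matrix.mul_assoc, a.im]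
  · rw [Matrix.mul_inv_rev, Matrix.nonsing_inv_nonsing_inv _ d.isUnit, ← Matrix.mul_assoc (pr k),
      ← v1, Matrix.mul_assoc, Matrix.mul_assoc, a.su, Matrix.mul_assoc]
  · rw [dM_mul a.sm (s.inv d), dM_inv s d, v4, Matrix.nonsing_inv_mul_cancel_left _ _ d.isUnit,
      Matrix.mul_neg, ← Matrix.mul_assoc (S z), bb, Matrix.mul_nonsing_inv_cancel_left _ _ a.det.isUnit,
      Matrix.mul_assoc _ (pr k), ← v2, Matrix.add_mul, Matrix.neg_mul, Matrix.mul_assoc _ (_ * pr k),
      Matrix.mul_assoc _ (pr k), pp, gp]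
    simp only [Matrix.add_mul, Matrix.mul_assoc]
    abel

end Pool.Agent.Lib.PM
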