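import Pool.Agent.Lib.PM.Blue
import Pool.Agent.Lib.HS85.Prod

/-! Project pm78, block PB2: straightening of commuting holomorphic fields. -/

open scoped Topology Matrix
open Set Filter Metric

noncomputable section

namespace Pool.Agent.Lib.PM

namespace X29

open Pool.Agent.HS85

variable {V : Type*} [NormedAddCommGroup V] [NormedSpace ℂ V] [FiniteDimensional ℂ V]

/-- Straightening of a family of commuting fields, operator form. -/
theorem straighten {e : V → V →L[ℂ] V} {x : V} {U π : V →L[ℂ] V} (hU : IsUnit U)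
    (hπ : π * π = π) (heπ : ∀ z, e z * π = e z) (hex : e x = U * π)
    (he : ∀ᶠ z in 𝓝 x, DifferentiableAt ℂ e z ∧
      ∀ ξ η, fderiv ℂ e z (e z ξ) η = fderiv ℂ e z (e z η) ξ) :
    ∃ χ : V → V, IsUnit (fderiv ℂ χ x) ∧ ∀ᶠ z in 𝓝 x, DifferentiableAt ℂ χ z ∧
      fderiv ℂ χ z * e z = π := by
  have : CompleteSpace V := FiniteDimensional.complete ℂ V
  have hπ'' : (1 - π) * π = 0 := by rw [sub_mul, one_mul, hπ, sub_self]
  have hs : Tendsto (Prod.snd : V × V → V) (𝓝 (0, x)) (𝓝 x) := continuous_snd.tendsto _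
  obtain ⟨Φ, hΦ⟩ := frob (fun q : V × V => e q.2) 0 x (by
    filter_upwards [hs.eventually he] with q h1
    have h3 := HasFDerivAt.comp (f := Prod.snd) q h1.1.hasFDerivAt hasFDerivAt_snd
    refine ⟨h3.differentiableAt, fun ξ η => ?_⟩
    rw [show (fun q : V × V => e q.2) = e ∘ Prod.snd from rfl, h3.fderiv]
    exact h1.2 ξ η)
  set B : V →L[ℂ] V := U * (1 - π) with hB
  set c : V → V × V := fun w => (π w, x + B w) with hc
  have hcd : ∀ w, HasFDerivAt c (π.prod B) w := fun w =>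
    π.hasFDerivAt.prodMk (B.hasFDerivAt.const_add x)
  have hc0 : c 0 = (0, x) := by simp [hc]
  have hct : Tendsto c (𝓝 0) (𝓝 (0, x)) := hc0 ▸ (hcd 0).continuousAt.tendsto
  have hΦ0 := hΦ.self_of_nhds
  have hψ0 : (Φ ∘ c) 0 = x := by rw [Function.comp, hc0]; exact hΦ0.2.1
  have hψ : ∀ᶠ w in 𝓝 (0 : V), DifferentiableAt ℂ (Φ ∘ c) w ∧
      fderiv ℂ (Φ ∘ c) w * π = e ((Φ ∘ c) w) := by
    filter_upwards [hct.eventually hΦ] with w hw
    have h1 := hw.1.hasFDerivAt.comp w (hcd w)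
    refine ⟨h1.differentiableAt, ?_⟩
    rw [h1.fderiv]
    ext u
    have h2 : B (π u) = 0 := by
      rw [← mul_apply_eq_comp, hB, mul_assoc, hπ'', mul_zero, zero_apply]
    have h3 : π (π u) = π u := DFunLike.congr_fun hπ u
    have h4 : e (Φ (c w)) (π u) = e (Φ (c w)) u := DFunLike.congr_fun (heπ _) u
    simp [h2, h3, hw.2.2, h4]
  have hψ' : fderiv ℂ (Φ ∘ c) 0 = U := by
    have h0 : HasFDerivAt Φ (fderiv ℂ Φ (0, x)) (c 0) := hc0 ▸ hΦ0.1.hasFDerivAt
    have h1 : Tendsto (fun y : V => ((0 : V), y)) (𝓝 x) (𝓝 (0, x)) :=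
      Continuous.tendsto (by fun_prop) x
    have h2 := (HasFDerivAt.comp (f := fun y : V => ((0 : V), y)) x hΦ0.1.hasFDerivAt
      (hasFDerivAt_prodMk_right (0 : V) x)).unique
      ((hasFDerivAt_id x).congr_of_eventuallyEq ((h1.eventually hΦ).mono fun y hy => hy.2.1))
    rw [(h0.comp 0 (hcd 0)).fderiv]
    ext u
    have h3 : fderiv ℂ Φ (0, x) (0, B u) = B u := DFunLike.congr_fun h2 (B u)
    have h4 := hΦ0.2.2 (π u)
    rw [hΦ0.2.1, ← mul_apply_eq_comp, heπ, hex] at h4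
    have h5 : ((π u, B u) : V × V) = (π u, 0) + (0, B u) := by simp
    rw [ContinuousLinearMap.comp_apply, ContinuousLinearMap.prod_apply, h5, map_add, h3, h4,
      ← add_apply, hB, ← mul_add, add_sub_cancel, mul_one]
  obtain ⟨φ, hφ, hφ0, hφs, hφd, hφi, -⟩ := loc_inv (hψ.mono fun _ h => h.1) (hψ' ▸ hU) hψ
  have hxt : x ∈ φ.target := by rw [← hψ0, ← hφ]; exact φ.map_source hφ0
  have hg : ∀ z ∈ φ.target, fderiv ℂ φ.symm z * fderiv ℂ (Φ ∘ c) (φ.symm z) = 1 := by
    intro z hz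
    have h1 := φ.map_target hz
    have h2 : HasFDerivAt φ.symm (fderiv ℂ φ.symm z) (φ (φ.symm z)) := by
      rw [φ.right_inv hz]
      exact (hφi.differentiableAt (φ.open_target.mem_nhds hz)).hasFDerivAt
    have h3 := (hφd.differentiableAt (φ.open_source.mem_nhds h1)).hasFDerivAt
    have h4 := (h2.comp _ h3).unique
      ((hasFDerivAt_id _).congr_of_eventuallyEq (φ.eventually_left_inverse h1))
    rw [← hφ]
    exact h4
  refine ⟨φ.symm, ?_, ?_⟩
  · have h1 := hg x hxt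
    have h2 : φ.symm x = 0 := by rw [← hψ0, ← hφ]; exact φ.left_inv hφ0
    rw [h2, hψ'] at h1
    obtain ⟨u, rfl⟩ := hU
    have h3 : fderiv ℂ φ.symm x = ↑u⁻¹ := by
      rw [← mul_one (fderiv ℂ φ.symm x), ← u.mul_inv, ← mul_assoc, h1, one_mul]
    rw [h3]
    exact u⁻¹.isUnit
  · filter_upwards [φ.open_target.mem_nhds hxt] with z h6
    refine ⟨hφi.differentiableAt (φ.open_target.mem_nhds h6), ?_⟩
    have a1 := (hφs (φ.map_target h6)).2
    rw [← hφ, φ.right_inv h6, hφ] at a1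
    rw [← a1, ← mul_assoc, hg z h6, one_mul]

end X29

open Pool.Agent.Lib.SV (E)
open Pool.Agent.Lib.HS32 Pool.Agent.HS85

theorem st_PB2 : St_PB2 := by
  intro n k U x hU h
  have hπ : op (pr k : Mat n) * op (pr k) = op (pr k) := by rw [← map_mul, pr_mul_pr]
  obtain ⟨χ, h1, h2⟩ := X29.straighten (e := fun z => op (U z) * op (pr k)) (x := x)
    (U := op (U x)) (π := op (pr k))
    (((Matrix.isUnit_iff_isUnit_det _).2 (isUnit_iff_ne_zero.2 hU)).map op) hπ
    (fun z => by rw [mul_assoc, hπ]) rfl (by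
      filter_upwards [h] with z hz
      have h3 := (hasFDerivAt_op hz.1 hz.2.1).mul_const' (op (pr k))
      refine ⟨h3.differentiableAt, fun ξ η => ?_⟩
      have h4 : ∀ a b : E n,
          fderiv ℂ (fun z => (op (U z) * op (pr k) : E n →L[ℂ] E n)) z
          ((op (U z) * op (pr k) : E n →L[ℂ] E n) a) b =
          (∑ m, ((U z * pr k) *ᵥ a) m • (dM m U z * pr k)) *ᵥ b := by
        intro a b
        rw [h3.fderiv, ← map_mul, op_apply, ← op_apply _ b, map_sum]
        simp only [smul_apply, lin_apply, map_smul, map_mul, MulOpposite.smul_eq_mul_unop,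
          MulOpposite.unop_op, Finset.sum_mul, smul_mul']
      rw [h4, h4, hz.2.2])
  refine ⟨χ, h1, ?_⟩
  filter_upwards [h2] with z hz
  refine ⟨hz.1, op.injective ?_⟩
  rw [map_mul, map_mul, op_jm, mul_assoc, hz.2]

end Pool.Agent.Lib.PM
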