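import Pool.Agent.Lib.PM.Blue
import Pool.Agent.Lib.HS85.Prod
import Pool.Agent.Lib.HS32.MAll

/-! Project pm78: the boxes cover the manifold. -/

open scoped Classical Topology ContDiff ComplexOrder Matrix
open Set Filter

noncomputable section

namespace Pool.Agent.Lib.PM

open Pool.Agent.Lib.SV (E)
open Pool.Agent.Lib.HS32 Pool.Agent.HS85

namespace PB90

variable {n k : ℕ}

/-- The torsion vanishes on two vectors of the leaf. -/
theorem tors_zero {P : Mat n} {T : Fin n → Mat n} (h : ∀ m, (∑ i, P i m • T i) * P = 0)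
    {a b : E n} (ha : P *ᵥ a = a) (hb : P *ᵥ b = b) : (∑ m, a m • T m) *ᵥ b = 0 := by
  have e : ∑ m, a m • T m = ∑ l, a l • ∑ i, P i l • T i := by
    conv_lhs => rw [← ha]
    simp only [Matrix.mulVec, dotProduct, Finset.sum_smul, Finset.smul_sum, smul_smul]
    rw [Finset.sum_comm]
    exact Finset.sum_congr rfl fun l _ => Finset.sum_congr rfl fun i _ => by rw [mul_comm]
  rw [e, ← hb, Matrix.mulVec_mulVec, Finset.sum_mul]
  simp only [Matrix.smul_mul, h, smul_zero, Finset.sum_const_zero, Matrix.zero_mulVec]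

theorem gp_apply (h : E n → Mat n) (z : E n) (j i m : Fin n) :
    (gam h j z - tm h j z) i m = gam h m z i j := by
  simp [tm]

theorem gp_swap (h : E n → Mat n) (z : E n) (a b : E n) :
    (∑ m, a m • (gam h m z - tm h m z)) *ᵥ b = (∑ m, b m • gam h m z) *ᵥ a := by
  ext i
  simp only [Matrix.mulVec, dotProduct, Matrix.sum_apply, Matrix.smul_apply, gp_apply, smul_eq_mul,
    Finset.sum_mul]
  rw [Finset.sum_comm]
  exact Finset.sum_congr rfl fun l _ => Finset.sum_congr rfl fun m _ => by ring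

/-- The fields of the frame commute. -/
theorem comm {h P U : E n → Mat n} {z : E n} (hL : L2 h P z)
    (h1 : P z * U z * pr k = U z * pr k)
    (h2 : ∀ j, dM j U z * pr k = -((gam h j z - tm h j z) * U z * pr k)) (a b : E n) :
    (∑ m, ((U z * pr k) *ᵥ a) m • (dM m U z * pr k)) *ᵥ b =
      (∑ m, ((U z * pr k) *ᵥ b) m • (dM m U z * pr k)) *ᵥ a := by
  have e : ∀ c d : E n, (∑ m, c m • (dM m U z * pr k)) *ᵥ d =
      -((∑ m, c m • (gam h m z - tm h m z)) *ᵥ ((U z * pr k) *ᵥ d)) := fun c d => by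
    rw [Matrix.mulVec_mulVec, Finset.sum_mul, ← Matrix.neg_mulVec, ← Finset.sum_neg_distrib]
    simp only [h2, Matrix.smul_mul, smul_neg, Matrix.mul_assoc]
  have p : ∀ c : E n, P z *ᵥ ((U z * pr k) *ᵥ c) = (U z * pr k) *ᵥ c := fun c => by
    rw [Matrix.mulVec_mulVec, ← Matrix.mul_assoc, h1]
  rw [e, e, gp_swap]
  congr 1
  have t := tors_zero (T := fun i => tm h i z) hL.tff (p b) (p a)
  simp only [smul_sub, Finset.sum_sub_distrib, Matrix.sub_mulVec, t, sub_zero]

/-- The metric does not depend on the first coordinates. -/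
theorem cst {h h' U : E n → Mat n} {χ : E n → E n} {w : E n} (hχ : HolN χ w)
    (hK : (jm χ w).det ≠ 0) (s' : SmM h' (χ w)) (d' : (h' (χ w)).det ≠ 0)
    (he : ∀ᶠ v in 𝓝 w, h v = (jm χ v)ᴴ * h' (χ v) * jm χ v) (sU : SmM U w)
    (h1 : ∀ᶠ v in 𝓝 w, jm χ v * U v * pr k = pr k)
    (h2 : ∀ j, dM j U w * pr k = -((gam h j w - tm h j w) * U w * pr k)) (i : Fin n)
    (hi : i.val < k) : dM i h' (χ w) = 0 := by
  obtain ⟨-, sK, cK, -⟩ := mCHN n χ w hχ
  have g := ((mPB n χ w h' h hχ hK s' he).2.2 d').1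
  set K := jm χ with hKd
  set V := U w * pr k with hV
  have a0 : K w * V = pr k := by rw [hV, ← Matrix.mul_assoc]; exact h1.self_of_nhds
  have a1 : ∀ j, dM j K w * V = K w * (gam h j w - tm h j w) * V := fun j => by
    have b1 : dM j (fun v => K v * U v * pr k) w = 0 :=
      (dM_congr (T := fun _ => pr k) h1).trans (dM_const _)
    rw [dM_mul (sK.mul sU) (smM_const _), dM_mul sK sU, dM_const, Matrix.mul_zero, add_zero,
      Matrix.add_mul, Matrix.mul_assoc, Matrix.mul_assoc, h2, Matrix.mul_neg, add_neg_eq_zero] at b1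
    rw [hV, b1]
    simp only [Matrix.mul_assoc]
  have a2 : ∑ m, V m i • dM m K w = K w * ∑ m, V m i • gam h m w := by
    ext c j
    have b1 := congrFun (congrFun (a1 j) c) i
    simp only [Matrix.mul_apply, gp_apply, Finset.sum_mul] at b1
    simp only [Matrix.mul_apply, Matrix.sum_apply, Matrix.smul_apply, smul_eq_mul, Finset.mul_sum]
    rw [Finset.sum_comm]
    refine (Finset.sum_congr rfl fun m _ => ?_).trans (b1.trans ?_)
    · rw [cK c j m, mul_comm]
    · exact Finset.sum_congr rfl fun m _ => Finset.sum_congr rfl fun l _ => by ring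
  have a3 : ∑ m, V m i • ∑ a, K w a m • gam h' a (χ w) = gam h' i (χ w) := by
    have b1 : ∀ a, ∑ m, V m i * K w a m = if a = i then 1 else 0 := fun a => by
      have := congrFun (congrFun a0 a) i
      rw [Matrix.mul_apply, pr, Matrix.diagonal_apply] at this
      rw [Finset.sum_congr rfl fun m _ => mul_comm (V m i) (K w a m), this]
      split_ifs with h3 h4
      · rfl
      · exact absurd (h3 ▸ hi) h4
      · rfl
    simp only [Finset.smul_sum, smul_smul]
    rw [Finset.sum_comm]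
    simp only [← Finset.sum_smul, b1, ite_smul, one_smul, zero_smul, Finset.sum_ite_eq',
      Finset.mem_univ, if_true]
  have a4 : ∑ m, V m i • gam h m w = (K w)⁻¹ * gam h' i (χ w) * K w +
      (K w)⁻¹ * ∑ m, V m i • dM m K w := by
    rw [← a3]
    simp only [g, smul_add, Finset.sum_add_distrib, Finset.mul_sum, Finset.sum_mul, Matrix.mul_smul,
      Matrix.smul_mul]
  rw [a2, Matrix.nonsing_inv_mul_cancel_left _ _ hK.isUnit, right_eq_add] at a4
  have a5 : gam h' i (χ w) = 0 := by
    have u : IsUnit (K w) := (Matrix.isUnit_iff_isUnit_det _).2 hK.isUnit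
    have b1 : K w * ((K w)⁻¹ * gam h' i (χ w) * K w) = gam h' i (χ w) * K w := by
      rw [Matrix.mul_assoc, Matrix.mul_nonsing_inv_cancel_left _ _ hK.isUnit]
    rw [a4, Matrix.mul_zero] at b1
    exact u.mul_right_cancel (b1.symm.trans (Matrix.zero_mul _).symm)
  rw [← Matrix.mul_nonsing_inv_cancel_left _ (dM i h' (χ w)) d'.isUnit, ← gam, a5, Matrix.mul_zero]

end PB90

theorem st_PB3 (h1 : St_PB1) (h2 : St_PB2) : St_PB3 := by
  intro n M h P k hH hP hL
  refine ⟨hH, hP.en, hP.le, fun x => ?_⟩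
  obtain ⟨e, he, hx⟩ := M.cov x
  have hL' := hL.ev he (e.map_source hx)
  obtain ⟨U, hU⟩ := h1 n k (h e) (P e) (e x) hP.le hL' (hP.det 1 e he _ (e.map_source hx))
  obtain ⟨χ, hu, hχ⟩ := h2 n k U (e x) hU.self_of_nhds.1 (by
    filter_upwards [hU, hL'] with z a b
    exact ⟨a.2.1, a.2.2.1, PB90.comm b a.2.2.2.1 a.2.2.2.2.2⟩)
  obtain ⟨φ, rfl, h0, hs, hd, hi, hun⟩ := loc_inv (hχ.mono fun _ h => h.1) hu (hχ.and hU)
  have he' := M.sat e he φ hd hi
  have hJ := fun y hy => ((mTR n M).2.2.2.2.2 e he φ hd hi y hy).1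
  have hK : ∀ w ∈ φ.source, IsUnit (jm φ w) := fun w hw => by
    have := (hun _ hw).map op.symm
    rwa [← op_jm, op.symm_apply_apply] at this
  have key : ∀ y ∈ (e.trans φ).source, pr k * P (e.trans φ) (e.trans φ y) = P (e.trans φ) (e.trans φ y)
      ∧ P (e.trans φ) (e.trans φ y) * pr k = pr k ∧
      ∀ i : Fin n, i.val < k → dM i (h (e.trans φ)) (e.trans φ y) = 0 := by
    intro y hy
    have hw : e y ∈ φ.source := hy.2
    have a2 := hP.en.cmp _ he' e he y hy hy.1
    beta_reduce at a2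
    rw [hJ y hy] at a2
    obtain ⟨⟨-, a3⟩, a4, a5, -, a6, a7, a8⟩ := hs hw
    have a9 : jm φ (e y) * P e (e y) = pr k * (U (e y))⁻¹ * P e (e y) := by
      conv_lhs => rw [← Matrix.mul_nonsing_inv_cancel_left _ (P e (e y)) a4.isUnit, ← a7]
      conv_rhs => rw [← a3]
      simp only [Matrix.mul_assoc]
    refine ⟨(hK _ hw).mul_right_cancel ?_, ?_, fun i hi' => ?_⟩
    · rw [Matrix.mul_assoc, ← a2, a9, ← Matrix.mul_assoc, ← Matrix.mul_assoc, pr_mul_pr]
    · conv_lhs => rw [← a3, ← Matrix.mul_assoc, ← Matrix.mul_assoc, ← a2, Matrix.mul_assoc _ (P e _),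
        Matrix.mul_assoc, a6, ← Matrix.mul_assoc, a3]
    · have ho := φ.open_source.mem_nhds hw
      have ht := (e.trans φ).map_source hy
      refine PB90.cst (h := h e) (U := U) (χ := φ) (w := e y) ?_
        ((Matrix.isUnit_iff_isUnit_det _).1 (hK _ hw)).ne_zero (hH.sm _ he' _ ht)
        (hH.pos _ he' _ ht).det_pos.ne' ?_ a5 ?_ a8 i hi'
      · filter_upwards [ho] with v hv using (hs hv).1.1
      · filter_upwards [ho, e.open_target.mem_nhds (e.map_source hy.1)] with v hv hv'
        have b1 : e.symm v ∈ (e.trans φ).source := ⟨e.map_target hv', by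
          show e (e.symm v) ∈ φ.source
          rwa [e.right_inv hv']⟩
        have b2 := hH.cmp _ he' e he _ b1 b1.1
        beta_reduce at b2
        rw [hJ _ b1, OpenPartialHomeomorph.trans_apply, e.right_inv hv'] at b2
        exact b2
      · filter_upwards [ho] with v hv using (hs hv).1.2
  have key' := fun z (hz : z ∈ (e.trans φ).target) => by
    have := key _ ((e.trans φ).map_target hz)
    rw [(e.trans φ).right_inv hz] at this
    exact this
  exact ⟨e.trans φ, ⟨he', fun z hz => (key' z hz).1, fun z hz => (key' z hz).2.1,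
    fun z hz => (key' z hz).2.2⟩, hx, h0⟩

end Pool.Agent.Lib.PM
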