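import Pool.Agent.Lib.PM.Blue
import Pool.Agent.Lib.HS32.MAll

/-! Project pm78: changes of boxes. -/

open scoped Classical Topology ContDiff ComplexOrder Matrix Manifold
open Set MeasureTheory Complex Metric Filter

noncomputable section

namespace Pool.Agent.Lib.PM

open Pool.Agent.Lib.SV (E)
open Pool.Agent.Lib.HS32 Pool.Agent.Lib.HS32.Mf

namespace PB4

variable {n k : ℕ}

theorem io1 (hk : k ≤ n) : (io n k)ᴴ * io n k = 1 := by
  ext a b
  simp only [Matrix.mul_apply, Matrix.conjTranspose_apply, io, Matrix.of_apply, Matrix.one_apply]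
  rw [Finset.sum_eq_single (Fin.castLE hk a) (fun i _ hi => ?_) (by simp)]
  · simp [Fin.ext_iff]
  · rw [if_neg fun h : i.val = a.val => hi (Fin.ext h), star_zero, zero_mul]

theorem io2 : io n k * (io n k)ᴴ = pr k := by
  ext a b
  simp only [Matrix.mul_apply, Matrix.conjTranspose_apply, io, Matrix.of_apply, pr,
    Matrix.diagonal_apply]
  by_cases h : a.val < k
  · rw [Finset.sum_eq_single ⟨a, h⟩ (fun i _ hi => ?_) (by simp)]
    · simp [Fin.ext_iff, h, eq_comm]
    · rw [if_neg fun h => hi (Fin.ext h.symm), zero_mul]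
  · rw [Finset.sum_eq_zero fun i _ => ?_, if_neg h, ite_self]
    rw [if_neg fun h' => h (by rw [h']; exact i.2), zero_mul]

theorem io3 (v : E k) {a : Fin n} (ha : ¬a.val < k) : (io n k *ᵥ v) a = 0 := by
  simp only [Matrix.mulVec, dotProduct, io, Matrix.of_apply]
  exact Finset.sum_eq_zero fun i _ => by
    rw [if_neg fun h' => ha (by rw [h']; exact i.2), zero_mul]

/-- A matrix as a real linear map. -/
def cl (B : Matrix (Fin n) (Fin k) ℂ) : E k →L[ℝ] E n :=
  (LinearMap.toContinuousLinearMap B.mulVecLin).restrictScalars ℝ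

theorem inv {G : Type} [NormedAddCommGroup G] [NormedSpace ℝ G] (A : E k →L[ℝ] E n)
    {f : E n → G} {z : E n} (L : E k →L[ℝ] G)
    (h : ∀ᶠ w in 𝓝 z, DifferentiableAt ℝ f w ∧ ∀ v, fderiv ℝ f w (A v) = L v) :
    ∀ᶠ p : E n × E k in 𝓝 (z, 0), f (p.1 + A p.2) = f p.1 + L p.2 := by
  obtain ⟨r, r0, hr⟩ := Metric.eventually_nhds_iff_ball.1 h
  have c : Continuous fun p : E n × E k => p.1 + A p.2 := by fun_prop
  filter_upwards [continuous_fst.continuousAt.eventually (ball_mem_nhds z r0),
    c.continuousAt.eventually (isOpen_ball.mem_nhds (by simpa using r0 : _ ∈ ball z r))]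
    with p h1 h2
  have d : ∀ v, p.1 + A v ∈ ball z r → HasFDerivAt (fun v => f (p.1 + A v) - L v)
      (0 : E k →L[ℝ] G) v := fun v hv => by
    have := ((hr _ hv).1.hasFDerivAt.comp v (A.hasFDerivAt.const_add p.1)).sub L.hasFDerivAt
    exact this.congr_fderiv (ContinuousLinearMap.ext fun u => sub_eq_zero.2 ((hr _ hv).2 u))
  have o : IsOpen {v | p.1 + A v ∈ ball z r} := isOpen_ball.preimage (by fun_prop)
  have := o.is_const_of_fderiv_eq_zero (𝕜 := ℝ)
    (((convex_ball z r).translate_preimage_right p.1).linear_preimage A.toLinearMap).isPreconnected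
    (fun v hv => (d v hv).differentiableAt.differentiableWithinAt) (fun v hv => (d v hv).fderiv)
    h2 (y := 0) (by simpa using h1)
  simpa [sub_eq_iff_eq_add] using this

variable {M : Mf n} {h P : M.Fam (Mat n)} {e e' : M.Ch} {x : M.X}

theorem col (B : M.BA h P k) (b : M.Box h P k e) (b' : M.Box h P k e') (hx : x ∈ e.source)
    (hx' : x ∈ e'.source) : M.J e e' x * io n k = io n k * M.tA k e e' x := by
  have c : _ = _ := B.en.cmp e b.mem e' b'.mem x hx hx'
  have i : (pr k : Mat n) * io n k = io n k := by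
    rw [← io2, Matrix.mul_assoc, io1 B.le, Matrix.mul_one]
  have j : M.J e e' x * io n k = P e (e x) * M.J e e' x * io n k := by
    rw [← c, ← i, Matrix.mul_assoc, ← Matrix.mul_assoc (P _ _), b'.fix _ (e'.map_source hx')]
  rw [tA, ← Matrix.mul_assoc, ← Matrix.mul_assoc, io2, Matrix.mul_assoc, j, ← Matrix.mul_assoc,
    ← Matrix.mul_assoc, b.im _ (e.map_source hx)]

theorem djm (B : M.BA h P k) (b : M.Box h P k e) (b' : M.Box h P k e') (hx : x ∈ e.source)
    (hx' : x ∈ e'.source) (a i : Fin n) (hi : i.val < k) :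
    fderiv ℝ (fun w => jm (e ∘ e'.symm) w a i) (e' x) = 0 := by
  obtain ⟨t1, t2, -, t3, -⟩ := (mTR n M).2.1 e b.mem e' b'.mem x hx hx'
  obtain ⟨-, -, c3, c4, -⟩ := mCHN n _ _ t1
  have q : (e ∘ e'.symm) (e' x) = e x := congrArg e (e'.left_inv hx')
  have g := ((mPB n _ _ (h e) (h e') t1 t2 (q ▸ B.met.sm e b.mem _ (e.map_source hx))
    (t3.mono fun w hw => by
      have : _ = _ := B.met.cmp e b.mem e' b'.mem _ hw.2.1 hw.2.2.1
      rwa [hw.2.2.2.2.2.1, hw.2.2.2.2.2.2] at this)).2.2
    (q ▸ B.met.det_ne e b.mem _ (e.map_source hx))).1 i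
  rw [gam, b'.cst _ (e'.map_source hx') i hi, Matrix.mul_zero, Finset.sum_eq_zero fun c _ => ?_,
    Matrix.mul_zero, Matrix.zero_mul, zero_add] at g
  · have g1 := Matrix.mul_nonsing_inv_cancel_left (jm (e ∘ e'.symm) (e' x))
      (dM i (jm (e ∘ e'.symm)) (e' x)) t2.isUnit
    rw [← g, Matrix.mul_zero] at g1
    ext v
    rw [fderiv_eq_sum, Finset.sum_eq_zero fun j _ => ?_, zero_apply]
    rw [← dM_apply, ← dMb_apply, c4, c3, ← g1]
    simp
  by_cases hc : c.val < k
  · rw [q, gam, b.cst _ (e.map_source hx) c hc, Matrix.mul_zero, smul_zero]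
  · have := congrArg (fun A => (A *ᵥ Pi.single ⟨i, hi⟩ 1) c) (col B b b' hx hx')
    simp only [← Matrix.mulVec_mulVec] at this
    rw [io3 _ hc, show io n k *ᵥ Pi.single ⟨i, hi⟩ 1 = Pi.single i 1 from by
      ext j; simp [io, Pi.single_apply, Fin.ext_iff], Matrix.mulVec_single_one] at this
    exact smul_eq_zero_of_left this _

end PB4

open PB4 in
theorem st_PB4 : St_PB4 := by
  intro n M h P k B
  refine ⟨⟨io1 B.le, io2⟩, fun e b z hz => ?_, fun e e' b b' x hx hx' => ?_⟩
  · have : ∀ i j, ∀ᶠ p : E n × E k in 𝓝 (z, 0), h e (p.1 + io n k *ᵥ p.2) i j = h e p.1 i j :=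
      fun i j => by
        refine (inv (cl (io n k)) (f := fun w => h e w i j) 0 ?_).mono fun p hp =>
          hp.trans (add_zero _)
        filter_upwards [e.open_target.mem_nhds hz] with w hw
        have s := B.met.sm e b.mem w hw
        refine ⟨s.diff i j, fun v => ?_⟩
        rw [fderiv_eq_sum]
        refine Finset.sum_eq_zero fun a _ => ?_
        by_cases ha : a.val < k
        · have c := b.cst w hw a ha
          rw [dzb_congr (g := fun u => star (h e u j i))
            ((B.met.herm.ev b.mem hw).mono fun u hu => (hu.apply i j).symm),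
            dzb_star (s.diff j i), ← dM_apply, ← dM_apply, c]
          simp
        · rw [show cl (io n k) v a = 0 from io3 v ha]
          simp
    filter_upwards [eventually_all.2 fun i => eventually_all.2 (this i)] with p hp
    exact Matrix.ext hp
  obtain ⟨t1, -, t2, t3, -⟩ := (mTR n M).2.1 e b.mem e' b'.mem x hx hx'
  have k1 : ∀ᶠ w in 𝓝 (e' x), jm (e ∘ e'.symm) w * io n k = M.J e e' x * io n k := by
    have : ∀ (a : Fin n) (i : Fin n), ∀ᶠ w in 𝓝 (e' x), i.val < k →
        jm (e ∘ e'.symm) w a i = M.J e e' x a i := fun a i => by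
      by_cases hi : i.val < k
      · have c : Continuous fun w : E n => (e' x, w - e' x) := by fun_prop
        refine ((c.tendsto' _ (e' x, 0) (by simp)).eventually (inv (ContinuousLinearMap.id ℝ (E n))
          (f := fun w => jm (e ∘ e'.symm) w a i) 0 ?_)).mono fun w hw _ => by simpa [J] using hw
        filter_upwards [t3, t1.eventually_nhds] with w hw hw'
        have := djm B b b' hw.2.1 hw.2.2.1 a i hi
        rw [hw.2.2.2.2.2.1] at this
        exact ⟨(mCHN n _ _ hw').2.1.diff a i, fun v => by rw [this]; rfl⟩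
      · exact Eventually.of_forall fun w h => absurd h hi
    filter_upwards [eventually_all.2 fun a => eventually_all.2 (this a)] with w hw
    ext a j
    rw [Matrix.mul_apply, Matrix.mul_apply]
    refine Finset.sum_congr rfl fun i _ => ?_
    by_cases hi : i.val < k
    · rw [hw a i hi]
    · rw [io, Matrix.of_apply, if_neg fun h' => hi (by rw [h']; exact j.2), mul_zero, mul_zero]
  refine ⟨col B b b' hx hx', Matrix.det_ne_zero_of_right_inverse (B := M.tA k e' e x) ?_,
    ((e'.continuousAt hx').eventually k1).mono fun y hy => ?_, ?_⟩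
  · rw [tA, Matrix.mul_assoc, ← col B b' b hx' hx, Matrix.mul_assoc, ← Matrix.mul_assoc (M.J _ _ _),
      t2, Matrix.one_mul, io1 B.le]
  · rw [tA, tA, Matrix.mul_assoc, Matrix.mul_assoc, ← hy, J]
  refine inv (cl (io n k)) (f := e ∘ e'.symm) (cl (io n k * M.tA k e e' x)) ?_
  filter_upwards [k1, t1.eventually_nhds] with w hw hw'
  have d : DifferentiableAt ℂ (e ∘ e'.symm) w := hw'.self_of_nhds
  refine ⟨d.restrictScalars ℝ, fun v => ?_⟩
  rw [d.fderiv_restrictScalars ℝ, ← col B b b' hx hx', ← hw]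
  exact ((mCHN n _ _ hw').2.2.2.2.2.1 _).trans (Matrix.mulVec_mulVec _ _ _)

end Pool.Agent.Lib.PM
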