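import Pool.Agent.Lib.PM.Blue
import Pool.Agent.Lib.RB.B_RBR

/-! Project pm78: from the statement to the manifold layer and back. -/

open scoped Classical Topology ContDiff ComplexOrder Matrix Manifold
open Set Complex Filter

noncomputable section

namespace Pool.Agent.Lib.PM

open Pool.Agent.Lib.SV (E Pluri)
open Pool.Agent.Lib.HS32 Pool.Agent.Lib.GH Pool.Agent.Lib.HS.BBR Pool.Agent.Lib.RB.R32

namespace BR78

variable {n : ℕ} {X : Type} [TopologicalSpace X] [ChartedSpace (E n) X]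
  [IsManifold 𝓘(ℂ, E n) ω X]

/-- The Finsler function read in every chart. -/
def faF (F : X → E n → ℝ) : (mf n X).Fam (E n → ℝ) := fun e z v =>
  F (e.symm z) (jm (chartAt (M := X) (E n) (e.symm z) ∘ e.symm) z *ᵥ v)

theorem faF_ok {F : X → E n → ℝ} (hF : Finsler F) : (mf n X).Fin' (faF F) := by
  let M : Mf n := mf n X
  let c : M.X → M.Ch := chartAt (M := X) (E n)
  have hc : ∀ x, c x ∈ M.C := fun x y => ⟨cp_chart (X := X) x y, cp_chart (X := X) y x⟩
  have hs : ∀ x, x ∈ (c x).source := mem_chart_source (M := X) (E n)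
  obtain ⟨-, hov, -⟩ := mTR n M
  have hH : ∀ e : M.Ch, ∀ x ∈ e.source, ∀ v,
      faF F e (e x) v = F x (M.J (c x) e x *ᵥ v) := fun e x hx v => by
    simp only [faF, e.left_inv hx, Mf.J]
    rfl
  have cmp : M.Ov fun e e' x => ∀ v, faF F e' (e' x) v = faF F e (e x) (M.J e e' x *ᵥ v) := by
    intro e he e' he' x hx hx' v
    rw [hH e x hx, hH e' x hx', Matrix.mulVec_mulVec,
      ← (hov _ (hc x) e he x (hs x) hx).2.2.2.2 e' he' hx']
  have sm : M.All fun e z => ∀ v, v ≠ 0 →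
      ContDiffAt ℝ ∞ (fun p : E n × E n => faF F e p.1 p.2) (z, v) := by
    intro e he z hz v hv
    obtain ⟨h1, h2, -, h3, -⟩ := hov _ (hc (e.symm z)) e he _ (hs _) (e.map_target hz)
    rw [Mf.J] at h2
    rw [e.right_inv hz] at h1 h2 h3
    obtain ⟨ψ, hψ⟩ : ∃ ψ, ψ = c (e.symm z) ∘ e.symm := ⟨_, rfl⟩
    rw [← hψ] at h1 h2 h3
    obtain ⟨a1, a2, -⟩ := mCHN n _ _ h1
    have hv' : jm ψ z *ᵥ v ≠ 0 := fun h0 =>
      hv (Matrix.eq_zero_of_mulVec_eq_zero h2 h0)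
    have b : ContDiffAt ℝ ∞ (fun p : E n × E n => (ψ p.1, jm ψ p.1 *ᵥ p.2)) (z, v) := by
      refine ContDiffAt.prodMk (a1.comp (z, v) contDiffAt_fst) ?_
      rw [contDiffAt_pi]
      intro i
      simp only [Matrix.mulVec, dotProduct]
      exact ContDiffAt.sum fun j _ => ((a2 i j).comp (z, v) contDiffAt_fst).mul (by fun_prop)
    have b' : ContDiffAt ℝ ∞ (inF F (e.symm z)) (ψ z, jm ψ z *ᵥ v) := hψ ▸ hF.smooth _ _ (hψ ▸ hv')
    refine (ContDiffAt.comp (z, v) b' b).congr_of_eventuallyEq ?_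
    filter_upwards [continuousAt_fst.eventually h3] with p hw
    have h8 := cmp _ (hc (e.symm z)) e he _ hw.2.1 hw.2.2.1 p.2
    rw [hw.2.2.2.2.2.1, hw.2.2.2.2.2.2] at h8
    subst hψ
    exact h8
  refine ⟨fun e he z hz => ⟨⟨fun v hv => ?_, fun v hv => hF.pos _ _ fun h0 => ?_, fun a v => ?_⟩,
    sm e he z hz⟩, cmp⟩
  · exact ((sm e he z hz v hv).continuousAt.comp (f := fun w => (z, w))
      (by fun_prop)).continuousWithinAt
  · obtain ⟨-, h2, -⟩ := hov _ (hc (e.symm z)) e he _ (hs _) (e.map_target hz)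
    rw [Mf.J, e.right_inv hz] at h2
    exact hv (Matrix.eq_zero_of_mulVec_eq_zero h2 h0)
  · simp only [faF, Matrix.mulVec_smul, hF.hom]

end BR78

open BR78 in
theorem st_PBR : St_PBR := by
  intro n X _ _ _ _ _ _ h F a hh hF hp
  let M : Mf n := mf n X
  let c : M.X → M.Ch := chartAt (M := X) (E n)
  have hc : ∀ x, c x ∈ M.C := fun x y => ⟨cp_chart (X := X) x y, cp_chart (X := X) y x⟩
  have hs : ∀ x, x ∈ (c x).source := mem_chart_source (M := X) (E n)
  obtain ⟨hch, hov, -⟩ := mTR n M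
  obtain ⟨g1, g2, -⟩ := fam_ok hh.toHermitian
  refine ⟨M, ⟨‹_›, ‹_›, ‹_›⟩, fam h, faF F, ⟨⟨g1.toForm, g2 hh⟩, g1.pos⟩, faF_ok hF,
    fun x => ⟨c x, hc x, hs x, hp x⟩, ?_⟩
  rintro ⟨m, hm, hS⟩
  refine ⟨m, hm, fun x : M.X => ?_⟩
  obtain ⟨s, h1, h2⟩ := hS x
  refine ⟨fun y : M.X => s (c y) (c y y), fun y : M.X => ?_, fun h3 => h2 ?_⟩
  · refine (h1.hol _ (hc y) _ ((c y).map_source (hs y))).congr_of_eventuallyEq ?_
    filter_upwards [(c y).open_target.mem_nhds ((c y).map_source (hs y))] with w hw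
    have h4 : s (c y) (c y ((c y).symm w)) = _ :=
      h1.cmp _ (hc ((c y).symm w)) _ (hc y) _ (hs _) ((c y).map_target hw)
    have h5 := (hov _ (hc ((c y).symm w)) _ (hc y) _ (hs _) ((c y).map_target hw)).1
    rw [Mf.J] at h4
    rw [(c y).right_inv hw] at h4 h5
    rw [h4, ← (mCHN n _ _ h5).2.2.2.2.2.2.1]
    rfl
  · have h4 : M.ev s x = _ := h1.cmp _ (hc x) _ (hch x).1 x (hs x) (hch x).2
    have h5 : s (c x) (c x x) = 0 := h3
    rw [h4, h5, zero_mul]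

end Pool.Agent.Lib.PM
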