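import Pool.Agent.Lib.PM.Blue
import Pool.Agent.Lib.RB.B_RCL
import Pool.Agent.Lib.GH.B_GSB

/-! Project pm78: the twisted inequality of Chern and Lu. -/

open scoped Classical Topology ContDiff ComplexOrder Matrix
open Set MeasureTheory Complex Metric Filter

noncomputable section

namespace Pool.Agent.Lib.PM

open Pool.Agent.Lib.SV (E)
open Pool.Agent.Lib.HS32 Pool.Agent.Lib.HS32.Mf Pool.Agent.Lib.GH

namespace X50

variable {n : ℕ} {M : Mf n} {G h : M.Fam (Mat n)} {α : ℝ}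

/-- the gradient of the trace -/
theorem grad (hG : M.Kae G) (hH : M.Met h) : M.All fun e z =>
    M.gr G (M.tr G h) (M.tr G h) (e.symm z) ≤
      M.tr G h (e.symm z) * (en (G e) (h e) (h e) z).re := by
  intro e he z hz
  obtain ⟨i1, i2, -⟩ := mINV n M G hG.toMet
  have hS : M.Sm (M.tr G h) := (i1 h hH.toTen).2.1
  have hev : M.lc (M.tr G h) e =ᶠ[𝓝 z] fun w => ((G e w)⁻¹ * h e w).trace :=
    ((i2 h hH.toForm).ev he hz).mono fun w hw => hw.1
  have lG := HS68.met_loc hG.toMet he hz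
  have lH := HS68.met_loc hH he hz
  have a : M.gr G (M.tr G h) (M.tr G h) (e.symm z) = _ :=
    (i1 _ ((mHES n M).2.1 _ _ hS hS).1).1 e he z hz
  have b : M.tr G h (e.symm z) = _ := (i1 h hH.toTen).1 e he z hz
  have c : ∀ k, dz k (M.lc (M.tr G h) e) z = -((G e z)⁻¹ * h e z * df (G e) (h e) k z).trace :=
    fun k => by rw [dz_congr hev, lG.dz_trace_quot lH]
  have d : ∀ k, dzb k (M.lc (M.tr G h) e) z =
      -star ((G e z)⁻¹ * h e z * df (G e) (h e) k z).trace := fun k => by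
    rw [← star_neg, ← c]
    exact (star_dz_ofReal (cd_diff (hS.lc e he z hz))).symm
  rw [a, b, HS68.en_eq]
  refine Eq.trans_le ?_ (HS76.grad_le lG.pos.inv.posSemidef lG.pos.inv.posSemidef
    lH.pos.posSemidef fun k => df (G e) (h e) k z)
  simp only [Mf.ds, dd, c, d, neg_mul_neg, Matrix.trace, Matrix.diag_apply, Matrix.mul_apply,
    Matrix.of_apply]

/-- the curvature term -/
theorem curv (hA : St_PA1) (hG : M.Met G) (hh : M.Met h) (hα : 0 ≤ α) (hp : M.Pin h α) (x : M.X) :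
    0 ≤ (qq (G (M.ch x)) (h (M.ch x)) (M.ch x x)).re + α * M.tr G h x * M.tr G (-M.ric h) x := by
  have h1 := (hA n _ _ α (AllOn.ch hh.sm x) (AllOn.ev hh.pos (ch_mem x) (ch_tgt x)) hα
    (AllOn.ch hp x)).2.1 ((M.ev G x)⁻¹ * M.ev h x) (by
      rw [mul_assoc, show M.ev h x * (h (M.ch x) (M.ch x x))⁻¹ = 1 from
        Matrix.mul_nonsing_inv _ (hh.ev_det x).isUnit, mul_one]
      exact (hG.ev_pos x).inv.posSemidef)
  have h2 := trace_inv_mul_nonneg (hG.ev_pos x) h1
  rw [mul_add, Matrix.trace_add, add_re, Matrix.mul_smul, Matrix.trace_smul, smul_re,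
    smul_eq_mul] at h2
  refine h2.trans_eq ?_
  congr 1
  · simp only [qq, phf, Matrix.trace, Matrix.diag_apply, Matrix.mul_apply, Matrix.of_apply, mul_neg,
      Finset.sum_neg_distrib, ev]
  · simp only [tr, ev, ric, Pi.neg_apply, neg_neg]

/-- the inequality for a general Kähler metric -/
theorem cl (hA : St_PA1) (hn : 0 < n) (hG : M.Kae G) (hh : M.Met h) (hα : 0 ≤ α) (hp : M.Pin h α)
    (x : M.X) : M.ip G h (M.ric G) x / M.tr G h x - α * M.tr G (-M.ric h) x ≤
      M.lap G (fun y => Real.log (M.tr G h y)) x := by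
  obtain ⟨hS, -, hpos, h5, -⟩ := RB.st_RCL n M G h hG hh
  have a := (AllOn.ch h5 x).1
  have c := AllOn.ch (grad hG hh) x
  have q := curv hA hG.toMet hh hα hp x
  rw [ch_symm] at a c
  rw [Mf.yT] at a
  rw [(((mLAP n M _ _ hS hS).2.2 G hG.toMet).2.2.2.1 Real.log
    (fun y => Real.contDiffAt_log.2 (hpos hn y).ne') x).1, HS.CLG.deriv2_log, Real.deriv_log]
  have h0 := hpos hn x
  have := HS.CLG.last (ip := M.ip G h (M.ric G) x - α * M.tr G h x * M.tr G (-M.ric h) x)
    (L := M.lap G (M.tr G h) x) h0 (by linarith) c q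
  refine le_of_eq_of_le ?_ this
  field_simp

end X50

open X50 in
theorem st_PCL (hA : St_PA1) : St_PCL := by
  intro n M _ H h α hn hH hh hα hp
  obtain ⟨hψ, hr⟩ := (mHES n M).2.2.2.2.2.2.2.2.2 h H hh hH.toMet
  generalize (fun x => Real.log (M.dq H h x)) = ψ at hψ hr
  have hE := (hψ.const_mul α).exp
  obtain ⟨K, K0, hK⟩ := hE.exists_bound
  obtain ⟨C, C0, hC, -⟩ := (mBD n M H hH.toMet).1 h hh.toForm
  have n0 : (0 : ℝ) < n := Nat.cast_pos.2 hn
  have hη : M.Le 0 (-M.ric h) := fun e he z hz => by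
    have := (hA n _ _ α (hh.sm e he z hz) (AllOn.ev hh.pos he hz) hα (hp e he z hz)).1
    simpa only [ric, Pi.neg_apply, neg_neg, Pi.zero_apply, sub_zero] using this
  refine ⟨fun e z => Real.exp (α * ψ (e.symm z)) • h e z, 1 / (C * n * K),
    ⟨hh.toForm.fsmul hE, fun e he z hz => pd_rsmul (hh.pos e he z hz) (Real.exp_pos _)⟩,
    by positivity, fun B _ hB ε hε u hu x => ?_⟩
  have hric := G34.sol_ric hH hu
  have hG := hu.kae
  have h0 : M.tr (M.gB H B ε u) (ε • H + B - M.ric H + M.hs u) x = n := hG.toMet.tr_self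
  generalize M.gB H B ε u = G at *
  obtain ⟨hS, -, hpos, -⟩ := RB.st_RCL n M G h hG hh
  have e1 : (fun y => Real.log (M.tr G (fun e z => Real.exp (α * ψ (e.symm z)) • h e z) y) -
      α * u y) = fun y => Real.log (M.tr G h y) - α * (u y - ψ y) := by
    funext y
    rw [tr_fsmul fun y => Real.exp (α * ψ y), Real.log_mul (Real.exp_ne_zero _) (hpos hn y).ne',
      Real.log_exp]
    ring
  have hL := hS.log fun y => (hpos hn y).ne'
  have hv := hu.sm.sub hψ
  rw [e1, (((mLAP n M _ _ hL (hv.const_mul α)).2.2 G hG.toMet).2.2.1 x 0).2.2.1,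
    (((mLAP n M _ _ hv hv).2.2 G hG.toMet).2.2.1 x α).2.2.2.1,
    (((mLAP n M _ _ hu.sm hψ).2.2 G hG.toMet).2.2.1 x 0).2.2.1,
    tr_fsmul fun y => Real.exp (α * ψ y)]
  have h1 := cl hA hn hG hh hα hp x
  have i1 : M.ip G h (M.ric G) x = ε * M.ip G h H x + M.ip G h B x - M.tr G h x := by
    rw [ip_congr (G := G) (G' := G) (S := h) (S' := h) (T := M.ric G) (T' := ε • H + B - G)
      (fun _ _ _ _ => rfl) (fun _ _ _ _ => rfl) hric, ip_sub, ip_add, ip_smul, hG.toMet.ip_self]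
  have i2 := G34.ip_mono hG.toMet hh hB x
  rw [← zero_smul ℝ H, ip_smul, zero_mul] at i2
  have i3 := G34.ip_mono hG.toMet hh hC x
  rw [ip_smul] at i3
  have h3 := HS76.tr_sq_le (hG.toMet.ev_pos x) (hh.ev_pos x).1
  rw [Fintype.card_fin, ← mul_assoc] at h3
  have h4 : M.tr G h x ^ 2 ≤ n * M.ip G h h x := h3
  have t1 : M.tr G (M.ric h) x = M.tr G (M.ric H) x - M.lap G ψ x := by
    rw [tr_congr (G := G) (G' := G) (T := M.ric h) (T' := M.ric H - M.hs ψ)
      (fun _ _ _ _ => rfl) hr, tr_sub, lap]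
  rw [tr_add, tr_sub, tr_add, tr_smul] at h0
  have t2 := hG.toMet.tr_nonneg hB x
  have t3 := mul_nonneg hε.le (hG.toMet.tr_nonneg hH.toMet.nonneg x)
  have t4 : M.lap G u x - M.lap G ψ x ≤ n - M.tr G (-M.ric h) x := by
    rw [tr_neg, t1, lap]
    linarith
  have hS0 := hpos hn x
  have k1 : Real.exp (α * ψ x) ≤ K := (le_abs_self _).trans (hK x)
  have k2 : 1 / (C * n * K) * ε * (Real.exp (α * ψ x) * M.tr G h x) ≤
      ε * M.ip G h H x / M.tr G h x := by
    rw [le_div_iff₀ hS0]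
    calc _ ≤ 1 / (C * n * K) * ε * (K * M.tr G h x) * M.tr G h x := by gcongr
      _ = ε / (C * n) * M.tr G h x ^ 2 := by field_simp
      _ ≤ ε / (C * n) * (n * (C * M.ip G h H x)) := by
        gcongr
        exact h4.trans (by gcongr)
      _ = _ := by field_simp
  rw [i1, sub_div, add_div, div_self hS0.ne'] at h1
  have k3 := div_nonneg i2 hS0.le
  have k4 := mul_le_mul_of_nonneg_left t4 hα
  linarith

end Pool.Agent.Lib.PM
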