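import Pool.Agent.Lib.PM.Blue
import Pool.Agent.Lib.HS32.MAll
import Pool.Agent.Lib.HS76.Pt

/-! Project pm78: the leaves are Kähler. -/

open scoped Classical Topology ContDiff ComplexOrder Matrix
open Set MeasureTheory Complex Metric Filter

noncomputable section

namespace Pool.Agent.Lib.PM

open Pool.Agent.Lib.SV (E)
open Pool.Agent.Lib.HS32 Pool.Agent.Lib.HS32.Mf Pool.Agent.Lib.HS76

namespace D278

variable {n : ℕ}

theorem ip3_ker {C A H : Mat n} (hC : C.PosSemidef) (hA : A.PosSemidef) (hH : H.PosDef)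
    {T : Fin n → Mat n} (h0 : (ip3 C A H T T).re = 0) (m : Fin n) :
    (∑ i, C i m • T i) * A = 0 := by
  obtain ⟨W, rfl⟩ := psd_eq_mul hC
  obtain ⟨V, rfl⟩ := psd_eq_mul hA
  obtain ⟨Y, rfl⟩ := psd_eq_mul hH.posSemidef
  rw [ip3_eq_inner] at h0
  have h1 : vec3 W V Y T = 0 := (re_inner_self_nonpos (𝕜 := ℂ)).1 h0.le
  have h2 : ∀ a, (∑ k, W k a • T k) * V = 0 := fun a => by
    have h3 : Yᴴ * (∑ k, W k a • T k) * V = 0 := by
      ext i j
      exact congrArg (fun v : EuclideanSpace ℂ (Fin n × Fin n × Fin n) => v (a, i, j)) h1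
    rw [← Matrix.nonsing_inv_mul_cancel_left _ ((∑ k, W k a • T k) * V) (pd_det_ne hH).isUnit,
      Matrix.mul_assoc Y, ← Matrix.mul_assoc Yᴴ, h3, Matrix.mul_zero, Matrix.mul_zero]
  have h4 : ∑ i, (W * Wᴴ) i m • T i = ∑ a, star (W m a) • ∑ k, W k a • T k := by
    simp only [Matrix.mul_apply, Matrix.conjTranspose_apply, Finset.sum_smul, Finset.smul_sum,
      smul_smul]
    rw [Finset.sum_comm]
    simp only [mul_comm]
  rw [h4, ← Matrix.mul_assoc, Finset.sum_mul]
  simp only [Matrix.smul_mul, h2, smul_zero, Finset.sum_const_zero, Matrix.zero_mul]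

theorem of_xi {h P : Mat n} (hh : h.PosDef) {T : Fin n → Mat n} {A : Mat n}
    (h0 : ∀ m, (∑ i, (P * h⁻¹) i m • T i) * A = 0) (m : Fin n) : (∑ i, P i m • T i) * A = 0 := by
  have e : ∑ i, P i m • T i = ∑ a, h a m • ∑ i, (P * h⁻¹) i a • T i := by
    conv_lhs => rw [← Matrix.nonsing_inv_mul_cancel_right h P (pd_det_ne hh).isUnit]
    simp only [Matrix.mul_apply (M := P * h⁻¹), Finset.sum_smul, Finset.smul_sum, smul_smul]
    rw [Finset.sum_comm]
    simp only [mul_comm]
  rw [e, Finset.sum_mul]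
  simp only [Matrix.smul_mul, h0, smul_zero, Finset.sum_const_zero]

end D278

open D278 in
theorem st_PD2 (hDV : St_PDV) (hE1 : St_PE1) (hVC : St_PVC) : St_PD2 := by
  intro n M _ H h P k hH hh hl
  have ev : M.All fun e z => ∀ᶠ w in 𝓝 z, L0 (h e) (P e) w := fun e he z hz =>
    mem_of_superset (e.open_target.mem_nhds hz) fun w hw => hl.loc e he w hw
  have hm : M.All fun e z => (h e z * P e z).IsHermitian := fun e he z hz => (hl.loc e he z hz).herm
  have ps := fun e he z hz => (hDV n (h e) (P e) z (ev e he z hz)).2.1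
  obtain ⟨v1, -, -, v4⟩ := hVC n M h P hh hl.en
  have q1 := v4 _ (fun e z => nq (xi (h e) (P e) z) fun l => star (P e z * tm (h e) l z).trace) 1
    (v1 h hh.toTen hm) one_ne_zero fun e he z hz =>
      ⟨by rw [one_mul]; exact (hE1 n (h e) (P e) z (ev e he z hz)).1,
        (Complex.nonneg_iff.1 ((ps e he z hz).dotProduct_mulVec_nonneg _)).1⟩
  have q2 := v4 _ (fun e z => (ip3 (xi (h e) (P e) z) (xi (h e) (P e) z) (H e z)
    (fun i => tm (h e) i z) fun i => tm (h e) i z).re) (-(1 / 2)) (v1 H hH.toTen hm) (by norm_num)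
    fun e he z hz => ⟨by
      rw [(hE1 n (h e) (P e) z (ev e he z hz)).2 (H e) (hH.sm e he z hz) (hH.cl e he z hz)
        (hH.pos e he z hz) (((ps e he z hz).dotProduct_mulVec_zero_iff _).1 (Complex.ext
          (q1 e he z hz) (Complex.nonneg_iff.1 ((ps e he z hz).dotProduct_mulVec_nonneg _)).2.symm))]
      push_cast
      ring, ip3_nonneg (ps e he z hz) (ps e he z hz) (hH.pos e he z hz).posSemidef _⟩
  refine fun e he z hz => ⟨hl.loc e he z hz, fun m => ?_⟩
  have a := of_xi (hh.pos e he z hz)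
    (ip3_ker (ps e he z hz) (ps e he z hz) (hH.pos e he z hz) (q2 e he z hz)) m
  rw [← Matrix.nonsing_inv_mul_cancel_right (h e z) (_ * P e z) (hh.det_ne e he z hz).isUnit,
    Matrix.mul_assoc _ (P e z)]
  exact (congrArg (· * h e z) a).trans (Matrix.zero_mul _)

end Pool.Agent.Lib.PM
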