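import Pool.Agent.Lib.PM.Blue
import Pool.Agent.Lib.HS32.EKit
import Pool.Agent.Lib.HS76.Pt

/-! The torsion is parallel along the leaves. -/

open scoped Classical Topology ContDiff ComplexOrder Matrix
open Set Complex Filter

noncomputable section

namespace Pool.Agent.Lib.PM

open Pool.Agent.Lib.SV (E)
open Pool.Agent.Lib.HS32 Pool.Agent.Lib.HS76

namespace PD337

variable {n : ℕ}

theorem ip3_zero {C A H : Mat n} (hC : C.PosDef) (hA : A.PosDef) (hH : H.PosDef)
    {T : Fin n → Mat n} (h : (ip3 C A H T T).re = 0) (k : Fin n) : T k = 0 := by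
  have u : ∀ {B W : Mat n}, B.PosDef → B = W * Wᴴ → IsUnit W.det ∧ IsUnit Wᴴ.det := by
    intro B W hB e
    have := hB.det_pos.ne'
    rw [e, Matrix.det_mul] at this
    exact ⟨(left_ne_zero_of_mul this).isUnit, (right_ne_zero_of_mul this).isUnit⟩
  obtain ⟨W, hW⟩ := psd_eq_mul hC.posSemidef
  obtain ⟨V, hV⟩ := psd_eq_mul hA.posSemidef
  obtain ⟨Y, hY⟩ := psd_eq_mul hH.posSemidef
  rw [hW, hV, hY, ip3_eq_inner] at h
  have h1 : vec3 W V Y T = 0 := by
    rw [← inner_self_eq_zero (𝕜 := ℂ), ← inner_self_ofReal_re]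
    exact Complex.ofReal_eq_zero.2 h
  have h2 : ∀ a, ∑ k, W k a • T k = 0 := by
    intro a
    have h3 : Yᴴ * (∑ k, W k a • T k) * V = 0 := by
      ext i j
      exact congrArg (fun v : EuclideanSpace ℂ (Fin n × Fin n × Fin n) => v (a, i, j)) h1
    rw [← Matrix.nonsing_inv_mul_cancel_left _ (∑ k, W k a • T k) (u hH hY).2,
      ← Matrix.mul_nonsing_inv_cancel_right _ (Yᴴ * _) (u hA hV).1, h3]
    simp
  have h3 : ∑ a, W⁻¹ a k • ∑ j, W j a • T j = T k := by
    simp only [Finset.smul_sum, smul_smul]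
    rw [Finset.sum_comm]
    simp only [← Finset.sum_smul, mul_comm (W⁻¹ _ _), ← Matrix.mul_apply,
      Matrix.mul_nonsing_inv _ (u hC hW).1, Matrix.one_apply, ite_smul, one_smul, zero_smul,
      Finset.sum_ite_eq', Finset.mem_univ, if_true]
  rw [← h3]
  simp [h2]

theorem ip3_left (C A H : Mat n) (N : Fin n → Fin n → Mat n) (U : Fin n → Mat n) (a : Fin n → ℂ) :
    ip3 C A H (fun k => ∑ i, a i • N i k) U = ∑ i, a i * ip3 C A H (N i) U := by
  simp only [ip3, Matrix.mul_smul, Matrix.trace_sum, Matrix.trace_smul,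
    smul_eq_mul, Finset.mul_sum]
  rw [Finset.sum_congr rfl fun k _ => Finset.sum_comm, Finset.sum_comm]
  refine Finset.sum_congr rfl fun i _ => Finset.sum_congr rfl fun k _ =>
    Finset.sum_congr rfl fun l _ => by ring

theorem ip3_right (C A H : Mat n) (N : Fin n → Fin n → Mat n) (T : Fin n → Mat n)
    (a : Fin n → ℂ) :
    ip3 C A H T (fun k => ∑ i, a i • N i k) = ∑ i, star (a i) * ip3 C A H T (N i) := by
  simp only [ip3, Matrix.conjTranspose_sum, Matrix.conjTranspose_smul,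
    Matrix.sum_mul, Matrix.mul_smul, Matrix.smul_mul, Matrix.trace_sum, Matrix.trace_smul,
    smul_eq_mul, Finset.mul_sum]
  rw [Finset.sum_congr rfl fun k _ => Finset.sum_comm, Finset.sum_comm]
  refine Finset.sum_congr rfl fun i _ => Finset.sum_congr rfl fun k _ =>
    Finset.sum_congr rfl fun l _ => by ring

theorem split (C A H W : Mat n) (N : Fin n → Fin n → Mat n) :
    ∑ i, ∑ j, (W * Wᴴ) i j * ip3 C A H (N i) (N j) =
      ∑ a, ip3 C A H (fun k => ∑ i, W i a • N i k) (fun k => ∑ i, W i a • N i k) := by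
  simp only [ip3_left]
  simp only [ip3_right, Matrix.mul_apply, Matrix.conjTranspose_apply, Finset.sum_mul,
    Finset.mul_sum]
  rw [Finset.sum_congr rfl fun k _ => Finset.sum_comm, Finset.sum_comm]
  refine Finset.sum_congr rfl fun i _ => Finset.sum_congr rfl fun k _ =>
    Finset.sum_congr rfl fun l _ => by ring

theorem alg {C A H ξ : Mat n} (hC : C.PosDef) (hA : A.PosDef) (hH : H.PosDef)
    (hξ : ξ.PosSemidef) (N : Fin n → Fin n → Mat n) {s : ℂ}
    (hs : s = ∑ i, ∑ j, ξ i j * ip3 C A H (N i) (N j)) :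
    s = ((1 * s.re : ℝ) : ℂ) ∧ 0 ≤ s.re ∧
      (s.re = 0 → ∀ (B : Mat n) j m, ∑ i, (ξ * B) i m • N i j = 0) := by
  obtain ⟨W, rfl⟩ := psd_eq_mul hξ
  rw [split] at hs
  have h0 := fun a => ip3_nonneg hC.posSemidef hA.posSemidef hH.posSemidef
    (fun k => ∑ i, W i a • N i k)
  have hre : s.re = ∑ a, (ip3 C A H (fun k => ∑ i, W i a • N i k)
      (fun k => ∑ i, W i a • N i k)).re := by rw [hs, Complex.re_sum]
  refine ⟨?_, hre ▸ Finset.sum_nonneg fun a _ => h0 a, fun h B j m => ?_⟩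
  · rw [one_mul, hre, hs, Complex.ofReal_sum]
    exact Finset.sum_congr rfl fun a _ =>
      ip3_self_eq_re hC.posSemidef hA.posSemidef hH.posSemidef _
  · rw [hre, Finset.sum_eq_zero_iff_of_nonneg fun a _ => h0 a] at h
    have h1 : ∀ a, ∑ i, W i a • N i j = 0 := fun a =>
      ip3_zero hC hA hH (h a (Finset.mem_univ a)) j
    have h2 : ∑ i, (W * Wᴴ * B) i m • N i j = ∑ a, (Wᴴ * B) a m • ∑ i, W i a • N i j := by
      simp only [Matrix.mul_assoc, Matrix.mul_apply (M := W), Finset.sum_smul, Finset.smul_sum,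
        smul_smul]
      rw [Finset.sum_comm]
      exact Finset.sum_congr rfl fun a _ => Finset.sum_congr rfl fun i _ => by rw [mul_comm]
    rw [h2]
    simp [h1]

theorem tr_zero {P : Mat n} {t : Fin n → Mat n} (h : ∀ m, (∑ i, P i m • t i) * P = 0)
    (v : Fin n → ℂ) : (P * ∑ m, (P *ᵥ v) m • t m).trace = 0 := by
  have e : ∑ m, (P *ᵥ v) m • t m = ∑ k, v k • ∑ m, P m k • t m := by
    simp only [Matrix.mulVec, dotProduct, Finset.sum_smul, Finset.smul_sum, smul_smul]
    rw [Finset.sum_comm]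
    exact Finset.sum_congr rfl fun a _ => Finset.sum_congr rfl fun i _ => by rw [mul_comm]
  rw [Matrix.trace_mul_comm, e, Matrix.sum_mul]
  simp only [Matrix.smul_mul, h, smul_zero, Finset.sum_const_zero, Matrix.trace_zero]

end PD337

open PD337 in
theorem st_PD3 (hPDV : St_PDV) (hPE3 : St_PE3) (hPVC : St_PVC) : St_PD3 := by
  intro n M _ h P hh hP hL
  obtain ⟨-, h2, ⟨f, hf, hr⟩, h4⟩ := hPVC n M h P hh hP
  have ev : ∀ e ∈ M.C, ∀ z ∈ e.target, ∀ᶠ w in 𝓝 z, L0 (h e) (P e) w := fun e he z hz =>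
    (e.open_target.eventually_mem hz).mono fun w hw => (hL e he w hw).toL0
  have A := fun e (he : e ∈ M.C) z (hz : z ∈ e.target) =>
    alg (hh.pos e he z hz).inv (hh.pos e he z hz).inv (hh.pos e he z hz)
      (hPDV n (h e) (P e) z (ev e he z hz)).2.1 (fun i a => nt (h e) i a z)
      (hPE3 n (h e) (P e) z (ev e he z hz))
  have key := h4 _ (fun e z => (xi (h e) (P e) z * hess (fun w => (tn2 (h e) w : ℂ)) z).trace.re)
    1 (h2 f hf) one_ne_zero fun e he z hz => by
      refine ⟨?_, (A e he z hz).2.1⟩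
      obtain ⟨-, -, d3, -, -, -, d7⟩ := hPDV n (h e) (P e) z (ev e he z hz)
      have hs : ContDiffAt ℝ ∞ (M.lc f e) z := ofRealCLM.contDiff.contDiffAt.comp z (hf e he z hz)
      have e1 : M.lc f e =ᶠ[𝓝 z] fun w => (tn2 (h e) w : ℂ) :=
        (e.open_target.eventually_mem hz).mono fun w hw => congrArg ofReal (hr e he w hw)
      rw [d7 (fun w l => dzb l (M.lc f e) w) fun l => cd_diff (cd_dzb hs l), ← (A e he z hz).1,
        ← hess_congr e1]
      have t0 := tr_zero (hL e he z hz).tff (xi (h e) (P e) z *ᵥ fun l => dzb l (M.lc f e) z)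
      rw [Matrix.mulVec_mulVec, d3] at t0
      rw [t0, add_zero]
      simp only [Matrix.trace, Matrix.diag_apply, Matrix.mul_apply (M := xi (h e) (P e) z), hess,
        Matrix.of_apply]
      exact Finset.sum_congr rfl fun i _ => Finset.sum_congr rfl fun l _ => by
        rw [← dz_dzb hs]
  intro e he z hz
  refine ⟨hL e he z hz, fun j m => ?_⟩
  have := (A e he z hz).2.2 (key e he z hz) (h e z) j m
  rwa [xi, Matrix.nonsing_inv_mul_cancel_right _ _ (hh.pos e he z hz).det_pos.ne'.isUnit] at this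

end Pool.Agent.Lib.PM
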