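import Pool.Agent.Lib.PM.Blue
import Pool.Agent.Lib.HS.B_DBP
import Pool.Agent.Lib.HS32.MAll

/-! Project pm78: local bounds. -/

open scoped Classical Topology ContDiff ComplexOrder Matrix
open Set MeasureTheory Complex Metric Filter Matrix

noncomputable section

namespace Pool.Agent.Lib.PM

open Pool.Agent.Lib.SV (E)
open Pool.Agent.Lib.HS32 Pool.Agent.Lib.HS76 Pool.Agent.Lib.GH
open Pool.Agent.Lib.HS (dbp_grad)

namespace X25

variable {n : ℕ} {h : Mat n} {C : ℝ}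

theorem q_le {A B : Mat n} (hA : (B - A).PosSemidef) (v : E n) : nq A v ≤ nq B v := by
  have := (Complex.nonneg_iff.1 (hA.dotProduct_mulVec_nonneg v)).1
  rw [sub_mulVec, dotProduct_sub, sub_re] at this
  unfold nq
  linarith

theorem q_smul (c : ℝ) (A : Mat n) (v : E n) : nq (c • A) v = c * nq A v := by
  simp [nq, smul_mulVec]

theorem q_one (v : E n) : nq 1 v = ∑ i, ‖v i‖ ^ 2 := by
  simp only [nq, one_mulVec, dotProduct, re_sum, Pi.star_apply]
  exact Finset.sum_congr rfl fun i _ => by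
    rw [star_def, ← normSq_eq_conj_mul_self, ofReal_re, normSq_eq_norm_sq]

theorem q_single (h2 : (C • (1 : Mat n) - h).PosSemidef) (j : Fin n) :
    nq h (Pi.single j 1) ≤ C := by
  have := q_le h2 (Pi.single j 1)
  rw [q_smul, q_one, Finset.sum_eq_single j (fun i _ hi => by simp [hi]) (by simp)] at this
  simpa using this

theorem entry (hC : 1 ≤ C) (h1 : (C • h - 1).PosSemidef) (h2 : (C • (1 : Mat n) - h).PosSemidef)
    {A : Mat n} {B : ℝ} (hB : 0 ≤ B) (hA : ∀ b, nq h (A *ᵥ b) ≤ B * nq h b) (i j : Fin n) :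
    ‖A i j‖ ≤ C * √B := by
  have a1 := q_le h1 (A *ᵥ Pi.single j 1)
  rw [q_smul, q_one] at a1
  have a2 := Finset.single_le_sum (f := fun i => ‖(A *ᵥ Pi.single j 1) i‖ ^ 2)
    (fun _ _ => sq_nonneg _) (Finset.mem_univ i)
  have a3 : (A *ᵥ Pi.single j 1) i = A i j := by simp
  have a4 := (hA (Pi.single j 1)).trans (mul_le_mul_of_nonneg_left (q_single h2 j) hB)
  have a5 := mul_le_mul_of_nonneg_left a4 (zero_le_one.trans hC)
  simp only [a3] at a2
  refine (pow_le_pow_iff_left₀ (norm_nonneg _) (by positivity) two_ne_zero).1 ?_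
  rw [mul_pow, Real.sq_sqrt hB]
  linarith

theorem mul_bd {A B : Mat n} {a b : ℝ} (hA : ∀ i j, ‖A i j‖ ≤ a) (hB : ∀ i j, ‖B i j‖ ≤ b)
    (i j : Fin n) : ‖(A * B) i j‖ ≤ n * (a * b) := by
  rw [Matrix.mul_apply]
  refine (norm_sum_le _ _).trans ((Finset.sum_le_sum (g := fun _ => a * b) fun k _ => ?_).trans
    (by simp))
  rw [norm_mul]
  exact mul_le_mul (hA _ _) (hB _ _) (norm_nonneg _) ((norm_nonneg _).trans (hA i k))

theorem adj (hh : h.PosDef) (h1 : (C • h - 1).PosSemidef) (h2 : (C • (1 : Mat n) - h).PosSemidef)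
    {X Y : Mat n} (e : h * X = Yᴴ * h) {B : ℝ} (hY : ∀ i j, ‖Y i j‖ ≤ B) (i j : Fin n) :
    ‖X i j‖ ≤ n ^ 4 * C ^ 2 * B := by
  rw [rsm] at h1 h2
  have a1 := inv_le_of_le hh PosDef.one h1
  rw [inv_one] at a1
  have a2 := tr_le_of_le PosDef.one hh.inv.1 a1
  have a3 := tr_le_of_le PosDef.one hh.1 h2
  rw [inv_one, Matrix.one_mul, Fintype.card_fin] at a2 a3
  have a4 : X = h⁻¹ * (Yᴴ * h) := by
    rw [← e, nonsing_inv_mul_cancel_left _ _ ((isUnit_iff_isUnit_det _).1 hh.isUnit)]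
  rw [a4]
  refine (mul_bd (fun i j => (entry_le_trace hh.inv.posSemidef i j).trans a2)
    (mul_bd (A := Yᴴ) (fun i j => by simpa using hY j i)
      fun i j => (entry_le_trace hh.posSemidef i j).trans a3) i j).trans (le_of_eq (by ring))

end X25

open X25

theorem st_PDB (hA : St_PA0) (hS : St_PSU) (hK : St_PKE) : St_PDB := by
  intro n M _ H h α hH hh hα hp e he K hKc hKs
  obtain ⟨C₁, hC₁, hb₁⟩ := (mBD n M H hH).2.2.1 e he K hKc hKs
  obtain ⟨C, hC, hb⟩ := (mBD n M h hh).2.2.1 e he K hKc hKs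
  have hI := mINV n M H hH
  have p0 : 0 ≤ C := zero_le_one.trans hC
  have p1 : 0 ≤ C * √(n * C) := mul_nonneg p0 (Real.sqrt_nonneg _)
  have p2 : 0 ≤ n ^ 4 * C ^ 2 * (C * √(n * C)) := mul_nonneg (by positivity) p1
  refine ⟨C₁ + C + C * √(n * C) + n ^ 4 * C ^ 2 * (C * √(n * C)), by linarith,
    fun f hf z hz l => ?_, fun G s hG hs z hz i j => ?_⟩
  · have hz' := hKs hz
    have hF := (mHES n M).2.2.1 f hf
    have hB : (M.ds f f e z).PosSemidef := by simpa using hF.2 e he z hz'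
    have hP := hH.pos e he z hz'
    have r : M.gr H f f (e.symm z) = ((H e z)⁻¹ * M.ds f f e z).trace.re :=
      (hI.1 _ hF.1.toTen).1 e he z hz'
    have d : DifferentiableAt ℝ (M.lc f e) z := cd_diff (cd_ofReal (hf e he z hz'))
    have s : star (dzb l (M.lc f e) z) = dz l (M.lc f e) z := star_dzb_ofReal d
    have q : ‖M.ds f f e z l l‖ = ‖dzb l (M.lc f e) z‖ ^ 2 := by
      change ‖dzb l (M.lc f e) z * dz l (M.lc f e) z‖ = _
      rw [norm_mul, ← s, norm_star, sq]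
    have t0 := tr_nonneg hP hB
    have t1 := dbp_grad hP (hb₁ z hz).2.1 hB l
    rw [← s, norm_star, and_self, r]
    refine le_trans ((pow_le_pow_iff_left₀ (norm_nonneg _)
      (mul_nonneg (zero_le_one.trans hC₁) (Real.sqrt_nonneg _)) two_ne_zero).1 ?_)
      (mul_le_mul_of_nonneg_right (show C₁ ≤ _ by linarith) (Real.sqrt_nonneg _))
    rw [mul_pow, Real.sq_sqrt t0, ← q]
    exact t1.trans (mul_le_mul_of_nonneg_right (by nlinarith) t0)
  have hz' := hKs hz
  have hP := hh.pos e he z hz'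
  obtain ⟨b1, b2, -⟩ := hb z hz
  obtain ⟨k1, k2, -⟩ := hK n M G h α s hG hh hα hp hs e he z hz'
  have d0 : 0 ≤ M.dfc G h α s (e.symm z) :=
    (((hS n M h α hh hα hp).2 G s hG hs).2.2.2.2.2.2.2.2.1 _).2.2.2.2.2.2.2
  refine ⟨?_, fun l => ?_⟩
  · have := entry hC b1 b2 zero_le_one (A := M.ww G h s e z) (fun b => by
      rw [one_mul]
      exact ((hA n (G e z) (h e z) s (hG.pos e he z hz') hP hs).2.2.2.2.2.2.2.2.2.1 b).1) i j
    rw [Real.sqrt_one, mul_one] at this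
    linarith
  have k3 : ∀ i j, ‖(dM l (M.ww G h s e) z - wr (h e) l z (M.ww G h s e z)) i j‖ ≤
      C * √(n * C) * √(M.dfc G h α s (e.symm z)) := fun i j => by
    have hn : (0 : ℝ) ≤ n * C := mul_nonneg (Nat.cast_nonneg n) p0
    rw [mul_assoc, ← Real.sqrt_mul hn]
    refine entry hC b1 b2 (mul_nonneg hn d0) (fun b => (k1 l b).trans ?_) i j
    have q0 : 0 ≤ nq (h e z) b :=
      (Complex.nonneg_iff.1 (hP.posSemidef.dotProduct_mulVec_nonneg b)).1
    exact (mul_le_mul_of_nonneg_left (q_single b2 l)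
      (mul_nonneg (mul_nonneg (Nat.cast_nonneg n) d0) q0)).trans (le_of_eq (by ring))
  refine ⟨(k3 i j).trans (mul_le_mul_of_nonneg_right (by linarith) (Real.sqrt_nonneg _)),
    (adj hP b1 b2 (k2 l) k3 i j).trans ?_⟩
  rw [← mul_assoc]
  exact mul_le_mul_of_nonneg_right (by linarith) (Real.sqrt_nonneg _)

end Pool.Agent.Lib.PM
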