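import Pool.Agent.Lib.PM.Blue
import Pool.Agent.Lib.HS32.EKit
import Pool.Agent.Lib.HS32.B_COF

/-! Project pm78: the divergence formula. -/

open scoped Classical Topology ContDiff ComplexOrder Matrix Manifold
open Set MeasureTheory Complex Metric Filter

noncomputable section

namespace Pool.Agent.Lib.PM

open Pool.Agent.Lib.SV (E)
open Pool.Agent.Lib.HS32

namespace PDV4

variable {n : ℕ}

theorem dinv {h : E n → Mat n} {z : E n} (sh : SmM h z) (h0 : (h z).det ≠ 0) (i : Fin n) :
    dM i (fun w => (h w)⁻¹) z = -(gam h i z * (h z)⁻¹) := by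
  have e : (fun w => (h w)⁻¹ * h w) =ᶠ[𝓝 z] fun _ => 1 :=
    (sh.ev_det h0).mono fun w hw => Matrix.nonsing_inv_mul _ (Ne.isUnit hw)
  have e1 := dM_congr (k := i) e
  rw [dM_mul (sh.inv h0) sh, dM_const] at e1
  have e2 := congrArg (· * (h z)⁻¹) (eq_neg_of_add_eq_zero_left e1)
  simpa only [Matrix.mul_assoc, Matrix.mul_nonsing_inv _ (Ne.isUnit h0), Matrix.mul_one,
    Matrix.neg_mul, gam] using e2

theorem alg (γ T : Fin n → Mat n) (hT : ∀ m a b, T m a b = γ m a b - γ b a m) (P : Mat n)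
    (V : E n) : ∑ i, ((γ i).trace * V i + ((-γ i + (1 - P) * T i) *ᵥ V) i) =
      (P * ∑ m, V m • T m).trace := by
  have h1 : ∑ i, ((γ i).trace * V i - (γ i *ᵥ V) i) = (∑ m, V m • T m).trace := by
    simp only [Matrix.trace, Matrix.diag, Matrix.mulVec, dotProduct,
      Matrix.sum_apply, Matrix.smul_apply, smul_eq_mul, hT, Finset.sum_sub_distrib, mul_sub,
      Finset.sum_mul]
    congr 1
    · rw [Finset.sum_comm]
      exact Finset.sum_congr rfl fun _ _ => Finset.sum_congr rfl fun _ _ => mul_comm _ _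
    · exact Finset.sum_congr rfl fun _ _ => Finset.sum_congr rfl fun _ _ => mul_comm _ _
  have h2 : ∀ Q : Mat n, ∑ i, ((Q * T i) *ᵥ V) i = -(Q * ∑ m, V m • T m).trace := fun Q => by
    simp only [Matrix.trace, Matrix.diag, Matrix.mulVec, dotProduct, Matrix.mul_apply,
      Matrix.sum_apply, Matrix.smul_apply, smul_eq_mul, Finset.sum_mul, Finset.mul_sum,
      ← Finset.sum_neg_distrib]
    refine Finset.sum_congr rfl fun i _ => ?_
    rw [Finset.sum_comm]
    refine Finset.sum_congr rfl fun a _ => Finset.sum_congr rfl fun m _ => ?_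
    rw [hT, hT]
    ring
  have h3 := h2 (1 - P)
  rw [Matrix.sub_mul, Matrix.one_mul, Matrix.trace_sub, ← h1] at h3
  simp only [Matrix.add_mulVec, Matrix.neg_mulVec, Pi.add_apply, Pi.neg_apply,
    Finset.sum_add_distrib, Finset.sum_neg_distrib, Finset.sum_sub_distrib] at h3 ⊢
  linear_combination h3

end PDV4

open PDV4 in
theorem st_PDV : St_PDV := by
  intro n h P z hL
  have L := hL.self_of_nhds
  have hu : IsUnit (h z).det := (Matrix.isUnit_iff_isUnit_det _).1 L.pos.isUnit
  have h0 : (h z).det ≠ 0 := hu.ne_zero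
  have sx : SmM (xi h P) z := L.sp.mul (L.sh.inv h0)
  have e1 : (P z)ᴴ * h z = h z * P z := by
    have := L.herm.eq
    rwa [Matrix.conjTranspose_mul, L.pos.isHermitian.eq] at this
  have e2 : xi h P z = (h z)⁻¹ * (P z)ᴴ := by
    rw [xi, ← Matrix.mul_nonsing_inv_cancel_right (h z) (P z)ᴴ hu, e1, ← Matrix.mul_assoc,
      Matrix.nonsing_inv_mul_cancel_left _ _ hu]
  have e3 : P z * xi h P z = xi h P z := by rw [xi, ← Matrix.mul_assoc, L.idem]
  have e4 : ∀ i, dM i (xi h P) z = (-gam h i z + (1 - P z) * tm h i z) * xi h P z := fun i => by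
    change dM i (fun w => P w * (h w)⁻¹) z = _
    rw [dM_mul L.sp (L.sh.inv h0), dinv L.sh h0, L.de.1, wr, xi]
    noncomm_ring
  have e5 : ∀ i m, ∑ l, xi h P z m l • th h i l z = 0 := fun i m => by
    simp only [e2, Matrix.mul_apply, Matrix.conjTranspose_apply, Finset.sum_smul, mul_smul]
    rw [Finset.sum_comm]
    simp only [← Finset.smul_sum, L.th2, smul_zero, Finset.sum_const_zero]
  refine ⟨sx, ?_, e3, e4, e5, fun j m => ?_, fun ψ hψ => ?_⟩
  · rw [← e3, e2, ← Matrix.mul_assoc]
    exact L.pos.inv.posSemidef.mul_mul_conjTranspose_same _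
  · ext a b
    have k1 := congrFun (congrFun (e5 j m) a) b
    have k2 := congrFun (congrFun (e5 b m) a) j
    have k3 : ∀ l, dMb l (tm h j) z a b = th h b l z a j - th h j l z a b := fun l => by
      have := dzb_sub (j := l) ((L.sh.gam h0 j).diff a b) ((L.sh.gam h0 b).diff a j)
      simp only [th, Matrix.neg_apply, dMb_apply, tm, Matrix.of_apply, this]
      ring
    simp only [Matrix.sum_apply, Matrix.smul_apply, smul_eq_mul, Matrix.zero_apply] at k1 k2 ⊢
    simp only [k3, mul_sub, Finset.sum_sub_distrib, k1, k2, sub_zero]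
  · have d1 : ∀ i, dz i (fun w => (h w).det) z = (h z).det * (gam h i z).trace := fun i => by
      rw [(BCOF.dz_det L.sh i).1, gam, Matrix.inv_def, Ring.inverse_eq_inv', Matrix.smul_mul,
        Matrix.trace_smul, smul_eq_mul, mul_inv_cancel_left₀ h0]
    have d2 : ∀ i, dz i (fun w => ((h w).det • xi h P w *ᵥ ψ w) i) z = (h z).det *
        (∑ l, xi h P z i l * dz i (fun w => ψ w l) z + ((gam h i z).trace * (xi h P z *ᵥ ψ z) i +
          ((-gam h i z + (1 - P z) * tm h i z) *ᵥ (xi h P z *ᵥ ψ z)) i)) := fun i => by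
      rw [Matrix.mulVec_mulVec, ← e4]
      change dz i (fun w => (h w).det * ∑ l, xi h P w i l * ψ w l) z = _
      rw [dz_mul (cd_diff L.sh.det) (DifferentiableAt.fun_sum fun l _ => (sx.diff i l).fun_mul (hψ l)),
        dz_sum fun l _ => (sx.diff i l).fun_mul (hψ l), d1]
      simp only [dz_mul (sx.diff i _) (hψ _), Finset.sum_add_distrib, Matrix.mulVec, dotProduct,
        dM_apply]
      ring
    rw [dv, div_eq_iff h0, ← alg (fun i => gam h i z) (fun i => tm h i z) (fun _ _ _ => rfl),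
      ← Finset.sum_add_distrib, Finset.sum_mul]
    exact Finset.sum_congr rfl fun i _ => (d2 i).trans (mul_comm _ _)

end Pool.Agent.Lib.PM
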