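import Pool.Agent.Lib.PM.Blue
import Pool.Agent.Lib.GH.B_GT1

/-! Project pm78: the divergence of the fields attached to the torsion. -/

open scoped Classical Topology ContDiff ComplexOrder Matrix
open Set MeasureTheory Complex Metric Filter Matrix

noncomputable section

namespace Pool.Agent.Lib.PM

open Pool.Agent.Lib.SV (E)
open Pool.Agent.Lib.HS32 Pool.Agent.Lib.HS76 Pool.Agent.Lib.GH.G32

namespace X24

variable {n : ℕ} {h P K : E n → Mat n} {z : E n}

theorem sm_tm (hh : SmM h z) (h0 : (h z).det ≠ 0) (k : Fin n) : SmM (tm h k) z :=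
  fun i j => (hh.gam h0 k i j).sub (hh.gam h0 j i k)

theorem sw_tm (k : Fin n) : sw (fun l => tm h l z) k = -tm h k z := by
  ext q j
  simp only [sw, tm, Matrix.of_apply, Matrix.neg_apply, neg_sub]

theorem tr_sum (c : Fin n → ℂ) (A B : Mat n) (X : Fin n → Mat n) :
    ∑ i, c i * (A * X i * B).trace = (A * (∑ i, c i • X i) * B).trace := by
  simp only [Matrix.mul_sum, Matrix.sum_mul, Matrix.mul_smul, Matrix.smul_mul, trace_sum,
    trace_smul, smul_eq_mul]

theorem core (hP : St_PDV) (ev : ∀ᶠ w in 𝓝 z, L0 h P w) (hK : SmM K z) :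
    dv (fun w => (h w).det • vk K h P w) z / (h z).det =
      ip3 (xi h P z) (xi h P z) 1 (fun i => dM i K z - K z * gam h i z) (fun i => tm h i z) +
        ∑ m, vk K h P z m * (P z * tm h m z).trace := by
  obtain ⟨s1, s2, -, s4, -, s6, s7⟩ := hP n h P z ev
  have L := ev.self_of_nhds
  have h0 : (h z).det ≠ 0 := L.pos.det_pos.ne'
  have st := sm_tm L.sh h0
  refine (s7 (fun w l => (xi h P w * (tm h l w)ᴴ * K w).trace)
    fun l => cd_diff ((s1.mul (st l).ct).mul hK).trace).trans ?_
  congr 1
  · have e : ∀ i l, dz i (fun w => (xi h P w * (tm h l w)ᴴ * K w).trace) z =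
        (xi h P z * (tm h l z)ᴴ * 1 * (dM i K z - K z * gam h i z)).trace +
        ((1 - P z) * tm h i z * (xi h P z * (tm h l z)ᴴ * K z)).trace +
        (xi h P z * (dMb i (tm h l) z)ᴴ * K z).trace := fun i l => by
      rw [dz_trace ((s1.mul (st l).ct).mul hK), dM_mul (s1.mul (st l).ct) hK,
        dM_mul s1 (st l).ct, dM_ct (st l), s4]
      simp only [Matrix.mul_one, Matrix.neg_mul, Matrix.add_mul, Matrix.mul_sub (_ * _ : Mat n),
        trace_add, trace_neg, trace_sub, Matrix.mul_assoc (gam h i z)]
      rw [trace_mul_comm (gam h i z)]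
      simp only [Matrix.mul_assoc]
      ring
    have a : ∀ l, ∑ i, xi h P z i l *
        ((1 - P z) * tm h i z * (xi h P z * (tm h l z)ᴴ * K z)).trace = 0 := fun l => by
      have e1 : ∑ i, xi h P z i l • tm h i z = ∑ m, (h z)⁻¹ m l • ∑ i, P z i m • tm h i z := by
        simp only [xi, Matrix.mul_apply, Finset.sum_smul, Finset.smul_sum, smul_smul]
        exact Finset.sum_comm.trans (Finset.sum_congr rfl fun _ _ => Finset.sum_congr rfl
          fun _ _ => by rw [mul_comm])
      rw [tr_sum, e1, ← tr_sum]
      refine Finset.sum_eq_zero fun m _ => ?_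
      rw [xi, Matrix.mul_assoc (P z), Matrix.mul_assoc (P z), ← Matrix.mul_assoc _ (P z), L.tf m,
        Matrix.zero_mul, trace_zero, mul_zero]
    have b : ∀ l, ∑ i, xi h P z i l * (xi h P z * (dMb i (tm h l) z)ᴴ * K z).trace = 0 :=
      fun l => by
        have e1 := congrArg conjTranspose (s6 l l)
        simp only [conjTranspose_sum, conjTranspose_smul, s2.1.apply, conjTranspose_zero] at e1
        rw [tr_sum, e1, Matrix.mul_zero, Matrix.zero_mul, trace_zero]
    simp only [e, mul_add, Finset.sum_add_distrib]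
    rw [Finset.sum_comm (f := fun i l => xi h P z i l * ((1 - P z) * tm h i z * _).trace),
      Finset.sum_comm (f := fun i l => xi h P z i l * (xi h P z * (dMb i (tm h l) z)ᴴ * _).trace)]
    simp only [a, b, Finset.sum_const_zero, add_zero]
    rfl
  · simp only [Matrix.mul_sum, Matrix.mul_smul, trace_sum, trace_smul, smul_eq_mul]
    rfl

end X24

open X24 in
theorem st_PE1 (hP : St_PDV) : St_PE1 := by
  intro n h P z ev
  have L := ev.self_of_nhds
  have h0 : IsUnit (h z).det := L.pos.det_pos.ne'.isUnit
  have s2 := (hP n h P z ev).2.1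
  refine ⟨?_, fun H h1 h2 h3 h4 => ?_⟩
  · have e1 : (fun i => dM i h z - h z * gam h i z) = fun _ => 0 := by
      funext i
      rw [gam, mul_nonsing_inv_cancel_left _ _ h0, sub_self]
    have e2 : (fun l => (xi h P z * (tm h l z)ᴴ * h z).trace) =
        fun l => star (P z * tm h l z).trace := by
      funext l
      have e3 : h z * xi h P z = (P z)ᴴ := by
        rw [xi, ← Matrix.mul_assoc, ← L.herm.eq, conjTranspose_mul, L.pos.1.eq,
          mul_nonsing_inv_cancel_right _ _ h0]
      rw [trace_mul_comm, ← Matrix.mul_assoc, e3, ← conjTranspose_mul, trace_conjTranspose,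
        trace_mul_comm]
    rw [core hP ev L.sh, e1, vk, e2]
    have e4 := (Complex.nonneg_iff.1
      (s2.dotProduct_mulVec_nonneg fun l => star (P z * tm h l z).trace)).2
    have e5 : ∑ m, (xi h P z *ᵥ fun l => star (P z * tm h l z).trace) m * (P z * tm h m z).trace =
        star (fun l => star (P z * tm h l z).trace) ⬝ᵥ
          xi h P z *ᵥ fun l => star (P z * tm h l z).trace := by
      simp only [dotProduct, Pi.star_apply, star_star]
      exact Finset.sum_congr rfl fun _ _ => mul_comm _ _
    rw [e5]
    simp only [ip3, trace_zero, mul_zero, Finset.sum_const_zero, zero_add]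
    exact Complex.ext rfl e4.symm
  · have e1 : ∑ m, vk H h P z m * (P z * tm h m z).trace = 0 := by
      have e2 : ∀ l, ∑ m, xi h P z m l * (P z * tm h m z).trace = 0 := fun l => by
        have e3 := congrArg star (congrFun h4 l)
        simpa only [mulVec, dotProduct, star_sum, star_mul', star_star, s2.1.apply,
          Pi.zero_apply, star_zero] using e3
      simp only [vk, mulVec, dotProduct, Finset.sum_mul]
      rw [Finset.sum_comm]
      refine Finset.sum_eq_zero fun l _ => ?_
      simp only [mul_right_comm (xi h P z _ l), ← Finset.sum_mul, e2, zero_mul]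
    have s0 := ip3_sw (xi h P z) (fun k => dM k H z) (T := fun l => tm h l z) sw_tm
    have s1 := ip3_sw (xi h P z) (fun k => H z * gam h k z) (T := fun l => tm h l z) sw_tm
    have g0 : sw (fun k => dM k H z) = fun k => dM k H z := by
      funext k
      ext q j
      exact h2 q k j
    rw [g0] at s0
    have s3 : ip3 (xi h P z) (xi h P z) (H z) (fun l => tm h l z) (fun l => tm h l z) =
        ip3 (xi h P z) (xi h P z) 1 (fun k => H z * gam h k z) (fun l => tm h l z) -
        ip3 (xi h P z) (xi h P z) 1 (sw fun k => H z * gam h k z) fun l => tm h l z := by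
      simp only [ip3, ← Finset.sum_sub_distrib, ← mul_sub, ← trace_sub, sw_mul,
        Matrix.mul_one, Matrix.mul_assoc]
      rfl
    have s4 : ip3 (xi h P z) (xi h P z) 1 (fun i => dM i H z - H z * gam h i z)
        (fun l => tm h l z) = ip3 (xi h P z) (xi h P z) 1 (fun i => dM i H z) (fun l => tm h l z) -
        ip3 (xi h P z) (xi h P z) 1 (fun i => H z * gam h i z) fun l => tm h l z := by
      simp only [ip3, ← Finset.sum_sub_distrib, ← mul_sub, ← trace_sub]
    rw [core hP ev h1, e1, add_zero, s4, Complex.ofReal_div,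
      ← ip3_self_eq_re s2 s2 h3.posSemidef, s3, s1]
    push_cast
    linear_combination (1 / 2 : ℂ) * s0

end Pool.Agent.Lib.PM
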