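import Pool.Agent.Lib.PM.Blue
import Pool.Agent.Lib.HS68.Fun

/-! The Laplacian along the leaves of the squared norm of the torsion. -/

open scoped Classical Topology ContDiff ComplexOrder Matrix
open Set Complex Filter

noncomputable section

namespace Pool.Agent.Lib.PM

open Pool.Agent.Lib.SV (E)
open Pool.Agent.Lib.HS32 Pool.Agent.Lib.HS68
open Pool.Agent.Lib.HS76 (ip3)

namespace PE358

open Matrix

variable {ι A : Type} [CommRing A] [StarRing A] [Fintype ι] [DecidableEq ι] (D : DR ι A)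

lemma ip_zero (G H : Matrix ι ι A) (U : ι → Matrix ι ι A) : DR.ip G H (fun _ => 0) U = 0 := by
  simp [DR.ip]

lemma alg {G ξ : Matrix ι ι A} (hG : G.IsHermitian) (hu : IsUnit G.det) (hξ : ξ.IsHermitian)
    (T B : ι → Matrix ι ι A) (hc : ∀ i, D.dM i ξ = B i * ξ)
    (ha : ∀ i m, ∑ l, ξ m l • D.Th G i l = 0) (hb : ∀ j m, ∑ l, ξ m l • D.bM l (T j) = 0) :
    trace (ξ * D.hess (DR.ip G G T T)) =
      ∑ i, ∑ j, ξ i j * DR.ip G G (D.nab G G i T) (D.nab G G j T) := by
  have e0 : ∀ j k m, ∑ i, ξ m i • D.dM j (D.bM i (T k)) = 0 := fun j k m => by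
    have e1 := congrArg (D.dM j) (hb k m)
    have e2 : ∀ i, D.d j (ξ m i) = ∑ p, B j m p * ξ p i := fun i => by
      rw [← DR.dM_apply, hc, Matrix.mul_apply]
    have e3 : ∑ i, (∑ p, B j m p * ξ p i) • D.bM i (T k) = 0 := by
      simp only [Finset.sum_smul, mul_smul]
      rw [Finset.sum_comm]
      simp only [← Finset.smul_sum, hb, smul_zero, Finset.sum_const_zero]
    simp only [map_sum, DR.dM_smul, e2, Finset.sum_add_distrib, e3, map_zero, zero_add] at e1
    exact e1
  have e1 : ∀ j k, ∑ i, ξ j i • D.nab G G j (fun l => D.bM i (T l)) k = 0 := fun j k => by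
    have a1 : ∑ i, ξ j i • (D.Gam G j * D.bM i (T k)) = 0 := by
      simp only [← Matrix.mul_smul, ← Matrix.mul_sum, hb, Matrix.mul_zero]
    have a2 : ∑ i, ξ j i • (D.bM i (T k) * D.Gam G j) = 0 := by
      simp only [← Matrix.smul_mul, ← Matrix.sum_mul, hb, Matrix.zero_mul]
    have a3 : ∑ i, ξ j i • ∑ m, D.Gam G j m k • D.bM i (T m) = 0 := by
      simp only [Finset.smul_sum]
      rw [Finset.sum_comm]
      simp only [smul_comm (ξ j _), ← Finset.smul_sum, hb, smul_zero, Finset.sum_const_zero]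
    simp only [DR.nab, smul_sub, smul_add, Finset.sum_sub_distrib, Finset.sum_add_distrib, e0, a1,
      a2, a3, add_zero, sub_zero]
  have e2 : ∀ j k, ∑ i, ξ j i •
      (D.Th G j i * T k - T k * D.Th G j i - ∑ m, D.Th G j i m k • T m) = 0 := fun j k => by
    have a1 : ∑ i, ξ j i • (D.Th G j i * T k) = 0 := by
      simp only [← Matrix.smul_mul, ← Matrix.sum_mul, ha, Matrix.zero_mul]
    have a2 : ∑ i, ξ j i • (T k * D.Th G j i) = 0 := by
      simp only [← Matrix.mul_smul, ← Matrix.mul_sum, ha, Matrix.mul_zero]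
    have a3 : ∑ i, ξ j i • ∑ m, D.Th G j i m k • T m = 0 := by
      simp only [Finset.smul_sum, smul_smul]
      rw [Finset.sum_comm]
      refine Finset.sum_eq_zero fun m _ => ?_
      have := congrFun (congrFun (ha j j) m) k
      simp only [Matrix.sum_apply, Matrix.smul_apply, smul_eq_mul, Matrix.zero_apply] at this
      rw [← Finset.sum_smul, this, zero_smul]
    simp only [smul_sub, Finset.sum_sub_distrib, a1, a2, a3, sub_zero]
  have f1 : ∀ j, ∑ i, ξ j i * DR.ip G G (D.nab G G j fun l => D.bM i (T l)) T = 0 := fun j => by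
    simp only [← DR.ip_smul_left, ← DR.ip_sum_left, e1, ip_zero]
  have f2 : ∀ j, ∑ i, ξ j i * DR.ip G G (fun k =>
      D.Th G j i * T k - T k * D.Th G j i - ∑ m, D.Th G j i m k • T m) T = 0 := fun j => by
    simp only [← DR.ip_smul_left, ← DR.ip_sum_left, e2, ip_zero]
  have f3 : ∀ j, ∑ i, ξ j i * DR.ip G G (fun l => D.bM i (T l)) (fun l => D.bM j (T l)) = 0 :=
    fun j => by simp only [← DR.ip_smul_left, ← DR.ip_sum_left, hb, ip_zero]
  have f4 : ∑ j, ∑ i, ξ j i * DR.ip G G T (D.nab G G i fun l => D.bM j (T l)) = 0 := by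
    rw [Finset.sum_comm]
    refine Finset.sum_eq_zero fun i _ => ?_
    have := congrArg star (f1 i)
    simpa only [star_sum, star_mul', DR.star_ip hG hG, hξ.apply, star_zero] using this
  have g : ∀ i j, D.db i (D.d j (DR.ip G G T T)) =
      DR.ip G G (D.nab G G j T) (D.nab G G i T) +
        (DR.ip G G (D.nab G G j fun l => D.bM i (T l)) T - DR.ip G G (fun k =>
          D.Th G j i * T k - T k * D.Th G j i - ∑ m, D.Th G j i m k • T m) T) +
        DR.ip G G (fun l => D.bM i (T l)) (fun l => D.bM j (T l)) +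
        DR.ip G G T (D.nab G G i fun l => D.bM j (T l)) := fun i j => by
    rw [D.d_ip hu hu, map_add, D.db_ip hG hu hG hu, D.db_ip hG hu hG hu, ← DR.ip_sub_left]
    simp only [DR.bM_nab]
    ring
  have g0 : trace (ξ * D.hess (DR.ip G G T T)) =
      ∑ j, ∑ i, ξ j i * D.db i (D.d j (DR.ip G G T T)) := by
    simp [trace, Matrix.mul_apply, DR.hess]
  rw [g0]
  simp only [g, mul_add, mul_sub, Finset.sum_add_distrib, Finset.sum_sub_distrib, f1, f2, f3, f4,
    sub_zero, add_zero]

end PE358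

theorem st_PE3 (hDV : St_PDV) : St_PE3 := by
  intro n h P z hL
  have h0 := hL.self_of_nhds
  have hloc : Loc h z := ⟨h0.sh, hL.mono fun _ hw => hw.pos.1, h0.pos⟩
  have hev := hL.eventually_nhds.mono fun w hw => hDV n h P w hw
  obtain ⟨M, hM, h1, hu⟩ := hloc.rep
  obtain ⟨N, hN⟩ := exists_repM h0.sp
  obtain ⟨ξ, hξ⟩ := exists_repM hev.self_of_nhds.1
  have hd := hloc.det_ne
  have hT : ∀ k, RepM (Matrix.of fun i j => (germDR z).Gam M k i j - (germDR z).Gam M j i k)
      (tm h k) := fun k i j => (hM.gam hd k i j).sub (hM.gam hd j i k)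
  have hz : RepM (0 : Matrix (Fin n) (Fin n) (Gm z)) fun _ => 0 := fun _ _ => Rep.zero
  have key := PE358.alg (germDR z) h1 hu (hξ.isHermitian (hev.mono fun w hw => hw.2.1.1)) _ _
    (fun i => (hξ.dM' i).ext (((hM.gam hd i).neg.add ((RepM.one.sub hN).mul (hT i))).mul hξ)
      (hev.mono fun w hw => hw.2.2.2.1 i))
    (fun i m => (RepM.sum _ fun l => RepM.smul (hξ m l) (hM.th hd i l)).ext hz
      (hev.mono fun w hw => hw.2.2.2.2.1 i m))
    (fun j m => (RepM.sum _ fun l => RepM.smul (hξ m l) ((hT j).dMb l)).ext hz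
      (hev.mono fun w hw => hw.2.2.2.2.2.1 j m))
  have hf := (hM.ip hd hM hT hT).congr (g := fun w => (tn2 h w : ℂ)) (hL.mono fun w hw =>
    (conj_eq_iff_re.1 (DR.star_ip hw.pos.1 hw.pos.1 (fun k => tm h k w) fun k => tm h k w)).symm)
  have hn := hM.nab hd hM hd hT
  exact (hξ.mul hf.hess).trace.val
    (Rep.sum _ fun i => Rep.sum _ fun j => (hξ i j).mul (hM.ip hd hM (hn i) (hn j))) key

end Pool.Agent.Lib.PM
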