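import Pool.Agent.Lib.PM.Blue
import Pool.Agent.Lib.RB.Nef
import Pool.Agent.Lib.HS.All

/-! Project pm78: existence of the solutions. -/

open scoped Classical Topology ContDiff ComplexOrder Matrix
open Set MeasureTheory Complex Metric Filter

noncomputable section

namespace Pool.Agent.Lib.PM

open Pool.Agent.Lib.SV (E)
open Pool.Agent.Lib.HS32 Pool.Agent.Lib.HS32.Mf Pool.Agent.Lib.HS76

theorem st_PEX : St_PEX := by
  intro n M _ H h hn hH hh hle
  obtain ⟨hs, hr⟩ := (mHES n M).2.2.2.2.2.2.2.2.2 h H hh hH.toMet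
  have key : ∀ T : M.Fam (Mat n), M.Clo T → (M.All fun e z => (T e z).PosDef) → ∃ u, M.Sm u ∧
      M.Kae (T - M.ric H + M.hs u) ∧
        ∀ x, M.dq H (T - M.ric H + M.hs u) x = Real.exp (u x) := fun T h1 h2 => by
    refine RB.solve HS.asAUBIN hn hH.toMet hs ⟨(h1.sub ((mHES n M).2.2.2.2.2.2.2.2.1 H
      hH.toMet)).add ((mHES n M).1 _ hs), fun e he z hz => ?_⟩
    have h3 := (h2 e he z hz).add_posSemidef (hle e he z hz)
    have h4 := hr e he z hz
    simp only [Pi.add_apply, Pi.sub_apply, Pi.neg_apply, Pi.zero_apply] at h3 h4 ⊢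
    rw [h4] at h3
    convert h3 using 1
    abel
  refine ⟨fun ε hε => ?_, fun B hB hB' ε hε => ?_⟩
  · obtain ⟨u, h1, h2, h3⟩ := key (ε • H) (hH.toClo.smul ε) fun e he z hz =>
      pd_rsmul (hH.pos e he z hz) hε
    exact ⟨u, h1, h2, h3⟩
  · obtain ⟨u, h1, h2, h3⟩ := key (ε • H + B) ((hH.toClo.smul ε).add hB) fun e he z hz => by
      have h4 := hB' e he z hz
      simp only [Pi.zero_apply, sub_zero] at h4
      exact (pd_rsmul (hH.pos e he z hz) hε).add_posSemidef h4
    exact ⟨u, h1, h2, h3⟩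

end Pool.Agent.Lib.PM
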