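import Pool.Agent.Lib.PM.Blue
import Pool.Agent.Lib.GH.B_GPAR
import Pool.Agent.Lib.HS32.MAll

/-! Project pm78: the new metric and the flat parallel projection. -/

open scoped Classical Topology ContDiff ComplexOrder Matrix
open Set Complex Filter Matrix

noncomputable section

namespace Pool.Agent.Lib.PM

open Pool.Agent.Lib.SV (E)
open Pool.Agent.Lib.HS32 Pool.Agent.Lib.GH

namespace PFL91

variable {n k : ℕ}

theorem pp : (pr k : Mat n) * pr k = pr k := by
  rw [pr, diagonal_mul_diagonal]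
  congr 1
  funext i
  split_ifs <;> simp

theorem pc : (pr k : Mat n)ᴴ = pr k := by
  rw [pr, diagonal_conjTranspose]
  congr 1
  funext i
  by_cases h : i.val < k <;> simp [h]

theorem pdet (hk : k ≤ n) (s : ℝ) : (1 + s • (pr k : Mat n)).det = ((1 + s : ℝ) : ℂ) ^ k := by
  have : (1 + s • (pr k : Mat n)) = diagonal fun i => if i.val < k then ((1 + s : ℝ) : ℂ) else 1 := by
    ext i j
    by_cases h : i = j
    · subst h
      by_cases h : i.val < k <;> simp [pr, h]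
    · simp [pr, h]
  rw [this, det_diagonal, Finset.prod_ite, Finset.prod_const_one, mul_one, Finset.prod_const,
    Fin.card_filter_val_lt, min_eq_right hk]

/-- The block along the leaves, completed by the identity. -/
def aa (k : ℕ) (B : Mat n) : Mat n := B * pr k + (1 - pr k)

/-- The projection. -/
def qq (k : ℕ) (B : Mat n) : Mat n := (aa k B)⁻¹ * B

/-- The metric. -/
def hh (k : ℕ) (h B : Mat n) : Mat n := (qq k B)ᴴ * B + (1 - qq k B)ᴴ * h * (1 - qq k B)

section alg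

variable {h B : Mat n} (h1 : pr k * B = B) (h2 : (aa k B).PosDef)

theorem ap : aa k B * pr k = B * pr k := by
  rw [aa, add_mul, sub_mul, one_mul, Matrix.mul_assoc, pp, sub_self, add_zero]

include h2

theorem aq : aa k B * qq k B = B := mul_nonsing_inv_cancel_left _ _ h2.det_pos.ne'.isUnit

theorem qp : qq k B * pr k = pr k := by
  rw [qq, Matrix.mul_assoc, ← ap, nonsing_inv_mul_cancel_left _ _ h2.det_pos.ne'.isUnit]

include h1

theorem pq : pr k * qq k B = qq k B := by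
  have a : pr k * aa k B = aa k B * pr k := by
    rw [ap, aa, mul_add, mul_sub, mul_one, pp, sub_self, add_zero, ← Matrix.mul_assoc, h1]
  have b : aa k B * (pr k * qq k B) = B := by
    rw [← Matrix.mul_assoc, ← a, Matrix.mul_assoc, aq h2, h1]
  rw [← nonsing_inv_mul_cancel_left _ (pr k * qq k B) h2.det_pos.ne'.isUnit, b, qq]

theorem qi : qq k B * qq k B = qq k B := by
  conv_lhs => rw [← pq h1 h2, Matrix.mul_assoc, ← Matrix.mul_assoc (qq k B), qp h2, pq h1 h2]
  exact pq h1 h2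

theorem bq : B * qq k B = B := by
  rw [← pq h1 h2, ← Matrix.mul_assoc, ← ap, Matrix.mul_assoc, pq h1 h2, aq h2]

theorem hp : hh k h B * pr k = Bᴴ := by
  rw [hh, add_mul, Matrix.mul_assoc, Matrix.mul_assoc, sub_mul, one_mul, qp h2, sub_self, mul_zero,
    add_zero, ← ap, ← Matrix.mul_assoc, ← h2.1.eq, ← conjTranspose_mul, aq h2, ← pc,
    ← conjTranspose_mul, h1]

theorem hq : (hh k h B * qq k B).IsHermitian := by
  rw [← pq h1 h2, ← Matrix.mul_assoc, hp h1 h2]
  nth_rewrite 1 [← aq h2]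
  rw [conjTranspose_mul, h2.1.eq]
  exact isHermitian_conjTranspose_mul_mul _ h2.1

omit h1 in
theorem hpos (hp : h.PosDef) : (hh k h B).PosDef := by
  have e : hh k h B = (qq k B)ᴴ * aa k B * qq k B + (1 - qq k B)ᴴ * h * (1 - qq k B) := by
    rw [hh, Matrix.mul_assoc _ (aa k B), aq h2]
  rw [e]
  refine PosDef.of_dotProduct_mulVec_pos ((isHermitian_conjTranspose_mul_mul _ h2.1).add
    (isHermitian_conjTranspose_mul_mul _ hp.1)) fun v hv => ?_
  have e2 : ∀ X Y : Mat n, star v ⬝ᵥ (Xᴴ * Y * X) *ᵥ v = star (X *ᵥ v) ⬝ᵥ Y *ᵥ (X *ᵥ v) :=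
    fun X Y => by simp only [star_mulVec, dotProduct_mulVec, vecMul_vecMul]
  rw [add_mulVec, dotProduct_add, e2, e2]
  by_cases h0 : qq k B *ᵥ v = 0
  · rw [sub_mulVec, one_mulVec, h0, sub_zero]
    simpa using hp.dotProduct_mulVec_pos hv
  · exact add_pos_of_pos_of_nonneg (h2.dotProduct_mulVec_pos h0)
      (hp.posSemidef.dotProduct_mulVec_nonneg _)

theorem qdet (hk : k ≤ n) (s : ℝ) : (1 + s • qq k B).det = ((1 + s : ℝ) : ℂ) ^ k := by
  rw [← pq h1 h2, ← Matrix.smul_mul, det_one_add_mul_comm, Matrix.mul_smul, qp h2, pdet hk]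

theorem chg {J K B' : Mat n} (h3 : (aa k B').PosDef) (hJ : J * K = 1)
    (hK : pr k * K * pr k = K * pr k) (hB : B' = pr k * Jᴴ * B * J) :
    J * qq k B' = qq k B * J ∧ hh k (Jᴴ * h * J) B' = Jᴴ * hh k h B * J := by
  have h4 : pr k * B' = B' := by simp only [hB, ← Matrix.mul_assoc, pp]
  have a : pr k * (K * qq k B * J) = K * qq k B * J := by
    rw [← pq h1 h2]
    simp only [← Matrix.mul_assoc, hK]
  have b : aa k B' * (K * qq k B * J) = B' := by
    rw [← a, ← Matrix.mul_assoc, ap, Matrix.mul_assoc, a, hB]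
    simp only [Matrix.mul_assoc]
    rw [← Matrix.mul_assoc J, hJ, one_mul, ← Matrix.mul_assoc B, bq h1 h2]
  have c : J * qq k B' = qq k B * J := by
    rw [qq, ← b, b, ← congrArg ((aa k B')⁻¹ * ·) b,
      nonsing_inv_mul_cancel_left _ _ h3.det_pos.ne'.isUnit]
    simp only [← Matrix.mul_assoc, hJ, one_mul]
  have d : J * (1 - qq k B') = (1 - qq k B) * J := by rw [mul_sub, sub_mul, c, mul_one, one_mul]
  refine ⟨c, ?_⟩
  have e1 : (qq k B')ᴴ * B' = Jᴴ * ((qq k B)ᴴ * B) * J := by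
    have : (qq k B')ᴴ * pr k * Jᴴ = Jᴴ * (qq k B)ᴴ := by
      rw [← pc, ← conjTranspose_mul, pq h4 h3, ← conjTranspose_mul, c, conjTranspose_mul]
    nth_rewrite 2 [hB]
    simp only [← Matrix.mul_assoc, this]
  have e2 : (1 - qq k B')ᴴ * (Jᴴ * h * J) * (1 - qq k B') =
      Jᴴ * ((1 - qq k B)ᴴ * h * (1 - qq k B)) * J := by
    calc _ = (J * (1 - qq k B'))ᴴ * h * (J * (1 - qq k B')) := by
          simp only [conjTranspose_mul, Matrix.mul_assoc]
      _ = _ := by simp only [d, conjTranspose_mul, Matrix.mul_assoc]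
  rw [hh, hh, e1, e2, mul_add, add_mul]

end alg

variable {h B T Q : E n → Mat n} {z : E n}

theorem locq (hs : SmM B z) (hc : ∀ᶠ w in 𝓝 z, B w * pr k = B z * pr k) :
    SmM (fun w => qq k (B w)) z ∧
    (∀ l, dMb l (fun w => qq k (B w)) z = (aa k (B z))⁻¹ * dMb l B z) ∧
    ∀ l, dM l (fun w => qq k (B w)) z = (aa k (B z))⁻¹ * dM l B z := by
  have e : (fun w => qq k (B w)) =ᶠ[𝓝 z] fun w => (aa k (B z))⁻¹ * B w :=
    hc.mono fun w hw => by simp only [qq, aa, hw]
  refine ⟨((smM_const _).mul hs).congr e, fun l => ?_, fun l => ?_⟩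
  · rw [dMb_congr e, dMb_mul (smM_const _) hs, dMb_const, zero_mul, zero_add]
  · rw [dM_congr e, dM_mul (smM_const _) hs, dM_const, zero_mul, zero_add]

theorem smh (h1 : SmM h z) (h2 : SmM B z) (h3 : SmM (fun w => qq k (B w)) z) :
    SmM (fun w => hh k (h w) (B w)) z :=
  (h3.ct.mul h2).add ((((smM_const 1).sub h3).ct.mul h1).mul ((smM_const 1).sub h3))

theorem dh {i : Fin n} (h1 : SmM h z) (h2 : SmM B z) (h3 : SmM (fun w => qq k (B w)) z)
    (a1 : dM i h z = 0) (a2 : dM i B z = 0) (a3 : dM i (fun w => qq k (B w)) z = 0)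
    (a4 : dMb i (fun w => qq k (B w)) z = 0) : dM i (fun w => hh k (h w) (B w)) z = 0 := by
  have s := (smM_const 1).sub h3
  simp only [hh]
  rw [dM_add (h3.ct.mul h2) ((s.ct.mul h1).mul s), dM_mul h3.ct h2, dM_mul (s.ct.mul h1) s,
    dM_mul s.ct h1, dM_ct h3, dM_ct s, dMb_sub (smM_const 1) h3, dM_sub (smM_const 1) h3, a1, a2,
    a3, a4]
  simp

theorem gp (h1 : SmM T z) (h2 : SmM B z) (h3 : ∀ᶠ w in 𝓝 z, T w * pr k = (B w)ᴴ)
    (h4 : ∀ l, dMb l B z = 0) (a : Fin n) : gam T a z * pr k = 0 := by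
  have := dM_mul (k := a) h1 (smM_const (pr k))
  rw [dM_congr h3, dM_ct h2, h4, dM_const, mul_zero, add_zero, conjTranspose_zero] at this
  rw [gam, Matrix.mul_assoc, ← this, mul_zero]

theorem tp (h1 : SmM T z) (h0 : (T z).det ≠ 0) {a : Fin n}
    (h2 : ∀ᶠ w in 𝓝 z, gam T a w * pr k = 0) (b : Fin n) : th T a b z * pr k = 0 := by
  have := dMb_mul (k := b) (h1.gam h0 a) (smM_const (pr k))
  rw [dMb_congr (T := fun _ => 0) h2, dMb_const, dMb_const, mul_zero, add_zero] at this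
  rw [th, Matrix.neg_mul, ← this, neg_zero]

theorem t0 {A : Mat n} (h1 : pr k * A = A) (h2 : ∀ a, gam T a z * pr k = 0)
    (h3 : ∀ i : Fin n, i.val < k → dM i T z = 0) (a b : E n) : tors T z (A *ᵥ a) b = 0 := by
  have e1 : ∑ i, (A *ᵥ a) i • gam T i z = 0 := Finset.sum_eq_zero fun i _ => by
    by_cases hi : i.val < k
    · rw [gam, h3 i hi, mul_zero, smul_zero]
    · rw [← h1, ← mulVec_mulVec, pr, mulVec_diagonal, if_neg hi, zero_mul, zero_smul]
  have e2 : (∑ i, b i • gam T i z) * A = 0 := by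
    rw [← h1, ← Matrix.mul_assoc, Matrix.sum_mul]
    simp only [Matrix.smul_mul, h2, smul_zero, Finset.sum_const_zero, zero_mul]
  rw [tors, asy, e1, mulVec_mulVec, e2, zero_mulVec, zero_mulVec, sub_zero]

theorem sw {J : E n → Mat n} (hJ : ClM J z) (a v : E n) :
    (∑ k, a k • dM k J z) *ᵥ v = (∑ k, v k • dM k J z) *ᵥ a := by
  ext i
  simp only [Matrix.mulVec, dotProduct, Matrix.sum_apply, Matrix.smul_apply, smul_eq_mul,
    Finset.sum_mul]
  exact Finset.sum_comm.trans (Finset.sum_congr rfl fun j _ => Finset.sum_congr rfl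
    fun l _ => by rw [hJ i j l]; ring)

theorem tpb {T' J : E n → Mat n} {y : E n} (hJ : ClM J z) (h0 : (J z).det ≠ 0)
    (hg : ∀ k, gam T' k z = (J z)⁻¹ * (∑ a, J z a k • gam T a y) * J z + (J z)⁻¹ * dM k J z)
    (a v : E n) : J z *ᵥ tors T' z a v = tors T y (J z *ᵥ a) (J z *ᵥ v) := by
  have e : ∀ u : E n, J z * ∑ k, u k • gam T' k z =
      (∑ b, (J z *ᵥ u) b • gam T b y) * J z + ∑ k, u k • dM k J z := fun u => by
    have e1 : ∑ b, (J z *ᵥ u) b • gam T b y = ∑ k, u k • ∑ a, J z a k • gam T a y := by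
      simp only [Matrix.mulVec, dotProduct, Finset.sum_smul, Finset.smul_sum, smul_smul]
      exact Finset.sum_comm.trans (Finset.sum_congr rfl fun k _ => Finset.sum_congr rfl
        fun b _ => by rw [mul_comm])
    rw [e1, Matrix.mul_sum, Matrix.sum_mul, ← Finset.sum_add_distrib]
    refine Finset.sum_congr rfl fun k _ => ?_
    rw [hg, Matrix.mul_smul, Matrix.mul_add, Matrix.mul_assoc,
      Matrix.mul_nonsing_inv_cancel_left _ _ h0.isUnit,
      Matrix.mul_nonsing_inv_cancel_left _ _ h0.isUnit, smul_add, Matrix.smul_mul]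
  rw [tors, tors, asy, asy, Matrix.mulVec_sub, Matrix.mulVec_mulVec, Matrix.mulVec_mulVec, e, e,
    Matrix.add_mulVec, Matrix.add_mulVec, sw hJ a v, Matrix.mulVec_mulVec, Matrix.mulVec_mulVec]
  abel

/-- From a covering family to all charts. -/
theorem trf {M : Mf n} {S : Set M.Ch} (hS : M.Sub S) {h P Q : M.Fam (Mat n)} (hM : M.Met h)
    (hP : M.End P) (hQ : M.End Q) {c : ℝ → ℂ}
    (h0 : M.AllOn S fun e z => (∀ l, dMb l (Q e) z = 0) ∧ Q e z * Q e z = Q e z ∧
      (∀ s : ℝ, (1 + s • Q e z).det = c s) ∧ (∀ a b, th (h e) a b z * Q e z = 0) ∧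
      (∀ a b, tors (h e) z (Q e z *ᵥ a) b = 0) ∧ P e z * Q e z = Q e z) :
    M.All fun e z => (∀ l, dMb l (Q e) z = 0) ∧ Q e z * Q e z = Q e z ∧
      (∀ s : ℝ, (1 + s • Q e z).det = c s) ∧ (∀ a b, th (h e) a b z * Q e z = 0) ∧
      (∀ a b, tors (h e) z (Q e z *ᵥ a) b = 0) ∧ P e z * Q e z = Q e z := by
  refine Mf.allOn_of_source fun e' he' x hx' => ?_
  obtain ⟨e, hs, hx⟩ := hS.cov x
  have he := hS.sub hs
  obtain ⟨a1, a2, a3, a4, a5, a6⟩ := h0.at hs hx
  obtain ⟨b1, b2, -, b3, -⟩ := (mTR n M).2.1 e he e' he' x hx hx'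
  obtain ⟨-, c1, c2, c3, -⟩ := mCHN n _ _ b1
  have hψ : (e ∘ e'.symm) (e' x) = e x := by simp only [Function.comp_apply, e'.left_inv hx']
  have hu := b2.isUnit
  have q := hQ.cmp e he e' he' x hx hx'
  have p := hP.cmp e he e' he' x hx hx'
  have can : ∀ X Y : Mat n, M.J e e' x * X = M.J e e' x * Y → X = Y := fun X Y hXY => by
    rw [← nonsing_inv_mul_cancel_left _ X hu, hXY, nonsing_inv_mul_cancel_left _ _ hu]
  obtain ⟨-, -, d⟩ := mPB n (e ∘ e'.symm) (e' x) (h e) (h e') b1 b2 (hψ ▸ hM.sm.at he hx)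
    (b3.mono fun w hw => by
      have := hM.cmp e he e' he' _ hw.2.1 hw.2.2.1
      beta_reduce at this
      rwa [hw.2.2.2.2.2.1, hw.2.2.2.2.2.2] at this)
  obtain ⟨d1, d2, -⟩ := d (hψ ▸ hM.det_ne.at he hx)
  rw [hψ] at d1 d2
  refine ⟨fun l => can _ _ ?_, can _ _ ?_, fun s => ?_, fun a b => can _ _ ?_, fun a b => ?_,
    can _ _ ?_⟩
  · have sq : SmM (Q e) ((e ∘ e'.symm) (e' x)) := hψ ▸ hQ.sm.at he hx
    have e1 : (fun w => jm (e ∘ e'.symm) w * Q e' w) =ᶠ[𝓝 (e' x)]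
        fun w => Q e ((e ∘ e'.symm) w) * jm (e ∘ e'.symm) w := b3.mono fun w hw => by
      have := hQ.cmp e he e' he' _ hw.2.1 hw.2.2.1
      beta_reduce at this
      rwa [hw.2.2.2.2.2.1, hw.2.2.2.2.2.2] at this
    have e2 := dMb_congr (k := l) e1
    rw [dMb_mul c1 (hQ.sm.at he' hx'), dMb_mul (sq.comp (mCHN n _ _ b1).1) c1, c3,
      (BPB.dM_comp mCHN b1 sq.diff l).2, hψ] at e2
    simpa [a1, Mf.J] using e2
  · rw [← Matrix.mul_assoc, q, Matrix.mul_assoc, q, ← Matrix.mul_assoc, a2]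
  · have : M.J e e' x * (1 + s • Q e' (e' x)) = (1 + s • Q e (e x)) * M.J e e' x := by
      rw [mul_add, add_mul, Matrix.mul_smul, Matrix.smul_mul, q, mul_one, one_mul]
    have := congrArg det this
    rw [det_mul, det_mul, a3, mul_comm] at this
    exact mul_right_cancel₀ b2 this
  · rw [d2]
    change M.J e e' x * ((M.J e e' x)⁻¹ * _ * M.J e e' x * _) = _
    rw [Matrix.mul_assoc, Matrix.mul_assoc, mul_nonsing_inv_cancel_left _ _ hu, q,
      ← Matrix.mul_assoc]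
    simp only [Matrix.sum_mul, Matrix.smul_mul, a4, smul_zero, Finset.sum_const_zero, zero_mul,
      mul_zero]
  · have := tpb c2 b2 d1 (Q e' (e' x) *ᵥ a) b
    change M.J e e' x *ᵥ _ = tors _ _ (M.J e e' x *ᵥ _) _ at this
    rw [mulVec_mulVec, q, ← mulVec_mulVec, a5] at this
    rw [← one_mulVec (tors _ _ _ _), ← nonsing_inv_mul _ hu, ← mulVec_mulVec, this, mulVec_zero]
  · rw [← Matrix.mul_assoc, p, Matrix.mul_assoc, q, ← Matrix.mul_assoc, a6]

end PFL91

open PFL91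

theorem st_PFL (hB4 : St_PB4) : St_PFL := by
  intro n M _ h P B k hA hB
  obtain ⟨⟨i1, i2⟩, -, i3⟩ := hB4 n M h P k hA
  have hS : M.Sub {e | M.Box h P k e} := ⟨fun e he => he.mem, hA.cov⟩
  have ov : M.OvOn {e | M.Box h P k e} fun e e' x =>
      M.J e e' x * qq k (B e' (e' x)) = qq k (B e (e x)) * M.J e e' x ∧
      hh k (h e' (e' x)) (B e' (e' x)) =
        (M.J e e' x)ᴴ * hh k (h e (e x)) (B e (e x)) * M.J e e' x := fun e he e' he' x hx hx' => by
    obtain ⟨-, -, -, a1, a2, -⟩ := hB.loc e he _ (e.map_source hx)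
    obtain ⟨-, -, -, -, a3, -⟩ := hB.loc e' he' _ (e'.map_source hx')
    rw [hA.met.cmp e he.mem e' he'.mem x hx hx']
    refine chg a1 a2 a3 ((mTR n M).2.1 e he.mem e' he'.mem x hx hx').2.2.1 ?_
      (hB.cmp e e' he he' x hx hx')
    rw [← i2, Matrix.mul_assoc, ← Matrix.mul_assoc (M.J e' e x), (i3 e' e he' he x hx' hx).1]
    simp only [Matrix.mul_assoc]
    rw [← Matrix.mul_assoc (io n k)ᴴ, i1, Matrix.one_mul]
  have lq := fun e (he : M.Box h P k e) z hz =>
    locq (hB.loc e he z hz).1 (hB.loc e he z hz).2.2.2.2.2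
  have sh := fun e (he : M.Box h P k e) z hz =>
    smh (hA.met.sm e he.mem z hz) (hB.loc e he z hz).1 (lq e he z hz).1
  obtain ⟨h', t1, t2⟩ := (mEXT n M _ hS).1 (fun e z => hh k (h e z) (B e z)) sh
    fun e he e' he' x hx hx' => (ov e he e' he' x hx hx').2
  obtain ⟨Q, q1, q2⟩ := (mEXT n M _ hS).2.1 (fun e z => qq k (B e z))
    (fun e he z hz => (lq e he z hz).1) fun e he e' he' x hx hx' => (ov e he e' he' x hx hx').1
  have pos := ((mSUB n M _ hS).1 h' t1).2.1 fun e he z hz => by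
    beta_reduce
    rw [t2 e he z hz]
    exact hpos (hB.loc e he z hz).2.2.2.2.1 (hA.met.pos e he.mem z hz)
  have hM : M.Met h' := ⟨⟨t1, fun e he z hz => (pos e he z hz).1⟩, pos⟩
  have g0 : M.AllOn {e | M.Box h P k e} fun e z => ∀ a, gam (h' e) a z * pr k = 0 :=
    fun e he z hz => gp (t1.sm e he.mem z hz) (hB.loc e he z hz).1
      ((e.open_target.eventually_mem hz).mono fun w hw => by
        rw [t2 e he w hw]
        exact hp (hB.loc e he w hw).2.2.2.1 (hB.loc e he w hw).2.2.2.2.1) (hB.loc e he z hz).2.1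
  have all := trf hS hM hA.en q1 (c := fun s => ((1 + s : ℝ) : ℂ) ^ k) fun e he z hz => by
    obtain ⟨a0, a1, a2, a3, a4, -⟩ := hB.loc e he z hz
    obtain ⟨b0, b1, b2⟩ := lq e he z hz
    refine ⟨fun l => ?_, ?_, fun s => ?_, fun a b => ?_, fun a b => ?_, ?_⟩
    · rw [dMb_congr (q2.ev he hz), b1, a1, mul_zero]
    · rw [q2 e he z hz]; exact qi a3 a4
    · rw [q2 e he z hz]; exact qdet a3 a4 hA.le s
    · rw [q2 e he z hz, ← pq a3 a4, ← Matrix.mul_assoc, tp (t1.sm e he.mem z hz)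
        (hM.det_ne e he.mem z hz) ((g0.ev he hz).mono fun w hw => hw a), zero_mul]
    · rw [q2 e he z hz]
      refine t0 (pq a3 a4) (g0 e he z hz) (fun i hi => ?_) a b
      rw [dM_congr (t2.ev he hz)]
      exact dh (hA.met.sm e he.mem z hz) a0 b0 (he.cst z hz i hi) (a2 i hi)
        (by rw [b2, a2 i hi, mul_zero]) (by rw [b1, a1, mul_zero])
    · rw [q2 e he z hz, ← pq a3 a4, ← Matrix.mul_assoc, he.fix z hz]
  have hH : M.HolSA h' Q := ⟨q1, fun e he z hz => (all e he z hz).1,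
    ((mSUB n M _ hS).1 _ ((mINV n M h' hM).2.2.2.2.2.1 Q q1)).1 fun e he z hz => by
      beta_reduce
      rw [t2 e he z hz, q2 e he z hz]
      exact hq (hB.loc e he z hz).2.2.2.1 (hB.loc e he z hz).2.2.2.2.1⟩
  obtain ⟨p1, p2, -⟩ := st_GPAR n M h' Q hM hH
  exact ⟨h', Q, hM, ⟨hH, hA.le, p1, fun e he z hz => (all e he z hz).2.1,
    fun s e he z hz => (all e he z hz).2.2.1 s, fun e he z hz => (all e he z hz).2.2.2.1,
    fun e he z hz a b => (p2 e he z hz a b).symm.trans ((all e he z hz).2.2.2.1 a b)⟩,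
    fun e he z hz => (all e he z hz).2.2.2.2.1, fun e he z hz => (all e he z hz).2.2.2.2.2⟩

end Pool.Agent.Lib.PM
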