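import Pool.Agent.Lib.PM.Blue
import Pool.Agent.Lib.GH.B_GA2
import Pool.Agent.Lib.GH.B_GSE
import Pool.Agent.Lib.GH.B_GT2

/-! Project pm78: the equations of the field `W`, up to a defect. -/

open scoped Classical Topology ContDiff ComplexOrder Matrix Manifold
open Set MeasureTheory Complex Metric Filter

noncomputable section

namespace Pool.Agent.Lib.PM

open Pool.Agent.Lib.SV (E)
open Pool.Agent.Lib.HS32 Pool.Agent.Lib.GH Pool.Agent.Lib.HS68
open Pool.Agent.Lib.GH.G48 (nq_pos nq_sub)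

namespace PKE

variable {n : ℕ}

theorem swap {G h : E n → Mat n} {z : E n} (hK : Kl G z) (i : Fin n) (c : E n) :
    (df G h i z + tm h i z) *ᵥ c = (∑ k, c k • df G h k z) *ᵥ Pi.single i 1 := by
  ext m
  rw [Matrix.mulVec_single_one]
  simp only [Matrix.mulVec, dotProduct, Matrix.col_apply, Matrix.sum_apply, Matrix.smul_apply,
    smul_eq_mul]
  refine Finset.sum_congr rfl fun j _ => ?_
  simp only [df, tm, Matrix.add_apply, Matrix.sub_apply, Matrix.of_apply, Loc.gam_symm hK m j i]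
  ring

theorem dW {G h : E n → Mat n} {z : E n} {s : ℝ} (hG : Loc G z) (hh : Loc h z) (hs : 0 < s)
    (e1 : 1 - wmat (G z) (h z) s = (G z + s • h z)⁻¹ * G z) (i : Fin n) :
    dM i (fun w => wmat (G w) (h w) s) z - wr h i z (wmat (G z) (h z) s) =
      -((1 - wmat (G z) (h z) s) * (df G h i z + tm h i z) * wmat (G z) (h z) s) := by
  have e := GH76.dM_W hG (GH76.loc_smul hh hs) i
  rw [GH76.df_rsmul hh.sm hs.ne', GH76.gam_rsmul hh.sm hs.ne', ← e1] at e
  change dM i (fun w => wmat (G w) (h w) s) z = wmat (G z) (h z) s * _ - _ * wmat (G z) (h z) s -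
    _ * _ * wmat (G z) (h z) s at e
  rw [e, wr]
  noncomm_ring

theorem bd {G h : Mat n} {s y r : ℝ} {D : Fin n → Mat n} (hG : G.PosDef) (hh : h.PosDef)
    (hs : 0 < s) (hy : (egr G h 1 D).re ≤ y)
    (hr : r = (wmat G h s - wmat G h s * wmat G h s).trace.re) (r0 : 0 ≤ r) (r1 : r ≤ n)
    (a b : E n) : nq h (((1 - wmat G h s) * ∑ k, (wmat G h s *ᵥ a) k • D k) *ᵥ b) ≤
      n * ((s + r) * (1 + (h⁻¹ * G).trace.re) * y) * nq h a * nq h b := by
  have a2 := (st_GA2 n G h s D hG hh hs).2.2 a b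
  have b0 := (st_GA2 n G h 1 D hG hh one_pos).1
  rw [← hr] at a2
  have ha := nq_pos hh.posSemidef a
  have hb := nq_pos hh.posSemidef b
  have ht := Mf.trace_inv_mul_nonneg hh hG.posSemidef
  refine a2.trans ?_
  calc _ ≤ (n * s + n * r) * (1 + (h⁻¹ * G).trace.re) * y * nq h a * nq h b := by
        rw [sq]
        gcongr
    _ = _ := by ring

end PKE

open PKE in
theorem st_PKE (hA0 : St_PA0) (hSU : St_PSU) : St_PKE := by
  intro n M G h α s hG hh hα hp hs e he z hz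
  have pG := hG.pos e he z hz
  have ph := hh.pos e he z hz
  have a0 := hA0 n _ _ s pG ph hs
  have S := (hSU n M h α hh hα hp).2 G s hG hs
  have S1 := (hSU n M h α hh hα hp).2 G 1 hG one_pos
  have r := S.2.2.2.2.2.2.2.2.1 (e.symm z)
  have hK := clo_kl hG.toClo he hz
  have q := st_GSE n _ _ s z hs (hG.sm e he z hz) (hh.sm e he z hz)
    ((hG.pos.ev he hz).and ((hh.pos.ev he hz).and (hG.cl.ev he hz)))
  have b := bd pG ph hs (S1.2.2.2.2.2.2.2.2.2 e he z hz).2 (S.2.2.2.2.2.2.2.2.2 e he z hz).1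
    r.2.2.2.1 r.2.2.2.2.1
  have q4 : M.tr h G (e.symm z) = ((h e z)⁻¹ * G e z).trace.re :=
    ((mINV n M h hh).1 _ hG.toTen).1 e he z hz
  rw [← q4] at b
  have d := dW (met_loc hG.toMet he hz) (met_loc hh he hz) hs a0.2.2.2.1
  change ∀ a b, _ ≤ n * M.dfc G h α s (e.symm z) * _ * _ at b
  change (∀ i b, nq _ ((dM i (fun w => wmat (G e w) (h e w) s) z - wr _ i z (wmat _ _ s)) *ᵥ b) ≤ _)
    ∧ (∀ l, _ * (dMb l (fun w => wmat (G e w) (h e w) s) z - wb _ l z (wmat _ _ s)) =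
      (dM l (fun w => wmat (G e w) (h e w) s) z - wr _ l z (wmat _ _ s))ᴴ * _) ∧
    ∀ a b, nq _ ((1 - wmat _ _ s) *ᵥ tors _ z (wmat _ _ s *ᵥ a) (wmat _ _ s *ᵥ b)) ≤ _
  refine ⟨fun i c => ?_, fun l => ?_, fun x y => ?_⟩
  · have b1 := b c (Pi.single i 1)
    rw [← Matrix.mulVec_mulVec, ← swap hK] at b1
    rw [d, Matrix.neg_mulVec, ← Matrix.mulVec_mulVec, ← Matrix.mulVec_mulVec]
    simpa only [nq, star_neg, Matrix.mulVec_neg, neg_dotProduct, dotProduct_neg, neg_neg] using b1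
  · rw [d, Matrix.mul_sub, q.2.2.1, HS32.wb, Matrix.mul_assoc (h e z)⁻¹,
      Matrix.mul_nonsing_inv_cancel_left _ _ ph.det_pos.ne'.isUnit]
    simp only [Matrix.mul_add, Matrix.add_mul, Matrix.conjTranspose_add, Matrix.conjTranspose_neg,
      Matrix.neg_mul]
    abel
  · have c0 : 0 ≤ n * M.dfc G h α s (e.symm z) := mul_nonneg n.cast_nonneg r.2.2.2.2.2.2.2
    have b1 := (b y (wmat (G e z) (h e z) s *ᵥ x)).trans (mul_le_mul_of_nonneg_left
      (a0.2.2.2.2.2.2.2.2.2.1 x).1 (mul_nonneg c0 (nq_pos ph.posSemidef y)))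
    have b2 := (b x (wmat (G e z) (h e z) s *ᵥ y)).trans (mul_le_mul_of_nonneg_left
      (a0.2.2.2.2.2.2.2.2.2.1 y).1 (mul_nonneg c0 (nq_pos ph.posSemidef x)))
    rw [q.2.2.2, asy, neg_sub, Matrix.mulVec_sub, Matrix.mulVec_mulVec _ (1 - _),
      Matrix.mulVec_mulVec _ (1 - _)]
    linarith [nq_sub ph.posSemidef
      (((1 - wmat (G e z) (h e z) s) * ∑ k, (wmat (G e z) (h e z) s *ᵥ y) k •
        df (G e) (h e) k z) *ᵥ (wmat (G e z) (h e z) s *ᵥ x))
      (((1 - wmat (G e z) (h e z) s) * ∑ k, (wmat (G e z) (h e z) s *ᵥ x) k •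
        df (G e) (h e) k z) *ᵥ (wmat (G e z) (h e z) s *ᵥ y))]

end Pool.Agent.Lib.PM
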