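import Pool.Agent.Lib.PM.Blue
import Pool.Agent.Lib.HS.B_VOL
import Pool.Agent.Lib.HS32.MAll
import Pool.Agent.Lib.HS32.MKit

/-! Project pm78: the mean values. -/

open scoped Classical Topology ContDiff ComplexOrder Matrix
open Set MeasureTheory Complex Metric Filter

noncomputable section

namespace Pool.Agent.Lib.PM

open Pool.Agent.Lib.SV (E)
open Pool.Agent.Lib.HS32 Pool.Agent.Lib.HS32.Mf

theorem st_PKY (hA : St_PA0) (hS : St_PSU) : St_PKY := by
  intro n M _ H h α ε u hH hh hα hp hε hu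
  obtain ⟨-, -, v2, v0, v3⟩ := (HS.st_VOL mTR mINV mHES mMU mCOH n M H hH).1 ε u hu
  set G := M.gE H ε u with hG
  have mG := hu.kae.toMet
  obtain ⟨-, fin, -, -, hi, -⟩ := mMU n M G mG
  have key : ∀ (f a b : M.X → ℝ) (c k : ℝ), M.Sm f → M.Sm a → M.Sm b →
      (∀ x, f x ≤ c + M.lap G a x + k * M.lap G b x) → M.av H ε u f ≤ c :=
    fun f a b c k hf ha hb hle => by
    have ia := hi ℝ _ ((mLAP n M a a ha ha).2.2 G mG).1.continuous
    have ib := (hi ℝ _ ((mLAP n M b b hb hb).2.2 G mG).1.continuous).const_mul k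
    have ic : Integrable (fun x => c + M.lap G a x) (M.mu G) := (integrable_const c).add ia
    have h1 := integral_mono (hi ℝ f hf.continuous) (ic.add ib) hle
    rw [integral_add' ic ib, integral_add (integrable_const c) ia, integral_const_mul,
      ((mGRN n M).2 G a a hu.kae ha ha).1, ((mGRN n M).2 G b b hu.kae hb hb).1, integral_const,
      v2, smul_eq_mul] at h1
    rw [Mf.av, ← v3, div_le_iff₀' v0]
    linarith
  obtain ⟨s0, s1⟩ := hS n M h α hh hα hp
  obtain ⟨m1, -, -, sl, sy, -⟩ := s1 G 1 hu.kae one_pos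
  obtain ⟨hφ, hr⟩ := (mHES n M).2.2.2.2.2.2.2.2.2 h H hh hH.toMet
  set φ := fun x => Real.log (M.dq H h x)
  have r1 : M.All fun e z => M.ric G e z = (ε • H - G) e z := fun e he z hz => by
    have h1 := ((mHES n M).2.2.2.2.2.2.2.2.2 _ H mG hH.toMet).2 e he z hz
    simp only [hu.det, Real.log_exp] at h1
    show M.ric (M.gE H ε u) e z = ε • H e z - (ε • H e z - M.ric H e z + M.hs u e z)
    rw [h1]
    abel
  have r2 : M.All fun e z => (-M.ric h) e z = (G - ε • H + M.hs φ - M.hs u) e z :=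
    fun e he z hz => by
    show -M.ric h e z = ε • H e z - M.ric H e z + M.hs u e z - ε • H e z + M.hs φ e z - M.hs u e z
    rw [hr e he z hz]
    abel
  have e1 : ∀ x, M.tr G (-M.ric h) x = n - ε * M.tr G H x + M.lap G φ x - M.lap G u x := fun x => by
    rw [tr_congr (fun _ _ _ _ => rfl) r2, tr_sub, tr_add, tr_sub, tr_smul, mG.tr_self]
    rfl
  have t0 := mG.tr_nonneg hH.toMet.nonneg
  have t1 := mG.tr_nonneg s0
  have sw := hφ.sub hu.sm
  have e2 : ∀ x, M.lap G (fun y => φ y - u y) x = M.lap G φ x - M.lap G u x := fun x =>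
    (((mLAP n M φ u hφ hu.sm).2.2 G mG).2.2.1 x 0).2.2.1
  refine ⟨key _ _ _ _ (α * n) sy sl sw fun x => ?_,
    key _ _ _ _ (-1) (((mINV n M G mG).1 H hH.toTen).2.1.const_mul ε) hφ hu.sm fun x => by
      linarith [e1 x, t1 x],
    key _ _ _ _ (-1) ((mINV n M G mG).1 _
      ((mHES n M).2.2.2.2.2.2.2.2.1 h hh).toTen.neg).2.1 hφ hu.sm fun x => by
      linarith [e1 x, mul_nonneg hε.le (t0 x)]⟩
  have a1 : M.tr (G + (1 : ℝ) • h) H x ≤ M.tr G H x :=
    (hA n _ _ 1 (mG.ev_pos x) (hh.ev_pos x) one_pos).2.2.2.2.2.2.2.2.2.2 _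
      (hH.toMet.ev_pos x).posSemidef
  have a2 := m1.tr_nonneg mG.nonneg x
  have a3 : M.tr G (-M.ric h) x ≤ n + (M.lap G φ x - M.lap G u x) := by
    linarith [e1 x, mul_nonneg hε.le (t0 x)]
  have a4 := mul_le_mul_of_nonneg_left a3 (show 0 ≤ α * n by positivity)
  rw [Mf.yp, Mf.yw, tr_congr (fun _ _ _ _ => rfl) r1,
    tr_congr (G := G + (1 : ℝ) • h) (fun _ _ _ _ => rfl) r1, tr_sub, tr_sub, tr_smul, tr_smul,
    mG.tr_self, e2]
  linarith [mul_le_mul_of_nonneg_left a1 hε.le]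

end Pool.Agent.Lib.PM
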