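import Pool.Agent.Lib.PM.Blue
import Pool.Agent.Lib.HN.B_NLM
import Pool.Agent.Lib.HN.B_NLI

/-! Project pm78: the smooth limit for matrices. -/

open scoped Classical Topology ContDiff ComplexOrder Matrix ENNReal
open Set MeasureTheory Complex Metric Filter

noncomputable section

namespace Pool.Agent.Lib.PM

open Pool.Agent.Lib.SV (E)
open Pool.Agent.Lib.HS32 Pool.Agent.Lib.TB.T53 Pool.Agent.Lib.TB.T18 Pool.Agent.Lib.HN.N53

namespace LM78

variable {n : ℕ} {Y : Type} [NormedAddCommGroup Y] [NormedSpace ℝ Y] {y : Y} {h : E n → Mat n}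
  {π : Y → E n} {A : Y → Mat n}

/-- The right sides are smooth functions of the point and of the field. -/
theorem jw (hπ : ContDiffAt ℝ ∞ π y) (hA : ∀ p q, ContDiffAt ℝ ∞ (fun w => A w p q) y)
    (hs : SmM h (π y)) (h0 : (h (π y)).det ≠ 0) (k p q : Fin n) :
    ContDiffAt ℝ ∞ (fun w => wr h k (π w) (A w) p q) y ∧
      ContDiffAt ℝ ∞ (fun w => wb h k (π w) (A w) p q) y := by
  have c : ∀ {T : E n → Mat n}, SmM T (π y) → ∀ p q, ContDiffAt ℝ ∞ (fun w => T (π w) p q) y :=
    fun hT p q => (hT p q).comp y hπ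
  have h4 := HN.N53.jm (HN.N53.jm (S := fun w => 1 - A w)
    (fun p q => contDiffAt_const.sub (hA p q)) (c (sm_tm hs h0 k))) hA
  exact ⟨((HN.N53.jm hA (c (hs.gam h0 k)) p q).sub (HN.N53.jm (c (hs.gam h0 k)) hA p q)).add
    (h4 p q), HN.N53.jm (HN.N53.jm (T := fun w => ((1 - A w) * tm h k (π w) * A w)ᴴ)
      (c (hs.inv h0)) fun p q => by
        exact (conjCLE.contDiff.contDiffAt.comp y (h4 q p) :)) (c hs) p q⟩

end LM78

open LM78

theorem st_PLM : St_PLM := by
  intro n l u h c ρ C hu hh h1 h2
  have h0 := fun z hz => (hh z hz).2.det_pos.ne'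
  have hm : ∀ {T : E n → Mat n}, (∀ z ∈ ball c ρ, SmM T z) → ∀ p q,
      AEMeasurable (fun z => ‖T z p q‖ₑ) (volume.restrict (ball c ρ)) := fun hT p q =>
    (ContinuousOn.aemeasurable (fun z hz => (hT z hz p q).continuousAt.continuousWithinAt)
      measurableSet_ball).enorm
  obtain ⟨U, a1, a2⟩ := HN.st_NLI n (Fin n → Fin n → ℂ) l (fun i w p q => u i w p q)
    (fun y => ps (fun k => wr h k y.1 (Matrix.of y.2)) fun k => wb h k y.1 (Matrix.of y.2)) c ρ |C|
    (fun i z hz => ⟨(cd_of (hu i z hz).1).of_le (by simp),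
      (pi_norm_le_iff_of_nonneg (abs_nonneg C)).2 fun p =>
        (pi_norm_le_iff_of_nonneg (abs_nonneg C)).2 fun q =>
          ((hu i z hz).2 p q).trans (le_abs_self C)⟩)
    (fun z hz x => ContDiffOn.contDiffAt (s := ball c ρ ×ˢ univ)
      (contDiffOn_clm_apply.2 fun v y hy => ContDiffAt.contDiffWithinAt
        (contDiffAt_pi.2 fun p => contDiffAt_pi.2 fun q => by
          refine ContDiffAt.sum (s := Finset.univ)
            (f := fun k (y : E n × (Fin n → Fin n → ℂ)) =>
              wr h k y.1 (Matrix.of y.2) p q * v k + wb h k y.1 (Matrix.of y.2) p q * star (v k))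
            fun k _ => ?_
          obtain ⟨b1, b2⟩ := jw (π := Prod.fst) (A := fun y => Matrix.of y.2) contDiffAt_fst
            (fun p q => contDiffAt_pi.1 (contDiffAt_pi.1 contDiffAt_snd p) q) (hh _ hy.1).1
            (h0 _ hy.1) k p q
          exact (b1.mul contDiffAt_const).add (b2.mul contDiffAt_const)))
      ((isOpen_ball.prod isOpen_univ).mem_nhds ⟨hz, trivial⟩))
    (by
      have j := fun i k z hz => jw (π := id) (A := u i) contDiffAt_id (hu i z hz).1 (hh z hz).1
        (h0 z hz) k
      have m1 := fun i k => hm (T := fun z => dM k (u i) z - wr h k z (u i z))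
        fun z hz => ((hu i z hz).1.dM k).sub fun p q => (j i k z hz p q).1
      have m2 := fun i k => hm (T := fun z => dMb k (u i) z - wb h k z (u i z))
        fun z hz => ((hu i z hz).1.dMb k).sub fun p q => (j i k z hz p q).2
      have t := (sum0 fun p => sum0 fun q => sum0 (μ := volume.restrict (ball c ρ)) (l := l)
        (f := fun k i z => ‖(dM k (u i) z - wr h k z (u i z)) p q‖ₑ +
          ‖(dMb k (u i) z - wb h k z (u i z)) p q‖ₑ) fun k =>
            ⟨fun i => (m1 i k p q).add (m2 i k p q),
            by simpa only [add_zero, ← lintegral_add_left' (m1 _ _ _ _)] using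
              (h1 k p q).add (h2 k p q)⟩).2
      refine tendsto_of_tendsto_of_tendsto_of_le_of_le tendsto_const_nhds t (fun _ => zero_le)
        fun i => ?_
      refine setLIntegral_mono' measurableSet_ball fun z hz => ?_
      rw [← ofReal_norm]
      refine (ENNReal.ofReal_le_ofReal (norm_ps (hu i z hz).1 _ _)).trans (le_of_eq ?_)
      rw [ENNReal.ofReal_sum_of_nonneg fun _ _ => by positivity]
      refine Finset.sum_congr rfl fun p _ => ?_
      rw [ENNReal.ofReal_sum_of_nonneg fun _ _ => by positivity]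
      refine Finset.sum_congr rfl fun q _ => ?_
      rw [ENNReal.ofReal_sum_of_nonneg fun _ _ => by positivity]
      refine Finset.sum_congr rfl fun k _ => ?_
      rw [ENNReal.ofReal_add (norm_nonneg _) (norm_nonneg _), ofReal_norm, ofReal_norm]
      rfl)
  refine ⟨fun z => Matrix.of (U z), fun z hz => ⟨fun p q =>
    contDiffAt_pi.1 (contDiffAt_pi.1 (a1 z hz).1 p) q, ?_⟩, fun K k1 k2 p q => ?_⟩
  · have e : ∀ v p q, fderiv ℝ (fun w => U w p q) z v =
        ∑ j, (wr h j z (Matrix.of (U z)) p q * v j +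
          wb h j z (Matrix.of (U z)) p q * star (v j)) := fun v p q => by
      rw [← fd_ent (a1 z hz).2.differentiableAt, (a1 z hz).2.fderiv]
      rfl
    refine ⟨fun k => ?_, fun k => ?_⟩
    · ext p q
      simp only [dM, dz, Matrix.of_apply, e, Pi.single_apply, apply_ite star, star_one, star_zero,
        mul_ite, mul_zero, Finset.sum_add_distrib, Finset.sum_ite_eq', Finset.mem_univ, if_true,
        RCLike.star_def, conj_I]
      linear_combination (-(wr h k z (Matrix.of (U z)) p q) / 2 +
        wb h k z (Matrix.of (U z)) p q / 2) * I_mul_I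
    · ext p q
      simp only [dMb, dzb, Matrix.of_apply, e, Pi.single_apply, apply_ite star, star_one, star_zero,
        mul_ite, mul_zero, Finset.sum_add_distrib, Finset.sum_ite_eq', Finset.mem_univ, if_true,
        RCLike.star_def, conj_I]
      linear_combination ((wr h k z (Matrix.of (U z)) p q) / 2 -
        wb h k z (Matrix.of (U z)) p q / 2) * I_mul_I
  · refine tendsto_of_tendsto_of_tendsto_of_le_of_le tendsto_const_nhds (a2 K k1 k2)
      (fun _ => zero_le) fun i => lintegral_mono fun z => ?_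
    rw [← ofReal_norm, ← ofReal_norm]
    exact ENNReal.ofReal_le_ofReal ((norm_le_pi_norm _ q).trans
      (norm_le_pi_norm ((fun p q => u i z p q : Fin n → Fin n → ℂ) - U z) p))

end Pool.Agent.Lib.PM
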