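import Pool.Agent.Lib.PM.Blue
import Pool.Agent.Lib.HS.B_LOCP
import Pool.Agent.Lib.HS32.MAll

/-! Project pm78: the local smooth limit of the fields of the sequence. -/

open scoped Classical Topology ContDiff ComplexOrder Matrix ENNReal
open Set MeasureTheory Complex Metric Filter

noncomputable section

namespace Pool.Agent.Lib.PM

open Pool.Agent.Lib.SV (E)
open Pool.Agent.Lib.HS32 Pool.Agent.Lib.HS.Locp

namespace X60

theorem ent_bd {n : ℕ} {T : Fin n → E n → Mat n} {K : Set (E n)} (hK : IsCompact K)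
    (hT : ∀ m, ∀ z ∈ K, SmM (T m) z) :
    ∃ D : ℝ, 0 ≤ D ∧ ∀ z ∈ K, ∀ m i j, ‖T m z i j‖ ≤ D := by
  have hc : ContinuousOn (fun z => ∑ m, ∑ i, ∑ j, ‖T m z i j‖) K := fun z hz =>
    (tendsto_finsetSum _ fun m _ => tendsto_finsetSum _ fun i _ => tendsto_finsetSum _
      fun j _ => (hT m z hz i j).continuousAt.continuousWithinAt.norm)
  obtain ⟨D, hD⟩ := hK.exists_bound_of_continuousOn hc
  refine ⟨|D|, abs_nonneg D, fun z hz m i j => le_trans ?_
    (((Real.le_norm_self _).trans (hD z hz)).trans (le_abs_self D))⟩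
  exact ((Finset.single_le_sum (f := fun j => ‖T m z i j‖) (fun _ _ => by positivity)
    (Finset.mem_univ j)).trans (Finset.single_le_sum (f := fun i => ∑ j, ‖T m z i j‖)
      (fun _ _ => by positivity) (Finset.mem_univ i))).trans
    (Finset.single_le_sum (f := fun m => ∑ i, ∑ j, ‖T m z i j‖) (fun _ _ => by positivity)
      (Finset.mem_univ m))

theorem mul_bd {n : ℕ} {A B : Mat n} {C D : ℝ} (hC : 0 ≤ C) (hA : ∀ i j, ‖A i j‖ ≤ C)
    (hB : ∀ i j, ‖B i j‖ ≤ D) (i j : Fin n) : ‖(A * B) i j‖ ≤ n * (C * D) := by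
  rw [Matrix.mul_apply]
  refine (norm_sum_le_of_le (n := fun _ => C * D) _ fun p _ => ?_).trans (by simp)
  rw [norm_mul]
  exact mul_le_mul (hA i p) (hB p j) (norm_nonneg _) hC

theorem cut {d p w v : ℂ} {s C γ y D : ℝ} (s0 : 0 ≤ s) (s1 : s ≤ 1) (h1 : ‖d‖ ≤ C * γ)
    (h2 : ‖p‖ ≤ C) (h3 : ‖w‖ ≤ C * y) (h4 : ‖v‖ ≤ D) :
    ‖d * p + s * w - (s * (1 - s) : ℝ) * v‖ ≤ C * C * γ + C * (s * y) + D * (1 - s) := by
  have h5 : 0 ≤ 1 - s := sub_nonneg.2 s1
  refine (norm_sub_le _ _).trans (add_le_add ((norm_add_le _ _).trans (add_le_add ?_ ?_)) ?_)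
  · rw [norm_mul, mul_right_comm]
    exact mul_le_mul h1 h2 (norm_nonneg _) ((norm_nonneg _).trans h1)
  · rw [norm_mul, Complex.norm_real, Real.norm_of_nonneg s0, mul_left_comm]
    exact mul_le_mul_of_nonneg_left h3 s0
  · rw [norm_mul, Complex.norm_real, Real.norm_of_nonneg (mul_nonneg s0 h5), mul_comm D]
    exact mul_le_mul (mul_le_of_le_one_left h5 s1) h4 (norm_nonneg _) h5

theorem wr_smul {n : ℕ} (h : E n → Mat n) (m : Fin n) (z : E n) (W : Mat n) (s : ℝ) :
    wr h m z ((s : ℂ) • W) =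
      (s : ℂ) • wr h m z W + ((s * (1 - s) : ℝ) : ℂ) • (W * tm h m z * W) := by
  simp only [wr, Matrix.smul_mul, Matrix.mul_smul, Matrix.sub_mul, Matrix.one_mul, smul_sub,
    smul_add, smul_smul]
  push_cast
  module

theorem wb_smul {n : ℕ} (h : E n → Mat n) (m : Fin n) (z : E n) (W : Mat n) (s : ℝ) :
    wb h m z ((s : ℂ) • W) =
      (s : ℂ) • wb h m z W + ((s * (1 - s) : ℝ) : ℂ) • ((h z)⁻¹ * (W * tm h m z * W)ᴴ * h z) := by
  simp only [wb, Matrix.smul_mul, Matrix.mul_smul, Matrix.sub_mul, Matrix.one_mul, smul_sub,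
    smul_smul, Matrix.conjTranspose_sub, Matrix.conjTranspose_smul, Matrix.mul_sub, star_mul',
    Complex.star_def, Complex.conj_ofReal]
  push_cast
  module

end X60

theorem st_PLO (hSU : St_PSU) (hDB : St_PDB) (hLM : St_PLM) : St_PLO := by
  intro n M _ H h α ε s u f l hK hh hα hp hs hl e he c ρ hcρ
  have hM : M.Met H := hK.toMet
  have hcont : ∀ f : M.X → ℝ, M.Sm f → Continuous f := fun f => ((mTR n M).2.2.2.1 ℝ f).1
  have hint : ∀ f : M.X → ℝ, Continuous f → Integrable f (M.mu H) :=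
    (mMU n M H hM).2.2.2.2.1 ℝ
  obtain ⟨C1, hC1, hda, hdb⟩ := hDB n M H h α hM hh hα hp e he _ (isCompact_closedBall c ρ) hcρ
  obtain ⟨C4, hC4, hc⟩ := chart_le mMU mBD hM he (isCompact_closedBall c ρ) hcρ
  have hsu := fun a => (hSU n M h α hh hα hp).2 _ (s a) (hs.sol a).kae (hs.scl a).1
  have hd := fun a => hdb _ (s a) (hs.sol a).kae (hs.scl a).1
  have hz1 : ∀ a, ∀ z ∈ closedBall c ρ, ∀ i j, ‖M.wsq H h ε s u a e z i j‖ ≤ C1 :=
    fun a z hz i j => (hd a z hz i j).1
  have hsf : ∀ a, ∀ z ∈ closedBall c ρ, ContDiffAt ℝ ∞ (M.lc (f a) e) z :=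
    fun a z hz => cd_ofReal (hs.fs a e he z (hcρ hz))
  have hsh : ∀ z ∈ closedBall c ρ, SmM (h e) z := fun z hz => hh.sm e he z (hcρ hz)
  have hdh : ∀ z ∈ closedBall c ρ, (h e z).det ≠ 0 :=
    fun z hz => (hh.pos e he z (hcρ hz)).det_pos.ne'
  have hsp : ∀ a, ∀ z ∈ closedBall c ρ, SmM (M.wsq H h ε s u a e) z := fun a z hz =>
    (hsu a).2.1.sm e he z (hcρ hz)
  obtain ⟨D1, hD1, hm1⟩ := X60.ent_bd (T := tm (h e)) (isCompact_closedBall c ρ)
    fun m z hz i j => ((hsh z hz).gam (hdh z hz) m i j).sub ((hsh z hz).gam (hdh z hz) j i m)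
  obtain ⟨D2, hD2, hm2⟩ := X60.ent_bd (T := fun _ => h e) (isCompact_closedBall c ρ)
    fun _ z hz => hsh z hz
  obtain ⟨D3, hD3, hm3⟩ := X60.ent_bd (T := fun _ z => (h e z)⁻¹) (isCompact_closedBall c ρ)
    fun _ z hz => (hsh z hz).inv (hdh z hz)
  have hw3 : ∀ a, ∀ z ∈ closedBall c ρ, ∀ m i j, ‖(M.wsq H h ε s u a e z * tm (h e) m z *
      M.wsq H h ε s u a e z) i j‖ ≤ n * (n * (C1 * D1) * C1) := fun a z hz m =>
    X60.mul_bd (by positivity) (X60.mul_bd hC1.le (hz1 a z hz) (hm1 z hz m)) (hz1 a z hz)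
  have hcf : ∀ a, Continuous (f a) := fun a => hcont _ (hs.fs a)
  let Q : ℕ → E n → Mat n := fun a z => M.lc (f a) e z • M.wsq H h ε s u a e z
  have est1 : ∀ (D : ℕ → E n → ℂ) (D0 : ℝ), 0 ≤ D0 → (∀ a, ∀ z ∈ closedBall c ρ, ‖D a z‖ ≤
      C1 * C1 * √(M.gr H (f a) (f a) (e.symm z)) +
        C1 * (f a (e.symm z) * √(M.dfc (M.gE H (ε a) (u a)) h α (s a) (e.symm z))) +
        D0 * (1 - f a (e.symm z))) →
      Tendsto (fun a => ∫⁻ z in ball c ρ, ‖D a z‖ₑ) l (𝓝 0) := by
    intro D D0 hD0 hD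
    have lim : Tendsto (fun a => ENNReal.ofReal (C4 * (C1 * C1 *
        (∫ x, √(M.gr H (f a) (f a) x) ∂M.mu H) +
        C1 * (∫ x, f a x * √(M.dfc (M.gE H (ε a) (u a)) h α (s a) x) ∂M.mu H) +
        D0 * ∫ x, (1 - f a x) ∂M.mu H))) l (𝓝 0) := by
      have := ENNReal.tendsto_ofReal (((((hs.df.mono_left hl).const_mul (C1 * C1)).add
        ((hs.fx.mono_left hl).const_mul C1)).add
        ((hs.f1.mono_left hl).const_mul D0)).const_mul C4)
      simpa using this
    refine tendsto_of_tendsto_of_tendsto_of_le_of_le tendsto_const_nhds lim (fun _ => zero_le)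
      fun a => (lintegral_mono_set ball_subset_closedBall).trans ?_
    obtain ⟨-, hg1, -⟩ := (mLAP n M _ _ (hs.fs a) (hs.fs a)).2.2 H hM
    have c0 := hcf a
    have c1 : Continuous fun x => √(M.gr H (f a) (f a) x) := (hcont _ hg1).sqrt
    have c2 : Continuous fun x => √(M.dfc (M.gE H (ε a) (u a)) h α (s a) x) :=
      (hcont _ (hsu a).2.2.2.2.2.2.2.1).sqrt
    refine (hc (fun x => C1 * C1 * √(M.gr H (f a) (f a) x) +
        C1 * (f a x * √(M.dfc (M.gE H (ε a) (u a)) h α (s a) x)) + D0 * (1 - f a x)) _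
      (by fun_prop) (fun x => by
        have := (hs.f01 a x).1
        have := sub_nonneg.2 (hs.f01 a x).2; positivity) (hD a)).trans (le_of_eq ?_)
    rw [integral_add (hint _ (by fun_prop)) (hint _ (by fun_prop)),
      integral_add (hint _ (by fun_prop)) (hint _ (by fun_prop)), integral_const_mul,
      integral_const_mul, integral_const_mul]
  have est2 : ∀ i j, Tendsto (fun a => ∫⁻ z in closedBall c ρ,
      ‖M.wsq H h ε s u a e z i j - Q a z i j‖ₑ) l (𝓝 0) := by
    intro i j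
    have lim : Tendsto (fun a => ENNReal.ofReal (C4 * (C1 * ∫ x, (1 - f a x) ∂M.mu H))) l
        (𝓝 0) := by
      have := ENNReal.tendsto_ofReal (((hs.f1.mono_left hl).const_mul C1).const_mul C4)
      simpa using this
    refine tendsto_of_tendsto_of_tendsto_of_le_of_le tendsto_const_nhds lim (fun _ => zero_le)
      fun a => ?_
    have := hcf a
    refine (hc (fun x => C1 * (1 - f a x)) _ (by fun_prop)
      (fun x => mul_nonneg hC1.le (sub_nonneg.2 (hs.f01 a x).2)) fun z hz => ?_).trans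
      (by rw [integral_const_mul])
    have e1 : M.wsq H h ε s u a e z i j - Q a z i j =
        M.wsq H h ε s u a e z i j * ((1 - f a (e.symm z) : ℝ) : ℂ) := by
      simp only [Q, Mf.lc, Matrix.smul_apply, smul_eq_mul]; push_cast; ring
    have h1 := sub_nonneg.2 (hs.f01 a (e.symm z)).2
    rw [e1, norm_mul, Complex.norm_real, Real.norm_of_nonneg h1]
    exact mul_le_mul_of_nonneg_right (hz1 a z hz i j) h1
  have hQ : ∀ a, ∀ z ∈ closedBall c ρ, SmM (Q a) z :=
    fun a z hz => SmM.smul (hsf a z hz) (hsp a z hz)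
  obtain ⟨P, hP1, hP3⟩ := hLM n l Q (h e) c ρ C1
    (fun a z hz => ⟨hQ a z (ball_subset_closedBall hz), fun i j => by
      have h1 := hs.f01 a (e.symm z)
      simp only [Q, Mf.lc, Matrix.smul_apply, smul_eq_mul]
      rw [norm_mul, Complex.norm_real, Real.norm_of_nonneg h1.1]
      exact (mul_le_of_le_one_left (norm_nonneg _) h1.2).trans
        (hz1 a z (ball_subset_closedBall hz) i j)⟩)
    (fun z hz => ⟨hsh z (ball_subset_closedBall hz),
      hh.pos e he z (hcρ (ball_subset_closedBall hz))⟩)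
    (fun m i j => est1 _ (n * (n * (C1 * D1) * C1)) (by positivity) fun a z hz => by
      refine le_of_eq_of_le ?_ (X60.cut (hs.f01 a _).1 (hs.f01 a _).2
        (hda _ (hs.fs a) z hz m).1 (hz1 a z hz i j) ((hd a z hz i j).2 m).1 (hw3 a z hz m i j))
      congr 1
      simp only [Q]
      rw [dM_smul (cd_diff (hsf a z hz)) (hsp a z hz), Mf.lc, X60.wr_smul]
      simp only [Mf.wsq, Matrix.sub_apply, Matrix.add_apply, Matrix.smul_apply, smul_eq_mul]
      ring)
    (fun m i j => est1 _ (n * (n * (D3 * (n * (n * (C1 * D1) * C1))) * D2)) (by positivity)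
      fun a z hz => by
      refine le_of_eq_of_le ?_ (X60.cut (hs.f01 a _).1 (hs.f01 a _).2
        (hda _ (hs.fs a) z hz m).2 (hz1 a z hz i j) ((hd a z hz i j).2 m).2
        (X60.mul_bd (by positivity) (X60.mul_bd hD3 (hm3 z hz m)
          (B := (M.wsq H h ε s u a e z * tm (h e) m z * M.wsq H h ε s u a e z)ᴴ) fun p q => by
            rw [Matrix.conjTranspose_apply, norm_star]; exact hw3 a z hz m q p) (hm2 z hz m) i j))
      congr 1
      simp only [Q]
      rw [dMb_smul (cd_diff (hsf a z hz)) (hsp a z hz), Mf.lc, X60.wb_smul]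
      simp only [Mf.wsq, Matrix.sub_apply, Matrix.add_apply, Matrix.smul_apply, smul_eq_mul]
      ring)
  refine ⟨P, hP1, fun K hKc hKb i j => ?_⟩
  have hKs : K ⊆ closedBall c ρ := hKb.trans ball_subset_closedBall
  have hPc : ContinuousOn (fun z => P z i j) K := fun z hz =>
    ((hP1 z (hKb hz)).1 i j).continuousAt.continuousWithinAt
  have t1 : Tendsto (fun a => ∫⁻ z in K, ‖M.wsq H h ε s u a e z i j - P z i j‖ₑ) l (𝓝 0) := by
    have := (est2 i j).add (hP3 K hKc hKb i j)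
    rw [add_zero] at this
    refine tendsto_of_tendsto_of_tendsto_of_le_of_le tendsto_const_nhds this (fun _ => zero_le)
      fun a => ?_
    have hm : AEMeasurable (fun z => ‖Q a z i j - P z i j‖ₑ) (volume.restrict K) :=
      (ContinuousOn.aestronglyMeasurable (ContinuousOn.sub
        (fun z hz => (hQ a z (hKs hz) i j).continuousAt.continuousWithinAt) hPc)
        hKc.measurableSet).enorm
    calc _ ≤ ∫⁻ z in K, (‖M.wsq H h ε s u a e z i j - Q a z i j‖ₑ + ‖Q a z i j - P z i j‖ₑ) :=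
          lintegral_mono fun z => by
            rw [← sub_add_sub_cancel _ (Q a z i j)]; exact enorm_add_le _ _
      _ = _ := lintegral_add_right' _ hm
      _ ≤ _ := add_le_add (lintegral_mono_set hKs) le_rfl
  refine ((ENNReal.tendsto_toReal ENNReal.zero_ne_top).comp t1).congr fun a => ?_
  have hm : AEStronglyMeasurable (fun z => M.wsq H h ε s u a e z i j - P z i j)
      (volume.restrict K) :=
    ContinuousOn.aestronglyMeasurable (ContinuousOn.sub
      (fun z hz => (hsp a z (hKs hz) i j).continuousAt.continuousWithinAt) hPc) hKc.measurableSet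
  have := (integral_norm_eq_lintegral_enorm hm).symm
  simp only [Function.comp, this]
  simp only [Matrix.sub_apply]

end Pool.Agent.Lib.PM
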