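import Pool.Agent.Lib.PM.Blue
import Pool.Agent.Lib.HS.B_VOL
import Pool.Agent.Lib.HS76.Diag
import Pool.Agent.Lib.GH.B_GME
import Pool.Agent.Lib.GH.B_GPHI

/-! Project pm78: the null quantities. -/

open scoped Classical Topology ContDiff ComplexOrder Matrix
open Set MeasureTheory Complex Metric Filter

noncomputable section

namespace Pool.Agent.Lib.PM

open Pool.Agent.Lib.HS32 Pool.Agent.Lib.HS32.Mf Pool.Agent.Lib.GH Pool.Agent.Lib.GH.G56

namespace PNT17

variable {X : Type} [MeasurableSpace X] {μ : Measure X} [IsFiniteMeasure μ]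

omit [IsFiniteMeasure μ] in
theorem tg_exp {b : ℕ → X → ℝ} (hb : Tg μ b) : Tg μ fun j x => Real.exp (b j x) := fun η hη => by
  obtain ⟨L, hL⟩ := hb η hη
  exact ⟨Real.exp L, fun j => by simpa only [Real.exp_le_exp] using hL j⟩

theorem tg_pow {b : ℕ → X → ℝ} (h0 : ∀ j x, 0 ≤ b j x) (hb : Tg μ b) (m : ℕ) :
    Tg μ fun j x => b j x ^ m := by
  induction m with
  | zero => simpa only [pow_zero] using tg_const 1
  | succ m ih => simpa only [pow_succ] using tg_mul (fun j x => pow_nonneg (h0 j x) m) h0 ih hb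

theorem nl_cut {f d : ℕ → X → ℝ} (n1 : Nl μ fun j x => f j x * √(d j x))
    (n2 : Nl μ fun j x => 1 - f j x) : Nl μ d := fun η hη => by
  have h0 := Real.sqrt_pos.2 hη
  have ht := (n1 _ (half_pos h0)).add (n2 _ one_half_pos)
  rw [add_zero] at ht
  refine squeeze_zero (fun _ => measureReal_nonneg) (fun i => sub_le fun x hx => ?_) ht
  by_contra hc
  simp only [mem_union, mem_ofPred_eq, not_or, not_le] at hc hx
  nlinarith [Real.sqrt_le_sqrt hx, hc.1, hc.2]

end PNT17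

open PNT17 in
theorem st_PNT (hSU : St_PSU) (hKY : St_PKY) : St_PNT := by
  intro n M _ H h α ε s u f hn hH hh hα hP hs
  have hV := HS.st_VOL mTR mINV mHES mMU mCOH
  obtain ⟨-, hfin, -, -, hint, -⟩ := mMU n M H hH.toMet
  have it : ∀ f : M.X → ℝ, M.Sm f → Integrable f (M.mu H) := fun f hf => hint ℝ f hf.continuous
  obtain ⟨hη, hSU⟩ := hSU n M h α hh hα hP
  have gm := fun j => (hs.sol j).kae.toMet
  have su := fun j => hSU _ _ (hs.sol j).kae (hs.scl j).1
  have ky := fun j => hKY n M H h α _ _ hH hh hα hP (hs.eps j).1 (hs.sol j)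
  have V0 : ∀ j, 0 < M.vol H (ε j) := fun j => ((hV n M H hH).1 _ _ (hs.sol j)).2.2.2.1
  obtain ⟨C, C0, hC⟩ := st_GPHI hV n M H hn hH
  choose a a1 a2 a3 a4 a5 using fun j => (hC _ (hs.eps j) _ (hs.sol j)).2.2
  have t0 : Tg (M.mu H) fun j x => Real.exp (a j - u j x) :=
    tg_exp (tg_int (fun j x => sub_nonneg.2 (a1 j x))
      (fun j => it _ ((sm_const _).sub (hs.sol j).sm)) C a2)
  have tg : ∀ q : ℕ → M.X → ℝ, (∀ j x, 0 ≤ q j x) → (∀ j, M.Sm (q j)) →
      (∀ j, M.av H (ε j) (u j) (q j) ≤ n) → Tg (M.mu H) q := fun q q0 qs qa => by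
    have p0 : ∀ j x, 0 ≤ q j x * Real.exp (u j x) * (C / M.vol H (ε j)) := fun j x =>
      mul_nonneg (mul_nonneg (q0 j x) (Real.exp_pos _).le) (div_pos C0 (V0 j)).le
    refine tg_mono (tg_mul (fun j x => (Real.exp_pos _).le) p0 t0 (tg_int p0
      (fun j => it _ (((qs j).mul (hs.sol j).sm.exp).mul (sm_const _))) (C * n) fun j => ?_))
      fun j x => ?_
    · rw [integral_mul_const, mul_div_left_comm]
      exact mul_le_mul_of_nonneg_left (qa j) C0.le
    · have h1 := mul_le_mul_of_nonneg_left (a4 j x)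
        (mul_nonneg (Real.exp_pos (a j - u j x)).le (q0 j x))
      rw [mul_right_comm, ← Real.exp_add, sub_add_sub_cancel, sub_self, Real.exp_zero,
        one_mul] at h1
      exact h1.trans_eq (by ring)
  refine ⟨nl_mono (nl_int (fun j x => ?_) (fun j => it _ ?_) hs.rb) fun j x => ?_,
    nl_cut (nl_int (fun j x => mul_nonneg (hs.f01 j x).1 (Real.sqrt_nonneg _))
      (fun j => hint ℝ _ ((hs.fs j).continuous.mul (su j).2.2.2.2.2.2.2.1.continuous.sqrt)) hs.fx)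
      (nl_int (fun i x => sub_nonneg.2 (hs.f01 i x).2)
        (fun i => it _ ((sm_const _).sub (hs.fs i))) hs.f1),
    nl_mul (fun j _ => (hs.scl j).1.le) (fun j => (gm j).tr_nonneg hη) (nl_const hs.s0)
      (tg _ (fun j => (gm j).tr_nonneg hη) (fun j => ((mINV n M _ (gm j)).1 _
        ((mHES n M).2.2.2.2.2.2.2.2.1 h hh).toTen.neg).2.1) fun j => (ky j).2.2), ?_⟩
  · obtain ⟨-, -, -, b1, -, -, b2, -⟩ := (su j).2.2.2.2.2.2.2.2.1 x
    exact mul_nonneg (add_nonneg (hs.scl j).1.le b1) (add_nonneg zero_le_one b2)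
  · exact ((sm_const _).add (su j).2.2.2.2.2.2.1).mul
      ((sm_const _).add ((mINV n M h hh).1 _ (gm j).toTen).2.1)
  · obtain ⟨-, -, -, b1, -, -, b2, -⟩ := (su j).2.2.2.2.2.2.2.2.1 x
    nlinarith [(hs.scl j).1, mul_nonneg (add_nonneg (hs.scl j).1.le b1) b2]
  intro k hk ⟨_, c, _, hc⟩
  have sp : ∀ j, 0 < s j ^ n := fun j => pow_pos (hs.scl j).1 n
  have e0 : Tendsto ε atTop (𝓝[>] 0) := tendsto_nhdsWithin_iff.2
    ⟨squeeze_zero (fun j => (hs.eps j).1.le) (fun j => le_div_self (hs.eps j).1.le (sp j)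
      (pow_le_one₀ (hs.scl j).1.le (hs.scl j).2)) hs.e0, .of_forall fun j => (hs.eps j).1⟩
  obtain ⟨B, hB⟩ := (hc.comp e0).bddAbove_range
  obtain ⟨D, D0, hD⟩ := ((mINV n M h hh).1 H hH.toTen).2.2.2.1.exists_bound
  have r0 : ∀ j x, 0 ≤ ε j * M.tr (M.gE H (ε j) (u j)) H x := fun j x =>
    mul_nonneg (hs.eps j).1.le ((gm j).tr_nonneg hH.toMet.nonneg x)
  have r1 : ∀ j x, 0 ≤ 1 + ε j * M.tr (M.gE H (ε j) (u j)) h x := fun j x =>
    add_nonneg zero_le_one (mul_nonneg (hs.eps j).1.le ((gm j).tr_nonneg hh.nonneg x))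
  have t1 : Tg (M.mu H) fun j x => ε j * M.tr (M.gE H (ε j) (u j)) h x :=
    tg_mono (tg_mul r0 (fun _ => hH.toMet.tr_nonneg hh.nonneg)
      (tg _ r0 (fun j => (sm_const _).mul ((mINV n M _ (gm j)).1 _ hH.toTen).2.1)
        fun j => (ky j).2.1)
      (tg_int (fun _ => hH.toMet.tr_nonneg hh.nonneg)
        (fun _ => it _ ((mINV n M H hH.toMet).1 h hh.toTen).2.1) _ fun _ => le_rfl)) fun j x => by
      rw [mul_assoc]
      exact mul_le_mul_of_nonneg_left (HS76.tr_le_mul ((gm j).ev_pos x) (hH.toMet.ev_pos x)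
        (hh.ev_pos x).posSemidef) (hs.eps j).1.le
  have B0 : 0 ≤ B := (div_pos (V0 0) (pow_pos (hs.eps 0).1 k)).le.trans (hB ⟨0, rfl⟩)
  have c0 := hs.e0.const_mul (D * C * B)
  rw [mul_zero] at c0
  refine nl_mono (nl_mul (fun j _ => mul_nonneg (by positivity) (div_pos (hs.eps j).1 (sp j)).le)
    (fun j x => pow_nonneg (r1 j x) _) (nl_const c0)
    (tg_pow r1 (tg_add (tg_const 1) t1) (k - 1))) fun j x => ?_
  have e1 := (hs.eps j).1
  have h1 : M.dq h (M.gE H (ε j) (u j)) x = M.dq h H x * Real.exp (u j x) := by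
    rw [← (hs.sol j).det x]
    exact ((mINV n M h hh).2.2.2.2.2.2.2 H hH.toMet).2.2.1 _ (gm j).toForm x
  have h2 : Real.exp (u j x) ≤ C * (B * ε j ^ k) :=
    ((div_le_iff₀ (V0 j)).1 (a3 j x)).trans (mul_le_mul_of_nonneg_left
      ((div_le_iff₀ (pow_pos e1 k)).1 (hB ⟨j, rfl⟩)) C0.le)
  have h3 := mul_le_mul ((le_abs_self _).trans (hD x)) h2 (Real.exp_pos _).le D0.le
  have h4 : 0 < 1 + ε j * M.tr (M.gE H (ε j) (u j)) h x :=
    add_pos_of_pos_of_nonneg one_pos (mul_nonneg e1.le ((gm j).tr_nonneg hh.nonneg x))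
  have h5 := sp j
  rw [h1]
  refine (div_le_div_of_nonneg_right h3 (by positivity)).trans_eq ?_
  obtain ⟨m, rfl⟩ := Nat.exists_eq_add_of_le' hk
  rw [Nat.add_sub_cancel, div_pow]
  field_simp
  ring

end Pool.Agent.Lib.PM
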