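import Pool.Agent.Lib.PM.Blue
import Pool.Agent.Lib.HS.B_PAR
import Pool.Agent.Lib.RB.B_RPJ

/-! Project pm78: the rank of the limit field. -/

open scoped Classical Topology ContDiff ComplexOrder Matrix
open Set MeasureTheory Complex Metric Filter

noncomputable section

namespace Pool.Agent.Lib.PM

open Pool.Agent.Lib.SV (E)
open Pool.Agent.Lib.HS32 Pool.Agent.Lib.GH Pool.Agent.Lib.RB.R33

namespace Y89

variable {n : ℕ}

theorem rank {h P : Mat n} (hh : h.PosDef) (h1 : (h * P).IsHermitian) (h2 : P * P = P) :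
    ∃ k ≤ n, P.trace = (k : ℕ) ∧ ∀ s : ℝ, (1 + s • P).det = ((1 + s : ℝ) : ℂ) ^ k := by
  have a := hh.posSemidef.conjTranspose_mul_mul_same P
  have b := h1.eq
  rw [Matrix.conjTranspose_mul, hh.1.eq] at b
  rw [b, Matrix.mul_assoc, h2] at a
  obtain ⟨W, V, d, v1, -, rfl, -⟩ := diag hh a
  have cj : ∀ A : Mat n, V * (W * A * V) * W = A := fun A => by
    rw [← Matrix.mul_assoc, ← Matrix.mul_assoc, v1, Matrix.one_mul, Matrix.mul_assoc, v1,
      Matrix.mul_one]
  have c := congrArg (V * · * W) h2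
  simp only [cj_mul v1, cj] at c
  have e : ∀ i, d i = 0 ∨ d i = 1 := fun i => by
    have := congrFun (congrFun c i) i
    simp only [dg, Matrix.diagonal_apply_eq, ofReal_inj] at this
    exact or_iff_not_imp_left.2 fun z => mul_right_cancel₀ z (this.trans (one_mul _).symm)
  refine ⟨(Finset.univ.filter fun i => d i = 1).card,
    (Finset.card_filter_le _ _).trans (by simp), ?_, fun s => ?_⟩
  · rw [Matrix.trace_mul_cycle, v1, Matrix.one_mul, dg, Matrix.trace_diagonal, Finset.card_filter,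
      Nat.cast_sum]
    exact Finset.sum_congr rfl fun i _ => by rcases e i with t | t <;> simp [t]
  · rw [cj_det v1, ← Finset.prod_const, Finset.prod_filter, ofReal_prod]
    exact Finset.prod_congr rfl fun i _ => by rcases e i with t | t <;> simp [t]

theorem fd {h P : E n → Mat n} {z : E n} (hP : SmM P z) (h0 : (h z).det ≠ 0)
    (h2 : P z * P z = P z) (hw : Wde h P z) : fderiv ℝ (fun w => (P w).trace) z = 0 := by
  ext v
  rw [fderiv_eq_sum]
  refine Finset.sum_eq_zero fun j _ => ?_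
  have a : dz j (fun w => (P w).trace) z = (dM j P z).trace := by
    simp only [Matrix.trace, Matrix.diag]
    rw [dz_sum fun i _ => hP.diff i i]
    rfl
  have b : dzb j (fun w => (P w).trace) z = (dMb j P z).trace := by
    simp only [Matrix.trace, Matrix.diag]
    rw [dzb_sum fun i _ => hP.diff i i]
    rfl
  have c : ((1 - P z) * tm h j z * P z).trace = 0 := by
    rw [Matrix.trace_mul_cycle, Matrix.mul_sub, h2, Matrix.mul_one, sub_self, Matrix.zero_mul,
      Matrix.trace_zero]
  rw [a, b, hw.1, hw.2, wr, wb, Matrix.trace_mul_cycle _ _ (h z),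
    Matrix.mul_nonsing_inv _ h0.isUnit, Matrix.one_mul, Matrix.trace_conjTranspose,
    Matrix.trace_add, c, Matrix.trace_sub, Matrix.trace_mul_comm (gam h j z)]
  simp

theorem low {P : Mat n} {k : ℕ} (hk : k ≤ n)
    (h : ∀ s : ℝ, (1 + s • P).det = ((1 + s : ℝ) : ℂ) ^ k) {t : ℝ} (ht : 0 < t) :
    t ^ k ≤ (t • (1 : Mat n) + (1 - P)).det.re := by
  have t1 : 0 < 1 + t := by linarith
  have e : t • (1 : Mat n) + (1 - P) = ((1 + t : ℝ) : ℂ) • (1 + (-(1 + t)⁻¹) • P) := by
    rw [Complex.coe_smul, smul_add, smul_smul, mul_neg, mul_inv_cancel₀ t1.ne', add_smul, one_smul,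
      neg_one_smul]
    abel
  rw [e, Matrix.det_smul, h, Fintype.card_fin, ← ofReal_pow, ← ofReal_pow, ← ofReal_mul, ofReal_re,
    show 1 + -(1 + t)⁻¹ = t / (1 + t) by field_simp; ring, div_pow, mul_div_assoc',
    le_div_iff₀ (by positivity), mul_comm]
  exact mul_le_mul_of_nonneg_right (pow_le_pow_right₀ (by linarith) hk) (by positivity)

end Y89

open Y89 in
theorem st_PRK : St_PRK := by
  intro n M _ h P hh hP hA
  obtain ⟨c, hc⟩ := HS.BPAR.const (M := M) (Φ := fun e z => (P e z).trace)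
    (fun e he e' he' x hx hx' => by
      have a : (h e' (e' x)).det ≠ 0 := hh.det_ne e' he' _ (e'.map_source hx')
      rw [hh.cmp e he e' he' x hx hx', Matrix.det_mul] at a
      have hu : IsUnit (M.J e e' x).det := Ne.isUnit (right_ne_zero_of_mul a)
      have b := congrArg (fun A => Matrix.trace ((M.J e e' x)⁻¹ * A)) (hP.cmp e he e' he' x hx hx')
      simp only [Matrix.nonsing_inv_mul_cancel_left _ _ hu] at b
      rw [← Matrix.mul_assoc, Matrix.trace_mul_cycle, Matrix.mul_nonsing_inv _ hu,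
        Matrix.one_mul] at b
      exact b)
    (fun e he z hz => ⟨cd_diff (hP.sm e he z hz).trace, fd (hP.sm e he z hz) (hh.det_ne e he z hz)
      (hA e he z hz).2.1 (hA e he z hz).2.2⟩)
  have r := fun e he z hz => rank (hh.pos e he z hz) (hA e he z hz).1 (hA e he z hz).2.1
  obtain ⟨x⟩ : Nonempty M.X := inferInstance
  obtain ⟨k', k1, k2, k3⟩ := r _ (Mf.ch_mem x) _ (Mf.ch_tgt x)
  refine ⟨k', k1, fun s e he z hz => ?_, fun k hk => not_lt.1 fun lt => ?_⟩
  · obtain ⟨j, -, j2, j3⟩ := r e he z hz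
    obtain rfl : j = k' := Nat.cast_injective (R := ℂ) (j2.symm.trans ((hc e he z hz).trans
      ((hc _ (Mf.ch_mem x) _ (Mf.ch_tgt x)).symm.trans k2)))
    exact j3 s
  · have t0 : (0 : ℝ) < (2 ^ (n + 1))⁻¹ := by positivity
    have t1 : ((2 : ℝ) ^ (n + 1))⁻¹ ≤ 1 := inv_le_one_of_one_le₀ (one_le_pow₀ one_le_two)
    have a := (low k1 k3 t0).trans ((hk _ (Mf.ch_mem x) _ (Mf.ch_tgt x) _ ⟨t0, t1⟩).trans
      (mul_le_mul_of_nonneg_left (pow_le_pow_of_le_one t0.le t1 lt) (by positivity)))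
    rw [pow_succ' _ k', ← mul_assoc, le_mul_iff_one_le_left (by positivity), pow_succ, mul_inv,
      mul_inv_cancel_left₀ (by positivity)] at a
    norm_num at a

end Pool.Agent.Lib.PM
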