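import Pool.Agent.Lib.PM.Blue
import Pool.Agent.Lib.KR51.Big

/-! Project pm78: polynomial bounds from the maximum principle. -/

open scoped Classical Topology ContDiff ComplexOrder Matrix
open Set MeasureTheory Complex Metric Filter

noncomputable section

namespace Pool.Agent.Lib.PM.S34

open Pool.Agent.Lib.SV (E)
open Pool.Agent.Lib.HS32 Pool.Agent.Lib.HS32.Mf Pool.Agent.Lib.HS76 Pool.Agent.Lib.GH
open Pool.Agent.Lib.GH.G28 (tr_pos)
open Pool.Agent.Lib.GH.G34 (sol_det)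
open Pool.Agent.Lib.K51 (neg_le)

variable {n : ℕ} {M : Mf n} [M.Cpt] {H h B : M.Fam (Mat n)}

omit [M.Cpt] in
/-- Two-sided bounds for the metric from a bound for the trace. -/
theorem two {ε K C : ℝ} {u : M.X → ℝ} (hn : 0 < n) (hH : M.Kae H) (hu : M.SolB H B ε u)
    (hK : 1 ≤ K) (hC : 1 ≤ C) (hup : ∀ x, Real.exp (u x) ≤ C)
    (h1 : ∀ x, M.tr (M.gB H B ε u) H x ≤ K) :
    M.Le ((C * K ^ n)⁻¹ • H) (M.gB H B ε u) ∧ M.Le (M.gB H B ε u) ((C * K ^ n) • H) := by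
  have hG := hu.kae.toMet
  have k1 : K ≤ C * K ^ n :=
    (le_self_pow₀ hK hn.ne').trans (le_mul_of_one_le_left (by positivity) hC)
  have h2 : M.Le (K⁻¹ • H) (M.gB H B ε u) := by
    have h7 : M.Le H (K • M.gB H B ε u) := fun e he z hz => by
      have a := h1 (e.symm z)
      rw [((mINV n M _ hG).1 H hH.toMet.toTen).1 e he z hz] at a
      exact le_tr_smul (hG.pos e he z hz) (hH.pos e he z hz).posSemidef a
    have h8 := h7.smul (c := K⁻¹) (by positivity)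
    rwa [smul_smul, inv_mul_cancel₀ (by positivity), one_smul] at h8
  refine ⟨(hH.toMet.le_smul (inv_anti₀ (by positivity) k1)).trans h2,
    Le.trans (T := (C / K⁻¹ ^ (Fintype.card (Fin n) - 1)) • H) (fun e he z hz => ?_)
      (hH.toMet.le_smul ?_)⟩
  · refine le_of_det_le (hH.pos e he z hz) (hG.herm e he z hz) (by positivity) (h2 e he z hz) ?_
    rw [sol_det hH hu e he z hz]
    exact mul_le_mul_of_nonneg_right (hup _) (pd_det_re (hH.pos e he z hz)).le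
  · rw [Fintype.card_fin, inv_pow, div_inv_eq_mul]
    exact mul_le_mul_of_nonneg_left (pow_le_pow_right₀ hK (Nat.sub_le _ _)) (by linarith)

/-- The bound for the trace. -/
theorem trb {c μ N₀ C : ℝ} (hn : 0 < n) (hH : M.Kae H) (hh : M.Met h) (hc : 0 < c) (hμ : 0 ≤ μ)
    (hC : 0 ≤ C) : ∃ (F : ℝ) (L : ℕ), 1 ≤ F ∧ ∀ ε ∈ Ioc (0 : ℝ) 1, ∀ u, M.SolB H B ε u →
      (∀ x, u x ≤ C) → (∀ x, c * ε * M.tr (M.gB H B ε u) h x - N₀ ≤
        M.lap (M.gB H B ε u) (fun y => Real.log (M.tr (M.gB H B ε u) h y) - μ * u y) x) →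
      ∀ x, M.tr (M.gB H B ε u) H x ≤ F * ε⁻¹ ^ L := by
  obtain ⟨A, hA, hAh, -⟩ := (mBD n M h hh).1 H hH.toForm
  obtain ⟨L, hL⟩ := exists_nat_ge (1 + μ * n)
  obtain ⟨D, hD1, hD⟩ : ∃ D : ℝ, 1 ≤ D ∧ N₀ / c ≤ D := ⟨_, le_max_left _ _, le_max_right _ _⟩
  have hA1 : 1 ≤ A + 1 := by linarith
  have hAD : 1 ≤ (A + 1) * D := one_le_mul_of_one_le_of_one_le hA1 hD1
  refine ⟨(A + 1) * (Real.exp (μ * C) * ((A + 1) * D) ^ L), L, one_le_mul_of_one_le_of_one_le hA1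
    (one_le_mul_of_one_le_of_one_le (Real.one_le_exp (by positivity)) (one_le_pow₀ hAD)),
    fun ε hε u hu hu1 hs x => ?_⟩
  have hG := hu.kae.toMet
  have hneg := neg_le hn hH hu
  generalize M.gB H B ε u = G at *
  have i1 : 1 ≤ ε⁻¹ := (one_le_inv₀ hε.1).mpr hε.2
  have hS : M.Sm (M.tr G h) := ((mINV n M _ hG).1 _ hh.toTen).2.1
  have hp := tr_pos hn hG hh
  have hq : ∀ y, M.tr G H y ≤ (A + 1) * M.tr G h y := fun y => by
    have a := hG.tr_mono hAh y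
    rw [tr_smul] at a
    linarith [hp y]
  have hy := (hS.log fun y => (hp y).ne').sub (hu.sm.const_mul μ)
  obtain ⟨y, hm⟩ := hy.exists_max
  have a1 := (hs y).trans (((((mLAP n M _ _ hy hy).2.2 _ hG).2.2.1 y
    0).2.2.2.2.2.2.2.2.1 (Eventually.of_forall hm)).1)
  have a2 : M.tr G h y ≤ D * ε⁻¹ := by
    rw [div_le_iff₀ hc] at hD
    rw [← div_eq_mul_inv, le_div_iff₀ hε.1]
    exact le_of_mul_le_mul_left (by linarith) hc
  have b1 : (A + 1) * M.tr G h y ≤ (A + 1) * D * ε⁻¹ := by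
    rw [mul_assoc]
    exact mul_le_mul_of_nonneg_left a2 (by linarith)
  have a3 := Real.log_le_log (hp y) ((le_mul_of_one_le_left (hp y).le hA1).trans b1)
  have b3 := Real.log_le_log (tr_pos hn hG hH.toMet y) ((hq y).trans b1)
  have a4 := Real.log_nonneg (one_le_mul_of_one_le_of_one_le hAD i1)
  have a5 := mul_le_mul_of_nonneg_left ((hneg y).trans
    (mul_le_mul_of_nonneg_left b3 n.cast_nonneg)) hμ
  have a6 := mul_le_mul_of_nonneg_right hL a4
  have a7 := mul_le_mul_of_nonneg_left (hu1 x) hμ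
  have a8 := hm x
  rw [mul_assoc]
  refine (hq x).trans (mul_le_mul_of_nonneg_left ?_ (by linarith))
  rw [mul_assoc, ← mul_pow, ← Real.log_le_log_iff (hp x) (by positivity),
    Real.log_mul (Real.exp_pos _).ne' (by positivity), Real.log_exp, Real.log_pow]
  linarith

end Pool.Agent.Lib.PM.S34

namespace Pool.Agent.Lib.PM

theorem st_PS1 : St_PS1 := fun n M _ H h B c μ N₀ hn hH hh hB hc hμ hs => by
  obtain ⟨C, hC, hup⟩ := K51.sup_le hH hB
  obtain ⟨F, L, hF, ht⟩ := S34.trb (B := B) (N₀ := N₀) (C := C) hn hH hh hc hμ (by linarith)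
  obtain ⟨C₂, N₂, hC₂, h2⟩ := K51.gen M hn hH hh.toForm hB
  have hFn : 1 ≤ F ^ n := one_le_pow₀ hF
  have h1 : 1 ≤ C * F ^ n := one_le_mul_of_one_le_of_one_le hC hFn
  have h3 : C * F ^ n ≤ C₂ * (C * F ^ n) ^ (N₂ + 1) :=
    (le_self_pow₀ h1 N₂.succ_ne_zero).trans (le_mul_of_one_le_left (by positivity) hC₂)
  refine ⟨C₂ * (C * F ^ n) ^ (N₂ + 1), L * n * (N₂ + 1), h1.trans h3, fun ε hε u hu x => ?_⟩
  have i1 : 1 ≤ ε⁻¹ := (one_le_inv₀ hε.1).mpr hε.2
  have hl : 0 ≤ -Real.log ε := neg_nonneg.2 (Real.log_nonpos hε.1.le hε.2)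
  have hu1 : ∀ x, u x ≤ C := fun x => by linarith [hup ε hε u hu x, Real.add_one_le_exp (u x)]
  have h4 := ht ε hε u hu hu1 (hs ε hε u hu)
  have hK : 1 ≤ F * ε⁻¹ ^ L := one_le_mul_of_one_le_of_one_le hF (one_le_pow₀ i1)
  have hR : 1 ≤ C * (F * ε⁻¹ ^ L) ^ n := one_le_mul_of_one_le_of_one_le hC (one_le_pow₀ hK)
  obtain ⟨a, b⟩ := S34.two hn hH hu hK hC (hup ε hε u hu) h4
  have h5 : C ≤ C * F ^ n := le_mul_of_one_le_right (by linarith) hFn
  have h6 : F ^ n ≤ C * F ^ n := le_mul_of_one_le_left (by linarith) hC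
  refine ⟨⟨?_, by linarith [hu1 x]⟩,
    (h2 ε hε _ hR _ hu.kae (GH.G34.sol_ric hH hu) a b x).trans (pow_le_pow_left₀ (by positivity)
      ((mul_le_mul_of_nonneg_left (pow_le_pow_right₀ hR N₂.le_succ) (by linarith)).trans_eq ?_) 2)⟩
  · have d := (K51.neg_le hn hH hu x).trans (mul_le_mul_of_nonneg_left
      (Real.log_le_log (GH.G28.tr_pos hn hu.kae.toMet hH.toMet x) (h4 x)) n.cast_nonneg)
    rw [Real.log_mul (by positivity) (by positivity), Real.log_pow, Real.log_inv, mul_add,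
      ← Real.log_pow] at d
    have e := Real.log_le_self (x := F ^ n) (by positivity)
    have f : 0 ≤ (L : ℝ) * n * N₂ * -Real.log ε := by positivity
    push_cast
    linarith
  · rw [mul_pow F, ← pow_mul, ← mul_assoc C, mul_pow (C * F ^ n), ← pow_mul, ← mul_assoc]

end Pool.Agent.Lib.PM
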