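import Pool.Agent.Lib.PM.Blue
import Pool.Agent.Lib.KR51.Big

/-! Project pm78: the trace is small. -/

open scoped Classical Topology ContDiff ComplexOrder Matrix
open Set MeasureTheory Complex Metric Filter

noncomputable section

namespace Pool.Agent.Lib.PM

open Pool.Agent.Lib.SV (E)
open Pool.Agent.Lib.HS32 Pool.Agent.Lib.HS32.Mf Pool.Agent.Lib.HS76 Pool.Agent.Lib.GH
open Pool.Agent.Lib.HS.SMALL (pair)
open Pool.Agent.Lib.GH.G28 (tr_pos)
open Pool.Agent.Lib.K51 (ev_small neg_le)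

namespace X75

variable {n : ℕ} {M : Mf n} [M.Cpt] {H h B : M.Fam (Mat n)}

theorem core {c C C₁ C₂ D μ : ℝ} {N N₁ L : ℕ} (hn : 0 < n) (hH : M.Kae H) (hh : M.Met h)
    (hB : M.Form B) (hc : 0 < c) (hC₁ : 1 ≤ C₁) (hC₂ : 1 ≤ C₂) (hμ : 0 ≤ μ) (hL : 1 + μ * n ≤ L)
    (hD1 : 1 ≤ D) (hD2 : M.Le h (D • H)) (hD3 : M.Le H (D • h))
    (hs : ∀ ε ∈ Ioc (0 : ℝ) 1, ∀ u, M.SolB H B ε u →
      (∀ x, -(L : ℝ) ≤
        M.lap (M.gB H B ε u) (fun y => Real.log (M.tr (M.gB H B ε u) h y) - μ * u y) x) ∧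
      ∀ x, -(C₁ + N₁ * -Real.log ε) ≤ u x ∧ u x ≤ C₁)
    (hg : ∀ ε ∈ Ioc (0 : ℝ) 1, ∀ u, M.SolB H B ε u → ∀ x,
      M.gr H (M.tr (M.gB H B ε u) h) (M.tr (M.gB H B ε u) h) x ≤ (C₂ * ε⁻¹ ^ N) ^ 2)
    (hv : ∀ ε ∈ Ioc (0 : ℝ) 1, ∀ u, M.SolB H B ε u → c ≤ (M.mu (M.gB H B ε u)).real univ ∧
      ∫ x, M.dq (M.gB H B ε u) (M.gB H B ε u + H) x ∂M.mu (M.gB H B ε u) ≤ C) :
    ∀ᶠ ε in 𝓝[>] (0 : ℝ), ∀ u, M.SolB H B ε u → ∀ x, ε * M.tr (M.gB H B ε u) H x < 1 := by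
  have hric : M.Clo (M.ric H) := (mHES n M).2.2.2.2.2.2.2.2.1 H hH.toMet
  obtain ⟨C₀, hC₀, hr0, -⟩ := (mBD n M H hH.toMet).1 _ (hB.sub hric.toForm)
  obtain ⟨C₄, hC₄, -, hps⟩ := mPSH n M H (C₀ + 1) hH.toMet
  set C₃ : ℝ := D * ((|C| + 1) / c) with hC₃
  have hC₃0 : 0 < C₃ := by positivity
  set A₀ : ℝ := n + (C₁ + C₁ + C₄ * (1 + Real.log ((C₄ + 1) * C₂))) with hA₀
  set A₁ : ℝ := N₁ + C₄ * N with hA₁
  have hL0 : (0 : ℝ) < L := lt_of_lt_of_le (by positivity) hL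
  filter_upwards [ev_small (D * (1 + Real.exp (L + μ * C₁))) (1 + C₃ * A₀) (C₃ * A₁)
    (Nat.cast_pos.1 hL0),
    Ioc_mem_nhdsGT (zero_lt_one' ℝ)] with ε hsm hε u hu x
  obtain ⟨hlap, hub⟩ := hs ε hε u hu
  have hg := hg ε hε u hu
  obtain ⟨hv1, hv2⟩ := hv ε hε u hu
  have hgE : M.gB H B ε u = ε • H + B - M.ric H + M.hs u := rfl
  have hG := hu.kae
  have hdet := hu.det
  have hneg := neg_le hn hH hu
  generalize M.gB H B ε u = G at *
  have hvol : ∀ f : M.X → ℝ, ∫ y, f y ∂M.mu G = ∫ y, f y * Real.exp (u y) ∂M.mu H := fun f => by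
    rw [((mMU n M H hH.toMet).2.2.2.2.2.2 G hG.toMet).2.1 f]
    exact integral_congr_ae (Eventually.of_forall fun y => by
      beta_reduce
      rw [hdet y, mul_comm])
  have hn' : (1 : ℝ) ≤ n := by exact_mod_cast hn
  have hl : 0 ≤ -Real.log ε := neg_nonneg.2 (Real.log_nonpos hε.1.le hε.2)
  have hC24 : 1 ≤ (C₄ + 1) * C₂ := by nlinarith
  have hA0 : 0 < A₀ := by
    have := Real.log_nonneg hC24
    positivity
  have hA1 : 0 ≤ A₁ := by positivity
  have ha : 0 < A₀ + A₁ * -Real.log ε := by positivity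
  have hS1 : M.Sm (M.tr G h) := ((mINV n M G hG.toMet).1 _ hh.toTen).2.1
  have hSp : ∀ y, 0 < M.tr G h y := tr_pos hn hG.toMet hh
  have hT1 : M.Sm (M.tr G H) := ((mINV n M G hG.toMet).1 _ hH.toMet.toTen).2.1
  have hTp : ∀ y, 0 < M.tr G H y := tr_pos hn hG.toMet hH.toMet
  have hST : ∀ y, M.tr G h y ≤ D * M.tr G H y := fun y =>
    (hG.toMet.tr_mono hD2 y).trans_eq (tr_smul D)
  have hTS : ∀ y, M.tr G H y ≤ D * M.tr G h y := fun y =>
    (hG.toMet.tr_mono hD3 y).trans_eq (tr_smul D)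
  obtain ⟨x₀, hx₀⟩ := hS1.exists_max
  have hpos : 0 < C₃ * (A₀ + A₁ * -Real.log ε) := by positivity
  refine lt_of_le_of_lt (mul_le_mul_of_nonneg_left ?_ hε.1.le) hsm
  rw [add_assoc, mul_assoc C₃, ← mul_add]
  suffices hbig : M.tr G h x₀ ≤
      1 + Real.exp (L + μ * C₁) * (1 + C₃ * (A₀ + A₁ * -Real.log ε)) ^ L by
    have b1 : 1 ≤ (1 + C₃ * (A₀ + A₁ * -Real.log ε)) ^ L := one_le_pow₀ (by linarith)
    have b2 := mul_le_mul_of_nonneg_left (((hx₀ x).trans hbig).trans (add_le_add_left b1 _))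
      (zero_le_one.trans hD1)
    linarith [hTS x]
  by_contra hbig
  rw [not_le] at hbig
  -- the bump function
  have hε1 : 1 ≤ ε⁻¹ ^ N := one_le_pow₀ ((one_le_inv₀ hε.1).2 hε.2)
  have hD : 1 ≤ (C₄ + 1) * C₂ * ε⁻¹ ^ N := by nlinarith
  obtain ⟨β₀, hβs, hβ0, hβ1, hβl, hβp⟩ := hps x₀ ((C₄ + 1) * C₂ * ε⁻¹ ^ N)⁻¹ (by positivity)
    (inv_le_one_of_one_le₀ hD)
  have hlog : Real.log ((C₄ + 1) * C₂ * ε⁻¹ ^ N)⁻¹ =
      -(Real.log ((C₄ + 1) * C₂) + N * -Real.log ε) := by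
    rw [Real.log_inv, Real.log_mul (by positivity) (by positivity), Real.log_pow, Real.log_inv]
  have hnear : ∀ y, β₀ y ≠ 0 → M.tr G h x₀ - 1 ≤ M.tr G h y := fun y hy => by
    have h1 := (abs_le.1 (hβl _ (C₂ * ε⁻¹ ^ N) hS1 (by positivity) hg y hy)).1
    have h2 : C₄ * (C₂ * ε⁻¹ ^ N) * ((C₄ + 1) * C₂ * ε⁻¹ ^ N)⁻¹ ≤ 1 := by
      rw [← div_eq_mul_inv, div_le_one (by positivity)]
      have : 0 ≤ C₂ * ε⁻¹ ^ N := by positivity
      nlinarith
    linarith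
  have hβ : M.Sm fun y => β₀ y * Real.exp (-u y) := hβs.mul hu.sm.neg.exp
  have hch : ∀ f : M.X → ℝ, ∫ y, β₀ y * Real.exp (-u y) * f y ∂M.mu G =
      ∫ y, β₀ y * f y ∂M.mu H := fun f => by
    rw [hvol]
    refine integral_congr_ae (Eventually.of_forall fun y => ?_)
    beta_reduce
    rw [Real.exp_neg]
    field_simp
  have hβ1' : ∫ y, β₀ y * Real.exp (-u y) ∂M.mu G = 1 := by
    simpa [hβ1] using hch fun _ => 1
  have hβ0' : ∀ y, 0 ≤ β₀ y * Real.exp (-u y) := fun y => mul_nonneg (hβ0 y) (Real.exp_pos _).le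
  obtain ⟨ρ, hρs, hρ0, hρ1, hρv, hρS⟩ := HS.asRHO n M G _ hn hG hβ hβ0' hβ1'
  have iG : ∀ f : M.X → ℝ, M.Sm f → Integrable f (M.mu G) := fun f hf =>
    (mMU n M G hG.toMet).2.2.2.2.1 ℝ f hf.continuous
  have iH : ∀ f : M.X → ℝ, M.Sm f → Integrable f (M.mu H) := fun f hf =>
    (mMU n M H hH.toMet).2.2.2.2.1 ℝ f hf.continuous
  -- the integral bound
  have hint := HS.asPOP n M G H ρ (A₀ + A₁ * -Real.log ε) hn hG hH.toClo hH.toMet.nonneg hρs hρ0
      fun v hv hk => by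
    have hψ := hu.sm.add hv
    obtain ⟨y₀, hy₀⟩ := hψ.exists_max
    have hψ0 : M.Sm fun y => u y + v y - (u y₀ + v y₀) := hψ.sub (sm_const _)
    have hle : M.Le 0 ((C₀ + 1) • H + M.hs fun y => u y + v y - (u y₀ + v y₀)) := by
      intro e he z hz
      have e1 := ((mLAP n M _ _ hψ (sm_const (u y₀ + v y₀))).1 (u y₀ + v y₀) e he z hz)
      have e2 := ((mLAP n M _ _ hu.sm hv).1 0 e he z hz).2.1
      have e3 := ((hk.pos e he z hz).posSemidef.add (hr0 e he z hz)).add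
        (psd_rsmul (hH.pos e he z hz).posSemidef (sub_nonneg.2 hε.2))
      simp only [Pi.add_apply, Pi.smul_apply, Pi.zero_apply, sub_zero]
      rw [e1.2.2.1, e1.1, e2]
      simp only [hgE, Pi.add_apply, Pi.sub_apply, Pi.smul_apply] at e3
      rwa [show (C₀ + 1) • H e z + (M.hs u e z + M.hs v e z - 0) =
        ε • H e z + B e z - M.ric H e z + M.hs u e z + M.hs v e z +
          (C₀ • H e z - (B e z - M.ric H e z)) + (1 - ε) • H e z by rw [add_smul, sub_smul]; abel]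
    have hm : ∀ y, u y + v y - (u y₀ + v y₀) ≤ 0 := fun y => sub_nonpos.2 (hy₀ y)
    have h1 := hβp _ hψ0 hle hm ⟨y₀, sub_self _⟩
    rw [← hch] at h1
    have h2 := pair hρ0 hβ0' (iG _ hρs) (iG _ hβ)
      (iG _ (hv.mul (hρs.sub hβ))) (iG _ (hβ.mul hψ0)) hρ1 hβ1' hm
      (fun y => (hub y).1) (fun y => (hub y).2) h1
    rw [hρv v hv]
    rw [hlog] at h2
    rw [hA₀, hA₁]
    linarith
  have hI0 : 0 ≤ ∫ y, ρ y * M.tr G H y ∂M.mu G :=
    integral_nonneg fun y => mul_nonneg (hρ0 y) (hG.toMet.tr_nonneg hH.toMet.nonneg y)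
  have hI1 : ∫ y, ρ y * M.tr G H y ∂M.mu G ≤ (|C| + 1) / c * (A₀ + A₁ * -Real.log ε) := by
    have h1 := (mul_le_mul_of_nonneg_right hv1 hI0).trans (hint.trans
      (mul_le_mul_of_nonneg_left (hv2.trans ((le_abs_self C).trans (le_add_of_nonneg_right
        zero_le_one))) ha.le))
    rw [div_mul_eq_mul_div, le_div_iff₀ hc]
    linarith
  have hy : M.Sm fun y => Real.log (M.tr G h y) - μ * u y :=
    (hS1.log fun y => (hSp y).ne').sub (hu.sm.const_mul μ)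
  have hy' : M.Sm fun y => Real.exp ((L : ℝ)⁻¹ * (Real.log (M.tr G h y) - μ * u y)) :=
    (hy.const_mul _).exp
  have hJ := hρS _ hy' (fun y => Real.exp_pos _) fun y => by
    simp only [Real.log_exp]
    rw [(((mLAP n M _ _ hy hy).2.2 G hG.toMet).2.2.1 y _).2.2.2.1, le_inv_mul_iff₀ hL0]
    linarith [hlap y]
  rw [hch] at hJ
  simp only [Real.log_exp] at hJ
  have hs0 : 0 < M.tr G h x₀ - 1 := by
    have : 0 < Real.exp (L + μ * C₁) * (1 + C₃ * (A₀ + A₁ * -Real.log ε)) ^ L := by positivity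
    linarith
  have h1 : (L : ℝ)⁻¹ * (Real.log (M.tr G h x₀ - 1) - μ * C₁) ≤
      ∫ y, β₀ y * ((L : ℝ)⁻¹ * (Real.log (M.tr G h y) - μ * u y)) ∂M.mu H := by
    have h := integral_mono
      ((iH _ hβs).mul_const ((L : ℝ)⁻¹ * (Real.log (M.tr G h x₀ - 1) - μ * C₁)))
      (iH _ (hβs.mul (hy.const_mul (L : ℝ)⁻¹))) fun y => by
        beta_reduce
        by_cases hy : β₀ y = 0
        · rw [hy, zero_mul, zero_mul]
        · exact mul_le_mul_of_nonneg_left (mul_le_mul_of_nonneg_left (sub_le_sub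
            (Real.log_le_log hs0 (hnear y hy)) (mul_le_mul_of_nonneg_left (hub y).2 hμ))
            (inv_pos.2 hL0).le) (hβ0 y)
    rwa [integral_mul_const, hβ1, one_mul] at h
  have h2 : ∫ y, ρ y * Real.exp ((L : ℝ)⁻¹ * (Real.log (M.tr G h y) - μ * u y)) ∂M.mu G ≤
      1 + C₃ * (A₀ + A₁ * -Real.log ε) := by
    have h := integral_mono (iG _ (hρs.mul hy'))
      ((iG _ hρs).add ((iG _ (hρs.mul hT1)).const_mul D)) fun y => by
      have a0 : M.tr G H y ≤ D * M.tr G H y := le_mul_of_one_le_left (hTp y).le hD1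
      have h3 : (L : ℝ)⁻¹ * (Real.log (M.tr G h y) - μ * u y) ≤
          Real.log (1 + D * M.tr G H y) := by
        have a1 := Real.log_le_log (hTp y) (a0.trans (le_add_of_nonneg_left zero_le_one))
        have a5 := Real.log_le_log (hSp y) ((hST y).trans (le_add_of_nonneg_left zero_le_one))
        have a2 := Real.log_nonneg (le_add_of_nonneg_right (a := (1 : ℝ)) ((hTp y).le.trans a0))
        have a3 := mul_le_mul_of_nonneg_left ((hneg y).trans
          (mul_le_mul_of_nonneg_left a1 n.cast_nonneg)) hμ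
        have a4 := mul_le_mul_of_nonneg_right hL a2
        rw [inv_mul_le_iff₀ hL0]
        linarith
      have := mul_le_mul_of_nonneg_left
        ((Real.le_log_iff_exp_le (by linarith [hTp y])).1 h3) (hρ0 y)
      simp only [Pi.add_apply]
      linarith
    rw [integral_add' (iG _ hρs) ((iG _ (hρs.mul hT1)).const_mul D), hρ1,
      integral_const_mul] at h
    have h' := mul_le_mul_of_nonneg_left hI1 (zero_le_one.trans hD1)
    rw [← mul_assoc] at h'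
    linarith
  have h3 := Real.log_le_log (by
    obtain ⟨y₁, hy₁⟩ := hy'.exists_min
    have h := integral_mono ((iG _ hρs).mul_const _)
      (iG _ (hρs.mul hy')) fun y => mul_le_mul_of_nonneg_left (hy₁ y) (hρ0 y)
    rw [integral_mul_const, hρ1, one_mul] at h
    exact (Real.exp_pos _).trans_le h) h2
  have h4 : Real.log (M.tr G h x₀ - 1) ≤
      Real.log (Real.exp (L + μ * C₁) * (1 + C₃ * (A₀ + A₁ * -Real.log ε)) ^ L) := by
    have := (inv_mul_le_iff₀ hL0).1 ((h1.trans hJ).trans (add_le_add_left h3 1))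
    rw [Real.log_mul (Real.exp_pos _).ne' (by positivity), Real.log_exp, Real.log_pow]
    linarith
  have h5 := (Real.log_le_log_iff hs0 (by positivity)).1 h4
  linarith

end X75

theorem st_PS2 : St_PS2 := by
  intro n M _ H h B c C C₁ μ N₀ N hn hH hh hB hc hC₁ hμ hs hv
  obtain ⟨D₁, -, h1, -⟩ := (mBD n M H hH.toMet).1 h hh.toForm
  obtain ⟨D₂, -, h2, -⟩ := (mBD n M h hh).1 H hH.toMet.toForm
  obtain ⟨L, hL⟩ := exists_nat_ge (max (1 + μ * n) N₀)
  exact X75.core (D := max 1 (max D₁ D₂)) (L := L) hn hH hh hB hc hC₁ hC₁ hμ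
    ((le_max_left _ _).trans hL) (le_max_left _ _)
    (h1.trans (hH.toMet.le_smul ((le_max_left _ _).trans (le_max_right _ _))))
    (h2.trans (hh.le_smul ((le_max_right _ _).trans (le_max_right _ _))))
    (fun ε hε u hu => ⟨fun x => (neg_le_neg ((le_max_right _ _).trans hL)).trans
      (hs ε hε u hu x).1, fun x => (hs ε hε u hu x).2.1⟩)
    (fun ε hε u hu x => (hs ε hε u hu x).2.2) hv

end Pool.Agent.Lib.PM
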