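import Pool.Agent.Lib.PM.Blue
import Pool.Agent.Lib.GH.B_GPHI
import Pool.Agent.Lib.HS.B_VOL
import Pool.Agent.Lib.RB.B_RC1

/-! Project pm78: the sequence of solutions, scales and cut-off functions. -/

open scoped Classical Topology ContDiff ComplexOrder Matrix Manifold
open Set MeasureTheory Complex Metric Filter

noncomputable section

namespace Pool.Agent.Lib.PM

open Pool.Agent.Lib.HS32 Pool.Agent.Lib.HS32.Mf Pool.Agent.Lib.RB.R95

namespace PSQ

variable {n : ℕ} {M : Mf n} {H : M.Fam (Mat n)} {u : M.X → ℝ}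

theorem tele (a : ℕ → ℝ) {I : ℕ} {B : ℝ} (hI : 0 < I) (h0 : 0 ≤ a 0) (h1 : a I ≤ B) :
    ∃ i < I, a (i + 1) - a i ≤ B / I := by
  obtain ⟨i, hi, h⟩ := Finset.exists_le_of_sum_le (s := Finset.range I)
    (f := fun i => a (i + 1) - a i) (g := fun _ => B / I) ⟨0, Finset.mem_range.2 hI⟩ (by
      rw [Finset.sum_range_sub, Finset.sum_const, Finset.card_range, nsmul_eq_mul,
        mul_div_cancel₀ _ (Nat.cast_pos.2 hI).ne']
      linarith)
  exact ⟨i, Finset.mem_range.1 hi, h⟩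

theorem gr_sub (hH : M.Met H) (hu : M.Sm u) (a : ℝ) (x : M.X) :
    M.gr H (fun y => u y - a) (fun y => u y - a) x = M.gr H u u x := by
  have c : ∀ y, ContDiffAt ℝ ∞ (fun t : ℝ => t - a) (u y) :=
    fun y => contDiffAt_id.sub contDiffAt_const
  have hs := hu.sub (sm_const a)
  rw [(((mLAP n M u _ hu hs).2.2 H hH).2.2.2.1 _ c x).2,
    (((mLAP n M u _ hu hs).2.2 H hH).2.2.1 x 0).2.2.2.2.2.1,
    (((mLAP n M u _ hu hu).2.2 H hH).2.2.2.1 _ c x).2, ((hasDerivAt_id' (u x)).sub_const a).deriv,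
    one_mul, one_mul]

/-- The cut-off function. -/
theorem cut [M.Cpt] (hH : M.Met H) (C : ℝ) : ∃ D : ℝ, ∀ (u : M.X → ℝ) (a A : ℝ), M.Sm u →
    1 ≤ A → (∀ x, u x ≤ a) → ∫ x, (a - u x) ∂M.mu H ≤ C →
    ∫ x, Real.exp ((u x - a) / A) * M.gr H u u x ∂M.mu H ≤ C * A →
    ∃ f, M.Sm f ∧ (∀ x, 0 ≤ f x ∧ f x ≤ 1) ∧ (∀ x, f x ≠ 0 → -(2 * A) ≤ u x - a) ∧
      ∫ x, (1 - f x) ∂M.mu H ≤ C / A ∧ ∫ x, √(M.gr H f f x) ∂M.mu H ≤ D / √A := by
  obtain ⟨K, hK, hk⟩ := kap_der
  obtain ⟨-, hfin, -, hV, hint, -⟩ := mMU n M H hH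
  refine ⟨(M.mu H).real univ + K ^ 2 * Real.exp 2 * C, fun u a A su hA ua h1 h2 => ?_⟩
  have A0 : 0 < A := one_pos.trans_le hA
  have sA : 0 < √A := Real.sqrt_pos.2 A0
  have sφ := su.sub (sm_const a)
  have sa := sφ.comp fun y => kap_cd A (u y - a)
  have k0 : ∀ t, 0 ≤ kap A t := fun t => Real.smoothTransition.nonneg _
  have k1 : ∀ t, kap A t ≤ 1 := fun t => Real.smoothTransition.le_one _
  have sg := fun f hf => ((mLAP n M f f hf hf).2.2 H hH).2.1
  have g0 := fun f hf x => (((mLAP n M f f hf hf).2.2 H hH).2.2.1 x 0).2.2.2.2.2.2.1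
  refine ⟨_, sa, fun x => ⟨k0 _, k1 _⟩, fun x hx => kap_ne A0 hx, ?_, ?_⟩
  · refine (integral_mono (hint ℝ _ ((sm_const 1).sub sa).continuous)
      ((hint ℝ _ ((sm_const a).sub su).continuous).div_const A) fun x => ?_).trans ?_
    · beta_reduce
      rcases le_total (-A) (u x - a) with h | h
      · rw [kap_one A0 h, sub_self]
        exact div_nonneg (sub_nonneg.2 (ua x)) A0.le
      · rw [le_div_iff₀ A0]
        nlinarith [k0 (u x - a)]
    · rw [integral_div]
      exact div_le_div_of_nonneg_right h1 A0.le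
  have i1 := (hint ℝ _ (((sφ.div (sm_const A) fun _ => A0.ne').exp).mul
    (sg u su)).continuous).const_mul (√A * ((K / A) ^ 2 * Real.exp 2))
  have h6 := integral_mono (hint ℝ _ (sg _ sa).continuous.sqrt)
    ((integrable_const (1 / √A)).add i1) fun x => by
      have t0 := g0 u su x
      simp only [Pi.add_apply]
      rw [mul_assoc]
      refine young zero_le_one (by positivity) sA ?_
      rw [Real.sq_sqrt (g0 _ sa x), gr_kap hH sφ, gr_sub hH su, one_mul, ← mul_assoc]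
      refine mul_le_mul_of_nonneg_right ?_ t0
      by_cases h : u x - a < -(2 * A)
      · rw [(hk A _ A0).2 h, zero_pow two_ne_zero]
        positivity
      · rw [mul_assoc, ← Real.exp_add]
        refine (hk A _ A0).1.trans (le_mul_of_one_le_right (sq_nonneg _) (Real.one_le_exp ?_))
        rw [← neg_le_iff_add_nonneg', le_div_iff₀ A0]
        linarith
  simp only [Pi.add_apply] at h6
  rw [integral_add (integrable_const _) i1, integral_const_mul, integral_const, smul_eq_mul,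
    mul_one_div] at h6
  have h7 := mul_le_mul_of_nonneg_left h2
    (show 0 ≤ √A * ((K / A) ^ 2 * Real.exp 2) by positivity)
  have e1 : √A * ((K / A) ^ 2 * Real.exp 2) * (C * A) = K ^ 2 * Real.exp 2 * C / √A := by
    rw [eq_div_iff sA.ne']
    have := Real.mul_self_sqrt A0.le
    field_simp
    rw [sq, this]
  rw [add_div]
  linarith

end PSQ

open PSQ in
theorem st_PSQ (hEX : St_PEX) (hSU : St_PSU) (hKY : St_PKY) : St_PSQ := by
  intro n M _ H h α hn hH hh hα hp
  have hV := HS.st_VOL mTR mINV mHES mMU mCOH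
  have hM := hH.toMet
  obtain ⟨hle, hS⟩ := hSU n M h α hh hα hp
  have hex := (hEX n M H h hn hH hh hle).1
  obtain ⟨C, hC, hP⟩ := GH.st_GPHI hV n M H hn hH
  obtain ⟨D, hD⟩ := cut hM C
  obtain ⟨-, hfin, -, hv, hint, -⟩ := mMU n M H hM
  have it : ∀ f : M.X → ℝ, M.Sm f → Integrable f (M.mu H) := fun f hf => hint ℝ f hf.continuous
  have sT := fun G (hG : M.Met G) T hT => ((mINV n M G hG).1 T hT).2.1
  obtain ⟨K, hK, hk⟩ := (sT h hh H hM.toTen).exists_bound
  obtain ⟨B, hB⟩ : ∃ B, B = (M.mu H).real univ + K * C := ⟨_, rfl⟩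
  have B0 : 0 < B := by rw [hB]; positivity
  have key : ∀ δ : ℝ, 0 < δ → δ ≤ 1 → ∃ ε s u, ε ∈ Ioc (0 : ℝ) 1 ∧ 0 < s ∧ s ≤ δ ∧ M.Sol H ε u ∧
      ε / s ^ n ≤ δ ∧ ∫ x, (s + M.rho (M.gE H ε u) h s x) * (1 + M.tr h (M.gE H ε u) x) ∂M.mu H ≤
        (1 + 2 * n) * B * δ := fun δ d0 d1 => by
    obtain ⟨I, hI⟩ := exists_nat_gt δ⁻¹
    have I0 : (0 : ℝ) < I := (inv_pos.2 d0).trans hI
    obtain ⟨t, ht⟩ : ∃ t : ℝ, t = δ / 2 ^ I := ⟨_, rfl⟩
    have t0 : 0 < t := by rw [ht]; positivity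
    have t1 : t ≤ 1 := by
      rw [ht]
      exact (div_le_self d0.le (one_le_pow₀ one_le_two)).trans d1
    have e0 : δ * t ^ n ∈ Ioc (0 : ℝ) 1 :=
      ⟨by positivity, mul_le_one₀ d1 (by positivity) (pow_le_one₀ t0.le t1)⟩
    obtain ⟨u, hu⟩ := hex _ e0.1
    obtain ⟨G, hG⟩ : ∃ G, G = M.gE H (δ * t ^ n) u := ⟨_, rfl⟩
    have kG : M.Kae G := hG ▸ hu.kae
    have S := fun i : ℕ => hS G (2 ^ i * t) kG (by positivity)
    have sb := (sm_const 1).add (sT h hh G kG.toTen)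
    have b0 : ∀ x, 0 ≤ 1 + M.tr h G x := fun x =>
      add_nonneg zero_le_one (hh.tr_nonneg kG.toMet.nonneg x)
    have b1 : ∫ x, (1 + M.tr h G x) ∂M.mu H ≤ B := by
      have i1 := (it _ (sT H hM G kG.toTen)).const_mul K
      refine (integral_mono (it _ sb) ((integrable_const 1).add i1) fun x => ?_).trans ?_
      · exact add_le_add le_rfl ((HS76.tr_le_mul (hh.ev_pos x) (hM.ev_pos x)
          (kG.toMet.ev_pos x).posSemidef).trans (mul_le_mul_of_nonneg_right
            ((le_abs_self _).trans (hk x)) (hM.tr_nonneg kG.toMet.nonneg x)))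
      · simp only [Pi.add_apply]
        rw [integral_add (integrable_const _) i1, integral_const, integral_const_mul, smul_eq_mul,
          mul_one, hB, hG]
        exact add_le_add le_rfl (mul_le_mul_of_nonneg_left (hP _ e0 u hu).2.1 hK.le)
    have iw := fun i => it _ ((S i).2.2.2.2.2.1.mul sb)
    have P := fun i => (S i).2.2.2.2.2.2.2.2.1
    obtain ⟨i, hi, h1⟩ := tele (fun i => ∫ x, M.tw G h (2 ^ i * t) x * (1 + M.tr h G x) ∂M.mu H)
      (B := n * B) (Nat.cast_pos.1 I0)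
      (integral_nonneg fun x => mul_nonneg (P 0 x).2.1 (b0 x)) (by
        refine le_trans ?_ (mul_le_mul_of_nonneg_left b1 n.cast_nonneg)
        rw [← integral_const_mul]
        exact integral_mono (iw I) ((it _ sb).const_mul _) fun x =>
          mul_le_mul_of_nonneg_right (P I x).2.2.1 (b0 x))
    have s1 : 2 ^ i * t ≤ δ := by
      rw [ht, ← mul_div_assoc, div_le_iff₀' (by positivity)]
      exact mul_le_mul_of_nonneg_right (pow_le_pow_right₀ one_le_two hi.le) d0.le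
    refine ⟨_, 2 ^ i * t, u, e0, by positivity, s1, hu, ?_, ?_⟩
    · rw [div_le_iff₀ (by positivity)]
      exact mul_le_mul_of_nonneg_left (pow_le_pow_left₀ t0.le
        (le_mul_of_one_le_left t0.le (one_le_pow₀ one_le_two)) n) d0.le
    rw [← hG]
    have i2 := ((iw (i + 1)).sub (iw i)).const_mul 2
    have h2 := integral_mono (it _ (((sm_const (2 ^ i * t)).add (S i).2.2.2.2.2.2.1).mul sb))
      (((it _ sb).const_mul δ).add i2) fun x => by
        have := (P i x).2.2.2.2.2.1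
        rw [← mul_assoc, ← pow_succ'] at this
        simp only [Pi.add_apply, Pi.sub_apply]
        nlinarith [b0 x]
    simp only [Pi.add_apply, Pi.sub_apply] at h2 i2
    rw [integral_add ((it _ sb).const_mul δ) i2, integral_const_mul, integral_const_mul,
      integral_sub (iw (i + 1)) (iw i)] at h2
    have h3 : n * B / I ≤ n * B * δ := by
      rw [div_eq_mul_inv]
      exact mul_le_mul_of_nonneg_left ((inv_le_comm₀ I0 d0).2 hI.le) (by positivity)
    nlinarith [mul_le_mul_of_nonneg_left b1 d0.le]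
  have one : ∀ A : ℝ, 1 ≤ A → ∃ ε s u f, ε ∈ Ioc (0 : ℝ) 1 ∧ 0 < s ∧ s ≤ 1 / A ∧ M.Sol H ε u ∧
      ε / s ^ n ≤ 1 / A ∧
      ∫ x, (s + M.rho (M.gE H ε u) h s x) * (1 + M.tr h (M.gE H ε u) x) ∂M.mu H ≤
        (1 + 2 * n) * B / A ∧ M.Sm f ∧ (∀ x, 0 ≤ f x ∧ f x ≤ 1) ∧
      ∫ x, (1 - f x) ∂M.mu H ≤ C / A ∧ ∫ x, √(M.gr H f f x) ∂M.mu H ≤ D / √A ∧
      ∫ x, f x * √(M.dfc (M.gE H ε u) h α s x) ∂M.mu H ≤
        ((1 + 2 * n) * B + C * (n + α * n ^ 2)) / A := fun A hA => by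
    have A0 : 0 < A := one_pos.trans_le hA
    obtain ⟨r, hr⟩ : ∃ r, r = Real.exp (-(2 * A)) / A := ⟨_, rfl⟩
    have r0 : 0 < r := by rw [hr]; positivity
    have r1 : r / A ≤ 1 / A := div_le_div_of_nonneg_right (by
      rw [hr, div_le_one A0]
      exact (Real.exp_le_one_iff.2 (by linarith)).trans hA) A0.le
    obtain ⟨ε, s, u, k1, k2, k3, k4, k5, k6⟩ := key (r / A) (by positivity)
      (r1.trans ((div_le_one A0).2 hA))
    obtain ⟨-, -, a, a1, a2, -, a3, a4⟩ := hP ε k1 u k4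
    obtain ⟨f, f1, f2, f3, f4, f5⟩ := hD u a A k4.sm hA a1 a2 (a4 A hA).2
    have v0 := ((hV n M H hH).1 ε u k4).2.2.2.1
    have y1 := (hKY n M H h α ε u hH hh hα hp k1.1 k4).1
    have S := hS _ s k4.kae k2
    have S1 := hS _ 1 k4.kae one_pos
    refine ⟨ε, s, u, f, k1, k2, k3.trans r1, k4, k5.trans r1, k6.trans ?_, f1, f2, f4, f5, ?_⟩
    · exact (mul_le_mul_of_nonneg_left r1 (by positivity)).trans_eq (mul_one_div _ _)
    have i1 := (it _ (((sm_const s).add S.2.2.2.2.2.2.1).mul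
      ((sm_const 1).add (sT h hh _ k4.kae.toTen)))).div_const r
    have i2 := ((it _ (S1.2.2.2.2.1.mul k4.sm.exp)).div_const (M.vol H ε)).const_mul (C / A)
    have h2 := integral_mono (hint ℝ _ (f1.continuous.mul S.2.2.2.2.2.2.2.1.continuous.sqrt))
      (i1.add i2) fun x => by
        have P := S.2.2.2.2.2.2.2.2.1 x
        have y0 := (S1.2.2.2.2.2.2.2.2.1 x).1
        have p0 := mul_nonneg (add_nonneg k2.le P.2.2.2.1) (add_nonneg zero_le_one P.2.2.2.2.2.2.1)
        simp only [Pi.add_apply, Pi.mul_apply]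
        by_cases h0 : f x = 0
        · rw [h0, zero_mul]
          positivity
        have t1 := (Real.exp_le_exp.2 (f3 x h0)).trans (a3 x)
        refine (mul_le_of_le_one_left (Real.sqrt_nonneg _) (f2 x).2).trans
          ((young p0 y0 r0 (Real.sq_sqrt P.2.2.2.2.2.2.2).le).trans (add_le_add le_rfl ?_))
        rw [hr]
        calc _ ≤ C * (Real.exp (u x) / M.vol H ε) / A * M.yp (M.gE H ε u) h α 1 x := by gcongr
          _ = _ := by ring
    simp only [Pi.add_apply, Pi.mul_apply] at h2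
    rw [integral_add i1 i2, integral_const_mul, integral_div, integral_div] at h2
    have h3 := div_le_div_of_nonneg_right k6 r0.le
    have h4 := mul_le_mul_of_nonneg_left y1 (div_pos hC A0).le
    have e1 : (1 + 2 * n) * B * (r / A) / r = (1 + 2 * n) * B / A := by field_simp
    rw [add_div, mul_div_right_comm C]
    exact h2.trans (add_le_add (h3.trans e1.le) h4)
  have j1 : ∀ j : ℕ, (1 : ℝ) ≤ j + 1 := fun j => le_add_of_nonneg_left j.cast_nonneg
  choose ε s u f k1 k2 k3 k4 k5 k6 k7 k8 k9 k10 k11 using fun j : ℕ => one _ (j1 j)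
  have ht : Tendsto (fun i : ℕ => (i : ℝ) + 1) atTop atTop :=
    tendsto_atTop_add_const_right _ _ tendsto_natCast_atTop_atTop
  have P := fun j => (hS _ _ (k4 j).kae (k2 j)).2.2.2.2.2.2.2.2.1
  exact ⟨ε, s, u, f, k1, fun j => ⟨k2 j, (k3 j).trans ((div_le_one (one_pos.trans_le (j1 j))).2
    (j1 j))⟩, k4, squeeze_zero (fun j => (k2 j).le) k3 (ht.const_div_atTop _),
    squeeze_zero (fun j => (div_pos (k1 j).1 (pow_pos (k2 j) n)).le) k5 (ht.const_div_atTop _),
    squeeze_zero (fun j => integral_nonneg fun x => mul_nonneg (add_nonneg (k2 j).le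
      (P j x).2.2.2.1) (add_nonneg zero_le_one (P j x).2.2.2.2.2.2.1)) k6 (ht.const_div_atTop _),
    k7, k8, squeeze_zero (fun j => integral_nonneg fun x => sub_nonneg.2 (k8 j x).2) k9
      (ht.const_div_atTop _),
    squeeze_zero (fun j => integral_nonneg fun x => Real.sqrt_nonneg _) k10
      ((Real.tendsto_sqrt_atTop.comp ht).const_div_atTop _),
    squeeze_zero (fun j => integral_nonneg fun x => mul_nonneg (k8 j x).1 (Real.sqrt_nonneg _))
      k11 (ht.const_div_atTop _)⟩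

end Pool.Agent.Lib.PM
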