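import Pool.Agent.Lib.PM.Blue
import Pool.Agent.Lib.GH.B_GSUM
import Pool.Agent.Lib.GH.B_GA2
import Pool.Agent.Lib.GH.B_GSE

/-! Project pm78: the curvature of a sum of two metrics under the pinching condition. -/

open scoped Classical Topology ContDiff ComplexOrder Matrix
open Set MeasureTheory Complex Metric Filter

noncomputable section

namespace Pool.Agent.Lib.PM

open Pool.Agent.Lib.SV (E)
open Pool.Agent.Lib.HS32 Pool.Agent.Lib.GH

theorem st_PSU (h1 : St_PA0) (h3 : St_PA1) : St_PSU := by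
  intro n M h α hh hα hg
  have a3 := fun (e : M.Ch) (he : e ∈ M.C) (z : E n) (hz : z ∈ e.target) =>
    h3 n (h e) z α (hh.sm e he z hz) (hh.pos.ev he hz) hα (hg e he z hz)
  have hη : M.Le 0 (-M.ric h) := fun e he z hz => by simpa [Mf.ric] using (a3 e he z hz).1
  refine ⟨hη, fun G s hG hs => ?_⟩
  obtain ⟨e1, -, -, -, -, -, -, -, e3, e4⟩ := mHES n M
  obtain ⟨j1, -⟩ := mINV n M G hG.toMet
  have tR := (e3 G hG.toMet).toTen
  have tH := (e3 h hh).toTen.neg
  have a1 := fun (t : ℝ) (ht : 0 < t) (e : M.Ch) (he : e ∈ M.C) (z : E n) (hz : z ∈ e.target) =>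
    h1 n (G e z) (h e z) t (hG.pos e he z hz) (hh.pos e he z hz) ht
  have key : ∀ t : ℝ, 0 < t → M.Met (G + t • h) := fun t ht =>
    ⟨hG.toForm.add (hh.toForm.smul t), fun e he z hz => (a1 t ht e he z hz).1⟩
  have sl : ∀ t : ℝ, 0 < t → M.Sm (M.ll G h t) := fun t ht => (e4 _ G (key t ht) hG.toMet).1
  have syp : ∀ t : ℝ, 0 < t → M.Sm (M.yp G h α t) := fun t ht =>
    ((j1 _ (e1 _ (sl t ht)).toTen).2.1.sub ((j1 _ tR).2.1.sub
      ((mINV n M _ (key t ht)).1 _ tR).2.1)).add ((j1 _ tH).2.1.const_mul _)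
  have p2 : ∀ t : ℝ, 0 < t → M.All fun e z =>
      0 ≤ (egr (G e z) (h e z) t fun k => df (G e) (h e) k z).re := fun t ht e he z hz =>
    (st_GA2 n _ _ t _ (hG.pos e he z hz) (hh.pos e he z hz) ht).1
  have ryp : ∀ t : ℝ, 0 < t → M.All fun e z =>
      (egr (G e z) (h e z) t fun k => df (G e) (h e) k z).re ≤ M.yp G h α t (e.symm z) := by
    intro t ht e he z hz
    have a : M.lap G (M.ll G h t) (e.symm z) = _ := (j1 _ (e1 _ (sl t ht)).toTen).1 e he z hz
    have b : M.tr G (M.ric G) (e.symm z) = _ := (j1 _ tR).1 e he z hz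
    have c : M.tr (G + t • h) (M.ric G) (e.symm z) = _ :=
      ((mINV n M _ (key t ht)).1 _ tR).1 e he z hz
    have g : M.tr G (-M.ric h) (e.symm z) = _ := (j1 _ tH).1 e he z hz
    have d : M.hs (M.ll G h t) e z =
        hess (ld fun w => G e w + t • h e w) z - hess (ld (G e)) z := by
      have d1 : -hess (ld fun w => G e w + t • h e w) z =
          -hess (ld (G e)) z - M.hs (M.ll G h t) e z := (e4 _ G (key t ht) hG.toMet).2 e he z hz
      rw [← neg_neg (hess (ld fun w => G e w + t • h e w) z), d1]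
      abel
    have f := congrArg re (st_GSE n (G e) (h e) t z ht (hG.sm e he z hz) (hh.sm e he z hz)
      ((hG.pos.and (hh.pos.and hG.cl)).ev he hz)).1
    rw [add_re, add_re, sub_re] at f
    have q1 := Mf.trace_inv_mul_nonneg (hG.pos e he z hz) ((a3 e he z hz).2.1
      (wmat (G e z) (h e z) t) (by
        rw [G50.wmat_inv (hh.pos e he z hz)]
        exact Mf.psd_rsmul (a1 t ht e he z hz).1.inv.posSemidef ht.le))
    rw [mul_add, Matrix.trace_add, add_re, Matrix.mul_smul, Matrix.trace_smul, smul_re,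
      smul_eq_mul] at q1
    have q2 := Mf.trace_inv_mul_nonneg (hG.pos e he z hz) (a3 e he z hz).1
    have q3 := mul_le_mul_of_nonneg_right
      (mul_le_mul_of_nonneg_left (a1 t ht e he z hz).2.2.2.2.2.1 hα) q2
    beta_reduce at a b c g ⊢
    rw [Mf.yp, Mf.yw, a, b, c, d, f, g]
    simp only [Mf.ric, Pi.add_apply, Pi.smul_apply, Pi.neg_apply, neg_neg]
    linarith
  have y0 : ∀ t : ℝ, 0 < t → ∀ x, 0 ≤ M.yp G h α t x := fun t ht x => by
    have a := (Mf.AllOn.ch (p2 t ht) x).trans (Mf.AllOn.ch (ryp t ht) x)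
    rwa [Mf.ch_symm] at a
  have hm := key s hs
  have hsh : M.Met (s • h) := hh.smul hs
  obtain ⟨i1, -, i3, -, i5, -⟩ := mINV n M (G + s • h) hm
  have rtw : ∀ t : ℝ, 0 < t → M.All fun e z =>
      M.tw G h t (e.symm z) = (wmat (G e z) (h e z) t).trace.re := fun t ht =>
    ((mINV n M _ (key t ht)).1 _ (hh.smul ht).toTen).1
  have rrho : M.All fun e z => M.rho G h s (e.symm z) =
      (wmat (G e z) (h e z) s - wmat (G e z) (h e z) s * wmat (G e z) (h e z) s).trace.re := by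
    intro e he z hz
    have a := rtw s hs e he z hz
    have b : M.ip (G + s • h) (s • h) (s • h) (e.symm z) = _ :=
      (i3 _ _ hsh.toTen hsh.toTen).1 e he z hz
    beta_reduce at a ⊢
    rw [Mf.rho, a, b, Matrix.trace_sub, sub_re]
    simp only [wmat, Pi.add_apply, Pi.smul_apply, mul_assoc]
  have stw : M.Sm (M.tw G h s) := (i1 _ hsh.toTen).2.1
  have srho : M.Sm (M.rho G h s) := stw.sub (i3 _ _ hsh.toTen hsh.toTen).2.1
  refine ⟨hm, i5 _ hsh.toTen, fun e he z hz => (a1 s hs e he z hz).2.1.isHermitian, sl s hs,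
    syp s hs, stw, srho, (((Mf.sm_const s).add srho).mul ((Mf.sm_const 1).add
      ((mINV n M h hh).1 _ hG.toTen).2.1)).mul (syp 1 one_pos), fun x => ?_,
    fun e he z hz => ⟨rrho e he z hz, ryp s hs e he z hz⟩⟩
  have a := Mf.AllOn.ch (rtw s hs) x
  have a' := Mf.AllOn.ch (rtw (2 * s) (by positivity)) x
  have b := Mf.AllOn.ch rrho x
  rw [Mf.ch_symm] at a a' b
  obtain ⟨-, -, -, -, q1, q2, q3, q4, q5, -⟩ := a1 s hs _ (Mf.ch_mem x) _ (Mf.ch_tgt x)
  rw [← b] at q3 q4 q5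
  rw [← a] at q1 q2 q5
  rw [← a'] at q5
  have t0 := hh.tr_nonneg hG.toMet.nonneg x
  exact ⟨y0 s hs x, q1, q2, q3, q4, q5, t0,
    mul_nonneg (mul_nonneg (add_nonneg hs.le q3) (add_nonneg zero_le_one t0)) (y0 1 one_pos x)⟩

end Pool.Agent.Lib.PM
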