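import Pool.Agent.Lib.PM.Blue

/-! Project pm78, row PT0: change of chart and uniqueness for leaves. -/

open scoped Classical Topology ContDiff ComplexOrder Matrix
open Set Complex Metric Filter

noncomputable section

namespace Pool.Agent.Lib.PM

open Pool.Agent.Lib.SV (E)
open Pool.Agent.Lib.HS32

namespace PT016

variable {n k : ℕ} {M : Mf n}

theorem tend {a b : ℕ} (A : Matrix (Fin a) (Fin b) ℂ) (v : E b) :
    Tendsto (fun w : E b => A *ᵥ (w - v)) (𝓝 v) (𝓝 0) := by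
  have h : Continuous fun w : E b => A *ᵥ (w - v) :=
    continuous_const.matrix_mulVec (continuous_id.sub continuous_const)
  simpa using h.tendsto v

theorem src {ℓ : E k → M.X} {e : M.Ch} {A : Mat k} {v : E k} (h : M.Fr ℓ e A v) :
    ℓ v ∈ e.source := h.self_of_nhds.1

theorem cont {ℓ : E k → M.X} {e : M.Ch} {A : Mat k} {v : E k} (h : M.Fr ℓ e A v) :
    ContinuousAt ℓ v := by
  have h1 : Tendsto (fun w : E k => e (ℓ v) + (io n k * A) *ᵥ (w - v)) (𝓝 v) (𝓝 (e (ℓ v))) := by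
    simpa using (tend (io n k * A) v).const_add (e (ℓ v))
  have h2 := (e.continuousAt_symm (e.map_source (src h))).tendsto.comp h1
  rw [e.left_inv (src h)] at h2
  refine h2.congr' ?_
  filter_upwards [h] with w hw
  simp only [Function.comp]
  rw [← hw.2, e.left_inv hw.1]

theorem near {ℓ : E k → M.X} {e : M.Ch} {A : Mat k} {v : E k} (h : M.Fr ℓ e A v) :
    ∀ᶠ w in 𝓝 v, M.Fr ℓ e A w := by
  filter_upwards [h.eventually_nhds, h] with w h1 h2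
  filter_upwards [h1] with u hu
  refine ⟨hu.1, ?_⟩
  rw [hu.2, h2.2, add_assoc, ← Matrix.mulVec_add]
  congr 2
  abel

theorem uniq (hio : (io n k)ᴴ * io n k = 1) {ℓ : E k → M.X} {e : M.Ch} {A B : Mat k} {v : E k}
    (hA : M.Fr ℓ e A v) (hB : M.Fr ℓ e B v) : A = B := by
  have h1 : ∀ u : E k, (io n k * A) *ᵥ u = (io n k * B) *ᵥ u := by
    intro u
    have h2 : Tendsto (fun t : ℂ => v + t • u) (𝓝[≠] 0) (𝓝 v) := by
      have h3 : Continuous fun t : ℂ => v + t • u := by fun_prop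
      have h4 := h3.tendsto 0
      rw [zero_smul, add_zero] at h4
      exact h4.mono_left nhdsWithin_le_nhds
    obtain ⟨t, ⟨ht1, ht2⟩, ht0⟩ :=
      ((h2.eventually (hA.and hB)).and self_mem_nhdsWithin).exists
    have h5 := add_left_cancel (ht1.2.symm.trans ht2.2)
    rw [add_sub_cancel_left, Matrix.mulVec_smul, Matrix.mulVec_smul] at h5
    exact smul_right_injective _ ht0 h5
  have h6 : io n k * A = io n k * B := Matrix.ext_iff_mulVec.2 h1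
  calc A = (io n k)ᴴ * (io n k * A) := by rw [← Matrix.mul_assoc, hio, Matrix.one_mul]
    _ = B := by rw [h6, ← Matrix.mul_assoc, hio, Matrix.one_mul]

theorem same {ℓ ℓ' : E k → M.X} {e : M.Ch} {A : Mat k} {v : E k}
    (h : M.Fr ℓ e A v) (h' : M.Fr ℓ' e A v) (hv : ℓ v = ℓ' v) : ℓ =ᶠ[𝓝 v] ℓ' := by
  filter_upwards [h, h'] with w h1 h2
  exact e.injOn h1.1 h2.1 (by rw [h1.2, h2.2, hv])

theorem cgr {ℓ ℓ' : E k → M.X} {e : M.Ch} {A : Mat k} {v : E k}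
    (h : M.Fr ℓ e A v) (he : ℓ =ᶠ[𝓝 v] ℓ') : M.Fr ℓ' e A v := by
  have hv := he.eq_of_nhds
  filter_upwards [h, he] with w h1 h2
  rw [← h2, ← hv]
  exact h1

theorem aff {ℓ : E k → M.X} {e : M.Ch} {A B : Mat k} {v c : E k}
    (h : M.Fr ℓ e A (B *ᵥ v + c)) : M.Fr (fun w => ℓ (B *ᵥ w + c)) e (A * B) v := by
  have h1 : Continuous fun w : E k => B *ᵥ w + c :=
    (continuous_const.matrix_mulVec continuous_id).add continuous_const
  filter_upwards [(h1.tendsto v).eventually h] with w hw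
  refine ⟨hw.1, ?_⟩
  rw [hw.2, add_sub_add_right_eq_sub, ← Matrix.mulVec_sub, Matrix.mulVec_mulVec,
    Matrix.mul_assoc]

variable {h P : M.Fam (Mat n)}

theorem chg (hPB4 : St_PB4) (hB : M.BA h P k) {ℓ : E k → M.X} {e e' : M.Ch} {A : Mat k} {v : E k}
    (he : M.Box h P k e) (he' : M.Box h P k e') (hF : M.Fr ℓ e' A v) (hv : ℓ v ∈ e.source) :
    M.Fr ℓ e (M.tA k e e' (ℓ v) * A) v := by
  have h1 := ((hPB4 n M h P k hB).2.2 e e' he he' (ℓ v) hv (src hF)).2.2.2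
  have h2 : Tendsto (fun w : E k => (e' (ℓ v), A *ᵥ (w - v))) (𝓝 v) (𝓝 (e' (ℓ v), 0)) :=
    tendsto_const_nhds.prodMk_nhds (tend A v)
  filter_upwards [h2.eventually h1, hF, (cont hF).eventually (e.open_source.mem_nhds hv)]
    with w h3 h4 h5
  refine ⟨h5, ?_⟩
  simp only [Matrix.mulVec_mulVec] at h3
  rw [← h4.2, e'.left_inv h4.1, e'.left_inv (src hF), Matrix.mul_assoc] at h3
  exact h3

theorem pt (hPB4 : St_PB4) (hB : M.BA h P k) {ℓ : E k → M.X} {e e' : M.Ch} {A A' : Mat k}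
    {v : E k} (he : M.Box h P k e) (he' : M.Box h P k e') (hF : M.Fr ℓ e A v)
    (hF' : M.Fr ℓ e' A' v) :
    (io n k * A)ᴴ * h e (e (ℓ v)) * (io n k * A) =
      (io n k * A')ᴴ * h e' (e' (ℓ v)) * (io n k * A') := by
  obtain ⟨⟨hio, -⟩, -, h3⟩ := hPB4 n M h P k hB
  have h1 := uniq hio hF (chg hPB4 hB he he' hF' (src hF))
  have h2 := (h3 e e' he he' (ℓ v) (src hF) (src hF')).1
  have h4 : io n k * A = M.J e e' (ℓ v) * (io n k * A') := by
    rw [← Matrix.mul_assoc, h2, h1, Matrix.mul_assoc]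
  have h5 := hB.met.cmp e he.mem e' he'.mem (ℓ v) (src hF) (src hF')
  rw [h5, h4, Matrix.conjTranspose_mul (M.J e e' (ℓ v))]
  simp only [Matrix.mul_assoc]

theorem loc (hPB4 : St_PB4) (hB : M.BA h P k) {ℓ : E k → M.X} {e : M.Ch} {A : Mat k}
    {v : E k} (he : M.Box h P k e) (hF : M.Fr ℓ e A v) :
    ∀ᶠ w in 𝓝 v, M.Fr ℓ e A w ∧ h e (e (ℓ w)) = h e (e (ℓ v)) := by
  have h1 := (hPB4 n M h P k hB).2.1 e he _ (e.map_source (src hF))
  have h2 : Tendsto (fun w : E k => (e (ℓ v), A *ᵥ (w - v))) (𝓝 v) (𝓝 (e (ℓ v), 0)) :=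
    tendsto_const_nhds.prodMk_nhds (tend A v)
  filter_upwards [h2.eventually h1, hF, near hF] with w h3 h4 h5
  refine ⟨h5, ?_⟩
  simp only [Matrix.mulVec_mulVec] at h3
  rw [h4.2, h3]

theorem glob [M.Cpt] (hPB4 : St_PB4) (hB : M.BA h P k) {ℓ ℓ' : E k → M.X} {U : Set (E k)}
    {v : E k} (hU : IsPreconnected U) (hl : M.Lf h P ℓ U) (hl' : M.Lf h P ℓ' U) (hv : v ∈ U)
    (he : ℓ =ᶠ[𝓝 v] ℓ') : EqOn ℓ ℓ' U := by
  have key : U ⊆ {u | ℓ =ᶠ[𝓝 u] ℓ'} := by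
    refine hU.subset_of_closure_inter_subset isOpen_setOfPred_eventually_nhds ⟨v, hv, he⟩ ?_
    rintro u ⟨hc, hu⟩
    obtain ⟨e, A, hb, hF⟩ := hl u hu
    obtain ⟨e', A', hb', hF'⟩ := hl' u hu
    have hfr : ∃ᶠ w in 𝓝 u, ℓ =ᶠ[𝓝 w] ℓ' := mem_closure_iff_frequently.1 hc
    have h1 : ℓ u = ℓ' u := tendsto_nhds_unique_of_frequently_eq (cont hF) (cont hF')
      (hfr.mono fun w hw => hw.eq_of_nhds)
    have h2 := chg hPB4 hB hb hb' hF' (h1 ▸ src hF)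
    obtain ⟨w, h3, h4, h5⟩ := (hfr.and_eventually ((near hF).and (near h2))).exists
    have h6 := uniq (hPB4 n M h P k hB).1.1 (cgr h4 h3) h5
    exact same hF (h6 ▸ h2) h1
  exact fun u hu => (key hu).eq_of_nhds

theorem form (hPB4 : St_PB4) (hB : M.BA h P k) {ℓ : E k → M.X} {U : Set (E k)} {v w : E k}
    {e e' : M.Ch} {A A' : Mat k} (hU : IsPreconnected U) (hl : M.Lf h P ℓ U) (hv : v ∈ U)
    (hw : w ∈ U) (he : M.Box h P k e) (he' : M.Box h P k e') (hF : M.Fr ℓ e A v)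
    (hF' : M.Fr ℓ e' A' w) :
    (io n k * A)ᴴ * h e (e (ℓ v)) * (io n k * A) =
      (io n k * A')ᴴ * h e' (e' (ℓ w)) * (io n k * A') := by
  have key : U ⊆ {u | ∃ e₁ A₁, M.Box h P k e₁ ∧ M.Fr ℓ e₁ A₁ u ∧
      (io n k * A)ᴴ * h e (e (ℓ v)) * (io n k * A) =
        (io n k * A₁)ᴴ * h e₁ (e₁ (ℓ u)) * (io n k * A₁)} := by
    refine hU.subset_of_closure_inter_subset ?_ ⟨v, hv, e, A, he, hF, rfl⟩ ?_
    · rw [isOpen_iff_mem_nhds]
      rintro u ⟨e₁, A₁, h1, h2, h3⟩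
      filter_upwards [loc hPB4 hB h1 h2] with u' h4
      exact ⟨e₁, A₁, h1, h4.1, by rw [h4.2]; exact h3⟩
    · rintro u ⟨hc, hu⟩
      obtain ⟨e₁, A₁, h1, h2⟩ := hl u hu
      obtain ⟨u', ⟨e₂, A₂, h3, h4, h5⟩, h6, h7⟩ :=
        ((mem_closure_iff_frequently.1 hc).and_eventually (loc hPB4 hB h1 h2)).exists
      exact ⟨e₁, A₁, h1, h2, by rw [h5, pt hPB4 hB h3 h1 h4 h6, h7]⟩
  obtain ⟨e₁, A₁, h1, h2, h3⟩ := key hw
  rw [h3, pt hPB4 hB h1 he' h2 hF']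

end PT016

theorem st_PT0 (hPB4 : St_PB4) : St_PT0 := by
  intro n M _ h P k hB
  exact ⟨fun ℓ e A v hF => ⟨PT016.cont hF, PT016.near hF⟩,
    fun ℓ e e' A v he he' hF hv => PT016.chg hPB4 hB he he' hF hv,
    fun ℓ e A B v hA hB' => PT016.uniq (hPB4 n M h P k hB).1.1 hA hB',
    fun ℓ ℓ' e A v h1 h2 h3 => PT016.same h1 h2 h3,
    fun ℓ ℓ' e A v h1 h2 => PT016.cgr h1 h2,
    fun ℓ e A B v c h1 => PT016.aff h1,
    fun ℓ ℓ' U v h1 h2 h3 h4 h5 => PT016.glob hPB4 hB h1 h2 h3 h4 h5,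
    fun ℓ U v w e e' A A' h1 h2 h3 h4 h5 h6 h7 h8 => PT016.form hPB4 hB h1 h2 h3 h4 h5 h6 h7 h8⟩

end Pool.Agent.Lib.PM
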