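import Pool.Agent.Lib.PM.Blue
import Pool.Agent.Lib.HS32.MAll

/-! Project pm78: existence of global parametrizations of the leaves. -/

open scoped Classical Topology ContDiff ComplexOrder Matrix
open Set Complex Metric Filter

noncomputable section

namespace Pool.Agent.Lib.PM

open Pool.Agent.Lib.SV (E)
open Pool.Agent.Lib.HS32 Pool.Agent.Lib.HS32.BBD

namespace T178

variable {n k : ℕ} {M : Mf n} {h P : M.Fam (Mat n)}

theorem fr_congr {ℓ ℓ' : E k → M.X} {e : M.Ch} {A : Mat k} {v : E k} (h : ℓ' =ᶠ[𝓝 v] ℓ)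
    (hf : M.Fr ℓ e A v) : M.Fr ℓ' e A v := by
  filter_upwards [h, hf] with w h1 h2
  rw [h1, h.eq_of_nhds]
  exact h2

theorem glue [Nonempty M.X] {α : Type} (U : α → Set (E k)) (L : α → E k → M.X)
    (hU : ∀ a, IsOpen (U a)) (hL : ∀ a, M.Lf h P (L a) (U a))
    (hc : ∀ a b, EqOn (L a) (L b) (U a ∩ U b)) :
    ∃ ℓ : E k → M.X, (∀ a, EqOn ℓ (L a) (U a)) ∧ ∀ a, M.Lf h P ℓ (U a) := by
  let ℓ : E k → M.X := fun u =>
    if h : ∃ a, u ∈ U a then L h.choose u else Classical.arbitrary M.X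
  have h1 : ∀ a, EqOn ℓ (L a) (U a) := by
    intro a u hu
    have h : ∃ a, u ∈ U a := ⟨a, hu⟩
    simp only [ℓ, dif_pos h]
    exact hc _ _ ⟨h.choose_spec, hu⟩
  refine ⟨ℓ, h1, fun a u hu => ?_⟩
  obtain ⟨i, A, hb, hf⟩ := hL a u hu
  exact ⟨i, A, hb, fr_congr ((h1 a).eventuallyEq_of_mem ((hU a).mem_nhds hu)) hf⟩

theorem loc {e : M.Ch} {y : M.X} (hy : y ∈ e.source) {r : ℝ} {B : Mat k}
    (hr : ∀ s : E k, ‖s‖ < r → e y + (io n k * B) *ᵥ s ∈ e.target) (w : E k) :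
    ∃ L : E k → M.X, L w = y ∧ ∀ u ∈ ball w r, M.Fr L e B u := by
  have ht : ∀ u ∈ ball w r, e y + (io n k * B) *ᵥ (u - w) ∈ e.target := fun u hu =>
    hr _ (mem_ball_iff_norm.1 hu)
  refine ⟨fun u => e.symm (e y + (io n k * B) *ᵥ (u - w)), ?_, fun u hu => ?_⟩
  · simp only [sub_self, Matrix.mulVec_zero, add_zero]
    exact e.left_inv hy
  · filter_upwards [isOpen_ball.mem_nhds hu] with u' hu'
    refine ⟨e.map_target (ht u' hu'), ?_⟩
    rw [e.right_inv (ht u' hu'), e.right_inv (ht u hu), add_assoc, ← Matrix.mulVec_add,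
      add_comm (u - w), sub_add_sub_cancel]

theorem unif [M.Cpt] (hB : M.BA h P k) (Q : Mat k) : ∃ r > 0, ∀ y : M.X, ∃ e, M.Box h P k e ∧
    y ∈ e.source ∧ ∀ B : Mat k, (io n k * B)ᴴ * h e (e y) * (io n k * B) = Q →
      ∀ s : E k, ‖s‖ < r → e y + (io n k * B) *ᵥ s ∈ e.target := by
  obtain ⟨V, hV⟩ := (mCOV n M).2.1 {e | M.Box h P k e} (fun _ => univ)
    ⟨fun e he => he.mem, hB.cov⟩ fun _ => univ_mem
  choose c hc hl using fun a => low (isCompact_closedBall (V.c a) (4 * V.ρ a))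
    (fun z hz => hB.met.sm _ (V.mem a) z (V.sub a hz)) fun z hz =>
      hB.met.pos _ (V.mem a) z (V.sub a hz)
  have h1 : ∀ᶠ r in 𝓝[>] (0 : ℝ), ∀ a, sn Q * r ^ 2 < c a * V.ρ a ^ 2 :=
    eventually_all.2 fun a => mem_nhdsWithin_of_mem_nhds
      ((Continuous.tendsto' (f := fun r : ℝ => sn Q * r ^ 2) (by fun_prop) 0 0
        (by simp)).eventually_lt_const (mul_pos (hc a) (pow_pos (V.pos a) 2)))
  obtain ⟨r, h2, h3⟩ := (h1.and self_mem_nhdsWithin).exists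
  refine ⟨r, h3, fun y => ?_⟩
  obtain ⟨a, h4, h5, -⟩ := V.cov y
  have p := V.pos a
  refine ⟨V.e a, (hV a).1, h4, fun B hQ s hs => V.sub a ?_⟩
  have h6 := hl a _ (closedBall_subset_closedBall (by linarith) (ball_subset_closedBall h5))
    ((io n k * B) *ᵥ s)
  have h7 : nq (h (V.e a) (V.e a y)) ((io n k * B) *ᵥ s) = nq Q s := by
    rw [← hQ]
    generalize io n k * B = J
    simp only [nq, Matrix.star_mulVec, ← Matrix.mulVec_mulVec, Matrix.dotProduct_mulVec,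
      Matrix.vecMul_vecMul]
  have h8 := (le_abs_self _).trans ((nq_abs Q s).trans (mul_le_mul_of_nonneg_left
    (pow_le_pow_left₀ (norm_nonneg s) hs.le 2) (sn_nonneg Q)))
  have h9 := lt_of_pow_lt_pow_left₀ 2 p.le
    (lt_of_mul_lt_mul_left ((h6.trans (h7 ▸ h8)).trans_lt (h2 a)) (hc a).le)
  rw [mem_closedBall_iff_norm, add_sub_right_comm]
  linarith [norm_add_le (V.e a y - V.c a) ((io n k * B) *ᵥ s), mem_ball_iff_norm.1 h5]

theorem step [M.Cpt] (h1 : St_PT0) (hB : M.BA h P k) {Q : Mat k} {r : ℝ} (hr : 0 < r)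
    (hu : ∀ y : M.X, ∃ e, M.Box h P k e ∧ y ∈ e.source ∧ ∀ B : Mat k,
      (io n k * B)ᴴ * h e (e y) * (io n k * B) = Q →
      ∀ s : E k, ‖s‖ < r → e y + (io n k * B) *ᵥ s ∈ e.target)
    {R : ℝ} (hR : 0 < R) {ℓ : E k → M.X} (hℓ : M.Lf h P ℓ (ball 0 R)) {e : M.Ch} {A : Mat k}
    (he : M.Box h P k e) (hA : M.Fr ℓ e A 0)
    (hQ : (io n k * A)ᴴ * h e (e (ℓ 0)) * (io n k * A) = Q) :
    ∃ ℓ' : E k → M.X, M.Lf h P ℓ' (ball 0 (R + r)) ∧ EqOn ℓ' ℓ (ball 0 R) := by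
  obtain ⟨-, hch, -, hev, -, -, hun, hfm⟩ := h1 n M h P k hB
  have h2 : ∀ w : ball (0 : E k) R, ∃ L : E k → M.X, M.Lf h P L (ball w.1 r) ∧
      EqOn ℓ L (ball 0 R ∩ ball w.1 r) := by
    rintro ⟨w, hw⟩
    obtain ⟨i, A', hi, hf⟩ := hℓ w hw
    obtain ⟨j, hj, hy, ht⟩ := hu (ℓ w)
    have hB' := hch ℓ j i A' w hj hi hf hy
    obtain ⟨L, hL, hF⟩ := loc hy (ht _ ((hfm ℓ _ w 0 j e _ A (convex_ball _ _).isPreconnected hℓ hw
      (mem_ball_self hR) hj he hB' hA).trans hQ)) w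
    have h3 : M.Lf h P L (ball w r) := fun u hu => ⟨j, _, hj, hF u hu⟩
    refine ⟨L, h3, hun ℓ L _ w
      ((convex_ball _ _).inter (convex_ball _ _)).isPreconnected (fun u hu => hℓ u hu.1)
      (fun u hu => h3 u hu.2) ⟨hw, mem_ball_self hr⟩ ?_⟩
    exact hev ℓ L j _ w hB' (hF w (mem_ball_self hr)) hL.symm
  choose L hL hE using h2
  have h4 : ∀ a b : ball (0 : E k) R, EqOn (L a) (L b) (ball a.1 r ∩ ball b.1 r) := by
    intro a b u hu
    have h5 : dist a.1 b.1 < r + r := by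
      have h6 := dist_triangle_left a.1 b.1 u
      have h7 : dist u a.1 < r := hu.1
      have h8 : dist u b.1 < r := hu.2
      linarith
    have h6 : midpoint ℝ a.1 b.1 ∈ ball (0 : E k) R := (convex_ball 0 R).midpoint_mem a.2 b.2
    have h7 : midpoint ℝ a.1 b.1 ∈ ball a.1 r := by
      rw [mem_ball, dist_midpoint_left, Real.norm_two]
      linarith
    have h8 : midpoint ℝ a.1 b.1 ∈ ball b.1 r := by
      rw [mem_ball, dist_midpoint_right, Real.norm_two]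
      linarith
    refine hun (L a) (L b) _ (midpoint ℝ a.1 b.1)
      ((convex_ball _ _).inter (convex_ball _ _)).isPreconnected (fun u hu => hL a u hu.1)
      (fun u hu => hL b u hu.2) ⟨h7, h8⟩ ?_ hu
    filter_upwards [isOpen_ball.mem_nhds h6, isOpen_ball.mem_nhds h7, isOpen_ball.mem_nhds h8]
      with p p1 p2 p3
    rw [← hE a ⟨p1, p2⟩, hE b ⟨p1, p3⟩]
  obtain ⟨ℓ', h5, h6⟩ :=
    glue (fun a : ball (0 : E k) R => ball a.1 r) L (fun _ => isOpen_ball) hL h4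
  refine ⟨ℓ', fun u hu => ?_, fun u hu => ?_⟩
  · obtain ⟨w, h7, h8⟩ := exists_dist_lt_lt hr hR (show dist u 0 < R + r from hu)
    exact h6 ⟨w, h8⟩ u h7
  · rw [h5 ⟨u, hu⟩ (mem_ball_self hr), ← hE ⟨u, hu⟩ ⟨hu, mem_ball_self hr⟩]

end T178

open T178 in
theorem st_PT1 (h1 : St_PT0) : St_PT1 := by
  intro n M _ h P k hB e he x hx
  obtain ⟨r, hr, hu⟩ := unif hB ((io n k * (1 : Mat k))ᴴ * h e (e x) * (io n k * (1 : Mat k)))
  obtain ⟨ε, hε, hs⟩ := Metric.eventually_nhds_iff.1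
    ((Continuous.tendsto' (f := fun s : E k => e x + (io n k * (1 : Mat k)) *ᵥ s)
      (continuous_const.add (continuous_const.matrix_mulVec continuous_id)) 0 (e x)
      (by simp)).eventually (e.open_target.mem_nhds (e.map_source hx)))
  have hp : ∀ m : ℕ, 0 < ε + m * r := fun m => by positivity
  have h2 : ∀ m : ℕ, ∃ ℓ : E k → M.X, M.Lf h P ℓ (ball 0 (ε + m * r)) ∧ ℓ 0 = x ∧
      M.Fr ℓ e 1 0 := by
    intro m
    induction m with
    | zero =>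
      obtain ⟨L, hL, hF⟩ := loc hx (fun s ht => hs (y := s) (by rwa [dist_zero_right])) 0
      refine ⟨L, fun u hu => ⟨e, 1, he, hF u ?_⟩, hL, hF 0 (mem_ball_self hε)⟩
      simpa using hu
    | succ m ih =>
      obtain ⟨ℓ, h3, h4, h5⟩ := ih
      obtain ⟨ℓ', h6, h7⟩ := step h1 hB hr hu (hp m) h3 he h5 (by rw [h4])
      refine ⟨ℓ', ?_, (h7 (mem_ball_self (hp m))).trans h4,
        fr_congr (h7.eventuallyEq_of_mem (ball_mem_nhds 0 (hp m))) h5⟩
      rwa [show ε + ((m + 1 : ℕ) : ℝ) * r = ε + m * r + r by push_cast; ring]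
  choose L hL hv hF using h2
  obtain ⟨-, -, -, hev, -, -, hun, -⟩ := h1 n M h P k hB
  obtain ⟨ℓ, h3, h4⟩ := glue (fun m : ℕ => ball 0 (ε + m * r)) L (fun _ => isOpen_ball) hL
    fun a b => hun (L a) (L b) _ 0
      ((convex_ball _ _).inter (convex_ball _ _)).isPreconnected (fun u hu => hL a u hu.1)
      (fun u hu => hL b u hu.2) ⟨mem_ball_self (hp a), mem_ball_self (hp b)⟩
      (hev _ _ e 1 0 (hF a) (hF b) ((hv a).trans (hv b).symm))
  refine ⟨ℓ, fun u _ => ?_, (h3 0 (mem_ball_self (hp 0))).trans (hv 0),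
    fr_congr ((h3 0).eventuallyEq_of_mem (ball_mem_nhds 0 (hp 0))) (hF 0)⟩
  obtain ⟨m, hm⟩ := exists_nat_gt (dist u 0 / r)
  refine h4 m u ?_
  rw [div_lt_iff₀ hr] at hm
  rw [mem_ball]
  linarith

end Pool.Agent.Lib.PM
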