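import Pool.Agent.Lib.PM.Blue
import Pool.Agent.Lib.HS32.MAll

/-! Project pm78: the pull-backs of the Kähler form by the translations along the leaves. -/

open scoped Classical Topology ContDiff ComplexOrder Matrix Manifold
open Set MeasureTheory Complex Metric Filter

noncomputable section

namespace Pool.Agent.Lib.PM

open Pool.Agent.Lib.SV (E)
open Pool.Agent.Lib.HS32

namespace PT3

variable {n k : ℕ} {M : Mf n} {H h P : M.Fam (Mat n)}

/-- The pull-back of a tensor by a map from the coordinate space to the manifold. -/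
def pb (H : M.Fam (Mat n)) (f : E n → M.X) (z : E n) : Mat n :=
  (jm (M.ch (f z) ∘ f) z)ᴴ * H (M.ch (f z)) (M.ch (f z) (f z)) * jm (M.ch (f z) ∘ f) z

theorem pb_congr {f g : E n → M.X} {z : E n} (e : f =ᶠ[𝓝 z] g) : pb H f z = pb H g z := by
  unfold pb
  rw [e.eq_of_nhds, BTR.jm_congr (e.fun_comp (M.ch (g z)))]

theorem pb_eq (hH : M.Ten H) {f : E n → M.X} {z : E n} {e : M.Ch} {ψ : E n → E n} (he : e ∈ M.C)
    (hψ : HolN ψ z) (hf : ∀ᶠ w in 𝓝 z, f w ∈ e.source ∧ e (f w) = ψ w) :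
    pb H f z = (jm ψ z)ᴴ * H e (ψ z) * jm ψ z := by
  obtain ⟨h1, h2⟩ := hf.self_of_nhds
  have h3 : HolN (M.ch (f z) ∘ e.symm) (ψ z) := by
    rw [← h2]
    exact BTR.holN (Mf.ch_mem _) he (Mf.mem_ch _) h1
  have h4 : jm (M.ch (f z) ∘ f) z = M.J (M.ch (f z)) e (f z) * jm ψ z := by
    rw [Mf.J, h2, ← ((mCHN n ψ z hψ).2.2.2.2.2.2.2.2.1 _ h3).2]
    refine BTR.jm_congr (hf.mono fun w hw => ?_)
    show M.ch (f z) (f w) = M.ch (f z) (e.symm (ψ w))
    rw [← hw.2, e.left_inv hw.1]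
  rw [pb, h4, ← h2, hH.cmp _ (Mf.ch_mem _) e he (f z) (Mf.mem_ch _) h1, Matrix.conjTranspose_mul]
  simp only [Matrix.mul_assoc]

theorem holN_cont {ψ : E n → E n} {z : E n} (hψ : HolN ψ z) : ContinuousAt ψ z :=
  hψ.self_of_nhds.continuousAt

theorem pb_comp (hH : M.Ten H) {f : E n → M.X} {z : E n} {e : M.Ch} {φ ψ : E n → E n}
    (he : e ∈ M.C) (hφ : HolN φ z) (hψ : HolN ψ (φ z))
    (hf : ∀ᶠ w in 𝓝 (φ z), f w ∈ e.source ∧ e (f w) = ψ w) :
    pb H (f ∘ φ) z = (jm φ z)ᴴ * pb H f (φ z) * jm φ z := by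
  obtain ⟨h1, h2⟩ := (mCHN n φ z hφ).2.2.2.2.2.2.2.2.1 _ hψ
  rw [pb_eq hH he hψ hf, pb_eq hH (f := f ∘ φ) he h1 ((holN_cont hφ).eventually hf), h2,
    Matrix.conjTranspose_mul]
  simp only [Matrix.mul_assoc, Function.comp_apply]

theorem holN_add {ψ : E n → E n} {z : E n} (hψ : HolN ψ z) (c : E n) :
    HolN (fun w => ψ w + c) z := hψ.mono fun _ hw => hw.add_const c

theorem jm_add (ψ : E n → E n) (z c : E n) : jm (fun w => ψ w + c) z = jm ψ z := by
  unfold jm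
  rw [fderiv_add_const]

section cd

variable {F : Type} [NormedAddCommGroup F] [NormedSpace ℝ F] {S T : F → Mat n} {p : F}

theorem cd_mul (hS : ∀ i j, ContDiffAt ℝ ∞ (fun q => S q i j) p)
    (hT : ∀ i j, ContDiffAt ℝ ∞ (fun q => T q i j) p) (i j : Fin n) :
    ContDiffAt ℝ ∞ (fun q => (S q * T q) i j) p := by
  simp only [Matrix.mul_apply]
  exact ContDiffAt.sum fun a _ => (hS i a).mul (hT a j)

theorem cd_ct (hS : ∀ i j, ContDiffAt ℝ ∞ (fun q => S q i j) p) (i j : Fin n) :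
    ContDiffAt ℝ ∞ (fun q => (S q)ᴴ i j) p :=
  ContDiffAt.comp (g := conjCLE) (f := fun q => S q j i) p conjCLE.contDiff.contDiffAt (hS j i)

end cd

theorem cd_mulVec (A : Matrix (Fin n) (Fin k) ℂ) : ContDiff ℝ ∞ fun v : E k => A *ᵥ v := by
  refine contDiff_pi.2 fun i => ?_
  simp only [Matrix.mulVec, dotProduct]
  exact ContDiff.sum fun a _ => contDiff_const.mul (contDiff_apply ℝ ℂ a)

/-- The local formula for the pull-backs. -/
theorem loc_eq (hH : M.Ten H) {L : E n → E k → M.X} {z : E n} {s : E k} {e : M.Ch}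
    {ψ : E n → E n} {A : Matrix (Fin n) (Fin k) ℂ} (he : e ∈ M.C) (hψ : HolN ψ z)
    (hf : ∀ᶠ p : E n × E k in 𝓝 (z, s), L p.1 p.2 ∈ e.source ∧
      e (L p.1 p.2) = ψ p.1 + A *ᵥ (p.2 - s)) :
    ∀ᶠ p : E n × E k in 𝓝 (z, s), pb H (fun w => L w p.2) p.1 =
      (jm ψ p.1)ᴴ * H e (ψ p.1 + A *ᵥ (p.2 - s)) * jm ψ p.1 := by
  have h1 : ∀ᶠ p : E n × E k in 𝓝 (z, s), HolN ψ p.1 :=
    (continuous_fst.tendsto (z, s)).eventually hψ.eventually_nhds
  filter_upwards [hf.eventually_nhds, h1] with p hp hq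
  have h2 : ∀ᶠ w in 𝓝 p.1, L w p.2 ∈ e.source ∧ e (L w p.2) = ψ w + A *ᵥ (p.2 - s) :=
    ((Continuous.prodMk_left p.2).tendsto p.1).eventually hp
  rw [pb_eq hH he (holN_add hq _) h2, jm_add]

theorem slice {L : E n → E k → M.X} {z : E n} {s : E k} {e : M.Ch}
    {ψ : E n → E n} {A : Matrix (Fin n) (Fin k) ℂ}
    (hf : ∀ᶠ p : E n × E k in 𝓝 (z, s), L p.1 p.2 ∈ e.source ∧
      e (L p.1 p.2) = ψ p.1 + A *ᵥ (p.2 - s)) :
    ∀ᶠ w in 𝓝 z, L w s ∈ e.source ∧ e (L w s) = ψ w := by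
  filter_upwards [((Continuous.prodMk_left s).tendsto z).eventually hf] with w hw
  simpa using hw

variable [M.Cpt]

/-- A leaf through a point of a box, with the unit matrix there, is the chosen one. -/
theorem reparam (h0 : St_PT0) (hB : M.BA h P k) {e : M.Ch} {L : E n → E k → M.X}
    (hL : M.Lv h P e L) {w : E n} (hw : w ∈ e.target) {ℓ : E k → M.X} (hℓ : M.Lf h P ℓ univ)
    (B : Mat k) (c : E k) (hF : M.Fr (fun s => ℓ (B *ᵥ s + c)) e 1 0)
    (hc : ℓ (B *ᵥ 0 + c) = e.symm w) (s : E k) : L w s = ℓ (B *ᵥ s + c) := by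
  obtain ⟨-, -, -, p4, -, p6, p7, -⟩ := h0 n M h P k hB
  obtain ⟨a1, a2, a3⟩ := hL w hw
  have h1 : M.Lf h P (fun s => ℓ (B *ᵥ s + c)) univ := fun v _ => by
    obtain ⟨e', A, b1, b2⟩ := hℓ (B *ᵥ v + c) trivial
    exact ⟨e', A * B, b1, p6 ℓ e' A B v c b2⟩
  exact p7 _ _ univ 0 isPreconnected_univ a1 h1 trivial (p4 _ _ e 1 0 a3 hF (a2.trans hc.symm))
    (mem_univ s)

/-- Translation along the leaves inside a box. -/
theorem shift (h0 : St_PT0) (hB : M.BA h P k) {e : M.Ch} {L : E n → E k → M.X}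
    (he : M.Box h P k e) (hL : M.Lv h P e L) {z : E n} (hz : z ∈ e.target) :
    ∀ᶠ v in 𝓝 (0 : E k), ∀ᶠ w in 𝓝 z, ∀ s, L (w + io n k *ᵥ v) s = L w (s + v) := by
  obtain ⟨-, -, -, p4, p5, p6, p7, -⟩ := h0 n M h P k hB
  have h1 : ∀ᶠ p : E n × E k in 𝓝 (z, 0), p.1 + io n k *ᵥ p.2 ∈ e.target := by
    have h2 : Continuous fun p : E n × E k => p.1 + io n k *ᵥ p.2 :=
      continuous_fst.add ((cd_mulVec (io n k)).continuous.comp continuous_snd)
    refine (h2.tendsto (z, 0)).eventually ?_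
    simpa using e.open_target.eventually_mem hz
  obtain ⟨ε, hε, h2⟩ := Metric.eventually_nhds_iff_ball.1 h1
  rw [← ball_prod_same] at h2
  filter_upwards [ball_mem_nhds (0 : E k) hε] with v hv
  filter_upwards [ball_mem_nhds z hε] with w hw s
  have h3 : ∀ t ∈ ball (0 : E k) ε, w + io n k *ᵥ t ∈ e.target := fun t ht => h2 (w, t) ⟨hw, ht⟩
  have h4 : w ∈ e.target := by simpa using h3 0 (mem_ball_self hε)
  have h5 : ∀ t ∈ ball (0 : E k) ε, M.Fr (fun t => e.symm (w + io n k *ᵥ t)) e 1 t := by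
    intro t ht
    filter_upwards [isOpen_ball.mem_nhds ht] with t' ht'
    refine ⟨e.map_target (h3 t' ht'), ?_⟩
    rw [e.right_inv (h3 t' ht'), e.right_inv (h3 t ht), Matrix.mul_one, Matrix.mulVec_sub]
    abel
  obtain ⟨a1, a2, a3⟩ := hL w h4
  have h6 : EqOn (fun t => e.symm (w + io n k *ᵥ t)) (L w) (ball (0 : E k) ε) :=
    p7 _ _ _ 0 (convex_ball _ _).isPreconnected (fun t ht => ⟨e, 1, he, h5 t ht⟩)
      (fun t _ => a1 t trivial) (mem_ball_self hε)
      (p4 _ _ e 1 0 (h5 0 (mem_ball_self hε)) a3 (by simpa using a2.symm))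
  have h7 : M.Fr (L w) e 1 ((1 : Mat k) *ᵥ 0 + v) := by
    rw [Matrix.mulVec_zero, zero_add]
    exact p5 _ _ e 1 v (h5 v hv) (h6.eventuallyEq_of_mem (isOpen_ball.mem_nhds hv))
  have h8 := p6 _ e 1 1 0 v h7
  rw [Matrix.mul_one] at h8
  have h9 := reparam h0 hB hL (h3 v hv) a1 1 v h8
    (by rw [Matrix.mulVec_zero, zero_add]; exact (h6 hv).symm) s
  rwa [Matrix.one_mulVec] at h9

/-- Change of box. -/
theorem chg (h4 : St_PB4) (h0 : St_PT0) (hB : M.BA h P k) {e e' : M.Ch} {L L' : E n → E k → M.X}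
    (he : M.Box h P k e) (he' : M.Box h P k e') (hL : M.Lv h P e L) (hL' : M.Lv h P e' L')
    {y : M.X} (hy : y ∈ e.source) (hy' : y ∈ e'.source) (s : E k) :
    L' (e' y) s = L (e y) (M.tA k e e' y *ᵥ s) := by
  obtain ⟨-, p2, -, -, -, p6, -, -⟩ := h0 n M h P k hB
  obtain ⟨⟨q1, -⟩, -, q3⟩ := h4 n M h P k hB
  obtain ⟨a1, a2, a3⟩ := hL (e y) (e.map_source hy)
  rw [e.left_inv hy] at a2
  have h1 : L (e y) (M.tA k e e' y *ᵥ 0 + 0) = y := by rw [Matrix.mulVec_zero, add_zero, a2]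
  have h2 := p6 (L (e y)) e 1 (M.tA k e e' y) 0 0 (by rwa [Matrix.mulVec_zero, add_zero])
  have h3 := p2 _ e' e _ 0 he' he h2 (by rw [h1]; exact hy')
  have h5 : M.tA k e' e y * (1 * M.tA k e e' y) = 1 := by
    rw [Matrix.one_mul, Mf.tA, Matrix.mul_assoc, ← (q3 e e' he he' y hy hy').1, Matrix.mul_assoc,
      ← Matrix.mul_assoc (M.J e' e y), ((mTR n M).2.1 e' he'.mem e he.mem y hy' hy).2.2.1,
      Matrix.one_mul, q1]
  rw [h1, h5] at h3
  have h6 := reparam h0 hB hL' (e'.map_source hy') a1 _ 0 h3 (by rw [h1, e'.left_inv hy']) s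
  rwa [add_zero] at h6

end PT3

open PT3 in
theorem st_PT3 (h4 : St_PB4) (h0 : St_PT0) (h1 : St_PT1) (h2 : St_PT2) : St_PT3 := by
  intro n M _ H h P k hH hB
  have hex : ∀ (e : M.Ch) (z : E n), ∃ ℓ : E k → M.X, M.Box h P k e → z ∈ e.target →
      M.Lf h P ℓ univ ∧ ℓ 0 = e.symm z ∧ M.Fr ℓ e 1 0 := fun e z => by
    by_cases hc : M.Box h P k e ∧ z ∈ e.target
    · obtain ⟨ℓ, hℓ⟩ := h1 n M h P k hB e hc.1 _ (e.map_target hc.2)
      exact ⟨ℓ, fun _ _ => hℓ⟩
    · exact ⟨fun _ => e.symm z, fun a b => (hc ⟨a, b⟩).elim⟩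
  choose L hL using hex
  have hLv : ∀ e, M.Box h P k e → M.Lv h P e (L e) := fun e he z hz => hL e z he hz
  have hT : M.Ten H := hH.toClo.toForm.toTen
  obtain ⟨C, hC, hC1, -⟩ := (mBD n M h hB.met).1 H hH.toClo.toForm
  obtain ⟨D, hD, hD1, -⟩ := (mBD n M H hH.toMet).1 h hB.met.toForm
  refine ⟨fun e z s => pb H (fun w => L e w s) z, D⁻¹, C, inv_pos.2 hD, fun e he z hz => ?_,
    fun e e' he he' x hx hx' s => ?_⟩
  · have key := h2 n M h P k hB e (L e) he (hLv e he) z hz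
    have tg : ∀ {s : E k} {e' : M.Ch} {ψ : E n → E n},
        (∀ᶠ w in 𝓝 z, L e w s ∈ e'.source ∧ e' (L e w s) = ψ w) → ψ z ∈ e'.target := fun a => by
      rw [← a.self_of_nhds.2]
      exact OpenPartialHomeomorph.map_source _ a.self_of_nhds.1
    refine ⟨fun s i j => ?_, fun s => ?_, fun s => ?_, fun s => ?_, ?_⟩
    · obtain ⟨e', A, ψ, b1, b2, -, b4⟩ := key s
      obtain ⟨c1, c2, -⟩ := mCHN n ψ z b2
      have c3 : ∀ i j, ContDiffAt ℝ ∞ (fun p : E n × E k => jm ψ p.1 i j) (z, s) := fun i j =>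
        (c2 i j).comp (z, s) contDiffAt_fst
      have c4 : ContDiffAt ℝ ∞ (fun p : E n × E k => ψ p.1 + (io n k * A) *ᵥ (p.2 - s)) (z, s) :=
        (c1.comp (z, s) contDiffAt_fst).add
          ((cd_mulVec _).comp (contDiff_snd.sub contDiff_const)).contDiffAt
      have c5 : ∀ i j, ContDiffAt ℝ ∞
          (fun p : E n × E k => H e' (ψ p.1 + (io n k * A) *ᵥ (p.2 - s)) i j) (z, s) := fun i j => by
        refine ContDiffAt.comp (g := fun w => H e' w i j) (z, s) ?_ c4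
        simpa using hT.sm e' b1.mem _ (tg (slice b4)) i j
      refine (cd_mul (cd_mul (cd_ct c3) c5) c3 i j).congr_of_eventuallyEq ?_
      filter_upwards [loc_eq hT b1.mem b2 b4] with p hp
      rw [hp]
    · obtain ⟨e', A, ψ, b1, b2, b3, b4⟩ := key s
      have c1 : (jm ψ z).det ≠ 0 := fun c => hB.met.det_ne e he.mem z hz (by
        rw [← b3.self_of_nhds, Matrix.det_mul, c, mul_zero])
      refine (mPB n ψ z (H e') _ b2 c1 (hT.sm e' b1.mem _ (tg (slice b4))) ?_).2.1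
        (hH.cl e' b1.mem _ (tg (slice b4)))
      filter_upwards [(slice b4).eventually_nhds, b2.eventually_nhds] with w hw hw'
      exact pb_eq hT b1.mem hw' hw
    · obtain ⟨e', A, ψ, b1, b2, b3, b4⟩ := key s
      have c1 := (Mf.psd_rsmul (hD1 e' b1.mem _ (tg (slice b4))) (inv_pos.2 hD).le
        ).conjTranspose_mul_mul_same (jm ψ z)
      rw [pb_eq hT b1.mem b2 (slice b4), ← b3.self_of_nhds]
      simp only [Pi.smul_apply, smul_sub, smul_smul, inv_mul_cancel₀ hD.ne', one_smul,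
        Matrix.mul_sub, Matrix.sub_mul, Matrix.mul_smul, Matrix.smul_mul] at c1
      exact c1
    · obtain ⟨e', A, ψ, b1, b2, b3, b4⟩ := key s
      have c1 := (hC1 e' b1.mem _ (tg (slice b4))).conjTranspose_mul_mul_same (jm ψ z)
      rw [pb_eq hT b1.mem b2 (slice b4), ← b3.self_of_nhds]
      simp only [Pi.smul_apply, Matrix.mul_sub, Matrix.sub_mul, Matrix.mul_smul,
        Matrix.smul_mul] at c1
      exact c1
    · have t1 : ∀ᶠ v in 𝓝 (0 : E k), z + io n k *ᵥ v ∈ e.target := by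
        refine ((continuous_const.add (cd_mulVec (io n k)).continuous).tendsto 0).eventually ?_
        simpa using e.open_target.eventually_mem hz
      filter_upwards [shift h0 hB he (hLv e he) hz, t1] with v hv hv' s
      obtain ⟨e', A, ψ, b1, b2, -, b4⟩ := h2 n M h P k hB e (L e) he (hLv e he) _ hv' s
      have c0 : HolN (fun w : E n => w) z := Eventually.of_forall fun _ => differentiableAt_id
      have c1 := pb_comp hT (f := fun w => L e w s) (φ := fun w => w + io n k *ᵥ v) b1.mem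
        (holN_add c0 _) b2 (slice b4)
      rw [jm_add, BTR.jm_id, Matrix.conjTranspose_one, Matrix.one_mul, Matrix.mul_one] at c1
      rw [← c1]
      exact pb_congr (hv.mono fun w hw => hw s)
  · obtain ⟨e'', A, ψ, b1, b2, -, b4⟩ := h2 n M h P k hB e (L e) he (hLv e he) _
      (e.map_source hx) (M.tA k e e' x *ᵥ s)
    obtain ⟨t1, -, -, t4, -⟩ := (mTR n M).2.1 e he.mem e' he'.mem x hx hx'
    have c0 : (e ∘ e'.symm) (e' x) = e x := congrArg e (e'.left_inv hx')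
    have c1 := pb_comp hT (f := fun w => L e w (M.tA k e e' x *ᵥ s)) b1.mem t1
      (by rw [c0]; exact b2) (by rw [c0]; exact slice b4)
    rw [c0] at c1
    refine Eq.trans (pb_congr ?_) c1
    have c2 : ∀ᶠ w in 𝓝 (e' x), M.tA k e e' (e'.symm w) = M.tA k e e' x := by
      refine (e'.continuousAt_symm (e'.map_source hx')).eventually
        (p := fun y => M.tA k e e' y = M.tA k e e' x) ?_
      rw [e'.left_inv hx']
      exact ((h4 n M h P k hB).2.2 e e' he he' x hx hx').2.2.1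
    filter_upwards [t4, c2] with w hw hw'
    have c3 := chg h4 h0 hB he he' (hLv e he) (hLv e' he') hw.2.1 hw.2.2.1 s
    rw [hw.2.2.2.2.2.1, hw'] at c3
    exact c3

end Pool.Agent.Lib.PM
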