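import Pool.Agent.Lib.PM.Blue

/-! Project pm78: averages and their limits. -/

open scoped Classical Topology ContDiff ComplexOrder Matrix
open Set MeasureTheory Complex Metric Filter

noncomputable section

namespace Pool.Agent.Lib.PM

open Pool.Agent.Lib.SV (E)
open Pool.Agent.Lib.HS32

namespace PV08

variable {n k : ℕ} {κ : E k → ℝ} {T : E k → Mat n}

/-- The real linear equivalence given by an invertible matrix. -/
def eqv (A : Mat k) (hA : A.det ≠ 0) : E k ≃L[ℝ] E k :=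
  (LinearEquiv.ofLinear ((Matrix.mulVecLin A).restrictScalars ℝ)
    ((Matrix.mulVecLin A⁻¹).restrictScalars ℝ)
    (LinearMap.ext fun v => by
      simp [Matrix.mulVec_mulVec, Matrix.mul_nonsing_inv A (Ne.isUnit hA)])
    (LinearMap.ext fun v => by
      simp [Matrix.mulVec_mulVec, Matrix.nonsing_inv_mul A (Ne.isUnit hA)])).toContinuousLinearEquiv

lemma eqv_apply (A : Mat k) (hA : A.det ≠ 0) (v : E k) : eqv A hA v = A *ᵥ v := rfl

lemma chg (A : Mat k) (hA : A.det ≠ 0) : ∃ d : ℝ, 0 < d ∧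
    (∀ f : E k → ℝ, ∫ s, f (A *ᵥ s) = d * ∫ s, f s) ∧
    ∀ f : E k → ℂ, ∫ s, f (A *ᵥ s) = d * ∫ s, f s := by
  set L := eqv A hA with hL
  have h0 : LinearMap.det (L.toLinearEquiv : E k →ₗ[ℝ] E k) ≠ 0 :=
    (LinearEquiv.isUnit_det' L.toLinearEquiv).ne_zero
  have h1 : Measure.map L.toHomeomorph.toMeasurableEquiv (volume : Measure (E k)) = _ :=
    Measure.map_linearMap_addHaar_eq_smul_addHaar (volume : Measure (E k)) h0
  refine ⟨|(LinearMap.det (L.toLinearEquiv : E k →ₗ[ℝ] E k))⁻¹|, abs_pos.2 (inv_ne_zero h0),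
    fun f => ?_, fun f => ?_⟩
  · have := integral_map_equiv (μ := volume) L.toHomeomorph.toMeasurableEquiv f
    rw [h1, integral_smul_measure, ENNReal.toReal_ofReal (abs_nonneg _)] at this
    exact this.symm
  · have := integral_map_equiv (μ := volume) L.toHomeomorph.toMeasurableEquiv f
    rw [h1, integral_smul_measure, ENNReal.toReal_ofReal (abs_nonneg _), real_smul] at this
    exact this.symm

lemma krn_comp (hκ : Krn κ) (A : Mat k) (hA : A.det ≠ 0) : Krn fun s => κ (A *ᵥ s) := by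
  obtain ⟨d, d0, h1, -⟩ := chg A hA
  obtain ⟨L, hL⟩ := hκ.lip
  refine ⟨fun s => hκ.nn _, ⟨|L| * ‖(eqv A hA : E k →L[ℝ] E k)‖, fun s t => ?_⟩,
    hκ.cpt.comp_homeomorph (eqv A hA).toHomeomorph, ?_⟩
  · refine (hL _ _).trans ?_
    rw [← Matrix.mulVec_sub, mul_assoc]
    exact mul_le_mul (le_abs_self L) ((eqv A hA : E k →L[ℝ] E k).le_opNorm (s - t))
      (norm_nonneg _) (abs_nonneg L)
  · rw [h1]; exact mul_pos d0 hκ.pos

lemma krn_sc (hκ : Krn κ) (m : ℕ) : Krn (sc κ m) := by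
  have h0 : ((m : ℝ) + 1)⁻¹ ≠ 0 := by positivity
  have h := krn_comp hκ ((((m : ℝ) + 1)⁻¹ : ℝ) • (1 : Mat k)) (by
    rw [← Complex.coe_smul, Matrix.det_smul, Matrix.det_one, mul_one]
    exact pow_ne_zero _ (ofReal_ne_zero.2 h0))
  simp only [Matrix.smul_mulVec, Matrix.one_mulVec] at h
  exact h

lemma krn_cont (hκ : Krn κ) : Continuous κ := by
  obtain ⟨L, hL⟩ := hκ.lip
  refine (LipschitzWith.of_dist_le_mul (K := ⟨|L|, abs_nonneg L⟩) fun s t => ?_).continuous
  rw [Real.dist_eq, dist_eq_norm]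
  exact (hL s t).trans (mul_le_mul_of_nonneg_right (le_abs_self L) (norm_nonneg _))

lemma intg (hκ : Krn κ) {f : E k → ℂ} (hf : Continuous f) :
    Integrable fun s => (κ s : ℂ) * f s :=
  ((continuous_ofReal.comp (krn_cont hκ)).mul hf).integrable_of_hasCompactSupport
    (hκ.cpt.comp_left (g := fun x : ℝ => (x : ℂ)) ofReal_zero).mul_right

lemma lin_eq (φ : Mat n →ₗ[ℂ] ℂ) (A : Mat n) :
    φ A = ∑ i, ∑ j, A i j * φ (Matrix.single i j 1) := by
  conv_lhs => rw [Matrix.matrix_eq_sum_single A]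
  simp only [map_sum]
  refine Finset.sum_congr rfl fun i _ => Finset.sum_congr rfl fun j _ => ?_
  rw [← smul_eq_mul, ← map_smul, Matrix.smul_single, smul_eq_mul, mul_one]

lemma lin (hκ : Krn κ) (hT : ∀ i j, Continuous fun s => T s i j) (φ : Mat n →ₗ[ℂ] ℂ) :
    φ (avg κ T) = (∫ s, (κ s : ℂ) * φ (T s)) / ((∫ s, κ s : ℝ) : ℂ) := by
  have h : ∀ s, (κ s : ℂ) * φ (T s) =
      ∑ i, ∑ j, (κ s : ℂ) * T s i j * φ (Matrix.single i j 1) := fun s => by
    rw [lin_eq φ (T s)]
    simp only [Finset.mul_sum, mul_assoc]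
  simp only [h]
  rw [lin_eq φ, integral_finsetSum _ fun i _ =>
    integrable_finsetSum _ fun j _ => (intg hκ (hT i j)).mul_const _, Finset.sum_div]
  refine Finset.sum_congr rfl fun i _ => ?_
  rw [integral_finsetSum _ fun j _ => (intg hκ (hT i j)).mul_const _, Finset.sum_div]
  refine Finset.sum_congr rfl fun j _ => ?_
  rw [integral_mul_const]
  simp only [avg, Matrix.of_apply]
  ring

lemma avg_mul (hκ : Krn κ) (hT : ∀ i j, Continuous fun s => T s i j) (B D : Mat n) :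
    avg κ (fun s => B * T s * D) = B * avg κ T * D := by
  ext i j
  exact (lin hκ hT ((Matrix.entryLinearMap ℂ ℂ i j) ∘ₗ LinearMap.mulLeftRight ℂ (B, D))).symm

lemma avg_aff (hκ : Krn κ) (hT : ∀ i j, Continuous fun s => T s i j) (B : Mat n) :
    avg κ (fun s => T s - B) = avg κ T - B ∧ avg κ (fun s => B - T s) = B - avg κ T := by
  have h0 : ((∫ s, κ s : ℝ) : ℂ) ≠ 0 := ofReal_ne_zero.2 hκ.pos.ne'
  constructor <;> ext i j <;>
    simp only [avg, Matrix.of_apply, Matrix.sub_apply, mul_sub]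
  · rw [integral_sub (intg hκ (hT i j)) (intg hκ continuous_const), integral_mul_const,
      integral_complex_ofReal]
    field_simp
  · rw [integral_sub (intg hκ continuous_const) (intg hκ (hT i j)), integral_mul_const,
      integral_complex_ofReal]
    field_simp

/-- The value of a form on a vector. -/
def qL (x : E n) : Mat n →ₗ[ℂ] ℂ where
  toFun A := star x ⬝ᵥ A *ᵥ x
  map_add' A B := by simp [Matrix.add_mulVec]
  map_smul' a A := by simp [Matrix.smul_mulVec]

lemma avg_psd (hκ : Krn κ) (hT : ∀ i j, Continuous fun s => T s i j)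
    (hp : ∀ s, (T s).PosSemidef) : (avg κ T).PosSemidef := by
  refine .of_dotProduct_mulVec_nonneg ?_ fun x => ?_
  · ext i j
    simp only [avg, Matrix.conjTranspose_apply, Matrix.of_apply, star_div₀, star_def, conj_ofReal]
    rw [← integral_conj]
    congr 2
    funext s
    rw [map_mul, conj_ofReal, ← (hp s).1.apply i j, star_def]
  · refine le_of_le_of_eq ?_ (lin hκ hT (qL x)).symm
    refine div_nonneg (integral_nonneg fun s => ?_) (zero_le_real.2 hκ.pos.le)
    exact mul_nonneg (zero_le_real.2 (hκ.nn s)) ((hp s).dotProduct_mulVec_nonneg x)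

lemma psd_lim {l : Filter ℕ} [l.NeBot] {A : ℕ → Mat n} {B : Mat n} (h : Tendsto A l (𝓝 B))
    (hp : ∀ m, (A m).PosSemidef) : B.PosSemidef := by
  refine .of_dotProduct_mulVec_nonneg ?_ fun x => ?_
  · refine tendsto_nhds_unique
      ((continuous_id.matrix_conjTranspose.tendsto B).comp h) (h.congr fun m => ?_)
    exact (hp m).1.eq.symm
  · exact ge_of_tendsto' (((qL x).continuous_of_finiteDimensional.tendsto B).comp h)
      fun m => (hp m).dotProduct_mulVec_nonneg x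

variable {h : Mat n} {c C : ℝ}

lemma avg_bd (hb : Bnd h T c C) (hκ : Krn κ) :
    (avg κ T - c • h).PosSemidef ∧ (C • h - avg κ T).PosSemidef := by
  rw [← (avg_aff hκ hb.cont _).1, ← (avg_aff hκ hb.cont _).2]
  exact ⟨avg_psd hκ (fun i j => (hb.cont i j).sub continuous_const) hb.lo,
    avg_psd hκ (fun i j => continuous_const.sub (hb.cont i j)) hb.hi⟩

lemma tend (hb : Bnd h T c C) (hκ : Krn κ) (i j : Fin n) :
    Tendsto (fun m => avg (sc κ m) T i j) (hyperfilter ℕ) (𝓝 (bl κ T i j)) := by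
  have h1 : ∀ m, avg (sc κ m) T i j ∈ closedBall ((c • h) i j) (C • h - c • h).trace.re := by
    intro m
    obtain ⟨h2, h3⟩ := avg_bd hb (krn_sc hκ m)
    have h4 := (Complex.le_def.1 h3.trace_nonneg).1
    rw [mem_closedBall, dist_eq_norm]
    refine (HS76.entry_le_trace h2 i j).trans ?_
    rw [Matrix.trace_sub, sub_re] at h4 ⊢
    rw [Matrix.trace_sub, sub_re]
    rw [zero_re] at h4
    linarith
  obtain ⟨a, -, ha⟩ := (isCompact_closedBall _ _).ultrafilter_le_nhds
    ((hyperfilter ℕ).map fun m => avg (sc κ m) T i j)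
    (le_principal_iff.2 (mem_map.2 (Eventually.of_forall h1)))
  exact tendsto_nhds_limUnder ⟨a, ha⟩

lemma tendM (hb : Bnd h T c C) (hκ : Krn κ) :
    Tendsto (fun m => avg (sc κ m) T) (hyperfilter ℕ) (𝓝 (bl κ T)) :=
  tendsto_pi_nhds.2 fun i => tendsto_pi_nhds.2 fun j => tend hb hκ i j

lemma bl_comp (hb : Bnd h T c C) (hκ : Krn κ) (A : Mat k) (J : Mat n) (hA : A.det ≠ 0) :
    bl (fun s => κ (A *ᵥ s)) (fun s => Jᴴ * T (A *ᵥ s) * J) = Jᴴ * bl κ T * J := by
  obtain ⟨d, d0, h1, h2⟩ := chg A hA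
  have h3 : ∀ m, avg (sc (fun s => κ (A *ᵥ s)) m) (fun s => Jᴴ * T (A *ᵥ s) * J) =
      Jᴴ * avg (sc κ m) T * J := fun m => by
    rw [← avg_mul (krn_sc hκ m) hb.cont]
    ext i j
    have e : ∀ s, sc (fun s => κ (A *ᵥ s)) m s = sc κ m (A *ᵥ s) := fun s => by
      simp only [sc, Matrix.mulVec_smul]
    simp only [avg, Matrix.of_apply, e]
    rw [h1 (sc κ m), h2 fun s => (sc κ m s : ℂ) * (Jᴴ * T s * J) i j, ofReal_mul,
      mul_div_mul_left _ _ (ofReal_ne_zero.2 d0.ne')]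
  have h4 : Tendsto (fun m => Jᴴ * avg (sc κ m) T * J) (hyperfilter ℕ) (𝓝 (Jᴴ * bl κ T * J)) :=
    ((tendM hb hκ).const_mul _).mul_const _
  ext i j
  simp only [bl, Matrix.of_apply, h3]
  exact (tendsto_pi_nhds.1 (tendsto_pi_nhds.1 h4 i) j).limUnder_eq

end PV08

open PV08 in
theorem st_PV0 : St_PV0 := fun _ _ _ _ _ _ _ hb hκ =>
  ⟨krn_sc hκ, (avg_bd hb hκ).1, (avg_bd hb hκ).2, tend hb hκ,
    psd_lim ((tendM hb hκ).sub_const _) fun m => (avg_bd hb (krn_sc hκ m)).1,
    psd_lim ((tendM hb hκ).const_sub _) fun m => (avg_bd hb (krn_sc hκ m)).2,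
    fun A J hA => ⟨krn_comp hκ A hA, bl_comp hb hκ A J hA⟩⟩

end Pool.Agent.Lib.PM
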