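import Pool.Agent.Lib.PM.Blue

/-! Block PV1: the averages are smooth and closed. -/

open scoped Classical Topology ContDiff ComplexOrder Matrix Manifold ENNReal Convolution
open Set MeasureTheory Complex Metric Filter

noncomputable section

namespace Pool.Agent.Lib.PM

open Pool.Agent.Lib.SV (E)
open Pool.Agent.Lib.HS32

namespace PV1x39

theorem par {n k : ℕ} {κ : E k → ℝ} (hc : Continuous κ) (hs : HasCompactSupport κ)
    {f : E n → E k → ℂ} {U : Set (E n)} (hU : IsOpen U) {z : E n} (hz : z ∈ U)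
    (hf : ∀ w ∈ U, ∀ s, ContDiffAt ℝ ∞ (fun p : E n × E k => f p.1 p.2) (w, s)) :
    ContDiffAt ℝ ∞ (fun w => ∫ s, (κ s : ℂ) * f w s) z ∧ ∀ v,
      Integrable (fun s => (κ s : ℂ) * fderiv ℝ (fun w => f w s) z v) ∧
      fderiv ℝ (fun w => ∫ s, (κ s : ℂ) * f w s) z v =
        ∫ s, (κ s : ℂ) * fderiv ℝ (fun w => f w s) z v := by
  obtain ⟨R, hR, hκ⟩ := hs.isCompact.isBounded.subset_closedBall_lt 0 0
  let θ : ContDiffBump (0 : E k) := ⟨R, R + 1, hR, lt_add_one R⟩
  let g : E n → E k → ℂ := fun p x => θ x • f p (-x)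
  have g1 : ∀ t, κ t ≠ 0 → ∀ p, g p (0 - t) = f p t := fun t ht p => by
    simp only [g, zero_sub, θ.neg, neg_neg, θ.one_of_mem_closedBall (hκ (subset_tsupport _ ht)),
      one_smul]
  have g0 : ∀ p x, p ∈ U → x ∉ closedBall (0 : E k) (R + 1) → g p x = 0 := fun p x _ hx => by
    simp only [g, θ.zero_of_le_dist (not_le.1 (mt mem_closedBall.2 hx)).le, zero_smul]
  have hg : ContDiffOn ℝ ∞ ↿g (U ×ˢ univ) := fun q hq =>
    ((θ.contDiff.comp contDiff_snd).contDiffAt.smul ((hf q.1 hq.1 (-q.2)).comp q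
      (contDiff_fst.prodMk contDiff_snd.neg).contDiffAt)).contDiffWithinAt
  have hK := isCompact_closedBall (0 : E k) (R + 1)
  have hl : LocallyIntegrable κ volume := hc.locallyIntegrable
  have e : ∀ p, (κ ⋆[ContinuousLinearMap.lsmul ℝ ℝ, volume] g p) 0 = ∫ s, (κ s : ℂ) * f p s :=
    fun p => integral_congr_ae (Eventually.of_forall fun t => by
      by_cases ht : κ t = 0
      · simp [ht]
      · simp only [ContinuousLinearMap.lsmul_apply, g1 t ht, real_smul])
  have hn : ∀ x, U ×ˢ univ ∈ 𝓝 (z, x) := fun x : E k =>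
    (hU.prod isOpen_univ).mem_nhds ⟨hz, mem_univ _⟩
  refine ⟨?_, fun v => ?_⟩
  · have := (contDiffOn_convolution_right_with_param_comp (n := ⊤)
      (ContinuousLinearMap.lsmul ℝ ℝ) (v := fun _ => 0) contDiffOn_const hU hK g0 hl hg).contDiffAt
      (hU.mem_nhds hz)
    simpa only [e] using this
  have h0 := hasFDerivAt_convolution_right_with_param (ContinuousLinearMap.lsmul ℝ ℝ) hU hK g0 hl
    (hg.of_le (by simp)) (z, 0) hz
  have h1 := HasFDerivAt.comp (f := fun e : E n => (e, (0 : E k))) z h0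
    (hasFDerivAt_prodMk_left z 0)
  have c1 : Continuous fun x => fderiv ℝ ↿g (z, x) :=
    (hg.continuousOn_fderiv_of_isOpen (hU.prod isOpen_univ) (by simp)).comp_continuous
      (.prodMk_right _) fun x => ⟨hz, mem_univ _⟩
  have c2 : HasCompactSupport fun x => fderiv ℝ ↿g (z, x) := HasCompactSupport.intro hK
    fun x hx => by
      have : ↿g =ᶠ[𝓝 (z, x)] fun _ => 0 := by
        filter_upwards [(hU.prod hK.isClosed.isOpen_compl).mem_nhds ⟨hz, hx⟩] with q hq
        exact g0 _ _ hq.1 hq.2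
      rw [this.fderiv_eq]
      exact fderiv_const_apply 0
  have e2 : ∀ t, κ t • fderiv ℝ ↿g (z, 0 - t) (v, 0) =
      (κ t : ℂ) * fderiv ℝ (fun w => f w t) z v := fun t => by
    by_cases ht : κ t = 0
    · simp [ht]
    have h2 := HasFDerivAt.comp (f := fun e : E n => (e, 0 - t)) z
      ((hg.contDiffAt (hn (0 - t))).differentiableAt (by simp)).hasFDerivAt
      (hasFDerivAt_prodMk_left z (0 - t))
    rw [← funext (g1 t ht), real_smul]
    exact congrArg _ (congrArg (· v) h2.fderiv).symm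
  refine ⟨?_, ?_⟩
  · rw [← funext e2]
    exact (hc.smul ((c1.comp (continuous_const.sub continuous_id)).clm_apply
      continuous_const)).integrable_of_hasCompactSupport hs.smul_right
  · rw [← funext e, ← funext e2]
    exact (congrArg (· v) h1.fderiv).trans
      (convolution_precompR_apply (ContinuousLinearMap.lsmul ℝ ℝ) hl c2 c1 0 (v, 0))

theorem dz_avg {n k : ℕ} {κ : E k → ℝ} (hc : Continuous κ) (hs : HasCompactSupport κ)
    {f : E n → E k → ℂ} {U : Set (E n)} (hU : IsOpen U) {z : E n} (hz : z ∈ U)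
    (hf : ∀ w ∈ U, ∀ s, ContDiffAt ℝ ∞ (fun p : E n × E k => f p.1 p.2) (w, s)) (c : ℂ)
    (l : Fin n) : dz l (fun w => (∫ s, (κ s : ℂ) * f w s) / c) z =
      (∫ s, (κ s : ℂ) * dz l (fun w => f w s) z) / c := by
  obtain ⟨h1, h2⟩ := par hc hs hU hz hf
  have h3 := ((h1.differentiableAt (by simp)).hasFDerivAt.const_mul c⁻¹).fderiv
  simp only [dz, div_eq_inv_mul _ c, h3, smul_apply, smul_eq_mul, (h2 _).2,
    ← mul_div_assoc, mul_sub, mul_left_comm _ I]
  rw [integral_div, integral_sub (h2 _).1 ((h2 _).1.const_mul I), integral_const_mul]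
  ring

end PV1x39

theorem st_PV1 : St_PV1 := by
  intro n k h T c C κ z hT hκ
  obtain ⟨U, h1, hU, hz⟩ := _root_.eventually_nhds_iff.1 hT
  obtain ⟨L, hL⟩ := hκ.lip
  have hc : Continuous κ := (LipschitzWith.of_dist_le' (K := L) fun s t => by
    rw [Real.dist_eq, dist_eq_norm]; exact hL s t).continuous
  refine ⟨fun i j => (PV1x39.par (f := fun w s => T w s i j) hc hκ.cpt hU hz
    fun w hw s => (h1 w hw).sm s i j).1.div_const _, fun i j l => ?_⟩
  refine (PV1x39.dz_avg (f := fun w s => T w s i j) hc hκ.cpt hU hz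
    (fun w hw s => (h1 w hw).sm s i j) _ l).trans (Eq.trans ?_
      (PV1x39.dz_avg (f := fun w s => T w s i l) hc hκ.cpt hU hz
        (fun w hw s => (h1 w hw).sm s i l) _ j).symm)
  exact congrArg (· / _) (integral_congr_ae (Eventually.of_forall fun s =>
    congrArg _ ((h1 z hz).cl s i j l)))

end Pool.Agent.Lib.PM
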