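import Pool.Agent.Lib.PM.B_PV0

/-! Project pm78: the derivatives of the averages along the leaves are small. -/

open scoped Classical Topology ContDiff ComplexOrder Matrix
open Set MeasureTheory Complex Metric Filter

noncomputable section

namespace Pool.Agent.Lib.PM

open Pool.Agent.Lib.SV (E)
open Pool.Agent.Lib.HS32

namespace PV28

variable {n k : ℕ} {κ : E k → ℝ}

lemma shift (hκ : Krn κ) : ∃ D : ℝ, 0 ≤ D ∧ ∀ u : E k, ‖u‖ ≤ 1 →
    ∫ s, |κ (s - u) - κ s| ≤ D * ‖u‖ * ∫ s, κ s := by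
  obtain ⟨L, hL⟩ := hκ.lip
  obtain ⟨r, hr⟩ := hκ.cpt.isCompact.isBounded.subset_closedBall (0 : E k)
  have h0 : ∀ s : E k, r < ‖s‖ → κ s = 0 := fun s hs =>
    image_eq_zero_of_notMem_tsupport fun h => by
      have := mem_closedBall_zero_iff.1 (hr h)
      linarith
  have hp := hκ.pos
  refine ⟨|L| * (volume : Measure (E k)).real (closedBall 0 (r + 1)) / ∫ s, κ s, by positivity,
    fun u hu => ?_⟩
  have h1 : ∫ s, |κ (s - u) - κ s| ≤
      ∫ s, (closedBall (0 : E k) (r + 1)).indicator (fun _ => |L| * ‖u‖) s := by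
    refine integral_mono_of_nonneg (Eventually.of_forall fun s => abs_nonneg _)
      ((integrableOn_const (measure_closedBall_lt_top.ne)).integrable_indicator
        measurableSet_closedBall) (Eventually.of_forall fun s => ?_)
    by_cases hs : s ∈ closedBall (0 : E k) (r + 1)
    · rw [indicator_of_mem hs]
      refine (hL _ _).trans ?_
      rw [sub_sub_cancel_left, norm_neg]
      exact mul_le_mul_of_nonneg_right (le_abs_self L) (norm_nonneg _)
    · rw [indicator_of_notMem hs]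
      rw [mem_closedBall_zero_iff, not_le] at hs
      have h2 := norm_sub_norm_le s u
      show |κ (s - u) - κ s| ≤ 0
      rw [h0 s (by linarith), h0 (s - u) (by linarith), sub_self, abs_zero]
  rw [integral_indicator measurableSet_closedBall, setIntegral_const, smul_eq_mul] at h1
  refine h1.trans_eq ?_
  field_simp

lemma shift_sc (hκ : Krn κ) : ∃ D : ℝ, 0 ≤ D ∧ ∀ (m : ℕ) (u : E k), ‖u‖ ≤ 1 →
    ∫ s, |sc κ m (s - u) - sc κ m s| ≤ D / (m + 1) * ‖u‖ * ∫ s, sc κ m s := by
  obtain ⟨D, D0, hD⟩ := shift hκ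
  refine ⟨D, D0, fun m u hu => ?_⟩
  have a0 : 0 < ((m : ℝ) + 1)⁻¹ := by positivity
  have a1 : ((m : ℝ) + 1)⁻¹ ≤ 1 := inv_le_one_of_one_le₀ (by linarith [m.cast_nonneg (α := ℝ)])
  have h1 := hD (((m : ℝ) + 1)⁻¹ • u) (by
    rw [norm_smul, Real.norm_of_nonneg a0.le]
    exact mul_le_one₀ a1 (norm_nonneg _) hu)
  simp only [sc, smul_sub]
  rw [Measure.integral_comp_smul volume
    (fun s => |κ (s - ((m : ℝ) + 1)⁻¹ • u) - κ s|) ((m : ℝ) + 1)⁻¹,
    Measure.integral_comp_smul volume κ, smul_eq_mul, smul_eq_mul]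
  refine (mul_le_mul_of_nonneg_left h1 (abs_nonneg _)).trans_eq ?_
  rw [norm_smul, Real.norm_of_nonneg a0.le]
  ring

lemma diff (hκ : Krn κ) {f : E k → ℂ} {R K : ℝ} (hf : Continuous f) (hR : ∀ s, ‖f s‖ ≤ R)
    {u : E k} (hu : ∫ s, |κ (s - u) - κ s| ≤ K * ∫ s, κ s) :
    ‖(∫ s, (κ s : ℂ) * f (s + u)) / ((∫ s, κ s : ℝ) : ℂ) -
      (∫ s, (κ s : ℂ) * f s) / ((∫ s, κ s : ℝ) : ℂ)‖ ≤ K * R := by
  have R0 : 0 ≤ R := (norm_nonneg _).trans (hR 0)
  have hc := PV08.krn_cont hκ
  have k1 : HasCompactSupport fun s => κ (s - u) :=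
    hκ.cpt.comp_homeomorph (Homeomorph.subRight u)
  have c1 : Continuous fun s => κ (s - u) := by fun_prop
  have i1 : Integrable fun s => (κ (s - u) : ℂ) * f s :=
    ((continuous_ofReal.comp c1).mul hf).integrable_of_hasCompactSupport
      (k1.comp_left (g := fun x : ℝ => (x : ℂ)) ofReal_zero).mul_right
  have i2 : Integrable fun s => |κ (s - u) - κ s| * R :=
    ((c1.integrable_of_hasCompactSupport k1).sub
      (hc.integrable_of_hasCompactSupport hκ.cpt)).abs.mul_const R
  have e : ∫ s, (κ s : ℂ) * f (s + u) = ∫ s, (κ (s - u) : ℂ) * f s := by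
    rw [← integral_add_right_eq_self (fun s => (κ (s - u) : ℂ) * f s) u]
    simp only [add_sub_cancel_right]
  rw [e, ← sub_div, ← integral_sub i1 (PV08.intg hκ hf), norm_div, norm_real,
    Real.norm_of_nonneg hκ.pos.le, div_le_iff₀ hκ.pos]
  refine (norm_integral_le_of_norm_le i2 (Eventually.of_forall fun s => ?_)).trans ?_
  · rw [← sub_mul, norm_mul, ← ofReal_sub, norm_real, Real.norm_eq_abs]
    exact mul_le_mul_of_nonneg_left (hR s) (abs_nonneg _)
  · rw [integral_mul_const]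
    refine (mul_le_mul_of_nonneg_right hu R0).trans_eq ?_
    ring

end PV28

theorem st_PV2 : St_PV2 := by
  intro n k κ hκ
  obtain ⟨D, D0, hD⟩ := PV28.shift_sc hκ
  refine ⟨D, D0, fun m T z R hs hc hR ht i j v => ?_⟩
  have R0 : 0 ≤ R := (norm_nonneg _).trans (hR 0 i j)
  let L : E k →L[ℝ] E n :=
    LinearMap.toContinuousLinearMap ((Matrix.mulVecLin (io n k)).restrictScalars ℝ)
  have h1 : HasFDerivAt (fun w => avg (sc κ m) (T w) i j)
      (fderiv ℝ (fun w => avg (sc κ m) (T w) i j) z) (z + L 0) := by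
    rw [map_zero, add_zero]
    exact ((hs i j).differentiableAt (by simp)).hasFDerivAt
  have h2 := h1.comp (0 : E k) (L.hasFDerivAt.const_add z)
  have h3 := h2.le_of_lip' (C := D * R / (m + 1)) (by positivity) (by
    filter_upwards [ht, closedBall_mem_nhds (0 : E k) one_pos] with u h4 h5
    have h6 := PV28.diff (PV08.krn_sc hκ m) (hc i j) (fun s => hR s i j)
      (hD m u (mem_closedBall_zero_iff.1 h5))
    have e : ∀ s, T (z + L u) s = T z (s + u) := h4
    simp only [Function.comp_apply, map_zero, add_zero, sub_zero, avg, Matrix.of_apply, e]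
    refine h6.trans_eq ?_
    ring)
  exact (ContinuousLinearMap.le_opNorm
    ((fderiv ℝ (fun w => avg (sc κ m) (T w) i j) z).comp L) v).trans
    (mul_le_mul_of_nonneg_right h3 (norm_nonneg _))

end Pool.Agent.Lib.PM
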