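import Pool.Agent.Lib.PM.Blue
import Pool.Agent.Lib.HS32.MKit

/-! Project pm78, block PV3: the limit of the averages on a ball. -/

open scoped Classical Topology ContDiff ComplexOrder Matrix
open Set MeasureTheory Complex Metric Filter

noncomputable section

namespace Pool.Agent.Lib.PM

open Pool.Agent.Lib.SV (E)
open Pool.Agent.Lib.HS32

namespace V327

variable {n k : ℕ}

theorem psd_entry {S : Mat n} (hS : S.PosSemidef) (i j : Fin n) :
    ‖S i j‖ ≤ ((S i i).re + (S j j).re) / 2 := by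
  obtain ⟨W, rfl⟩ := Mf.psd_factor hS
  have e : ∀ a b, (Wᴴ * W) a b = ∑ l, star (W l a) * W l b := fun a b => by
    simp [Matrix.mul_apply]
  have e2 : ∀ a, ((Wᴴ * W) a a).re = ∑ l, ‖W l a‖ ^ 2 := fun a => by
    rw [e, re_sum]
    refine Finset.sum_congr rfl fun l _ => ?_
    rw [Complex.star_def, Complex.conj_mul', ← ofReal_pow, ofReal_re]
  rw [e2, e2, e, ← Finset.sum_add_distrib, Finset.sum_div]
  refine (norm_sum_le _ _).trans (Finset.sum_le_sum fun l _ => ?_)
  rw [norm_mul, norm_star]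
  nlinarith [sq_nonneg (‖W l i‖ - ‖W l j‖)]

theorem sand {h S : Mat n} {c C H : ℝ} (hh : h.PosDef) (hc : 0 < c) (lo : (S - c • h).PosSemidef)
    (hi : (C • h - S).PosSemidef) (hH : ∀ i, ‖h i i‖ ≤ H) :
    S.IsHermitian ∧ ∀ i j, ‖S i j‖ ≤ |C| * H := by
  have hS : S.PosSemidef := by
    have := lo.add (hh.smul hc).posSemidef
    rwa [sub_add_cancel] at this
  refine ⟨hS.1, fun i j => (psd_entry hS i j).trans ?_⟩
  have e : ∀ a, (S a a).re ≤ |C| * H := fun a => by
    have h1 := (Complex.nonneg_iff.1 (hi.diag_nonneg (i := a))).1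
    rw [Matrix.sub_apply, Matrix.smul_apply, sub_re, real_smul, re_ofReal_mul] at h1
    have h2 : C * (h a a).re ≤ |C| * H := by
      refine (le_abs_self _).trans ?_
      rw [abs_mul]
      exact mul_le_mul_of_nonneg_left ((abs_re_le_norm _).trans (hH a)) (abs_nonneg C)
    linarith
  linarith [e i, e j]

theorem io_single {i : Fin n} (hi : i.val < k) (a : ℂ) :
    io n k *ᵥ Pi.single (⟨i.val, hi⟩ : Fin k) a = Pi.single i a := by
  funext l
  rw [Matrix.mulVec_single]
  by_cases h : l = i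
  · subst h; simp [io]
  · simp [io, h, Fin.val_inj]

theorem dz_le {f : E n → ℂ} {z : E n} {δ : ℝ} {i : Fin n} (hi : i.val < k)
    (h : ∀ v : E k, ‖fderiv ℝ f z (io n k *ᵥ v)‖ ≤ δ * ‖v‖) : ‖dz i f z‖ ≤ δ := by
  have h1 := h (Pi.single ⟨i.val, hi⟩ 1)
  have h2 := h (Pi.single ⟨i.val, hi⟩ I)
  rw [io_single hi, Pi.norm_single] at h1 h2
  rw [dz, norm_div, Complex.norm_two]
  have h3 := norm_sub_le (fderiv ℝ f z (Pi.single i 1)) (I * fderiv ℝ f z (Pi.single i I))
  rw [norm_mul, norm_I] at h3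
  rw [norm_one] at h1
  rw [norm_I] at h2
  linarith

theorem line {f : E n → ℂ} {U : Set (E n)} (hU : Convex ℝ U) {u d : E n} (hu : u ∈ U)
    (hd : u + d ∈ U) {K : ℝ} (hf : ∀ w ∈ U, DifferentiableAt ℝ f w ∧ ‖fderiv ℝ f w d‖ ≤ K) :
    ‖f (u + d) - f u‖ ≤ K := by
  have hm : ∀ t ∈ Icc (0 : ℝ) 1, u + t • d ∈ U := fun t ht => hU.add_smul_mem hu hd ht
  have := norm_image_sub_le_of_norm_deriv_le_segment_01' (f := fun t : ℝ => f (u + t • d))
    (f' := fun t => fderiv ℝ f (u + t • d) d) (C := K)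
    (fun t ht => by
      have h1 : HasDerivAt (fun t : ℝ => u + t • d) d t := by
        simpa using ((hasDerivAt_id t).smul_const d).const_add u
      exact ((hf _ (hm t ht)).1.hasFDerivAt.comp_hasDerivAt t h1).hasDerivWithinAt)
    fun t ht => (hf _ (hm t (Ico_subset_Icc_self ht))).2
  simpa using this

theorem lim_eq {l : Filter ℕ} [l.NeBot] {f g : ℕ → ℂ} {a b : ℂ} {δ : ℕ → ℝ} (hf : Tendsto f l (𝓝 a))
    (hg : Tendsto g l (𝓝 b)) (hδ : Tendsto δ l (𝓝 0)) (h : ∀ m, ‖f m - g m‖ ≤ δ m) : a = b :=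
  sub_eq_zero.1 (norm_le_zero_iff.1 (le_of_tendsto_of_tendsto' (hf.sub hg).norm hδ h))

end V327

open V327 in
theorem st_PV3 (h0 : St_PV0) (h1 : St_PV1) (h2 : St_PV2) (hW : St_PWH) : St_PV3 := by
  intro n k h T c C κ x r _ hc hκ hT
  obtain ⟨H, hH⟩ : ∃ H : ℝ, ∀ z ∈ closedBall x r, ∀ i, ‖h z i i‖ ≤ H := by
    obtain ⟨H, hH⟩ := (isCompact_closedBall x r).exists_bound_of_continuousOn
      (f := fun z i => h z i i) (continuousOn_pi.2 fun i z hz =>
        (((continuous_apply_apply i i).continuousAt).comp (hT z hz).2.2).continuousWithinAt)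
    exact ⟨H, fun z hz i => (norm_le_pi_norm (fun i => h z i i) i).trans (hH z hz)⟩
  have hB : ∀ z ∈ closedBall x r, Bnd (h z) (T z) c C := fun z hz =>
    ⟨(hT z hz).2.1, hc, fun i j => continuous_iff_continuousAt.2 fun s =>
      ContinuousAt.comp (g := fun p : E n × E k => T p.1 p.2 i j) (f := fun s => (z, s))
        ((hT z hz).1.sm s i j).continuousAt (by fun_prop), (hT z hz).1.lo, (hT z hz).1.hi⟩
  have hK : ∀ z ∈ closedBall x r, ∀ m, Krn (sc κ m) := fun z hz =>
    (h0 n k _ _ c C κ (hB z hz) hκ).1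
  have hlim : ∀ z ∈ ball x r, ∀ i j, Tendsto (fun m => avg (sc κ m) (T z) i j) (hyperfilter ℕ)
      (𝓝 (bl κ (T z) i j)) := fun z hz =>
    (h0 n k _ _ c C κ (hB z (ball_subset_closedBall hz)) hκ).2.2.2.1
  have hA : ∀ z ∈ ball x r, ∀ m, (avg (sc κ m) (T z)).IsHermitian ∧
      ∀ i j, ‖avg (sc κ m) (T z) i j‖ ≤ |C| * H := fun z hz m => by
    have hz' := ball_subset_closedBall hz
    have := h0 n k _ _ c C _ (hB z hz') (hK z hz' m)
    exact sand (hT z hz').2.1 hc this.2.1 this.2.2.1 (hH z hz')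
  have hS : ∀ z ∈ ball x r, ∀ m, SmM (fun w => avg (sc κ m) (T w)) z ∧
      ClM (fun w => avg (sc κ m) (T w)) z := fun z hz m =>
    h1 n k h T c C _ z (by
      filter_upwards [isOpen_ball.mem_nhds hz] with w hw using
        (hT w (ball_subset_closedBall hw)).1) (hK z (ball_subset_closedBall hz) m)
  have hd : ∀ z ∈ ball x r, ∀ m i j,
      DifferentiableAt ℝ (fun w => avg (sc κ m) (T w) i j) z := fun z hz m i j =>
    ((hS z hz m).1 i j).differentiableAt (by simp)
  obtain ⟨D, -, hD⟩ := h2 n k κ hκ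
  set δ : ℕ → ℝ := fun m => D * (|C| * H) / (m + 1) with hδ
  have hδ0 : Tendsto δ (hyperfilter ℕ) (𝓝 0) := by
    refine Tendsto.mono_left ?_ Nat.hyperfilter_le_atTop
    have := (tendsto_one_div_add_atTop_nhds_zero_nat (𝕜 := ℝ)).const_mul (D * (|C| * H))
    simpa [hδ, div_eq_mul_inv] using this
  have hL : ∀ z ∈ ball x r, ∀ m i j (v : E k),
      ‖fderiv ℝ (fun w => avg (sc κ m) (T w) i j) z (io n k *ᵥ v)‖ ≤ δ m * ‖v‖ :=
    fun z hz m => by
      have hz' := ball_subset_closedBall hz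
      exact hD m T z _ (hS z hz m).1 (hB z hz').cont (fun s =>
        (sand (hT z hz').2.1 hc ((hT z hz').1.lo s) ((hT z hz').1.hi s) (hH z hz')).2)
        (hT z hz').1.tr
  have hz1 : ∀ z ∈ ball x r, ∀ m (i j l : Fin n), j.val < k →
      ‖dz l (fun w => avg (sc κ m) (T w) i j) z‖ ≤ δ m := fun z hz m i j l hj => by
    have e : dz l (fun w => avg (sc κ m) (T w) i j) z =
        dz j (fun w => avg (sc κ m) (T w) i l) z := (hS z hz m).2 i j l
    rw [e]
    exact dz_le hj (hL z hz m i l)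
  have hz2 : ∀ z ∈ ball x r, ∀ m (i j l : Fin n), i.val < k →
      ‖dzb l (fun w => avg (sc κ m) (T w) i j) z‖ ≤ δ m := fun z hz m i j l hi => by
    have e : (fun w => avg (sc κ m) (T w) i j) =ᶠ[𝓝 z]
        fun w => star (avg (sc κ m) (T w) j i) := by
      filter_upwards [isOpen_ball.mem_nhds hz] with w hw using ((hA w hw m).1.apply i j).symm
    rw [dzb_congr e, dzb_star (hd z hz m j i), norm_star]
    exact hz1 z hz m j i l hi
  refine ⟨fun i j hi => hW n (hyperfilter ℕ) (fun m w => avg (sc κ m) (T w) i j) _ _ (|C| * H) δ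
    isOpen_ball (fun m z hz => ⟨((hS z hz m).1 i j).of_le (by simp), (hA z hz m).2 i j,
      fun l => hz2 z hz m i j l hi⟩) hδ0 fun z hz => hlim z hz i j, fun z hz => ⟨?_, ?_⟩⟩
  · have e : ∀ᶠ v in 𝓝 (0 : E k), z + io n k *ᵥ v ∈ ball x r := by
      have hcont : Continuous fun v : E k => z + io n k *ᵥ v := by fun_prop
      exact hcont.continuousAt.eventually_mem (isOpen_ball.mem_nhds (by simpa using hz))
    filter_upwards [e] with v hv
    ext i j
    refine lim_eq (hlim _ hv i j) (hlim z hz i j) (δ := fun m => δ m * ‖v‖)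
      (by simpa using hδ0.mul_const ‖v‖) fun m => ?_
    exact line (f := fun w => avg (sc κ m) (T w) i j) (convex_ball x r) hz hv
      fun w hw => ⟨hd w hw m i j, hL w hw m i j v⟩
  · have hx : x ∈ ball x r := mem_ball_self (pos_of_mem_ball hz)
    ext i j
    simp only [pr, Matrix.mul_diagonal, Matrix.diagonal_mul]
    split_ifs with hi hj hj
    · rw [one_mul, one_mul, mul_one, mul_one]
      refine lim_eq (hlim z hz i j) (hlim x hx i j) (δ := fun m => δ m * (2 * ∑ l, ‖(z - x) l‖))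
        (by simpa using hδ0.mul_const (2 * ∑ l, ‖(z - x) l‖)) fun m => ?_
      have := line (f := fun w => avg (sc κ m) (T w) i j) (convex_ball x r) hx (d := z - x)
        (by simpa using hz) (K := δ m * (2 * ∑ l, ‖(z - x) l‖)) fun w hw => ⟨hd w hw m i j, by
          rw [fderiv_eq_sum, Finset.mul_sum, Finset.mul_sum]
          refine (norm_sum_le _ _).trans (Finset.sum_le_sum fun l _ => (norm_add_le _ _).trans ?_)
          rw [norm_mul, norm_mul, norm_star]
          nlinarith [hz1 w hw m i j l hj, hz2 w hw m i j l hi, norm_nonneg ((z - x) l)]⟩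
      simpa using this
    all_goals simp

end Pool.Agent.Lib.PM
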