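import Pool.Agent.Lib.PM.Blue
import Pool.Agent.Lib.HS32.B_BD

/-! Project pm78: the canonical kernel. -/

open scoped Classical Topology ContDiff ComplexOrder Matrix Manifold ENNReal
open Set MeasureTheory Complex Metric Filter

noncomputable section

namespace Pool.Agent.Lib.PM

open Pool.Agent.Lib.SV (E Pluri)
open Pool.Agent.Lib.HS32 Pool.Agent.Lib.GH

namespace PV485

variable {n k : ℕ}

theorem krn_of {N : E k → ℝ} {L c : ℝ} (hc : 0 < c) (h1 : ∀ u v, N (u + v) ≤ N u + N v)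
    (h2 : ∀ u, N u ≤ L * ‖u‖) (h3 : ∀ u, c * ‖u‖ ≤ N u) : Krn fun s => max 0 (1 - N s) := by
  have lip : ∀ s t, |N s - N t| ≤ L * ‖s - t‖ := fun s t => by
    have a := h1 (s - t) t
    have b := h1 (t - s) s
    have d := h2 (t - s)
    rw [sub_add_cancel] at a b
    rw [norm_sub_rev] at d
    exact abs_le.2 ⟨by linarith, by linarith [h2 (s - t)]⟩
  have lip' : ∀ s t, |max 0 (1 - N s) - max 0 (1 - N t)| ≤ L * ‖s - t‖ := fun s t => by
    rw [max_comm 0, max_comm 0]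
    refine (abs_max_sub_max_le_abs _ _ _).trans (le_of_eq_of_le ?_ (lip s t))
    rw [abs_sub_comm]
    congr 1
    ring
  have cpt : HasCompactSupport fun s => max 0 (1 - N s) :=
    HasCompactSupport.intro (isCompact_closedBall 0 c⁻¹) fun s hs => by
      rw [mem_closedBall_zero_iff, not_le, inv_lt_iff_one_lt_mul₀' hc] at hs
      exact max_eq_left (by linarith [h3 s])
  refine ⟨fun s => le_max_left _ _, ⟨L, lip'⟩, cpt, ?_⟩
  refine Continuous.integral_pos_of_hasCompactSupport_nonneg_nonzero (x := 0)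
    (LipschitzWith.of_dist_le' (K := L) fun s t => ?_).continuous cpt
    (fun s => le_max_left _ _) ?_
  · rw [Real.dist_eq, dist_eq_norm]
    exact lip' s t
  · have := h2 0
    rw [norm_zero, mul_zero] at this
    exact (lt_max_of_lt_right (by linarith)).ne'

theorem nn {A : Mat n} (h : A.PosSemidef) (v : E n) : 0 ≤ nq A v := h.re_dotProduct_nonneg v

theorem nsub (c : ℝ) (A B : Mat n) (v : E n) :
    nq (A - c • B) v = nq A v - c * nq B v ∧ nq (c • B - A) v = c * nq B v - nq A v := by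
  simp only [nq, Matrix.sub_mulVec, Matrix.smul_mulVec, dotProduct_sub, dotProduct_smul, sub_re,
    real_smul, re_ofReal_mul, and_self]

theorem tri {A : Mat n} (h : A.PosSemidef) (u v : E n) :
    nq A (u + v) ≤ (√(nq A u) + √(nq A v)) ^ 2 := by
  have e : ∀ t : ℝ, nq A (t • u + v) = nq A u * (t * t) +
      ((star u ⬝ᵥ A *ᵥ v).re + (star v ⬝ᵥ A *ᵥ u).re) * t + nq A v := fun t => by
    simp only [nq, Matrix.mulVec_add, Matrix.mulVec_smul, star_add, star_smul, star_trivial,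
      add_dotProduct, dotProduct_add, smul_dotProduct, dotProduct_smul, add_re, real_smul,
      re_ofReal_mul]
    ring
  have d := discrim_le_zero fun t => (nn h _).trans_eq (e t)
  have e1 := e 1
  rw [one_smul] at e1
  have a := Real.sq_sqrt (nn h u)
  have b := Real.sq_sqrt (nn h v)
  have c : (star u ⬝ᵥ A *ᵥ v).re + (star v ⬝ᵥ A *ᵥ u).re ≤ 2 * √(nq A u) * √(nq A v) := by
    refine le_of_sq_le_sq ?_ (by positivity)
    rw [discrim] at d
    rw [mul_pow, mul_pow, a, b]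
    linarith
  rw [add_sq, a, b, e1]
  linarith

theorem io_inj (hk : k ≤ n) : Function.Injective (io n k).mulVec := fun u v h => by
  funext j
  have := congrFun h (j.castLE hk)
  simpa [Matrix.mulVec, dotProduct, io, Fin.val_inj] using this

end PV485

open PV485 in
theorem st_PV4 (h0 : St_PV0) : St_PV4 := by
  intro n k h T c C hk hB
  refine ⟨?_, fun A J hA hJ => ?_⟩
  · have e : ∀ v, nq ((io n k)ᴴ * h * io n k) v = nq h (io n k *ᵥ v) := fun v => by
      simp only [nq, Matrix.star_mulVec, ← Matrix.mulVec_mulVec, Matrix.dotProduct_mulVec,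
        Matrix.vecMul_vecMul]
    obtain ⟨c1, c0, hc⟩ := BBD.low (isCompact_singleton (x := (0 : E k)))
      (T := fun _ => (io n k)ᴴ * h * io n k) (fun _ _ _ _ => contDiffAt_const)
      fun _ _ => hB.pos.conjTranspose_mul_mul_same (io_inj hk)
    obtain ⟨κ0, hκ0⟩ : ∃ κ : E k → ℝ, Krn κ := ⟨_, krn_of (N := fun s => ‖s‖) (L := 1) one_pos
      norm_add_le (fun u => (one_mul _).ge) fun u => (one_mul _).le⟩
    have lo : ∀ κ, Krn κ → ∀ w, c * nq h w ≤ nq (bl κ T) w := fun κ hκ w =>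
      sub_nonneg.1 ((nn (h0 n k h T c C κ hB hκ).2.2.2.2.1 w).trans_eq (nsub c _ _ w).1)
    have hi : ∀ κ, Krn κ → ∀ w, nq (bl κ T) w ≤ C * nq h w := fun κ hκ w =>
      sub_nonneg.1 ((nn (h0 n k h T c C κ hB hκ).2.2.2.2.2.1 w).trans_eq (nsub C _ _ w).2)
    have psd : ∀ κ, Krn κ → (bl κ T).PosSemidef := fun κ hκ => by
      simpa using (h0 n k h T c C κ hB hκ).2.2.2.2.1.add (hB.pos.posSemidef.smul hB.c0.le)
    have le : ∀ κ, Krn κ → ∀ v, nq (bl κ T) (io n k *ᵥ v) ≤ nN T v := fun κ hκ v =>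
      le_csSup ⟨C * nq h (io n k *ᵥ v), by
        rintro _ ⟨κ, hκ, rfl⟩
        exact hi κ hκ _⟩ ⟨κ, hκ, rfl⟩
    have ge : ∀ v b, (∀ κ, Krn κ → nq (bl κ T) (io n k *ᵥ v) ≤ b) → nN T v ≤ b := fun v b hb =>
      csSup_le ⟨_, κ0, hκ0, rfl⟩ (by
        rintro _ ⟨κ, hκ, rfl⟩
        exact hb κ hκ)
    have cc := hB.c0
    refine krn_of (c := √(c * c1)) (L := √(|C| * BBD.sn ((io n k)ᴴ * h * io n k)))
      (by positivity) (fun u v => ?_) (fun u => ?_) fun u => ?_
    · refine Real.sqrt_le_iff.2 ⟨by positivity, ge _ _ fun κ hκ => ?_⟩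
      rw [Matrix.mulVec_add]
      refine (tri (psd κ hκ) _ _).trans ?_
      gcongr
      exacts [le κ hκ u, le κ hκ v]
    · have s0 := BBD.sn_nonneg ((io n k)ᴴ * h * io n k)
      refine Real.sqrt_le_iff.2 ⟨by positivity, ge _ _ fun κ hκ => (hi κ hκ _).trans ?_⟩
      rw [mul_pow, Real.sq_sqrt (by positivity), ← e, mul_assoc]
      exact (le_abs_self _).trans ((abs_mul _ _).trans_le
        (mul_le_mul_of_nonneg_left (BBD.nq_abs _ u) (abs_nonneg C)))
    · refine Real.le_sqrt_of_sq_le (le_trans ?_ ((lo κ0 hκ0 _).trans (le κ0 hκ0 u)))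
      rw [mul_pow, Real.sq_sqrt (by positivity), ← e, mul_assoc]
      exact mul_le_mul_of_nonneg_left (hc 0 rfl u) cc.le
  · have key : ∀ κ, Krn κ → ∀ v, nq (bl (fun s => κ (A *ᵥ s)) fun s => Jᴴ * T (A *ᵥ s) * J)
        (io n k *ᵥ v) = nq (bl κ T) (io n k *ᵥ (A *ᵥ v)) := fun κ hκ v => by
      rw [((h0 n k h T c C κ hB hκ).2.2.2.2.2.2 A J hA).2, BBD.nq_conj, Matrix.mulVec_mulVec,
        Matrix.mulVec_mulVec, hJ]
    have u : IsUnit A.det := isUnit_iff_ne_zero.2 hA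
    funext s
    simp only [kN, nN]
    congr 4
    ext r
    refine ⟨fun ⟨κ, hκ, e⟩ => ?_, fun ⟨κ, hκ, e⟩ =>
      ⟨_, ((h0 n k h T c C κ hB hκ).2.2.2.2.2.2 A J hA).1, e.trans (key κ hκ s).symm⟩⟩
    have k1 := ((h0 n k h T c C κ hB hκ).2.2.2.2.2.2 A⁻¹ J
      (Matrix.isUnit_nonsing_inv_det A u).ne_zero).1
    refine ⟨_, k1, e.trans (Eq.trans ?_ (key _ k1 s))⟩
    simp only [Matrix.mulVec_mulVec, Matrix.nonsing_inv_mul A u, Matrix.one_mulVec]

end Pool.Agent.Lib.PM
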