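import Pool.Agent.Lib.PM.Blue
import Pool.Agent.Lib.HS32.MAll

/-! Project pm78: the limit of the averages on the manifold. -/

open scoped Classical Topology ContDiff ComplexOrder Matrix ENNReal
open Set MeasureTheory Complex Metric Filter

noncomputable section

namespace Pool.Agent.Lib.PM

open Pool.Agent.Lib.SV (E)
open Pool.Agent.Lib.HS32

namespace Y60

variable {n k : ℕ}

theorem pr_pr : (pr k * pr k : Mat n) = pr k := by
  rw [pr, Matrix.diagonal_mul_diagonal]
  congr 1; funext i; split_ifs <;> simp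

theorem pr_ct : (pr k : Mat n)ᴴ = pr k := by
  rw [pr, Matrix.diagonal_conjTranspose]
  congr 1; funext i; simp only [Pi.star_apply]; split_ifs <;> simp

theorem quad (P X : Mat n) (v : E n) :
    star v ⬝ᵥ (Pᴴ * X * P) *ᵥ v = star (P *ᵥ v) ⬝ᵥ X *ᵥ (P *ᵥ v) := by
  simp only [Matrix.star_mulVec, Matrix.dotProduct_mulVec, Matrix.vecMul_vecMul]

theorem blk_pos {X : Mat n} (hX : X.PosDef) : (pr k * X * pr k + (1 - pr k)).PosDef := by
  have e1 : (1 - pr k : Mat n) = (1 - pr k)ᴴ * 1 * (1 - pr k) := by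
    rw [Matrix.conjTranspose_sub, Matrix.conjTranspose_one, pr_ct, Matrix.mul_one, sub_mul,
      one_mul, mul_sub, mul_one, pr_pr, sub_self, sub_zero]
  have h1 : ((pr k)ᴴ * X * pr k).PosSemidef := hX.posSemidef.conjTranspose_mul_mul_same _
  have h2 : ((1 - pr k : Mat n)ᴴ * 1 * (1 - pr k)).PosSemidef :=
    Matrix.PosSemidef.one.conjTranspose_mul_mul_same _
  rw [e1]
  nth_rewrite 1 [← pr_ct]
  refine .of_dotProduct_mulVec_pos (h1.1.add h2.1) fun v hv => ?_
  rw [Matrix.add_mulVec, dotProduct_add]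
  by_cases h : (pr k : Mat n) *ᵥ v = 0
  · refine add_pos_of_nonneg_of_pos (h1.dotProduct_mulVec_nonneg v) ?_
    rw [quad]
    refine Matrix.PosDef.one.dotProduct_mulVec_pos ?_
    rwa [Matrix.sub_mulVec, h, Matrix.one_mulVec, sub_zero]
  · refine add_pos_of_pos_of_nonneg ?_ (h2.dotProduct_mulVec_nonneg v)
    rw [quad]
    exact hX.dotProduct_mulVec_pos h

theorem kN_congr {T T' : E k → Mat n} (h0 : (pr k : Mat n) * io n k = io n k)
    (h : ∀ κ, Krn κ → pr k * bl κ T * pr k = pr k * bl κ T' * pr k) : kN T = kN T' := by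
  have h1 : ∀ (X : Mat n) (v : E k), nq (pr k * X * pr k) (io n k *ᵥ v) = nq X (io n k *ᵥ v) := by
    intro X v
    nth_rewrite 1 [← pr_ct]
    rw [nq, quad, Matrix.mulVec_mulVec, h0, nq]
  funext s
  have : nN T s = nN T' s := by
    unfold nN
    congr 1
    ext r
    refine exists_congr fun κ => and_congr_right fun hκ => ?_
    rw [← h1 (bl κ T), h κ hκ, h1]
  rw [kN, kN, this]

theorem fd_zero {f : E n → ℂ} {z : E n} (hf : DifferentiableAt ℝ f z)
    (h : ∀ᶠ v in 𝓝 (0 : E k), f (z + io n k *ᵥ v) = f z) (v : E k) :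
    fderiv ℝ f z (io n k *ᵥ v) = 0 := by
  let L : E k →L[ℝ] E n :=
    (LinearMap.toContinuousLinearMap (Matrix.mulVecLin (io n k))).restrictScalars ℝ
  have h1 : HasFDerivAt (fun v => z + L v) L 0 := L.hasFDerivAt.const_add z
  have h2 : HasFDerivAt f (fderiv ℝ f z) (z + L 0) := by simpa using hf.hasFDerivAt
  have h3 := (h2.comp 0 h1).unique ((hasFDerivAt_const (f z) (0 : E k)).congr_of_eventuallyEq h)
  exact congrArg (fun A : E k →L[ℝ] ℂ => A v) h3

theorem dz_zero {f : E n → ℂ} {z : E n} (hf : DifferentiableAt ℝ f z)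
    (h0 : io n k * (io n k)ᴴ = pr k)
    (h : ∀ᶠ v in 𝓝 (0 : E k), f (z + io n k *ᵥ v) = f z) {i : Fin n} (hi : i.val < k) :
    dz i f z = 0 := by
  have e : ∀ a : ℂ, fderiv ℝ f z (Pi.single i a) = 0 := fun a => by
    have := fd_zero hf h ((io n k)ᴴ *ᵥ Pi.single i a)
    rwa [Matrix.mulVec_mulVec, h0, pr, Matrix.diagonal_mulVec_single, if_pos hi, one_mul] at this
  rw [dz, e, e]; simp

end Y60

open Y60 in
theorem st_PV5 (hB4 : St_PB4) (hV0 : St_PV0) (hV3 : St_PV3) (hV4 : St_PV4) : St_PV5 := by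
  intro n M h P k T c C hA hT
  obtain ⟨⟨i1, i2⟩, -, hJ⟩ := hB4 n M h P k hA
  have i3 : (pr k : Mat n) * io n k = io n k := by
    rw [← i2, Matrix.mul_assoc, i1, Matrix.mul_one]
  have bnd : ∀ e, M.Box h P k e → ∀ z ∈ e.target, Bnd (h e z) (T e z) c C := fun e he z hz =>
    ⟨hA.met.pos e he.mem z hz, hT.c0, fun i j => continuous_iff_continuousAt.2 fun s =>
      ContinuousAt.comp (f := fun s : E k => (z, s)) (g := fun p : E n × E k => T e p.1 p.2 i j)
        ((hT.loc e he z hz).sm s i j).continuousAt (by fun_prop),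
      (hT.loc e he z hz).lo, (hT.loc e he z hz).hi⟩
  refine ⟨fun e z => pr k * bl (kN (T e z)) (T e z), fun e he z hz => ?_,
    fun e e' he he' x hx hx' => ?_⟩
  · obtain ⟨r, hr, hb⟩ := nhds_basis_closedBall.mem_iff.1 (e.open_target.mem_nhds hz)
    have v3 := fun κ hκ => hV3 n k (h e) (T e) c C κ z r hA.le hT.c0 hκ fun w hw =>
      ⟨hT.loc e he w (hb hw), hA.met.pos e he.mem w (hb hw),
        (hA.met.sm e he.mem w (hb hw)).continuousAt⟩
    have hκ := (hV4 n k _ _ c C hA.le (bnd e he z hz)).1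
    have hk : ∀ w ∈ ball z r, kN (T e w) = kN (T e z) := fun w hw =>
      kN_congr i3 fun κ hκ => ((v3 κ hκ).2 w hw).2
    have hbz := ball_mem_nhds z hr
    have ev : (fun w => pr k * bl (kN (T e w)) (T e w)) =ᶠ[𝓝 z]
        fun w => pr k * bl (kN (T e z)) (T e w) := by
      filter_upwards [hbz] with w hw
      rw [hk w hw]
    have hol : ∀ i j, HolN (fun w => (pr k * bl (kN (T e z)) (T e w) : Mat n) i j) z :=
      fun i j => by
      filter_upwards [hbz] with w hw
      simp only [pr, Matrix.diagonal_mul]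
      split_ifs with hi
      · exact (((v3 _ hκ).1 i j hi).differentiableAt (isOpen_ball.mem_nhds hw)).const_mul 1
      · simp
    have sm : SmM (fun w => pr k * bl (kN (T e z)) (T e w)) z := fun i j =>
      ((mHOL n _ z).2.2 (hol i j)).1
    refine ⟨sm.congr ev, fun l => ?_, fun l hl => ?_, by rw [← Matrix.mul_assoc, pr_pr], ?_, ?_⟩
    · rw [dMb_congr ev]
      ext i j
      exact ((mHOL n _ z).1 (sm.diff i j)).1 (hol i j).self_of_nhds l
    · rw [dM_congr ev]
      ext i j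
      refine dz_zero (sm.diff i j) i2 ?_ hl
      filter_upwards [((v3 _ hκ).2 z (mem_ball_self hr)).1] with v hv
      rw [hv]
    · refine blk_pos ?_
      have := ((hA.met.pos e he.mem z hz).smul hT.c0).add_posSemidef
        (hV0 n k _ _ c C _ (bnd e he z hz) hκ).2.2.2.2.1
      rwa [add_sub_cancel] at this
    · filter_upwards [hbz] with w hw
      rw [hk w hw]
      exact ((v3 _ hκ).2 w hw).2
  · obtain ⟨j1, j2, -⟩ := hJ e e' he he' x hx hx'
    have b := bnd e he _ (e.map_source hx)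
    obtain ⟨k1, k2⟩ := hV4 n k _ _ c C hA.le b
    have e1 : T e' (e' x) = fun s =>
        (M.J e e' x)ᴴ * T e (e x) (M.tA k e e' x *ᵥ s) * M.J e e' x :=
      funext (hT.cmp e e' he he' x hx hx')
    have e2 : pr k * M.J e e' x * pr k = M.J e e' x * pr k := by
      rw [Matrix.mul_assoc]
      nth_rewrite 2 3 [← i2]
      rw [← Matrix.mul_assoc (M.J e e' x), j1, ← Matrix.mul_assoc, ← Matrix.mul_assoc, i3]
    have e3 : pr k * (M.J e e' x)ᴴ * pr k = pr k * (M.J e e' x)ᴴ := by
      have := congrArg Matrix.conjTranspose e2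
      simpa only [Matrix.conjTranspose_mul, pr_ct, ← Matrix.mul_assoc] using this
    rw [e1, k2 _ _ j2 j1, ((hV0 n k _ _ c C _ b k1).2.2.2.2.2.2 _ _ j2).2,
      ← Matrix.mul_assoc (pr k * (M.J e e' x)ᴴ), e3]
    simp only [Matrix.mul_assoc]

end Pool.Agent.Lib.PM
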