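import Pool.Agent.Lib.PM.Blue
import Pool.Agent.Lib.GH.B_GT1

/-! Project pm78: the fields are global, and a divergence with a sign vanishes. -/

open scoped Classical Topology ContDiff ComplexOrder Matrix
open Set MeasureTheory Complex Metric Filter Matrix

noncomputable section

namespace Pool.Agent.Lib.PM

open Pool.Agent.Lib.SV (E)
open Pool.Agent.Lib.HS32 Pool.Agent.Lib.GH
open Pool.Agent.Lib.HS76 (ip3)

namespace V10

variable {n : ℕ}

theorem tr_conj {J : Mat n} (hJ : J.det ≠ 0) (x K S : Mat n) :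
    (J⁻¹ * (x * Jᴴ⁻¹) * (J⁻¹ * S * J)ᴴ * (Jᴴ * K * J)).trace = (x * Sᴴ * K).trace := by
  have u : IsUnit J.det := hJ.isUnit
  have u' : IsUnit Jᴴ.det := by rwa [det_conjTranspose, isUnit_star]
  rw [conjTranspose_mul, conjTranspose_mul, conjTranspose_nonsing_inv]
  simp only [Matrix.mul_assoc, nonsing_inv_mul_cancel_left _ _ u']
  rw [trace_mul_comm]
  simp only [Matrix.mul_assoc, mul_nonsing_inv _ u, Matrix.mul_one]

theorem vec_conj {J : Mat n} (hJ : J.det ≠ 0) (x : Mat n) (b : E n) :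
    J *ᵥ (J⁻¹ * (x * Jᴴ⁻¹)) *ᵥ Jᴴ *ᵥ b = x *ᵥ b := by
  have u : IsUnit J.det := hJ.isUnit
  have u' : IsUnit Jᴴ.det := by rwa [det_conjTranspose, isUnit_star]
  simp only [mulVec_mulVec, Matrix.mul_assoc, mul_nonsing_inv_cancel_left _ _ u,
    nonsing_inv_mul _ u', Matrix.mul_one]

theorem vk_conj {J x x' K K' : Mat n} (hJ : J.det ≠ 0) (e1 : x' = J⁻¹ * (x * Jᴴ⁻¹))
    (e2 : K' = Jᴴ * K * J) {T T' : Fin n → Mat n}
    (e4 : ∀ l, T' l = J⁻¹ * (∑ a, J a l • T a) * J) :
    J *ᵥ x' *ᵥ (fun l => (x' * (T' l)ᴴ * K').trace) =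
      x *ᵥ fun l => (x * (T l)ᴴ * K).trace := by
  have b : (fun l => (x' * (T' l)ᴴ * K').trace) =
      Jᴴ *ᵥ fun l => (x * (T l)ᴴ * K).trace := by
    funext l
    rw [e1, e2, e4, tr_conj hJ]
    simp only [conjTranspose_sum, conjTranspose_smul, Matrix.sum_mul, Matrix.mul_sum,
      Matrix.smul_mul, Matrix.mul_smul, trace_sum, trace_smul, smul_eq_mul, mulVec, dotProduct,
      conjTranspose_apply]
  rw [b, e1, vec_conj hJ]

theorem ip3_tr (x h : Mat n) (T : Fin n → Mat n) :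
    ip3 x x h T T = (x * Matrix.of fun l k => (x * (T l)ᴴ * (h * T k)).trace).trace := by
  simp only [ip3, Matrix.mul_assoc]
  rfl

theorem ip3_conj {J x x' h h' : Mat n} (hJ : J.det ≠ 0) (e1 : x' = J⁻¹ * (x * Jᴴ⁻¹))
    (e2 : h' = Jᴴ * h * J) {T T' : Fin n → Mat n}
    (e4 : ∀ l, T' l = J⁻¹ * (∑ a, J a l • T a) * J) : ip3 x' x' h' T' T' = ip3 x x h T T := by
  have u : IsUnit J.det := hJ.isUnit
  have u' : IsUnit Jᴴ.det := by rwa [det_conjTranspose, isUnit_star]
  have b : (Matrix.of fun l k => (x' * (T' l)ᴴ * (h' * T' k)).trace) =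
      Jᴴ * (Matrix.of fun l k => (x * (T l)ᴴ * (h * T k)).trace) * J := by
    ext l k
    have c : h' * T' k = Jᴴ * (h * ∑ a, J a k • T a) * J := by
      rw [e2, e4]
      simp only [Matrix.mul_assoc, mul_nonsing_inv_cancel_left _ _ u]
    rw [Matrix.of_apply, c, e1, e4, tr_conj hJ]
    simp only [conjTranspose_sum, conjTranspose_smul,
      Matrix.smul_mul, Matrix.mul_smul, trace_sum, trace_smul, smul_eq_mul, Matrix.mul_apply,
      conjTranspose_apply, Matrix.of_apply, Finset.sum_mul, Finset.mul_sum]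
    exact Finset.sum_congr rfl fun _ _ => Finset.sum_congr rfl fun _ _ => by ring
  rw [ip3_tr, ip3_tr, b, e1]
  simp only [Matrix.mul_assoc, nonsing_inv_mul_cancel_left _ _ u']
  rw [trace_mul_comm]
  simp only [Matrix.mul_assoc, mul_nonsing_inv _ u, Matrix.mul_one]

variable {M : Mf n} {h P : M.Fam (Mat n)}

theorem inv_cmp (hh : M.Met h) : M.Ov fun e e' x =>
    (h e' (e' x))⁻¹ = (M.J e e' x)⁻¹ * ((h e (e x))⁻¹ * (M.J e e' x)ᴴ⁻¹) := by
  intro e he e' he' x hx hx'
  rw [hh.cmp e he e' he' x hx hx', Matrix.mul_inv_rev, Matrix.mul_inv_rev]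

theorem xi_cmp (hh : M.Met h) (hP : M.End P) : M.Ov fun e e' x =>
    xi (h e') (P e') (e' x) = (M.J e e' x)⁻¹ * (xi (h e) (P e) (e x) * (M.J e e' x)ᴴ⁻¹) := by
  intro e he e' he' x hx hx'
  obtain ⟨-, h2, -⟩ := (mTR n M).2.1 e he e' he' x hx hx'
  have e3 : M.J e e' x * P e' (e' x) = P e (e x) * M.J e e' x := hP.cmp e he e' he' x hx hx'
  have p : P e' (e' x) * (M.J e e' x)⁻¹ = (M.J e e' x)⁻¹ * P e (e x) := by
    rw [← nonsing_inv_mul_cancel_left _ (P e' (e' x)) h2.isUnit, e3, Matrix.mul_assoc,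
      mul_nonsing_inv_cancel_right _ _ h2.isUnit]
  have q : (h e' (e' x))⁻¹ = _ := inv_cmp hh e he e' he' x hx hx'
  rw [xi, xi, q, ← Matrix.mul_assoc, p]
  simp only [Matrix.mul_assoc]

theorem tm_sw (g : E n → Mat n) (k : Fin n) (z : E n) :
    tm g k z = gam g k z - G32.sw (fun k => gam g k z) k := rfl

theorem tm_cmp (hh : M.Met h) : M.Ov fun e e' x => ∀ l, tm (h e') l (e' x) =
    (M.J e e' x)⁻¹ * (∑ a, M.J e e' x a l • tm (h e) a (e x)) * M.J e e' x := by
  intro e he e' he' x hx hx' l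
  obtain ⟨h1, h2, -, h3, -⟩ := (mTR n M).2.1 e he e' he' x hx hx'
  have hx0 : (e ∘ e'.symm) (e' x) = e x := by simp only [Function.comp, e'.left_inv hx']
  have l0 := HS68.met_loc hh he (e.map_source hx)
  have g := ((mPB n (e ∘ e'.symm) (e' x) (h e) (h e') h1 h2 (hx0 ▸ l0.sm) (by
    filter_upwards [h3] with w hw
    have h8 : h e' (e' (e'.symm w)) = _ := hh.cmp e he e' he' _ hw.2.1 hw.2.2.1
    rw [hw.2.2.2.2.2.1, hw.2.2.2.2.2.2] at h8
    exact h8)).2.2 (hx0 ▸ l0.det_ne)).1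
  rw [hx0] at g
  have c : G32.sw (fun k => dM k (jm (e ∘ e'.symm)) (e' x)) l =
      dM l (jm (e ∘ e'.symm)) (e' x) := by
    ext q j
    exact (mCHN n _ _ h1).2.2.1 q l j
  have s : G32.sw (fun k => gam (h e') k (e' x)) l = (M.J e e' x)⁻¹ *
      (∑ a, M.J e e' x a l • G32.sw (fun k => gam (h e) k (e x)) a) * M.J e e' x +
      (M.J e e' x)⁻¹ * dM l (jm (e ∘ e'.symm)) (e' x) := by
    rw [← G32.sw_conj, ← c, ← G32.sw_mul]
    ext q j
    simp only [G32.sw, g, Matrix.of_apply, Matrix.add_apply, Mf.J]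
  rw [tm_sw, s, g, ← Mf.J, add_sub_add_right_eq_sub, ← Matrix.sub_mul, ← Matrix.mul_sub,
    ← Finset.sum_sub_distrib]
  simp only [tm_sw, smul_sub]

theorem sm_tm {g : E n → Mat n} {z : E n} (hh : HS68.Loc g z) (k : Fin n) : SmM (tm g k) z :=
  fun i j => (hh.smM_gam k i j).sub (hh.smM_gam j i k)

end V10

open V10 in
theorem st_PVC : St_PVC := by
  intro n M _ h P hh hP
  have lh := fun e he z hz => HS68.met_loc (z := z) (e := e) hh he hz
  have sx : M.All fun e z => SmM (xi (h e) (P e)) z := fun e he z hz =>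
    (hP.sm e he z hz).mul (lh e he z hz).smM_inv
  refine ⟨fun K hK _ => ⟨fun e he z hz => (sx e he z hz).mulVec (contDiffAt_pi.2 fun l =>
    (((sx e he z hz).mul (sm_tm (lh e he z hz) l).ct).mul (hK.sm e he z hz)).trace),
    fun e he e' he' x hx hx' => ?_⟩, fun f hf => ⟨fun e he z hz => (sx e he z hz).mulVec
      (contDiffAt_pi.2 fun l => cd_dzb (cd_ofReal (hf e he z hz)) l),
    fun e he e' he' x hx hx' => ?_⟩, ?_, ?_⟩
  · exact vk_conj ((mTR n M).2.1 e he e' he' x hx hx').2.1 (xi_cmp hh hP e he e' he' x hx hx')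
      (hK.cmp e he e' he' x hx hx') (tm_cmp hh e he e' he' x hx hx')
  · obtain ⟨h1, h2, -, h3, -⟩ := (mTR n M).2.1 e he e' he' x hx hx'
    have hx0 : (e ∘ e'.symm) (e' x) = e x := by simp only [Function.comp, e'.left_inv hx']
    have d : DifferentiableAt ℝ (M.lc f e) ((e ∘ e'.symm) (e' x)) := by
      rw [hx0]
      exact cd_diff (cd_ofReal (hf e he _ (e.map_source hx)))
    have c := (mCHN n _ _ h1).2.2.2.2.2.2.2.2.2.1 _ d
    have ev : M.lc f e' =ᶠ[𝓝 (e' x)] M.lc f e ∘ (e ∘ e'.symm) := by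
      filter_upwards [h3] with w hw
      simp only [Mf.lc, Function.comp, hw.2.2.2.2.1]
    have b : (fun l => dzb l (M.lc f e') (e' x)) =
        (M.J e e' x)ᴴ *ᵥ fun l => dzb l (M.lc f e) (e x) := by
      funext l
      rw [dzb_congr ev, (c l).2, hx0]
      simp only [mulVec, dotProduct, conjTranspose_apply, Mf.J, mul_comm]
    have q : xi (h e') (P e') (e' x) = _ := xi_cmp hh hP e he e' he' x hx hx'
    change M.J e e' x *ᵥ xi (h e') (P e') (e' x) *ᵥ (fun l => dzb l (M.lc f e') (e' x)) = _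
    rw [b, q, vec_conj h2]
  · refine ⟨_, (mHES n M).2.2.2.2.2.2.1 (fun e => tn2 (h e)) ⟨fun e he z hz => ?_,
      fun e he e' he' x hx hx' => ?_⟩⟩
    · have l := lh e he z hz
      refine cd_re (f := fun w => ip3 (h e w)⁻¹ (h e w)⁻¹ (h e w) (fun k => tm (h e) k w)
        fun k => tm (h e) k w) ?_
      exact ContDiffAt.sum fun k _ => ContDiffAt.sum fun j _ => (l.smM_inv k j).mul
        (((l.smM_inv.mul (sm_tm l j).ct).mul l.sm).mul (sm_tm l k)).trace
    · beta_reduce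
      rw [zero_mul, add_zero]
      exact congrArg Complex.re (ip3_conj ((mTR n M).2.1 e he e' he' x hx hx').2.1
        (inv_cmp hh e he e' he' x hx hx') (hh.cmp e he e' he' x hx hx')
        (tm_cmp hh e he e' he' x hx hx'))
  · intro V q σ hV hσ hq
    obtain ⟨d1, d2, -⟩ := mDIV n M h hh
    obtain ⟨i1, i2, i3⟩ := d2 _ (d1 _ hV)
    obtain ⟨-, -, m1, -, m2, -⟩ := mMU n M h hh
    have r := fun e he z hz =>
      ((mTR n M).2.2.2.2.1 _ _ i1 e he z hz).trans (hq e he z hz).1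
    set f := M.ev fun e z => dv (fun w => (h e w).det • V e w) z / (h e z).det
    have c : Continuous fun x => σ * (f x).re :=
      continuous_const.mul (continuous_re.comp (((mTR n M).2.2.2.1 ℂ f).1 i2))
    have p : ∀ x, 0 ≤ σ * (f x).re := fun x => by
      obtain ⟨e, he, hx⟩ := M.cov x
      have := r e he _ (e.map_source hx)
      rw [e.left_inv hx] at this
      rw [this, ofReal_re, ← mul_assoc]
      exact mul_nonneg (mul_self_nonneg σ) (hq e he _ (e.map_source hx)).2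
    have i4 : ∫ x, σ * (f x).re ∂M.mu h = 0 := by
      have := integral_re (m2 ℂ f (((mTR n M).2.2.2.1 ℂ f).1 i2))
      rw [i3 ‹_›] at this
      rw [integral_const_mul]
      exact mul_eq_zero_of_right _ this
    have z0 := (c.ae_eq_iff_eq (M.mu h) continuous_zero).1
      ((integral_eq_zero_iff_of_nonneg p (m2 ℝ _ c)).1 i4)
    intro e he z hz
    have t : σ * (f (e.symm z)).re = 0 := congrFun z0 _
    rw [r e he z hz, ofReal_re] at t
    exact (mul_eq_zero.1 ((mul_eq_zero.1 t).resolve_left hσ)).resolve_left hσ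

end Pool.Agent.Lib.PM
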