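import Pool.Agent.Lib.PM.Blue
import Pool.Agent.Lib.GH.B_GBIG
import Pool.Agent.Lib.GH.B_GPRD

/-! Project pm78: the twisted class has positive volume. -/

open scoped Classical Topology ContDiff ComplexOrder Matrix Manifold ENNReal
open Set MeasureTheory Complex Metric Filter

noncomputable section

namespace Pool.Agent.Lib.PM

open Pool.Agent.Lib.SV (E Pluri)
open Pool.Agent.Lib.HS32 Pool.Agent.Lib.GH

open G92 in
theorem st_PVO : St_PVO := by
  intro n M _ H h h' P k k' hK hh hh' hη hf hRP ho hkk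
  have hm : M.Met H := hK.toMet
  have hrich : M.Clo (M.ric h) := (mHES n M).2.2.2.2.2.2.2.2.1 h hh
  obtain ⟨-, hB, -, -, -⟩ := st_GPRD n M h' P k' hh' hf
  have pη : M.All fun e z => (-M.ric h e z).PosSemidef := fun e he z hz => by
    simpa using hη e he z hz
  rw [← int_ric hm hh' hB, int_ric hm hh hB]
  obtain ⟨C, hC, hHC, -⟩ := (mBD n M h' hh').1 H hm.toForm
  obtain ⟨L, hL⟩ := HS.D54.interp_det n
  have tS : ∀ t : ℝ, M.Ten (h' * P - M.ric h + t • (h' - h' * P)) := fun t =>
    (hB.toTen.sub hrich.toTen).add ((hh'.toTen.sub hB.toTen).smul t)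
  set g : ℝ → ℝ := fun t => ∑ a : Fin (n + 1), (L a).eval t *
    ∫ x, M.dq H (h' * P - M.ric h + ((a : ℝ) + 1) • (h' - h' * P)) x ∂M.mu H with hgd
  have hgc : Continuous g :=
    continuous_finsetSum _ fun a _ => (L a).continuous.mul continuous_const
  have hgv : ∀ t : ℝ, g t = ∫ x, M.dq H (h' * P - M.ric h + t • (h' - h' * P)) x ∂M.mu H :=
    fun t => by
      have e2 : ∀ x, M.dq H (h' * P - M.ric h + t • (h' - h' * P)) x = ∑ a : Fin (n + 1),
          (L a).eval t * M.dq H (h' * P - M.ric h + ((a : ℝ) + 1) • (h' - h' * P)) x := fun x =>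
        hL (M.ev h' x * M.ev P x - M.ev (M.ric h) x) (M.ev h' x - M.ev h' x * M.ev P x)
          (M.ev H x).det t
      simp only [e2]
      rw [integral_finsetSum _ fun a _ => (intg hm (tS _)).const_mul _]
      simp only [integral_const_mul, hgd]
  have up : ∀ ε : ℝ, 0 < ε → M.vol H ε / ε ^ k' ≤ C ^ k' * g (C * ε) := fun ε hε => by
    have e3 : ∀ x, M.dq H ((C * ε) • h' - M.ric h) x =
        (C * ε) ^ k' * M.dq H (h' * P - M.ric h + (C * ε) • (h' - h' * P)) x := fun x => by
      have h1 := fac (M.ev h' x) (M.ev P x) (M.ev (M.ric h) x) (C * ε) (Mf.AllOn.ch hf.idem x)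
        (Mf.AllOn.ch hRP x)
      have h2 : (1 + (C * ε - 1) • M.ev P x).det = _ := Mf.AllOn.ch (hf.det (C * ε - 1)) x
      change (((C * ε) • M.ev h' x - M.ev (M.ric h) x).det / (M.ev H x).det).re = _ *
        ((M.ev h' x * M.ev P x - M.ev (M.ric h) x +
          (C * ε) • (M.ev h' x - M.ev h' x * M.ev P x)).det / (M.ev H x).det).re
      rw [h1, Matrix.det_mul, h2, add_sub_cancel, mul_div_right_comm, ← ofReal_pow,
        re_mul_ofReal, mul_comm]
    have e4 : M.vol H ε ≤ ∫ x, M.dq H ((C * ε) • h' - M.ric h) x ∂M.mu H := by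
      rw [Mf.vol, int_ric hm hh (hK.toClo.smul ε)]
      refine int_mono hm ((hK.toClo.smul ε).sub hrich).toTen
        ((hh'.toTen.smul _).sub hrich.toTen) (fun e he z hz => ?_) fun e he z hz => ?_
      · simp only [Pi.sub_apply, Pi.smul_apply, sub_eq_add_neg]
        exact (Mf.psd_rsmul (hm.pos e he z hz).posSemidef hε.le).add (pη e he z hz)
      · have e1 : ((C * ε) • h' - M.ric h) e z - (ε • H - M.ric h) e z =
            ε • ((C • h') e z - H e z) := by
          simp only [Pi.sub_apply, Pi.smul_apply]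
          module
        beta_reduce
        rw [e1]
        exact Mf.psd_rsmul (hHC e he z hz) hε.le
    simp only [e3] at e4
    rw [integral_const_mul, ← hgv, mul_pow] at e4
    rw [div_le_iff₀ (pow_pos hε k')]
    linarith
  obtain ⟨-, c, hc, hl⟩ := ho
  have l2 : Tendsto (fun ε : ℝ => C ^ k' * g (C * ε)) (𝓝[>] 0) (𝓝 (C ^ k' * g (C * 0))) :=
    ((continuous_const.mul (hgc.comp (continuous_const.mul continuous_id))).tendsto 0).mono_left
      nhdsWithin_le_nhds
  have l3 := le_of_tendsto_of_tendsto hl l2 (by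
    filter_upwards [hl.eventually (lt_mem_nhds hc), Ioc_mem_nhdsGT (zero_lt_one' ℝ)] with ε h1 h2
    refine le_trans ?_ (up ε h2.1)
    have h3 : 0 < M.vol H ε := (div_pos_iff_of_pos_right (pow_pos h2.1 k)).1 h1
    exact div_le_div_of_nonneg_left h3.le (pow_pos h2.1 k')
      (pow_le_pow_of_le_one h2.1.le h2.2 hkk))
  rw [mul_zero, hgv, zero_smul, add_zero] at l3
  exact (mul_pos_iff_of_pos_left (pow_pos hC k')).1 (hc.trans_le l3)

end Pool.Agent.Lib.PM
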