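import Pool.Agent.Lib.PM.Blue
import Pool.Agent.Lib.HS66.LimHol

/-! A pointwise limit of almost holomorphic functions is holomorphic. -/

open scoped Classical Topology ContDiff ENNReal
open Set MeasureTheory Complex Metric Filter

noncomputable section

namespace Pool.Agent.Lib.PM

open Pool.Agent.Lib.SV (E)
open Pool.Agent.Lib.HS32 Pool.Agent.Lib.HS66

namespace PWH58

variable {n : ℕ}

lemma dbn_sub {f P : E n → ℂ} {y : E n} {δ : ℝ} (hf : DifferentiableAt ℝ f y)
    (hP : DifferentiableAt ℂ P y) (h : ∀ j, ‖dzb j f y‖ ≤ δ) :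
    dbn (fun w => f w - P w) y ≤ n * (2 * δ) := by
  have e : fderiv ℝ (fun w => f w - P w) y =
      fderiv ℝ f y - (fderiv ℂ P y).restrictScalars ℝ :=
    (hf.hasFDerivAt.sub (hP.hasFDerivAt.restrictScalars ℝ)).fderiv
  have e1 : ∀ j : Fin n, (Pi.single j I : E n) = I • (Pi.single j 1 : E n) := fun j => by
    rw [← Pi.single_smul, smul_eq_mul, mul_one]
  have e2 : ∀ j, fderiv ℝ (fun w => f w - P w) y (Pi.single j 1) +
      I * fderiv ℝ (fun w => f w - P w) y (Pi.single j I) = 2 * dzb j f y := fun j => by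
    have e3 : fderiv ℂ P y (Pi.single j I) = I * fderiv ℂ P y (Pi.single j 1) := by
      rw [e1, map_smul, smul_eq_mul]
    simp only [e, dzb, _root_.sub_apply, ContinuousLinearMap.coe_restrictScalars', e3]
    linear_combination (-fderiv ℂ P y (Pi.single j 1)) * I_mul_I
  calc dbn (fun w => f w - P w) y ≤ ∑ _j : Fin n, 2 * δ := Finset.sum_le_sum fun j _ => by
        rw [e2, norm_mul, norm_ofNat]
        exact mul_le_mul_of_nonneg_left (h j) zero_le_two
    _ = _ := by simp

lemma est {k : E n → ℝ} {R M : ℝ} (hR : 0 < R) (hk : Ker k (R / 4)) (hM : ∀ t, ‖k t‖ ≤ M)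
    {Q : E n → ℂ} {c : E n} {D : ℝ} (hQ : ∀ y ∈ closedBall c R, ContDiffAt ℝ 1 Q y)
    (hD : ∀ y ∈ closedBall c R, dbn Q y ≤ D) :
    ‖Q c‖ₑ ≤ ENNReal.ofReal (D * (R / 4)) +
      ENNReal.ofReal M * ∫⁻ y in closedBall c (R / 4), ‖Q y‖ₑ := by
  let χ : ContDiffBump c := ⟨R / 2, R, by positivity, by linarith⟩
  have hχ : ∀ y ∉ closedBall c R, χ y = 0 := fun y hy =>
    χ.zero_of_le_dist (le_of_lt (by simpa using hy))
  have heq : ∀ y ∈ closedBall c (R / 4), (fun y => χ y • Q y) =ᶠ[𝓝 y] Q := fun y hy => by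
    filter_upwards [isOpen_ball.mem_nhds (closedBall_subset_ball (by linarith : R / 4 < R / 2) hy)]
      with w hw
    rw [χ.one_of_mem_closedBall (ball_subset_closedBall hw), one_smul]
  have hG : ContDiff ℝ 1 fun y => χ y • Q y := contDiff_iff_contDiffAt.2 fun y => by
    by_cases hy : y ∈ closedBall c R
    · exact χ.contDiffAt.smul (hQ y hy)
    · refine (contDiffAt_const (c := (0 : ℂ))).congr_of_eventuallyEq ?_
      filter_upwards [isClosed_closedBall.isOpen_compl.mem_nhds hy] with w hw
      rw [hχ w hw, zero_smul]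
  have hc : HasCompactSupport fun y => χ y • Q y :=
    HasCompactSupport.intro (isCompact_closedBall c R) fun y hy => by rw [hχ y hy, zero_smul]
  have hD0 : 0 ≤ D := (dbn_nonneg _ _).trans (hD c (mem_closedBall_self hR.le))
  have hmem : ∀ t : E n, ‖t‖ ≤ R / 4 → c - t ∈ closedBall c (R / 4) := fun t ht => by
    rwa [mem_closedBall, dist_eq_norm, sub_sub_cancel_left, norm_neg]
  have h1 := hk.pt hG hc c
  have h2 : (∫⁻ s in Ioc (0 : ℝ) 1, ∫⁻ t,
      ENNReal.ofReal (k t * (dbn (fun y => χ y • Q y) (c - s • t) * ‖t‖))) ≤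
      ENNReal.ofReal (D * (R / 4)) := by
    have h3 : ∀ s ∈ Ioc (0 : ℝ) 1, (∫⁻ t,
        ENNReal.ofReal (k t * (dbn (fun y => χ y • Q y) (c - s • t) * ‖t‖))) ≤
        ENNReal.ofReal (D * (R / 4)) := fun s hs => by
      calc _ ≤ ∫⁻ t, ENNReal.ofReal (k t * (D * (R / 4))) := by
            refine lintegral_mono fun t => ENNReal.ofReal_le_ofReal ?_
            by_cases h : k t = 0
            · simp [h]
            have ht := hk.supp t h
            have h4 : c - s • t ∈ closedBall c (R / 4) := hmem _ (by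
              rw [norm_smul, Real.norm_of_nonneg hs.1.le]
              nlinarith [hs.1, hs.2, norm_nonneg t])
            refine mul_le_mul_of_nonneg_left (mul_le_mul ?_ ht (norm_nonneg _) hD0) (hk.nn t)
            simp only [dbn, (heq _ h4).fderiv_eq]
            exact hD _ (closedBall_subset_closedBall (by linarith) h4)
        _ = _ := by
            rw [← ofReal_integral_eq_lintegral_ofReal (hk.integrable.mul_const _)
              (.of_forall fun t => mul_nonneg (hk.nn t) (by positivity)), integral_mul_const,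
              hk.int, one_mul]
    refine (setLIntegral_mono' measurableSet_Ioc h3).trans ?_
    simp
  have h4 : ‖∫ t, k t • (χ (c - t) • Q (c - t))‖ₑ ≤
      ENNReal.ofReal M * ∫⁻ y in closedBall c (R / 4), ‖Q y‖ₑ := by
    refine (enorm_integral_le_lintegral_enorm _).trans ?_
    rw [← lintegral_const_mul' _ _ ENNReal.ofReal_ne_top,
      ← lintegral_indicator measurableSet_closedBall,
      ← lintegral_sub_left_eq_self (μ := volume)
        ((closedBall c (R / 4)).indicator fun y => ENNReal.ofReal M * ‖Q y‖ₑ) c]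
    refine lintegral_mono fun t => ?_
    by_cases h : k t = 0
    · simp [h]
    have h5 := hmem t (hk.supp t h)
    have h6 : χ (c - t) • Q (c - t) = Q (c - t) := (heq _ h5).eq_of_nhds
    simp only [h6, indicator_of_mem h5, enorm_smul]
    gcongr
    rw [← ofReal_norm]
    exact ENNReal.ofReal_le_ofReal (hM t)
  have h5 : χ c • Q c = Q c := (heq c (mem_closedBall_self (by positivity))).eq_of_nhds
  have h6 := enorm_add_le (χ c • Q c - ∫ t, k t • (χ (c - t) • Q (c - t)))
    (∫ t, k t • (χ (c - t) • Q (c - t)))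
  rw [sub_add_cancel] at h6
  rw [← h5]
  exact h6.trans (add_le_add (h1.trans h2) h4)

end PWH58

theorem st_PWH : St_PWH := by
  intro n l f g U C δ hU hf hδ hg
  have hδ' : Tendsto (fun m => ENNReal.ofReal (δ m)) l (𝓝 0) := by
    simpa using ENNReal.tendsto_ofReal hδ
  obtain ⟨P, hP, -, hL⟩ := limHol l hU (fun m z hz => (hf m z hz).1) (fun m z hz => (hf m z hz).2.1)
    fun K hK hKU j => by
      have h1 := ENNReal.Tendsto.mul_const (b := volume K) hδ' (Or.inr hK.measure_lt_top.ne)
      rw [zero_mul] at h1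
      refine tendsto_of_tendsto_of_tendsto_of_le_of_le tendsto_const_nhds h1 (fun _ => zero_le)
        fun m => ?_
      rw [← setLIntegral_const]
      refine setLIntegral_mono' hK.measurableSet fun y hy => ?_
      rw [← ofReal_norm]
      exact ENNReal.ofReal_le_ofReal ((hf m y (hKU hy)).2.2 j)
  refine hP.congr fun c hc => ?_
  obtain ⟨R, hR, hs⟩ := nhds_basis_closedBall.mem_iff.1 (hU.mem_nhds hc)
  obtain ⟨k, -, hk⟩ := exists_ker (n := n) (show 0 < R / 4 by positivity)
  obtain ⟨M, hM⟩ := hk.cpt.exists_bound_of_continuous hk.cont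
  have hP1 : ∀ y ∈ U, ContDiffAt ℝ 1 P y := fun y hy =>
    ((SV.H85.contDiffOn_nat hU 1 hP).contDiffAt (hU.mem_nhds hy)).restrict_scalars ℝ
  have h1 := fun m => PWH58.est hR hk hM (Q := fun w => f m w - P w) (D := n * (2 * δ m))
    (fun y hy => (hf m y (hs hy)).1.sub (hP1 y (hs hy))) fun y hy =>
      PWH58.dbn_sub ((hf m y (hs hy)).1.differentiableAt one_ne_zero)
        (hP.differentiableAt (hU.mem_nhds (hs hy))) (hf m y (hs hy)).2.2
  have h2 : Tendsto (fun m => ENNReal.ofReal (n * (2 * δ m) * (R / 4))) l (𝓝 0) := by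
    simpa using ENNReal.tendsto_ofReal (((hδ.const_mul 2).const_mul (n : ℝ)).mul_const (R / 4))
  have h3 := ENNReal.Tendsto.const_mul (a := ENNReal.ofReal M)
    (hL _ (isCompact_closedBall c (R / 4))
      ((closedBall_subset_closedBall (by linarith)).trans hs)) (Or.inr ENNReal.ofReal_ne_top)
  have h4 := h2.add h3
  rw [mul_zero, add_zero] at h4
  have h5 := ((hg c hc).sub_const (P c)).enorm
  simpa [sub_eq_zero] using le_of_tendsto_of_tendsto' h5 h4 h1

end Pool.Agent.Lib.PM
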