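import Pool.Agent.Lib.PM.Blue
import Pool.Agent.Lib.RB.Tail
import Pool.Agent.Lib.GH.B_GT1

/-! Project pm78: assembly of the rows. -/

open scoped Classical Topology ContDiff ComplexOrder Matrix Manifold
open Set MeasureTheory Complex Metric Filter

noncomputable section

namespace Pool.Agent.Lib.PM

open Pool.Agent.Lib.SV (E Pluri)
open Pool.Agent.Lib.HS32 Pool.Agent.Lib.HS32.Mf Pool.Agent.Lib.GH

/-- The limit field. -/
theorem lim_of (hV : HS.St_VOL) (hEX : St_PEX) (hSU : St_PSU) (hSQ : St_PSQ) (hLO : St_PLO)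
    (hGL : St_PGL) (hCC : St_PCC) (hRK : St_PRK) (hA1 : St_PA1) {n : ℕ} (M : Mf n) [M.Cpt]
    {H h : M.Fam (Mat n)} {α : ℝ} (hn : 0 < n) (hH : M.Kae H) (hh : M.Met h) (hα : 0 ≤ α)
    (hp : M.Pin h α) : ∃ P k k', M.Ord H k ∧ k ≤ k' ∧ M.Lm h P k' := by
  obtain ⟨h0, su⟩ := hSU n M h α hh hα hp
  obtain ⟨k, hk⟩ := (hV n M H hH).2 fun ε hε => by
    obtain ⟨u, hu⟩ := (hEX n M H h hn hH hh h0).1 ε hε
    exact ((hV n M H hH).1 ε u hu).2.2.2.1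
  obtain ⟨ε, s, u, f, hs⟩ := hSQ n M H h α hn hH hh hα hp
  have hl : (hyperfilter ℕ : Filter ℕ) ≤ atTop := Nat.hyperfilter_le_atTop
  obtain ⟨P, p1, p2, p3⟩ := hGL n M h (hyperfilter ℕ) (M.wsq H h ε s u) hh
    (fun j => let a := su _ (s j) (hs.sol j).kae (hs.scl j).1; ⟨a.2.1, a.2.2.1⟩)
    (hLO n M H h α ε s u f (hyperfilter ℕ) hH hh hα hp hs hl)
  obtain ⟨c1, c2⟩ := hCC n M H h P α ε s u f (hyperfilter ℕ) hn hH hh hα hp hs hl p1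
    (fun e he z hz => (p2 e he z hz).1) p3
  obtain ⟨k', r1, r2, r3⟩ := hRK n M h P hh p1 fun e he z hz =>
    ⟨(p2 e he z hz).1, (c1 e he z hz).1, (p2 e he z hz).2⟩
  refine ⟨P, k, k', hk, ?_, p1, r1, r2, fun e he z hz => ?_, fun e he z hz => (c1 e he z hz).2.1⟩
  · rcases Nat.eq_zero_or_pos k with rfl | h1
    · exact Nat.zero_le _
    · exact r3 k (c2 k h1 hk)
  · obtain ⟨-, -, a⟩ := hA1 n (h e) z α (hh.sm e he z hz)
      (mem_of_superset (e.open_target.mem_nhds hz) fun w hw => hh.pos e he w hw) hα (hp e he z hz)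
    obtain ⟨a1, a2⟩ := a (P e z) (neg_eq_zero.1 ((neg_mul _ _).symm.trans (c1 e he z hz).2.1))
    exact ⟨hh.sm e he z hz, p1.sm e he z hz, hh.pos e he z hz, (p2 e he z hz).1,
      (c1 e he z hz).1, (p2 e he z hz).2, a1, a2, (c1 e he z hz).2.2⟩

/-- The flat field. -/
theorem fl1_of (hD2 : St_PD2) (hD3 : St_PD3) (hB3 : St_PB3) (hT3 : St_PT3) (hV5 : St_PV5)
    (hFL : St_PFL) {n : ℕ} (M : Mf n) [M.Cpt] {H h P : M.Fam (Mat n)} {k : ℕ} (hH : M.Kae H)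
    (hh : M.Met h) (hl : M.Lm h P k) : ∃ h' P', M.Met h' ∧ M.Fl1 h' P' k ∧
      M.All fun e z => M.ric h e z * P' e z = 0 := by
  have b := hB3 n M h P k hh hl (hD3 n M h P hh hl.en (hD2 n M H h P k hH hh hl))
  obtain ⟨T, c, C, hT⟩ := hT3 n M H h P k hH b
  obtain ⟨B, hB⟩ := hV5 n M h P k T c C b hT
  obtain ⟨h', P', a1, a2, a3, a4⟩ := hFL n M h P B k b hB
  refine ⟨h', P', a1, ⟨a2, st_GT1 n M H h' P' k hH a1 a2, a3⟩, fun e he z hz => ?_⟩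
  beta_reduce
  rw [← a4 e he z hz, ← mul_assoc, hl.kill e he z hz, zero_mul]

/-- The last steps. -/
theorem tail (hA : HS.St_AUBIN) (h4 : HS.St_SEC4) (h5 : HS.St_PEAK) (hEX : St_PEX)
    (hSU : St_PSU) (hCL : St_PCL) (hS1 : St_PS1) (hS2 : St_PS2) (hVO : St_PVO) {n : ℕ} (M : Mf n)
    [M.Cpt] {H h h' P : M.Fam (Mat n)} {α : ℝ} {k k' : ℕ} (hn : 0 < n) (hH : M.Kae H)
    (hh : M.Met h) (hα : 0 ≤ α) (hp : M.Pin h α) (hh' : M.Met h') (hf : M.Fl1 h' P k')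
    (hr : M.All fun e z => M.ric h e z * P e z = 0) (ho : M.Ord H k) (hk : k ≤ k') : M.Semi := by
  obtain ⟨a1, a2, a3, -, a4⟩ := st_GPRD n M h' P k' hh' hf
  have h0 := (hSU n M h α hh hα hp).1
  have hex := (hEX n M H h hn hH hh h0).2 _ a2 a3
  obtain ⟨c, C, hc0, hb⟩ := RB.big hH hh' a2 hex (hVO n M H h h' P k k' hH hh hh' h0 hf hr ho hk)
  obtain ⟨h₁, c₁, m1, hc₁, cl⟩ := hCL n M H h α hn hH hh hα hp
  obtain ⟨C₁, N, hC₁, b⟩ := hS1 n M H h₁ _ c₁ α (1 + α * n) hn hH m1 a2.toForm hc₁ hα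
    fun ε hε => cl _ a2 a3 ε hε.1
  obtain ⟨ε, h1, hε⟩ := ((hS2 n M H h₁ _ c C C₁ α (1 + α * n) N hn hH m1 a2.toForm hc0 hC₁ hα
    (fun ε hε u hu x => ⟨le_trans (by
      have := mul_nonneg (mul_pos hc₁ hε.1).le (hu.kae.toMet.tr_nonneg m1.nonneg x)
      linarith) (cl _ a2 a3 ε hε.1 u hu x), b ε hε u hu x⟩) hb).and self_mem_nhdsWithin).exists
  obtain ⟨u, hu⟩ := hex ε hε
  obtain ⟨v, v1, v2, v3⟩ := stGKE hA n M H h' _ ε u hn hH hh' a2 hε hu (h1 u hu)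
  have v4 := st_GUT' n M h' P k' v hh' hf a1 v1 v2 v3
  obtain ⟨G, hG⟩ := st_GPOS' n M h' P k' v hh' hf a1 v1 v2 v3 fun e he z hz => by
    simp only [Mf.theta, Pi.sub_apply]
    rw [sub_mul, v4 e he z hz, a4 e he z hz, sub_self]
  exact h5 n M _ _ hn hG.kH hG.sm hG.psd (h4 n M _ P G k' _ hn hG)

theorem main_of (hBR : St_PBR) (hMF : St_FMF) (hCO : St_FCO)
    (hS : ∀ {n : ℕ} (M : Mf n) [M.Cpt] {H h : M.Fam (Mat n)} {α : ℝ}, 0 < n →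
      M.Kae H → M.Met h → 0 ≤ α → M.Pin h α → M.Semi)
    (n : ℕ) (X : Type) [TopologicalSpace X] [ChartedSpace (E n) X] [IsManifold 𝓘(ℂ, E n) ω X]
    [CompactSpace X] [T2Space X] [ConnectedSpace X] (g : X → Mat n) (F : X → E n → ℝ) (a : ℝ)
    (hg : Kaehler g) (hF : Finsler F) (ha : 0 ≤ a) (hc : SemiPos F g a) :
    ∃ m : ℕ, 0 < m ∧ ∀ x : X, ∃ s ∈ Pluri n X m, s x ≠ 0 := by
  obtain ⟨M, hM, H, F', h1, h2, h3, h4⟩ := hBR n X g F a hg hF hc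
  refine h4 ?_
  rcases Nat.eq_zero_or_pos n with rfl | hn
  · refine ⟨1, one_pos, fun x => ⟨fun _ _ => 1, ⟨⟨fun _ _ _ _ => contDiffAt_const,
      fun _ _ _ _ _ _ _ => by simp⟩, fun _ _ _ _ => differentiableAt_const _⟩, one_ne_zero⟩⟩
  · obtain ⟨h, a1, a2⟩ := hMF n M H F' a h1.toMet h2 h3
    have hb : 0 ≤ 1 + a * (n + 1) := by positivity
    obtain ⟨h', b1, b2⟩ := hCO n M H h _ h1.toMet a1 hb a2
    exact hS M hn h1 b1 hb b2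

end Pool.Agent.Lib.PM
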