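import Pool.Agent.Lib.HS.All
import Pool.Agent.Lib.PM.Top
import Pool.Agent.Lib.PM.B_PBR
import Pool.Agent.Lib.PM.B_FHO
import Pool.Agent.Lib.PM.B_FAV
import Pool.Agent.Lib.PM.B_FCH
import Pool.Agent.Lib.PM.B_FG1
import Pool.Agent.Lib.PM.B_FG2
import Pool.Agent.Lib.PM.B_FPH
import Pool.Agent.Lib.PM.B_FB1
import Pool.Agent.Lib.PM.B_FB2
import Pool.Agent.Lib.PM.B_FCV
import Pool.Agent.Lib.PM.B_FMF
import Pool.Agent.Lib.PM.B_FCO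
import Pool.Agent.Lib.PM.B_PA0
import Pool.Agent.Lib.PM.B_PA1
import Pool.Agent.Lib.PM.B_PA2
import Pool.Agent.Lib.PM.B_PEX
import Pool.Agent.Lib.PM.B_PSU
import Pool.Agent.Lib.PM.B_PKY
import Pool.Agent.Lib.PM.B_PSQ
import Pool.Agent.Lib.PM.B_PNT
import Pool.Agent.Lib.PM.B_PKE
import Pool.Agent.Lib.PM.B_PDB
import Pool.Agent.Lib.PM.B_PLM
import Pool.Agent.Lib.PM.B_PLO
import Pool.Agent.Lib.PM.B_PGL
import Pool.Agent.Lib.PM.B_PCC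
import Pool.Agent.Lib.PM.B_PRK
import Pool.Agent.Lib.PM.B_PDV
import Pool.Agent.Lib.PM.B_PE1
import Pool.Agent.Lib.PM.B_PE3
import Pool.Agent.Lib.PM.B_PVC
import Pool.Agent.Lib.PM.B_PD2
import Pool.Agent.Lib.PM.B_PD3
import Pool.Agent.Lib.PM.B_PB1
import Pool.Agent.Lib.PM.B_PB2
import Pool.Agent.Lib.PM.B_PB3
import Pool.Agent.Lib.PM.B_PB4
import Pool.Agent.Lib.PM.B_PT0
import Pool.Agent.Lib.PM.B_PT1
import Pool.Agent.Lib.PM.B_PT2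
import Pool.Agent.Lib.PM.B_PT3
import Pool.Agent.Lib.PM.B_PV0
import Pool.Agent.Lib.PM.B_PV1
import Pool.Agent.Lib.PM.B_PV2
import Pool.Agent.Lib.PM.B_PWH
import Pool.Agent.Lib.PM.B_PV3
import Pool.Agent.Lib.PM.B_PV4
import Pool.Agent.Lib.PM.B_PV5
import Pool.Agent.Lib.PM.B_PFL
import Pool.Agent.Lib.PM.B_PCL
import Pool.Agent.Lib.PM.B_PS1
import Pool.Agent.Lib.PM.B_PS2
import Pool.Agent.Lib.PM.B_PVO

/-! Project pm78: assembly of all rows. -/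

open scoped Manifold ContDiff

namespace Pool.Agent.Lib.PM

open Pool.Agent.Lib.SV (E Pluri)
open Pool.Agent.Lib.HS32 Pool.Agent.Lib.GH

theorem aPBR : St_PBR :=
  st_PBR
theorem aFHO : St_FHO :=
  st_FHO
theorem aFAV : St_FAV :=
  st_FAV
theorem aFCH : St_FCH :=
  st_FCH
theorem aFG1 : St_FG1 :=
  st_FG1 aFCH
theorem aFG2 : St_FG2 :=
  st_FG2 aFCH
theorem aFPH : St_FPH :=
  st_FPH aFCH
theorem aFB1 : St_FB1 :=
  st_FB1 aFHO aFAV aFCH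
theorem aFB2 : St_FB2 :=
  st_FB2 aFCH
theorem aFCV : St_FCV :=
  st_FCV
theorem aFMF : St_FMF :=
  st_FMF aFG1 aFG2 aFPH aFB1 aFB2 aFCV aFCH
theorem aFCO : St_FCO :=
  st_FCO aFCV
theorem aPA0 : St_PA0 :=
  st_PA0
theorem aPA1 : St_PA1 :=
  st_PA1
theorem aPA2 : St_PA2 :=
  st_PA2
theorem aPEX : St_PEX :=
  st_PEX
theorem aPSU : St_PSU :=
  st_PSU aPA0 aPA1
theorem aPKY : St_PKY :=
  st_PKY aPA0 aPSU
theorem aPSQ : St_PSQ :=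
  st_PSQ aPEX aPSU aPKY
theorem aPNT : St_PNT :=
  st_PNT aPSU aPKY
theorem aPKE : St_PKE :=
  st_PKE aPA0 aPSU
theorem aPDB : St_PDB :=
  st_PDB aPA0 aPSU aPKE
theorem aPLM : St_PLM :=
  st_PLM
theorem aPLO : St_PLO :=
  st_PLO aPSU aPDB aPLM
theorem aPGL : St_PGL :=
  st_PGL
theorem aPCC : St_PCC :=
  st_PCC aPA0 aPA1 aPA2 aPSU aPKE aPNT
theorem aPRK : St_PRK :=
  st_PRK
theorem aPDV : St_PDV :=
  st_PDV
theorem aPE1 : St_PE1 :=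
  st_PE1 aPDV
theorem aPE3 : St_PE3 :=
  st_PE3 aPDV
theorem aPVC : St_PVC :=
  st_PVC
theorem aPD2 : St_PD2 :=
  st_PD2 aPDV aPE1 aPVC
theorem aPD3 : St_PD3 :=
  st_PD3 aPDV aPE3 aPVC
theorem aPB1 : St_PB1 :=
  st_PB1
theorem aPB2 : St_PB2 :=
  st_PB2
theorem aPB3 : St_PB3 :=
  st_PB3 aPB1 aPB2
theorem aPB4 : St_PB4 :=
  st_PB4
theorem aPT0 : St_PT0 :=
  st_PT0 aPB4
theorem aPT1 : St_PT1 :=
  st_PT1 aPT0
theorem aPT2 : St_PT2 :=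
  st_PT2 aPB4 aPT0
theorem aPT3 : St_PT3 :=
  st_PT3 aPB4 aPT0 aPT1 aPT2
theorem aPV0 : St_PV0 :=
  st_PV0
theorem aPV1 : St_PV1 :=
  st_PV1
theorem aPV2 : St_PV2 :=
  st_PV2
theorem aPWH : St_PWH :=
  st_PWH
theorem aPV3 : St_PV3 :=
  st_PV3 aPV0 aPV1 aPV2 aPWH
theorem aPV4 : St_PV4 :=
  st_PV4 aPV0
theorem aPV5 : St_PV5 :=
  st_PV5 aPB4 aPV0 aPV3 aPV4
theorem aPFL : St_PFL :=
  st_PFL aPB4
theorem aPCL : St_PCL :=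
  st_PCL aPA1
theorem aPS1 : St_PS1 :=
  st_PS1
theorem aPS2 : St_PS2 :=
  st_PS2
theorem aPVO : St_PVO :=
  st_PVO

/-- A pinched Hermitian metric on a compact Kähler manifold forces the semi-ampleness of the
canonical bundle. -/
theorem semi {n : ℕ} (M : Mf n) [M.Cpt] {H h : M.Fam (Mat n)} {α : ℝ} (hn : 0 < n) (hH : M.Kae H)
    (hh : M.Met h) (hα : 0 ≤ α) (hp : M.Pin h α) : M.Semi := by
  obtain ⟨P, k, k', a1, a2, a3⟩ :=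
    lim_of HS.asVOL aPEX aPSU aPSQ aPLO aPGL aPCC aPRK aPA1 M hn hH hh hα hp
  obtain ⟨h', P', b1, b2, b3⟩ := fl1_of aPD2 aPD3 aPB3 aPT3 aPV5 aPFL M hH hh a3
  exact tail HS.asAUBIN HS.asSEC4 HS.asPEAK aPEX aPSU aPCL aPS1 aPS2 aPVO M hn hH hh hα hp b1 b2 b3
    a1 a2

theorem main (n : ℕ) (X : Type) [TopologicalSpace X] [ChartedSpace (E n) X]
    [IsManifold 𝓘(ℂ, E n) ω X] [CompactSpace X] [T2Space X] [ConnectedSpace X] (g : X → Mat n)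
    (F : X → E n → ℝ) (a : ℝ) (hg : Kaehler g) (hF : Finsler F) (ha : 0 ≤ a)
    (hc : SemiPos F g a) : ∃ m : ℕ, 0 < m ∧ ∀ x : X, ∃ s ∈ Pluri n X m, s x ≠ 0 :=
  main_of aPBR aFMF aFCO semi n X g F a hg hF ha hc

end Pool.Agent.Lib.PM
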