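import Pool.Agent.Lib.PM.Blue
import Pool.Agent.Lib.HS32.MAll

/-! Project pm78: the conformal change. -/

open scoped Classical Topology ContDiff ComplexOrder Matrix
open Set MeasureTheory Complex Metric Filter

noncomputable section

namespace Pool.Agent.Lib.PM

open Pool.Agent.Lib.SV (E)
open Pool.Agent.Lib.HS32 Pool.Agent.Lib.HS32.Mf Pool.Agent.Lib.HS32.BBD

namespace CO78

variable {n : ℕ}

theorem nq_lin (A B : Mat n) (a b : ℝ) (v : E n) :
    nq (a • A + b • B) v = a * nq A v + b * nq B v := by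
  simp only [nq, Matrix.add_mulVec, Matrix.smul_mulVec, dotProduct_add, dotProduct_smul, add_re,
    smul_re, smul_eq_mul]

/-- The bound holds in every chart. -/
theorem all_of {M : Mf n} {g h : M.Fam (Mat n)} {β : ℝ} (hg : M.Met g) (hh : M.Met h)
    (hp : M.Pi0 h g β) : M.All fun e z => ∀ a v, (rm (h e) z a a v v).re ≤
      β * nq (-M.ric g e z) a * nq (h e z) v := by
  refine allOn_of_source fun e' he' x hx' a v => ?_
  obtain ⟨e, he, hx, h1⟩ := hp x
  have t := (mTR n M).2.1 e he e' he' x hx hx'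
  have pt : (e ∘ e'.symm) (e' x) = e x := congrArg _ (e'.left_inv hx')
  rw [((mPB n _ _ (h e) (h e') t.1 t.2.1 (by rw [pt]; exact hh.sm.at he hx)
    (BSUB.ev_cmp mTR hh.toTen he he' hx hx')).2.2
    (by rw [pt]; exact (hh.pos.at he hx).det_pos.ne')).2.2.1, pt,
    hh.cmp e he e' he' x hx hx', nq_conj]
  have r := ((mHES n M).2.2.2.2.2.2.2.2.1 g hg).toTen.neg.cmp e he e' he' x hx hx'
  simp only [Pi.neg_apply] at r
  rw [r, nq_conj, Mf.ric, neg_neg]
  exact h1 _ _

end CO78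

open CO78 in
theorem st_FCO (hCV : St_FCV) : St_FCO := by
  intro n M g h β hg hh hβ hp
  obtain ⟨s1, s2⟩ := (mHES n M).2.2.2.2.2.2.2.2.2 g h hg hh
  have p : 0 < 1 + β * n := by positivity
  have s3 := s1.const_mul (β / (1 + β * n))
  refine ⟨fun e z => Real.exp (β / (1 + β * n) * Real.log (M.dq h g (e.symm z))) • h e z,
    ⟨hh.toForm.fsmul s3.exp, fun e he z hz => pd_rsmul (hh.pos e he z hz) (Real.exp_pos _)⟩,
    fun e he z hz a v => ?_⟩
  obtain ⟨c1, c2⟩ := (hCV n (h e) z (hh.sm e he z hz)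
    (mem_of_superset (e.open_target.mem_nhds hz) fun w hw => hh.pos e he w hw)).2 _ (s3 e he z hz)
  have c3 : hess (fun w => ((β / (1 + β * n) * Real.log (M.dq h g (e.symm w)) : ℝ) : ℂ)) z = _ :=
    ((mLAP n M _ _ s1 s1).1 (β / (1 + β * n)) e he z hz).2.2.2.1
  have c4 := all_of hg hh hp e he z hz a v
  simp only [Function.comp_apply] at c1 c2
  rw [c1, c2, c3, smul_smul]
  rw [s2 e he z hz, Mf.ric] at c4
  obtain ⟨A, hA⟩ : ∃ A, A = hess (ld (h e)) z := ⟨_, rfl⟩
  obtain ⟨B, hB⟩ : ∃ B, B = M.hs (fun x => Real.log (M.dq h g x)) e z := ⟨_, rfl⟩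
  rw [← hA, ← hB] at c4 ⊢
  have e1 := nq_lin A B 1 1 a
  have e2 := nq_lin A B 1 (n * (β / (1 + β * n))) a
  have e3 := nq_lin B B (β / (1 + β * n)) 0 a
  have e4 := nq_lin (h e z) B (Real.exp (β / (1 + β * n) * Real.log (M.dq h g (e.symm z)))) 0 v
  simp only [one_smul, zero_smul, add_zero, one_mul, zero_mul] at e1 e2 e3 e4
  rw [show -(-A - B) = A + B by abel, e1] at c4
  rw [e2, e3, e4, mul_left_comm]
  refine mul_le_mul_of_nonneg_left ?_ (Real.exp_pos _).le
  have e5 : β * (nq A a + n * (β / (1 + β * n)) * nq B a) =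
      β * (nq A a + nq B a) - β / (1 + β * n) * nq B a := by
    field_simp
    ring
  rw [e5]
  linarith

end Pool.Agent.Lib.PM
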