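import Pool.Agent.Lib.PM.Blue
import Pool.Agent.Lib.GH.B_GT2
import Pool.Agent.Lib.GH.B_GLIM
import Pool.Agent.Lib.GH.B_GME

/-! Project pm78: the closed conditions for the limit field. -/

open scoped Classical Topology ContDiff ComplexOrder Matrix
open Set MeasureTheory Complex Metric Filter

noncomputable section

namespace Pool.Agent.Lib.PM

open Pool.Agent.Lib.SV (E)
open Pool.Agent.Lib.HS32 Pool.Agent.Lib.GH Pool.Agent.Lib.GH.G48 Pool.Agent.Lib.GH.G56

namespace X89

variable {n : ℕ}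

theorem kill {h P B : Mat n} (hh : h.PosDef) (hP : (h * P).PosSemidef) (hB : B.PosSemidef)
    (h0 : (P * h⁻¹ * B).trace.re ≤ 0) : B * P = 0 := by
  have hu : IsUnit h.det := hh.det_pos.ne'.isUnit
  have hA := hP.conjTranspose_mul_mul_same h⁻¹
  rw [hh.inv.1.eq, Matrix.nonsing_inv_mul_cancel_left _ _ hu] at hA
  obtain ⟨W, hW⟩ := HS76.psd_eq_mul hA
  obtain ⟨V, rfl⟩ := HS76.psd_eq_mul hB
  have e : (W * Wᴴ * (V * Vᴴ)).trace = ((Vᴴ * W)ᴴ * (Vᴴ * W)).trace := by
    rw [Matrix.conjTranspose_mul, Matrix.conjTranspose_conjTranspose, Matrix.mul_assoc,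
      Matrix.trace_mul_comm]
    simp only [Matrix.mul_assoc]
  have p := Complex.nonneg_iff.1 (Matrix.posSemidef_conjTranspose_mul_self (Vᴴ * W)).trace_nonneg
  rw [hW, e] at h0
  have z := Matrix.trace_conjTranspose_mul_self_eq_zero_iff.1
    (Complex.ext (le_antisymm h0 p.1) p.2.symm)
  rw [← Matrix.nonsing_inv_mul_cancel_right h P hu, hW, Matrix.mul_assoc V, Matrix.mul_assoc W,
    ← Matrix.mul_assoc Vᴴ, z, Matrix.zero_mul, Matrix.mul_zero]

theorem idem {h P : Mat n} (hh : h.PosDef) (hP : (h * P).PosSemidef) (hQ : (h - h * P).PosSemidef)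
    (h0 : (P - P * P).trace.re ≤ 0) : P * P = P := by
  have hu : IsUnit h.det := hh.det_pos.ne'.isUnit
  have a := congrArg (h⁻¹ * ·) (kill hh hP hQ (by
    rwa [Matrix.mul_sub, Matrix.nonsing_inv_mul_cancel_right _ _ hu, Matrix.mul_assoc,
      Matrix.nonsing_inv_mul_cancel_left _ _ hu]))
  simp only [Matrix.sub_mul, Matrix.mul_sub, Matrix.mul_assoc, Matrix.mul_zero,
    Matrix.nonsing_inv_mul_cancel_left _ _ hu] at a
  exact (sub_eq_zero.1 a).symm

theorem psd {A : Mat n} (hA : A.IsHermitian) (h : ∀ v, -nq A v ≤ 0) : A.PosSemidef :=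
  .of_dotProduct_mulVec_nonneg hA fun v => Complex.nonneg_iff.2
    ⟨neg_nonpos.1 (h v), (hA.im_star_dotProduct_mulVec_self v).symm⟩

theorem tm_tors (h : E n → Mat n) (z a b : E n) : (∑ i, a i • tm h i z) *ᵥ b = tors h z a b := by
  ext i
  simp only [tors, asy, tm, Matrix.mulVec, dotProduct, Pi.sub_apply, Matrix.sum_apply,
    Matrix.smul_apply, smul_eq_mul, Finset.sum_mul]
  rw [Finset.sum_comm (f := fun j k => b k * gam h k z i j * a j), ← Finset.sum_sub_distrib]
  refine Finset.sum_congr rfl fun j _ => ?_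
  rw [← Finset.sum_sub_distrib]
  exact Finset.sum_congr rfl fun k _ => by rw [Matrix.of_apply]; ring

theorem cfst {Y : Type} [TopologicalSpace Y] {u : E n → Y} {z : E n} {A : Mat n}
    (hu : ContinuousAt u z) : ContinuousAt (fun p : E n × Mat n => u p.1) (z, A) :=
  ContinuousAt.comp (f := Prod.fst) (x := (z, A)) hu continuousAt_fst

theorem ctors {h : E n → Mat n} {z : E n} (hs : SmM h z) (h0 : (h z).det ≠ 0) (A : Mat n)
    (a b : E n) : ContinuousAt
      (fun p : E n × Mat n => (1 - p.2) *ᵥ tors h p.1 (p.2 *ᵥ a) (p.2 *ᵥ b)) (z, A) := by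
  have h1 : Continuous fun p : (Fin n → Mat n) × Mat n =>
      (1 - p.2) *ᵥ asy p.1 (p.2 *ᵥ a) (p.2 *ᵥ b) := by
    unfold asy
    fun_prop
  exact h1.continuousAt.comp (f := fun p : E n × Mat n => (fun k => gam h k p.1, p.2))
    ((continuousAt_pi.2 fun k => cfst (hs.gam h0 k).continuousAt).prodMk continuousAt_snd)

theorem low {G h : Mat n} (hG : G.PosDef) (hh : h.PosDef) {ε : ℝ} (hε : ε ∈ Ioc (0 : ℝ) 1) :
    ε / (1 + ε * (G⁻¹ * h).trace.re) ∈ Ioc (0 : ℝ) 1 ∧
      (G - (ε / (1 + ε * (G⁻¹ * h).trace.re)) • h).PosSemidef := by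
  have t := Mf.trace_inv_mul_nonneg hG hh.posSemidef
  have e := hε.1
  generalize ht : (G⁻¹ * h).trace.re = τ at *
  have c : 0 < ε / (1 + ε * τ) := by positivity
  refine ⟨⟨c, (div_le_self e.le (by nlinarith)).trans hε.2⟩, ?_⟩
  have a := (HS76.le_tr_smul hG hh.posSemidef (c := (ε / (1 + ε * τ))⁻¹) (by
    rw [ht, inv_div, le_div_iff₀ e]; linarith)).smul c.le
  rwa [smul_sub, ← Complex.coe_smul, smul_smul, ← ofReal_mul, mul_inv_cancel₀ c.ne', ofReal_one,
    one_smul] at a

end X89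

open X89 in
theorem st_PCC (hA0 : St_PA0) (_hA1 : St_PA1) (hA2 : St_PA2) (hSU : St_PSU) (hKE : St_PKE)
    (hNT : St_PNT) : St_PCC := by
  intro n M _ H h P α ε s u f l _ hn hH hh hα hp hs hl hP hA hL
  obtain ⟨n1, n2, n3, n4⟩ := hNT n M H h α ε s u f hn hH hh hα hp hs
  obtain ⟨r0, S'⟩ := hSU n M h α hh hα hp
  obtain ⟨-, hfin, -⟩ := mMU n M H hH.toMet
  have kG := fun j => (hs.sol j).kae
  have s0 := fun j => (hs.scl j).1
  have S := fun j => S' _ (s j) (kG j) (s0 j)
  have lim := fun b hb => st_GLIM n M H h P (M.wsq H h ε s u) l b hH.toMet hh hl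
    (fun j => (S j).2.1) hP hL hb
  have A0 := fun j e he w hw => hA0 n _ _ (s j) ((kG j).pos e he w hw) (hh.pos e he w hw) (s0 j)
  have hc : ∀ e ∈ M.C, ∀ w ∈ e.target, ∀ A : Mat n,
      ContinuousAt (fun p : E n × Mat n => h e p.1) (w, A) :=
    fun e he w hw A => cfst (hh.sm e he w hw).continuousAt
  have z0 : Nl (M.mu H) fun (_ : ℕ) (_ : M.X) => (0 : ℝ) := nl_const tendsto_const_nhds
  have rT := ((mHES n M).2.2.2.2.2.2.2.2.1 h hh).toForm.toTen.neg
  refine ⟨fun e he z hz => ?_, fun k hk ho e he z hz t ht => ?_⟩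
  · have p0 := hh.pos e he z hz
    have p1 := psd (hA e he z hz) fun v => lim _ z0 e he (fun p => -nq (h e p.1 * p.2) v)
      (fun p hw => (cont_nq ((hc e he _ hw.1 _).mul continuousAt_snd)
        continuousAt_const).neg.continuousWithinAt)
      (fun j w hw => neg_nonpos.2 (nq_pos (A0 j e he w hw).2.1 v)) z hz
    have p2 := psd (p0.1.sub (hA e he z hz)) fun v => lim _ z0 e he
      (fun p => -nq (h e p.1 - h e p.1 * p.2) v)
      (fun p hw => (cont_nq ((hc e he _ hw.1 _).sub ((hc e he _ hw.1 _).mul continuousAt_snd))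
        continuousAt_const).neg.continuousWithinAt)
      (fun j w hw => neg_nonpos.2 (nq_pos (A0 j e he w hw).2.2.1 v)) z hz
    refine ⟨idem p0 p1 p2 (lim _ n1 e he (fun p => (p.2 - p.2 * p.2).trace.re)
      (Continuous.continuousOn (by fun_prop))
      (fun j w hw => ((S j).2.2.2.2.2.2.2.2.2 e he w hw).1.ge) z hz), ?_, fun m => ?_⟩
    · have r1 : ∀ w ∈ e.target, ((-M.ric h) e w).PosSemidef := fun w hw => by
        simpa using r0 e he w hw
      refine neg_eq_zero.1 ((Matrix.neg_mul _ _).symm.trans (kill p0 p1 (r1 z hz) (lim _ n3 e he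
        (fun p => (p.2 * (h e p.1)⁻¹ * (-M.ric h) e p.1).trace.re) ?_ (fun j w hw => ?_) z hz)))
      · rintro ⟨w, A⟩ ⟨hw, -⟩
        have h1 : Continuous fun A : Mat n => A.trace.re := by fun_prop
        exact (h1.continuousAt.comp ((continuousAt_snd.mul
          (cfst ((hh.sm e he w hw).inv (hh.det_ne e he w hw)).continuousAt)).mul
          (cfst (rT.sm e he w hw).continuousAt))).continuousWithinAt
      · have q := ((mINV n M _ (kG j).toMet).1 _ rT).1 e he w hw
        simp only [q, Mf.wsq, Mf.ww, wmat, Matrix.mul_smul, Matrix.smul_mul, Matrix.trace_smul,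
          Matrix.mul_nonsing_inv_cancel_right _ _ (hh.det_ne e he w hw).isUnit, smul_re,
          smul_eq_mul]
        exact mul_le_mul_of_nonneg_left
          ((A0 j e he w hw).2.2.2.2.2.2.2.2.2.2 _ (r1 w hw)) (s0 j).le
    · refine Matrix.ext_of_mulVec_single fun b => ?_
      have pos : ∀ w ∈ e.target, 0 ≤ 4 * n * nq (h e w) (Pi.single m 1) *
          nq (h e w) (Pi.single b 1) := fun w hw =>
        mul_nonneg (mul_nonneg (by positivity) (nq_pos (hh.pos e he w hw).posSemidef _))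
          (nq_pos (hh.pos e he w hw).posSemidef _)
      have key := lim _ n2 e he (fun p => nq (h e p.1) ((1 - p.2) *ᵥ
        tors (h e) p.1 (p.2 *ᵥ Pi.single m 1) (p.2 *ᵥ Pi.single b 1)) /
        (4 * n * nq (h e p.1) (Pi.single m 1) * nq (h e p.1) (Pi.single b 1) + 1)) ?_ ?_ z hz
      · rw [div_le_iff₀ (by linarith [pos z hz]), zero_mul] at key
        have e1 := nq_zero p0 key
        rw [← tm_tors, Matrix.mulVec_mulVec, Matrix.mulVec_mulVec] at e1
        rw [Matrix.zero_mulVec]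
        simpa only [Matrix.mulVec_single_one, Matrix.col_apply] using e1
      · rintro ⟨w, A⟩ ⟨hw, -⟩
        have c := hc e he w hw A
        exact (ContinuousAt.div (cont_nq c (ctors (hh.sm e he w hw) (hh.det_ne e he w hw) A _ _))
          (((continuousAt_const.mul (cont_nq c continuousAt_const)).mul
            (cont_nq c continuousAt_const)).add continuousAt_const)
          (add_pos_of_nonneg_of_pos (pos w hw) one_pos).ne').continuousWithinAt
      · intro j w hw
        have d0 := ((S j).2.2.2.2.2.2.2.2.1 (e.symm w)).2.2.2.2.2.2.2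
        rw [div_le_iff₀ (by linarith [pos w hw])]
        refine ((hKE n M _ h α (s j) (kG j) hh hα hp (s0 j) e he w hw).2.2 _ _).trans ?_
        linarith
  · have key := lim _ (n4 k hk ho) e he
      (fun p => (t • (1 : Mat n) + (1 - p.2)).det.re / 2 ^ n - t ^ k)
      (Continuous.continuousOn (by fun_prop)) (fun j w hw => ?_) z hz
    · rwa [sub_nonpos, div_le_iff₀' (by positivity)] at key
    · have q1 := ((mINV n M _ (kG j).toMet).1 _ hh.toTen).1 e he w hw
      have q2 := ((mINV n M _ hh).1 _ (kG j).toMet.toTen).2.2.1 e he w hw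
      obtain ⟨c1, c2⟩ := low ((kG j).pos e he w hw) (hh.pos e he w hw) (hs.eps j)
      simp only [q1, q2]
      rw [sub_le_iff_le_add', div_le_iff₀' (by positivity)]
      exact hA2 n k _ _ _ t _ ((kG j).pos e he w hw) (hh.pos e he w hw) (hs.scl j) ht c1 c2

end Pool.Agent.Lib.PM
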