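import Pool.Agent.Lib.PM.Blue
import Pool.Agent.Lib.HS32.MAll

/-! Project pm78: holonomy along the leaves. -/

open scoped Classical Topology ContDiff ComplexOrder Matrix
open Set Complex Filter Metric Matrix

noncomputable section

namespace Pool.Agent.Lib.PM

open Pool.Agent.Lib.SV (E)
open Pool.Agent.Lib.HS32 Pool.Agent.Lib.GH

namespace PT291

variable {n k : ℕ} {M : Mf n} {h P : M.Fam (Mat n)} {e e' e0 : M.Ch} {L : E n → E k → M.X}
  {z : E n} {A : Mat k} {ψ : E n → E n} {s : E k}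

/-- The conclusion at the parameter `s`, with given data. -/
def Gd (h : M.Fam (Mat n)) (e : M.Ch) (L : E n → E k → M.X) (z : E n) (s : E k) (e' : M.Ch)
    (A : Mat k) (ψ : E n → E n) : Prop :=
  HolN ψ z ∧ (∀ᶠ w in 𝓝 z, (jm ψ w)ᴴ * h e' (ψ w) * jm ψ w = h e w) ∧
    ∀ᶠ p : E n × E k in 𝓝 (z, s), L p.1 p.2 ∈ e'.source ∧
      e' (L p.1 p.2) = ψ p.1 + (io n k * A) *ᵥ (p.2 - s)

theorem cont (B : Matrix (Fin n) (Fin k) ℂ) (y : E n) (s : E k) :
    Continuous fun t : E k => y + B *ᵥ (t - s) := by fun_prop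

theorem fr {y : E n} {t : E k} (ht : y + (io n k * A) *ᵥ (t - s) ∈ e'.target) :
    M.Fr (fun t => e'.symm (y + (io n k * A) *ᵥ (t - s))) e' A t := by
  filter_upwards [(cont (io n k * A) y s).continuousAt.eventually
    (e'.open_target.eventually_mem ht)] with w hw
  refine ⟨e'.map_target hw, ?_⟩
  rw [e'.right_inv hw, e'.right_inv ht, add_assoc, ← mulVec_add, add_comm (t - s), sub_add_sub_cancel]

/-- Extension in the leaf parameter, uniformly in the starting point. -/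
theorem ext [M.Cpt] (hB4 : St_PB4) (hT0 : St_PT0) (hA : M.BA h P k) (he' : M.Box h P k e')
    {U : Set (E k)} (hU : IsOpen U) (hc : IsPreconnected U) (hs : s ∈ U) (h1 : HolN ψ z)
    (h2 : ∀ᶠ w in 𝓝 z, (jm ψ w)ᴴ * h e' (ψ w) * jm ψ w = h e w)
    (h3 : ∀ᶠ w in 𝓝 z, M.Lf h P (L w) univ ∧ (∀ t ∈ U, ψ w + (io n k * A) *ᵥ (t - s) ∈ e'.target) ∧
      ∀ᶠ t in 𝓝 s, L w t ∈ e'.source ∧ e' (L w t) = ψ w + (io n k * A) *ᵥ (t - s))
    {t : E k} (ht : t ∈ U) : Gd h e L z t e' A fun w => ψ w + (io n k * A) *ᵥ (t - s) := by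
  refine ⟨h1.mono fun w hw => hw.add_const _, ?_, ?_⟩
  · filter_upwards [h2, h3] with w k2 k3
    have a : jm (fun w => ψ w + (io n k * A) *ᵥ (t - s)) w = jm ψ w := by
      simp only [jm, fderiv_add_const]
    have b := hc.induction₂' (fun a b => h e' (ψ w + (io n k * A) *ᵥ (a - s)) =
        h e' (ψ w + (io n k * A) *ᵥ (b - s))) (fun a ha => by
      have c : Tendsto (fun b : E k => (ψ w + (io n k * A) *ᵥ (a - s), A *ᵥ (b - a))) (𝓝 a)
          (𝓝 (ψ w + (io n k * A) *ᵥ (a - s), 0)) := by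
        have : Continuous fun b : E k => (ψ w + (io n k * A) *ᵥ (a - s), A *ᵥ (b - a)) := by
          fun_prop
        simpa using this.tendsto a
      refine nhdsWithin_le_nhds ((c.eventually ((hB4 n M h P k hA).2.1 e' he' _
        (k3.2.1 a ha))).mono fun b hb => ?_)
      simp only [mulVec_mulVec, add_assoc, ← mulVec_add, add_comm (a - s), sub_add_sub_cancel]
        at hb
      exact ⟨hb.symm, hb⟩) (fun _ _ _ _ _ _ => Eq.trans) ht hs
    rw [a, b, sub_self, mulVec_zero, add_zero, k2]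
  · have a : ∀ᶠ w in 𝓝 z, ∀ u ∈ U, L w u ∈ e'.source ∧
        e' (L w u) = ψ w + (io n k * A) *ᵥ (u - s) := h3.mono fun w k3 u hu => by
      have := (hT0 n M h P k hA).2.2.2.2.2.2.1 (L w)
        (fun t => e'.symm (ψ w + (io n k * A) *ᵥ (t - s))) U s hc (fun v _ => k3.1 v (mem_univ v))
        (fun v hv => ⟨e', A, he', fr (k3.2.1 v hv)⟩) hs
        (k3.2.2.mono fun v hv => by beta_reduce; rw [← hv.2, e'.left_inv hv.1]) hu
      rw [this]
      exact ⟨e'.map_target (k3.2.1 u hu), e'.right_inv (k3.2.1 u hu)⟩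
    filter_upwards [a.prod_nhds (hU.eventually_mem ht)] with p hp
    refine ⟨(hp.1 _ hp.2).1, ?_⟩
    rw [(hp.1 _ hp.2).2, add_assoc, ← mulVec_add, add_comm (t - s), sub_add_sub_cancel]

/-- Change of box. -/
theorem chg (hB4 : St_PB4) (hA : M.BA h P k) (he' : M.Box h P k e') (he0 : M.Box h P k e0)
    (hx : L z s ∈ e0.source) (hG : Gd h e L z s e' A ψ) :
    Gd h e L z s e0 (M.tA k e0 e' (L z s) * A) ((e0 ∘ e'.symm) ∘ ψ) := by
  obtain ⟨g1, g2, g3⟩ := hG
  obtain ⟨hx', a⟩ := g3.self_of_nhds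
  simp only [sub_self, mulVec_zero, add_zero] at a
  obtain ⟨b1, -, -, b3, -⟩ := (mTR n M).2.1 e0 he0.mem e' he'.mem _ hx hx'
  obtain ⟨-, -, -, c⟩ := (hB4 n M h P k hA).2.2 e0 e' he0 he' _ hx hx'
  rw [a] at b1 b3 c
  have cψ : ContinuousAt ψ z := g1.self_of_nhds.continuousAt
  refine ⟨((mCHN n ψ z g1).2.2.2.2.2.2.2.2.1 _ b1).1, ?_, ?_⟩
  · filter_upwards [g1.eventually_nhds, g2, cψ.eventually b1.eventually_nhds, cψ.eventually b3]
      with w k1 k2 k3 k4
    have := hA.met.cmp e0 he0.mem e' he'.mem _ k4.2.1 k4.2.2.1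
    beta_reduce at this
    rw [k4.2.2.2.2.2.1, k4.2.2.2.2.2.2] at this
    rw [((mCHN n ψ w k1).2.2.2.2.2.2.2.2.1 _ k3).2, ← k2, this, conjTranspose_mul]
    simp only [Matrix.mul_assoc, Function.comp_apply]
  · have t1 : Tendsto (fun p : E n × E k => ψ p.1) (𝓝 (z, s)) (𝓝 (ψ z)) :=
      cψ.tendsto.comp (continuous_fst.tendsto (z, s))
    have t2 : Tendsto (fun p : E n × E k => A *ᵥ (p.2 - s)) (𝓝 (z, s)) (𝓝 0) := by
      have : Continuous fun p : E n × E k => A *ᵥ (p.2 - s) := by fun_prop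
      simpa using this.tendsto (z, s)
    have t3 : Tendsto (fun p : E n × E k => ψ p.1 + (io n k * A) *ᵥ (p.2 - s)) (𝓝 (z, s))
        (𝓝 (ψ z)) := by
      have : Continuous fun p : E n × E k => (io n k * A) *ᵥ (p.2 - s) := by fun_prop
      simpa using t1.add (this.tendsto (z, s))
    filter_upwards [g3, (t1.prodMk_nhds t2).eventually c, t3.eventually b3] with p k1 k2 k3
    simp only [mulVec_mulVec] at k2
    rw [← k1.2, e'.left_inv k1.1] at k2 k3
    exact ⟨k3.2.1, by rw [k2, Matrix.mul_assoc]; rfl⟩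

theorem Gd.fr (hG : Gd h e L z s e' A ψ) : M.Fr (L z) e' A s := by
  have a := hG.2.2.self_of_nhds.2
  simp only [sub_self, mulVec_zero, add_zero] at a
  exact hG.2.2.curry_nhds.self_of_nhds.mono fun t ht => ⟨ht.1, by rw [ht.2, a]⟩

end PT291

open PT291

theorem st_PT2 (hB4 : St_PB4) (hT0 : St_PT0) : St_PT2 := by
  intro n M _ h P k hA e L he hL z hz s
  have lf : ∀ᶠ w in 𝓝 z, w ∈ e.target := e.open_target.eventually_mem hz
  have key : ∀ (e0 : M.Ch) (A0 : Mat k) (s0 : E k), M.Box h P k e0 → ∀ y ∈ e0.target,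
      ∀ᶠ U in (𝓝 s0).smallSets, ∀ᶠ v in 𝓝 y, ∀ t ∈ U,
        v + (io n k * A0) *ᵥ (t - s0) ∈ e0.target := fun e0 A0 s0 _ y hy => by
    have c : Tendsto (fun p : E n × E k => p.1 + (io n k * A0) *ᵥ (p.2 - s0)) (𝓝 (y, s0))
        (𝓝 y) := by
      have : Continuous fun p : E n × E k => p.1 + (io n k * A0) *ᵥ (p.2 - s0) := by fun_prop
      simpa using this.tendsto (y, s0)
    obtain ⟨a, ha, b, hb, hab⟩ := eventually_prod_iff.1
      (nhds_prod_eq (x := y) (y := s0) ▸ c.eventually (e0.open_target.eventually_mem hy))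
    exact (eventually_smallSets_subset.2 hb).mono fun U hU => ha.mono fun v hv t ht =>
      hab hv (hU ht)
  have sm := fun s0 : E k => (nhds_basis_ball (x := s0)).smallSets
  refine isPreconnected_univ.induction₂' (fun a b => (∃ e' A ψ, M.Box h P k e' ∧
    Gd h e L z a e' A ψ) → ∃ e' A ψ, M.Box h P k e' ∧ Gd h e L z b e' A ψ) (fun s0 _ => ?_)
    (fun _ _ _ _ _ _ f g => g ∘ f) (mem_univ 0) (mem_univ s) ?_
  · obtain ⟨e0, A0, he0, f0⟩ := (hL z hz).1 s0 (mem_univ _)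
    obtain ⟨ρ, hρ, hU⟩ := (sm s0).eventually_iff.1 ((key e0 A0 s0 he0 _
      (e0.map_source f0.self_of_nhds.1)).and (eventually_smallSets_forall.2
        (f0.and ((hT0 n M h P k hA).1 _ _ _ _ f0).2)))
    obtain ⟨u1, u2⟩ := hU (mem_powerset_iff _ _ |>.2 Subset.rfl)
    have main : ∀ a ∈ ball s0 ρ, ∀ b ∈ ball s0 ρ, (∃ e' A ψ, M.Box h P k e' ∧
        Gd h e L z a e' A ψ) → ∃ e' A ψ, M.Box h P k e' ∧ Gd h e L z b e' A ψ := by
      rintro a ha b hb ⟨e', A, ψ, he', hG⟩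
      have g := chg hB4 hA he' he0 (u2 a ha).1.1 hG
      rw [(hT0 n M h P k hA).2.2.1 _ _ _ _ _ g.fr (u2 a ha).2] at g
      generalize (e0 ∘ e'.symm) ∘ ψ = φ at g
      have a0 := g.2.2.self_of_nhds.2
      simp only [sub_self, mulVec_zero, add_zero, (u2 a ha).1.2] at a0
      have c : Tendsto (fun w => φ w - (io n k * A0) *ᵥ (a - s0)) (𝓝 z) (𝓝 (e0 (L z s0))) := by
        have := g.1.self_of_nhds.continuousAt.tendsto.sub_const ((io n k * A0) *ᵥ (a - s0))
        rwa [← a0, add_sub_cancel_right] at this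
      refine ⟨e0, A0, _, he0, ext hB4 hT0 hA he0 isOpen_ball (convex_ball s0 ρ).isPreconnected ha
        g.1 g.2.1 ?_ hb⟩
      filter_upwards [lf, c.eventually u1, g.2.2.curry_nhds] with w k1 k2 k3
      refine ⟨(hL w k1).1, fun t ht => ?_, k3⟩
      have := k2 t ht
      rwa [sub_add_eq_add_sub, add_sub_assoc, ← mulVec_sub, sub_sub_sub_cancel_right] at this
    exact nhdsWithin_le_nhds ((isOpen_ball.eventually_mem (mem_ball_self hρ)).mono fun b hb =>
      ⟨main _ (mem_ball_self hρ) _ hb, main _ hb _ (mem_ball_self hρ)⟩)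
  · obtain ⟨ρ, hρ, hU⟩ := (sm 0).eventually_iff.1 (key e 1 0 he z hz)
    refine ⟨e, 1, _, he, ext hB4 hT0 hA he (ψ := id) isOpen_ball (convex_ball 0 ρ).isPreconnected
      (mem_ball_self hρ) (.of_forall fun _ => differentiableAt_id) (.of_forall fun w => ?_) ?_
      (mem_ball_self hρ)⟩
    · have : jm id w = 1 := by
        ext i j
        simp [jm, Matrix.one_apply, Pi.single_apply]
      simp [this]
    · filter_upwards [lf, hU (mem_powerset_iff _ _ |>.2 Subset.rfl)] with w k1 k2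
      refine ⟨(hL w k1).1, k2, (hL w k1).2.2.mono fun t ht => ⟨ht.1, ?_⟩⟩
      rw [ht.2, (hL w k1).2.1, e.right_inv k1, id]

end Pool.Agent.Lib.PM
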