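import Pool.Agent.Lib.PM.Defs

/-! Project pm78: blueprint. -/

open scoped Classical Topology ContDiff ComplexOrder Matrix Manifold ENNReal
open Set MeasureTheory Complex Metric Filter

noncomputable section

namespace Pool.Agent.Lib.PM

open Pool.Agent.Lib.SV (E Pluri)
open Pool.Agent.Lib.HS32 Pool.Agent.Lib.GH
open Pool.Agent.Lib.HS76 (ip3)

/-! ### F. From a Finsler metric to a pinched Hermitian metric -/

/-- From the statement to the manifold layer and back. -/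
def St_PBR : Prop := ∀ (n : ℕ) (X : Type) [TopologicalSpace X] [ChartedSpace (E n) X]
  [IsManifold 𝓘(ℂ, E n) ω X] [CompactSpace X] [T2Space X] [ConnectedSpace X] (g : X → Mat n)
  (F : X → E n → ℝ) (a : ℝ), Kaehler g → Finsler F → SemiPos F g a →
  ∃ (M : Mf n) (_ : M.Cpt) (H : M.Fam (Mat n)) (F' : M.Fam (E n → ℝ)), M.Kae H ∧ M.Fin' F' ∧
    M.FPs F' H a ∧ (M.Semi → ∃ m : ℕ, 0 < m ∧ ∀ x : X, ∃ s ∈ Pluri n X m, s x ≠ 0)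

/-- The theorem of Hörmander on the whole space, with constant one. -/
def St_FHO : Prop := ∀ (n : ℕ) (φ b : E n → ℝ) (G : E n → ℂ), ContDiff ℝ 2 φ → ContDiff ℝ 2 G →
  Continuous b → (∀ z, 0 ≤ b z ∧ ∀ w, 0 ≤ HW.levi φ z w ∧
    normSq (∑ i, star (w i) * dzb i G z) ≤ b z * HW.levi φ z w) →
  Integrable (fun z => b z * Real.exp (-φ z)) →
  (∀ i, Integrable fun z => normSq (dzb i G z) * Real.exp (-φ z)) →
  ∃ f : E n → ℂ, Differentiable ℂ f ∧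
    ∫⁻ z, ENNReal.ofReal (normSq (G z - f z) * Real.exp (-φ z)) ≤
      ENNReal.ofReal (∫ z, b z * Real.exp (-φ z))

/-- Average over the circle. -/
def St_FAV : Prop := ∀ (n : ℕ) (φ : E n → ℝ) (G f : E n → ℂ), Continuous φ → Continuous G →
  Differentiable ℂ f → (∀ v (c : ℂ), ‖c‖ = 1 → φ (c • v) = φ v ∧ G (c • v) = c * G v) →
  ∃ c' : E n, ∫⁻ z, ENNReal.ofReal (normSq (G z - star c' ⬝ᵥ z) * Real.exp (-φ z)) ≤
    ∫⁻ z, ENNReal.ofReal (normSq (G z - f z) * Real.exp (-φ z))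

/-- The function `chi`, and weights with Gaussian decay. -/
def St_FCH : Prop := (ContDiff ℝ ∞ chi ∧ (∀ r ≤ 1, chi r = 0) ∧ (∀ r, r - 2 ≤ chi r ∧ 0 ≤ chi r) ∧
    (∀ r, 0 ≤ deriv chi r ∧ deriv chi r ≤ 1) ∧
    ∃ C, ∀ r, 0 ≤ deriv (deriv chi) r ∧ deriv (deriv chi) r ≤ C) ∧
  (∀ (n m : ℕ) (c : ℝ), 0 < c →
    Integrable fun v : E n => (1 + ‖v‖) ^ m * Real.exp (-(c * ‖v‖ ^ 2))) ∧
  (∀ (n : ℕ) (φ : E n → ℝ) (c C : ℝ), Continuous φ → 0 < c → (∀ v, c * ‖v‖ ^ 2 - C ≤ φ v) →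
    (gm φ).PosDef ∧ ∀ a : E n, Integrable (fun v => normSq (star a ⬝ᵥ v) * Real.exp (-φ v)) ∧
      nq (gm φ) a = ∫ v, normSq (star a ⬝ᵥ v) * Real.exp (-φ v)) ∧
  ∀ (n : ℕ) (F : E n → ℝ), Fib F → Continuous F ∧ F 0 = 0 ∧
    ∃ c C : ℝ, 0 < c ∧ ∀ v, c * ‖v‖ ^ 2 ≤ F v ∧ F v ≤ C * ‖v‖ ^ 2

/-- Scaling and linear change of variables. -/
def St_FG1 : Prop := ∀ (n : ℕ) (F : E n → ℝ), Fib F → (gF F).PosDef ∧
  (∀ t : ℝ, 0 < t → gF (fun v => t * F v) = (t ^ (n + 1))⁻¹ • gF F) ∧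
  ∀ J : Mat n, J.det ≠ 0 → normSq J.det • (J * gF (fun v => F (J *ᵥ v)) * Jᴴ) = gF F

/-- The moments depend smoothly on the parameter. -/
def St_FG2 : Prop := ∀ (n : ℕ) (F : E n → E n → ℝ) (z : E n), (∀ᶠ w in 𝓝 z, FibAt F w) →
  SmM (fun w => gF (F w)) z

/-- The weight attached to a Finsler function. -/
def St_FPH : Prop := ∀ (n : ℕ) (F : E n → E n → ℝ) (z : E n), (∀ᶠ w in 𝓝 z, FibAt F w) →
  (∀ v, v ≠ 0 → ∀ p, 0 ≤ levi2 (fun q => Real.log (F q.1 q.2)) (z, v) p) →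
  Wg (fun q => chi (F q.1 q.2)) z

/-- The distance to the linear forms. -/
def St_FB1 : Prop := ∀ (n : ℕ) (Φ : E n × E n → ℝ) (z a c : E n), Wg Φ z → ∃ c' : E n,
  ∫ v, (normSq (star c' ⬝ᵥ v - da Φ z a v * (star c ⬝ᵥ v)) -
    levi2 Φ (z, v) (a, 0) * normSq (star c ⬝ᵥ v)) * Real.exp (-Φ (z, v)) ≤ 0

/-- The second variation. -/
def St_FB2 : Prop := ∀ (n : ℕ) (Φ : E n × E n → ℝ) (z a c c' : E n), Wg Φ z →
  lap1 (fun t => ∫ v, normSq (star (c + star t • c') ⬝ᵥ v) * Real.exp (-Φ (z + t • a, v))) =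
    4 * ∫ v, (normSq (star c' ⬝ᵥ v - da Φ z a v * (star c ⬝ᵥ v)) -
      levi2 Φ (z, v) (a, 0) * normSq (star c ⬝ᵥ v)) * Real.exp (-Φ (z, v))

/-- The curvature of the inverse matrix, and conformal changes. -/
def St_FCV : Prop := ∀ (n : ℕ) (T : E n → Mat n) (z : E n), SmM T z →
  (∀ᶠ w in 𝓝 z, (T w).PosDef) →
  (∀ a v c', (rm (fun w => (T w)⁻¹) z a a v v).re ≤
    lap1 (fun t => nq (T (z + t • a)) ((T z)⁻¹ *ᵥ v + star t • c')) / 4) ∧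
  ∀ ψ : E n → ℝ, ContDiffAt ℝ ∞ ψ z →
    (∀ a v, (rm (fun w => Real.exp (ψ w) • T w) z a a v v).re = Real.exp (ψ z) *
      ((rm T z a a v v).re - nq (hess (fun w => (ψ w : ℂ)) z) a * nq (T z) v)) ∧
    hess (ld fun w => Real.exp (ψ w) • T w) z =
      hess (ld T) z + (n : ℝ) • hess (fun w => (ψ w : ℂ)) z

/-- The metric given by the moments. -/
def St_FMF : Prop := ∀ (n : ℕ) (M : Mf n) (g : M.Fam (Mat n)) (F : M.Fam (E n → ℝ)) (a : ℝ),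
  M.Met g → M.Fin' F → M.FPs F g a → ∃ h, M.Met h ∧ M.Pi0 h g (1 + a * (n + 1))

/-- The conformal change. -/
def St_FCO : Prop := ∀ (n : ℕ) (M : Mf n) (g h : M.Fam (Mat n)) (β : ℝ), M.Met g → M.Met h →
  0 ≤ β → M.Pi0 h g β → ∃ h', M.Met h' ∧ M.Pin h' β

/-! ### 0 to 3. The limit field -/

/-- Inequalities between eigenvalues. -/
def St_PA0 : Prop := ∀ (n : ℕ) (G h : Mat n) (s : ℝ), G.PosDef → h.PosDef → 0 < s →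
  (G + s • h).PosDef ∧ (h * wmat G h s).PosSemidef ∧ (h - h * wmat G h s).PosSemidef ∧
  1 - wmat G h s = (G + s • h)⁻¹ * G ∧
  0 ≤ (wmat G h s).trace.re ∧ (wmat G h s).trace.re ≤ n ∧
  0 ≤ (wmat G h s - wmat G h s * wmat G h s).trace.re ∧
  (wmat G h s - wmat G h s * wmat G h s).trace.re ≤ n ∧
  (wmat G h s - wmat G h s * wmat G h s).trace.re ≤
    2 * ((wmat G h (2 * s)).trace.re - (wmat G h s).trace.re) ∧
  (∀ v, nq h (wmat G h s *ᵥ v) ≤ nq h v ∧ nq h ((wmat G h s - wmat G h s * wmat G h s) *ᵥ v) ≤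
    (wmat G h s - wmat G h s * wmat G h s).trace.re * nq h v) ∧
  ∀ A : Mat n, A.PosSemidef → ((G + s • h)⁻¹ * A).trace.re ≤ (G⁻¹ * A).trace.re

/-- Consequences of the pinching condition at a point. -/
def St_PA1 : Prop := ∀ (n : ℕ) (h : E n → Mat n) (z : E n) (α : ℝ), SmM h z →
  (∀ᶠ w in 𝓝 z, (h w).PosDef) → 0 ≤ α →
  (∀ a v, (rm h z a a v v).re ≤ α * nq (hess (ld h) z) a * nq (h z) v) →
  (hess (ld h) z).PosSemidef ∧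
  (∀ A : Mat n, (A * (h z)⁻¹).PosSemidef →
    (phf h A z + (α * A.trace.re) • hess (ld h) z).PosSemidef) ∧
  ∀ P : Mat n, hess (ld h) z * P = 0 →
    (∀ l m, ∑ i, P i m • th h i l z = 0) ∧ ∀ i m, ∑ l, star (P l m) • th h i l z = 0

/-- The number of small eigenvalues. -/
def St_PA2 : Prop := ∀ (n k : ℕ) (G h : Mat n) (s t c : ℝ), G.PosDef → h.PosDef →
  s ∈ Ioc (0 : ℝ) 1 → t ∈ Ioc (0 : ℝ) 1 → c ∈ Ioc (0 : ℝ) 1 → (G - c • h).PosSemidef →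
  (t • (1 : Mat n) + (1 - wmat G h s)).det.re ≤
    2 ^ n * (t ^ k + (G.det / h.det).re / (s ^ n * c ^ (k - 1)))

/-- Existence. -/
def St_PEX : Prop := ∀ (n : ℕ) (M : Mf n) [M.Cpt] (H h : M.Fam (Mat n)), 0 < n → M.Kae H →
  M.Met h → M.Le 0 (-M.ric h) → (∀ ε : ℝ, 0 < ε → ∃ u, M.Sol H ε u) ∧
  ∀ B, M.Clo B → M.Le 0 B → ∀ ε : ℝ, 0 < ε → ∃ u, M.SolB H B ε u

/-- The curvature of a sum of two metrics, on the manifold. -/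
def St_PSU : Prop := ∀ (n : ℕ) (M : Mf n) (h : M.Fam (Mat n)) (α : ℝ), M.Met h → 0 ≤ α →
  M.Pin h α → M.Le 0 (-M.ric h) ∧ ∀ (G : M.Fam (Mat n)) (s : ℝ), M.Kae G → 0 < s →
  M.Met (G + s • h) ∧ M.End (M.ww G h s) ∧
  (M.All fun e z => (h e z * M.ww G h s e z).IsHermitian) ∧
  M.Sm (M.ll G h s) ∧ M.Sm (M.yp G h α s) ∧ M.Sm (M.tw G h s) ∧ M.Sm (M.rho G h s) ∧
  M.Sm (M.dfc G h α s) ∧
  (∀ x, 0 ≤ M.yp G h α s x ∧ 0 ≤ M.tw G h s x ∧ M.tw G h s x ≤ n ∧ 0 ≤ M.rho G h s x ∧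
    M.rho G h s x ≤ n ∧ M.rho G h s x ≤ 2 * (M.tw G h (2 * s) x - M.tw G h s x) ∧
    0 ≤ M.tr h G x ∧ 0 ≤ M.dfc G h α s x) ∧
  M.All fun e z =>
    M.rho G h s (e.symm z) = (M.ww G h s e z - M.ww G h s e z * M.ww G h s e z).trace.re ∧
    (egr (G e z) (h e z) s fun i => df (G e) (h e) i z).re ≤ M.yp G h α s (e.symm z)

/-- The mean values. -/
def St_PKY : Prop := ∀ (n : ℕ) (M : Mf n) [M.Cpt] (H h : M.Fam (Mat n)) (α ε : ℝ) (u : M.X → ℝ),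
  M.Kae H → M.Met h → 0 ≤ α → M.Pin h α → 0 < ε → M.Sol H ε u →
  M.av H ε u (M.yp (M.gE H ε u) h α 1) ≤ n + α * n ^ 2 ∧
  M.av H ε u (fun x => ε * M.tr (M.gE H ε u) H x) ≤ n ∧
  M.av H ε u (M.tr (M.gE H ε u) (-M.ric h)) ≤ n

/-- The sequence. -/
def St_PSQ : Prop := ∀ (n : ℕ) (M : Mf n) [M.Cpt] (H h : M.Fam (Mat n)) (α : ℝ), 0 < n →
  M.Kae H → M.Met h → 0 ≤ α → M.Pin h α → ∃ ε s u f, M.Sp H h α ε s u f

/-- The null quantities. -/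
def St_PNT : Prop := ∀ (n : ℕ) (M : Mf n) [M.Cpt] (H h : M.Fam (Mat n)) (α : ℝ) (ε s : ℕ → ℝ)
  (u f : ℕ → M.X → ℝ), 0 < n → M.Kae H → M.Met h → 0 ≤ α → M.Pin h α → M.Sp H h α ε s u f →
  Nl (M.mu H) (fun j => M.rho (M.gE H (ε j) (u j)) h (s j)) ∧
  Nl (M.mu H) (fun j => M.dfc (M.gE H (ε j) (u j)) h α (s j)) ∧
  Nl (M.mu H) (fun j x => s j * M.tr (M.gE H (ε j) (u j)) (-M.ric h) x) ∧
  ∀ k, 0 < k → M.Ord H k → Nl (M.mu H) fun j x => M.dq h (M.gE H (ε j) (u j)) x /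
    (s j ^ n * (ε j / (1 + ε j * M.tr (M.gE H (ε j) (u j)) h x)) ^ (k - 1))

/-- The equations of the field `W`, up to a defect. -/
def St_PKE : Prop := ∀ (n : ℕ) (M : Mf n) (G h : M.Fam (Mat n)) (α s : ℝ), M.Kae G → M.Met h →
  0 ≤ α → M.Pin h α → 0 < s → M.All fun e z =>
    (∀ i b, nq (h e z) ((dM i (M.ww G h s e) z - wr (h e) i z (M.ww G h s e z)) *ᵥ b) ≤
      n * M.dfc G h α s (e.symm z) * nq (h e z) b * nq (h e z) (Pi.single i 1)) ∧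
    (∀ l, h e z * (dMb l (M.ww G h s e) z - wb (h e) l z (M.ww G h s e z)) =
      (dM l (M.ww G h s e) z - wr (h e) l z (M.ww G h s e z))ᴴ * h e z) ∧
    ∀ a b, nq (h e z) ((1 - M.ww G h s e z) *ᵥ
      tors (h e) z (M.ww G h s e z *ᵥ a) (M.ww G h s e z *ᵥ b)) ≤
      4 * n * M.dfc G h α s (e.symm z) * nq (h e z) a * nq (h e z) b

/-- Local bounds. -/
def St_PDB : Prop := ∀ (n : ℕ) (M : Mf n) [M.Cpt] (H h : M.Fam (Mat n)) (α : ℝ), M.Met H →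
  M.Met h → 0 ≤ α → M.Pin h α → ∀ e ∈ M.C, ∀ K : Set (E n), IsCompact K → K ⊆ e.target →
  ∃ C : ℝ, 0 < C ∧
    (∀ f, M.Sm f → ∀ z ∈ K, ∀ l, ‖dz l (M.lc f e) z‖ ≤ C * √(M.gr H f f (e.symm z)) ∧
      ‖dzb l (M.lc f e) z‖ ≤ C * √(M.gr H f f (e.symm z))) ∧
    ∀ G (s : ℝ), M.Kae G → 0 < s → ∀ z ∈ K, ∀ i j, ‖M.ww G h s e z i j‖ ≤ C ∧ ∀ l,
      ‖(dM l (M.ww G h s e) z - wr (h e) l z (M.ww G h s e z)) i j‖ ≤
        C * √(M.dfc G h α s (e.symm z)) ∧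
      ‖(dMb l (M.ww G h s e) z - wb (h e) l z (M.ww G h s e z)) i j‖ ≤
        C * √(M.dfc G h α s (e.symm z))

/-- Bounded approximate solutions converge to a solution. -/
def St_PLM : Prop := ∀ (n : ℕ) (l : Ultrafilter ℕ) (u : ℕ → E n → Mat n) (h : E n → Mat n)
  (c : E n) (ρ C : ℝ), (∀ i, ∀ z ∈ ball c ρ, SmM (u i) z ∧ ∀ p q, ‖u i z p q‖ ≤ C) →
  (∀ z ∈ ball c ρ, SmM h z ∧ (h z).PosDef) →
  (∀ k p q, Tendsto (fun i => ∫⁻ z in ball c ρ,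
    ‖(dM k (u i) z - wr h k z (u i z)) p q‖ₑ) l (𝓝 0)) →
  (∀ k p q, Tendsto (fun i => ∫⁻ z in ball c ρ,
    ‖(dMb k (u i) z - wb h k z (u i z)) p q‖ₑ) l (𝓝 0)) →
  ∃ P : E n → Mat n, (∀ z ∈ ball c ρ, SmM P z ∧ Wde h P z) ∧
    ∀ K : Set (E n), IsCompact K → K ⊆ ball c ρ → ∀ p q,
      Tendsto (fun i => ∫⁻ z in K, ‖(u i z - P z) p q‖ₑ) l (𝓝 0)

/-- The local limit. -/
def St_PLO : Prop := ∀ (n : ℕ) (M : Mf n) [M.Cpt] (H h : M.Fam (Mat n)) (α : ℝ) (ε s : ℕ → ℝ)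
  (u f : ℕ → M.X → ℝ) (l : Ultrafilter ℕ), M.Kae H → M.Met h → 0 ≤ α → M.Pin h α →
  M.Sp H h α ε s u f → (l : Filter ℕ) ≤ atTop → ∀ e ∈ M.C, ∀ (c : E n) (ρ : ℝ),
  closedBall c ρ ⊆ e.target →
  ∃ P : E n → Mat n, (∀ z ∈ ball c ρ, SmM P z ∧ Wde (h e) P z) ∧
    ∀ K : Set (E n), IsCompact K → K ⊆ ball c ρ → ∀ i j,
      Tendsto (fun a => ∫ z in K, ‖(M.wsq H h ε s u a e z - P z) i j‖) l (𝓝 0)

/-- Gluing of smooth local limits. -/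
def St_PGL : Prop := ∀ (n : ℕ) (M : Mf n) [M.Cpt] (h : M.Fam (Mat n)) (l : Filter ℕ)
  [l.NeBot] (A : ℕ → M.Fam (Mat n)), M.Met h →
  (∀ a, M.End (A a) ∧ M.All fun e z => (h e z * A a e z).IsHermitian) →
  (∀ e ∈ M.C, ∀ (c : E n) (ρ : ℝ), closedBall c ρ ⊆ e.target →
    ∃ P : E n → Mat n, (∀ z ∈ ball c ρ, SmM P z ∧ Wde (h e) P z) ∧
      ∀ K : Set (E n), IsCompact K → K ⊆ ball c ρ → ∀ i j,
        Tendsto (fun a => ∫ z in K, ‖(A a e z - P z) i j‖) l (𝓝 0)) →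
  ∃ P, M.End P ∧ (M.All fun e z => (h e z * P e z).IsHermitian ∧ Wde (h e) (P e) z) ∧
    M.L1c h l A P

/-- The closed conditions hold for the limit. -/
def St_PCC : Prop := ∀ (n : ℕ) (M : Mf n) [M.Cpt] (H h P : M.Fam (Mat n)) (α : ℝ) (ε s : ℕ → ℝ)
  (u f : ℕ → M.X → ℝ) (l : Filter ℕ) [l.NeBot], 0 < n → M.Kae H → M.Met h → 0 ≤ α → M.Pin h α →
  M.Sp H h α ε s u f → l ≤ atTop → M.End P → (M.All fun e z => (h e z * P e z).IsHermitian) →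
  M.L1c h l (M.wsq H h ε s u) P →
  (M.All fun e z => P e z * P e z = P e z ∧ M.ric h e z * P e z = 0 ∧
    ∀ m, (1 - P e z) * (∑ i, P e z i m • tm (h e) i z) * P e z = 0) ∧
  ∀ k, 0 < k → M.Ord H k → M.All fun e z => ∀ t ∈ Ioc (0 : ℝ) 1,
    (t • (1 : Mat n) + (1 - P e z)).det.re ≤ 2 ^ n * t ^ k

/-- The rank. -/
def St_PRK : Prop := ∀ (n : ℕ) (M : Mf n) [M.Cpt] (h P : M.Fam (Mat n)), M.Met h → M.End P →
  (M.All fun e z => (h e z * P e z).IsHermitian ∧ P e z * P e z = P e z ∧ Wde (h e) (P e) z) →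
  ∃ k' ≤ n, (∀ s : ℝ, M.All fun e z => (1 + s • P e z).det = ((1 + s : ℝ) : ℂ) ^ k') ∧
    ∀ k : ℕ, (M.All fun e z => ∀ t ∈ Ioc (0 : ℝ) 1,
      (t • (1 : Mat n) + (1 - P e z)).det.re ≤ 2 ^ n * t ^ k) → k ≤ k'

/-! ### 4. The torsion -/

/-- The divergence formula. -/
def St_PDV : Prop := ∀ (n : ℕ) (h P : E n → Mat n) (z : E n), (∀ᶠ w in 𝓝 z, L0 h P w) →
  SmM (xi h P) z ∧ (xi h P z).PosSemidef ∧ P z * xi h P z = xi h P z ∧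
  (∀ i, dM i (xi h P) z = (-gam h i z + (1 - P z) * tm h i z) * xi h P z) ∧
  (∀ i m, ∑ l, xi h P z m l • th h i l z = 0) ∧
  (∀ j m, ∑ l, xi h P z m l • dMb l (tm h j) z = 0) ∧
  ∀ ψ : E n → E n, (∀ l, DifferentiableAt ℝ (fun w => ψ w l) z) →
    dv (fun w => (h w).det • xi h P w *ᵥ ψ w) z / (h z).det =
      ∑ i, ∑ l, xi h P z i l * dz i (fun w => ψ w l) z +
        (P z * ∑ m, (xi h P z *ᵥ ψ z) m • tm h m z).trace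

/-- The divergence of the fields attached to the torsion. -/
def St_PE1 : Prop := ∀ (n : ℕ) (h P : E n → Mat n) (z : E n), (∀ᶠ w in 𝓝 z, L0 h P w) →
  dv (fun w => (h w).det • vk h h P w) z / (h z).det =
    nq (xi h P z) (fun l => star (P z * tm h l z).trace) ∧
  ∀ H : E n → Mat n, SmM H z → ClM H z → (H z).PosDef →
    (xi h P z *ᵥ fun l => star (P z * tm h l z).trace) = 0 →
    dv (fun w => (h w).det • vk H h P w) z / (h z).det =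
      -((ip3 (xi h P z) (xi h P z) (H z) (fun i => tm h i z) fun i => tm h i z).re / 2 : ℝ)

/-- The Laplacian along the leaves of the squared norm of the torsion. -/
def St_PE3 : Prop := ∀ (n : ℕ) (h P : E n → Mat n) (z : E n), (∀ᶠ w in 𝓝 z, L0 h P w) →
  (xi h P z * hess (fun w => (tn2 h w : ℂ)) z).trace = ∑ i, ∑ j, xi h P z i j *
    ip3 (h z)⁻¹ (h z)⁻¹ (h z) (fun a => nt h i a z) fun a => nt h j a z

/-- The fields are global, and a divergence with a sign vanishes. -/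
def St_PVC : Prop := ∀ (n : ℕ) (M : Mf n) [M.Cpt] (h P : M.Fam (Mat n)), M.Met h → M.End P →
  (∀ K, M.Ten K → (M.All fun e z => (h e z * P e z).IsHermitian) →
    M.Vec fun e => vk (K e) (h e) (P e)) ∧
  (∀ f, M.Sm f → M.Vec fun e z => xi (h e) (P e) z *ᵥ fun l => dzb l (M.lc f e) z) ∧
  (∃ f, M.Sm f ∧ M.Rep f fun e => tn2 (h e)) ∧
  ∀ (V : M.Fam (E n)) (q : M.Fam ℝ) (σ : ℝ), M.Vec V → σ ≠ 0 →
    (M.All fun e z => dv (fun w => (h e w).det • V e w) z / (h e z).det = ((σ * q e z : ℝ) : ℂ) ∧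
      0 ≤ q e z) → M.All fun e z => q e z = 0

/-- The leaves are Kähler. -/
def St_PD2 : Prop := ∀ (n : ℕ) (M : Mf n) [M.Cpt] (H h P : M.Fam (Mat n)) (k : ℕ), M.Kae H →
  M.Met h → M.Lm h P k → M.All fun e z => L1 (h e) (P e) z

/-- The torsion is parallel along the leaves. -/
def St_PD3 : Prop := ∀ (n : ℕ) (M : Mf n) [M.Cpt] (h P : M.Fam (Mat n)), M.Met h → M.End P →
  (M.All fun e z => L1 (h e) (P e) z) → M.All fun e z => L2 (h e) (P e) z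

/-! ### 5. Boxes -/

/-- A holomorphic frame of Killing fields. -/
def St_PB1 : Prop := ∀ (n k : ℕ) (h P : E n → Mat n) (x : E n), k ≤ n →
  (∀ᶠ z in 𝓝 x, L2 h P z) → (1 + (1 : ℝ) • P x).det = ((1 + 1 : ℝ) : ℂ) ^ k →
  ∃ U : E n → Mat n, ∀ᶠ z in 𝓝 x, (U z).det ≠ 0 ∧ SmM U z ∧ (∀ l, dMb l U z = 0) ∧
    P z * U z * pr k = U z * pr k ∧ pr k * (U z)⁻¹ * P z = (U z)⁻¹ * P z ∧
    ∀ j, dM j U z * pr k = -((gam h j z - tm h j z) * U z * pr k)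

/-- Straightening of commuting fields. -/
def St_PB2 : Prop := ∀ (n k : ℕ) (U : E n → Mat n) (x : E n), (U x).det ≠ 0 →
  (∀ᶠ z in 𝓝 x, SmM U z ∧ (∀ l, dMb l U z = 0) ∧ ∀ a b : E n,
    (∑ m, ((U z * pr k) *ᵥ a) m • (dM m U z * pr k)) *ᵥ b =
      (∑ m, ((U z * pr k) *ᵥ b) m • (dM m U z * pr k)) *ᵥ a) →
  ∃ χ : E n → E n, IsUnit (fderiv ℂ χ x) ∧ ∀ᶠ z in 𝓝 x, DifferentiableAt ℂ χ z ∧
    jm χ z * U z * pr k = pr k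

/-- The boxes cover the manifold. -/
def St_PB3 : Prop := ∀ (n : ℕ) (M : Mf n) (h P : M.Fam (Mat n)) (k : ℕ), M.Met h → M.Lm h P k →
  (M.All fun e z => L2 (h e) (P e) z) → M.BA h P k

/-- Changes of boxes. -/
def St_PB4 : Prop := ∀ (n : ℕ) (M : Mf n) (h P : M.Fam (Mat n)) (k : ℕ), M.BA h P k →
  ((io n k)ᴴ * io n k = 1 ∧ io n k * (io n k)ᴴ = pr k) ∧
  (∀ e, M.Box h P k e → ∀ z ∈ e.target, ∀ᶠ p : E n × E k in 𝓝 (z, 0),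
    h e (p.1 + io n k *ᵥ p.2) = h e p.1) ∧
  ∀ e e', M.Box h P k e → M.Box h P k e' → ∀ x ∈ e.source, x ∈ e'.source →
    M.J e e' x * io n k = io n k * M.tA k e e' x ∧ (M.tA k e e' x).det ≠ 0 ∧
    (∀ᶠ y in 𝓝 x, M.tA k e e' y = M.tA k e e' x) ∧
    ∀ᶠ p : E n × E k in 𝓝 (e' x, 0), e (e'.symm (p.1 + io n k *ᵥ p.2)) =
      e (e'.symm p.1) + (io n k * M.tA k e e' x) *ᵥ p.2

/-! ### 6. Tubes -/

/-- Change of chart and uniqueness for leaves. -/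
def St_PT0 : Prop := ∀ (n : ℕ) (M : Mf n) [M.Cpt] (h P : M.Fam (Mat n)) (k : ℕ), M.BA h P k →
  (∀ (ℓ : E k → M.X) e A v, M.Fr ℓ e A v → ContinuousAt ℓ v ∧ ∀ᶠ w in 𝓝 v, M.Fr ℓ e A w) ∧
  (∀ (ℓ : E k → M.X) e e' A v, M.Box h P k e → M.Box h P k e' → M.Fr ℓ e' A v →
    ℓ v ∈ e.source → M.Fr ℓ e (M.tA k e e' (ℓ v) * A) v) ∧
  (∀ (ℓ : E k → M.X) e A B v, M.Fr ℓ e A v → M.Fr ℓ e B v → A = B) ∧
  (∀ (ℓ ℓ' : E k → M.X) e A v, M.Fr ℓ e A v → M.Fr ℓ' e A v → ℓ v = ℓ' v → ℓ =ᶠ[𝓝 v] ℓ') ∧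
  (∀ (ℓ ℓ' : E k → M.X) e A v, M.Fr ℓ e A v → ℓ =ᶠ[𝓝 v] ℓ' → M.Fr ℓ' e A v) ∧
  (∀ (ℓ : E k → M.X) e A (B : Mat k) v c, M.Fr ℓ e A (B *ᵥ v + c) →
    M.Fr (fun w => ℓ (B *ᵥ w + c)) e (A * B) v) ∧
  (∀ (ℓ ℓ' : E k → M.X) U v, IsPreconnected U → M.Lf h P ℓ U → M.Lf h P ℓ' U → v ∈ U →
    ℓ =ᶠ[𝓝 v] ℓ' → EqOn ℓ ℓ' U) ∧
  ∀ (ℓ : E k → M.X) U v w e e' A A', IsPreconnected U → M.Lf h P ℓ U → v ∈ U → w ∈ U →
    M.Box h P k e → M.Box h P k e' → M.Fr ℓ e A v → M.Fr ℓ e' A' w →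
    (io n k * A)ᴴ * h e (e (ℓ v)) * (io n k * A) = (io n k * A')ᴴ * h e' (e' (ℓ w)) * (io n k * A')

/-- Existence of global parametrizations of the leaves. -/
def St_PT1 : Prop := ∀ (n : ℕ) (M : Mf n) [M.Cpt] (h P : M.Fam (Mat n)) (k : ℕ), M.BA h P k →
  ∀ e, M.Box h P k e → ∀ x ∈ e.source,
    ∃ ℓ : E k → M.X, M.Lf h P ℓ univ ∧ ℓ 0 = x ∧ M.Fr ℓ e 1 0

/-- Holonomy. -/
def St_PT2 : Prop := ∀ (n : ℕ) (M : Mf n) [M.Cpt] (h P : M.Fam (Mat n)) (k : ℕ), M.BA h P k →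
  ∀ e (L : E n → E k → M.X), M.Box h P k e → M.Lv h P e L → ∀ z ∈ e.target, ∀ s : E k,
    ∃ (e' : M.Ch) (A : Mat k) (ψ : E n → E n), M.Box h P k e' ∧ HolN ψ z ∧
      (∀ᶠ w in 𝓝 z, (jm ψ w)ᴴ * h e' (ψ w) * jm ψ w = h e w) ∧
      ∀ᶠ p : E n × E k in 𝓝 (z, s), L p.1 p.2 ∈ e'.source ∧
        e' (L p.1 p.2) = ψ p.1 + (io n k * A) *ᵥ (p.2 - s)

/-- The pull-backs of the Kähler form. -/
def St_PT3 : Prop := ∀ (n : ℕ) (M : Mf n) [M.Cpt] (H h P : M.Fam (Mat n)) (k : ℕ), M.Kae H →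
  M.BA h P k → ∃ T c C, M.Tub h P k T c C

/-! ### 7. Averages -/

/-- Averages of bounded families. -/
def St_PV0 : Prop := ∀ (n k : ℕ) (h : Mat n) (T : E k → Mat n) (c C : ℝ) (κ : E k → ℝ),
  Bnd h T c C → Krn κ → (∀ m, Krn (sc κ m)) ∧
  (avg κ T - c • h).PosSemidef ∧ (C • h - avg κ T).PosSemidef ∧
  (∀ i j, Tendsto (fun m => avg (sc κ m) T i j) (hyperfilter ℕ) (𝓝 (bl κ T i j))) ∧
  (bl κ T - c • h).PosSemidef ∧ (C • h - bl κ T).PosSemidef ∧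
  ∀ (A : Mat k) (J : Mat n), A.det ≠ 0 → Krn (fun s => κ (A *ᵥ s)) ∧
    bl (fun s => κ (A *ᵥ s)) (fun s => Jᴴ * T (A *ᵥ s) * J) = Jᴴ * bl κ T * J

/-- The averages are smooth and closed. -/
def St_PV1 : Prop := ∀ (n k : ℕ) (h : E n → Mat n) (T : E n → E k → Mat n) (c C : ℝ)
  (κ : E k → ℝ) (z : E n), (∀ᶠ w in 𝓝 z, TubAt h T c C w) → Krn κ →
  SmM (fun w => avg κ (T w)) z ∧ ClM (fun w => avg κ (T w)) z

/-- The derivatives along the leaves are small. -/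
def St_PV2 : Prop := ∀ (n k : ℕ) (κ : E k → ℝ), Krn κ → ∃ D : ℝ, 0 ≤ D ∧ ∀ (m : ℕ)
  (T : E n → E k → Mat n) (z : E n) (R : ℝ), SmM (fun w => avg (sc κ m) (T w)) z →
  (∀ i j, Continuous fun s => T z s i j) → (∀ s i j, ‖T z s i j‖ ≤ R) →
  (∀ᶠ v in 𝓝 (0 : E k), ∀ s, T (z + io n k *ᵥ v) s = T z (s + v)) → ∀ i j (v : E k),
    ‖fderiv ℝ (fun w => avg (sc κ m) (T w) i j) z (io n k *ᵥ v)‖ ≤ D * R / (m + 1) * ‖v‖

/-- A pointwise limit of almost holomorphic functions is holomorphic. -/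
def St_PWH : Prop := ∀ (n : ℕ) (l : Ultrafilter ℕ) (f : ℕ → E n → ℂ) (g : E n → ℂ)
  (U : Set (E n)) (C : ℝ) (δ : ℕ → ℝ), IsOpen U →
  (∀ m, ∀ z ∈ U, ContDiffAt ℝ 1 (f m) z ∧ ‖f m z‖ ≤ C ∧ ∀ j, ‖dzb j (f m) z‖ ≤ δ m) →
  Tendsto δ l (𝓝 0) → (∀ z ∈ U, Tendsto (fun m => f m z) l (𝓝 (g z))) → DifferentiableOn ℂ g U

/-- The limit of the averages on a ball. -/
def St_PV3 : Prop := ∀ (n k : ℕ) (h : E n → Mat n) (T : E n → E k → Mat n) (c C : ℝ)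
  (κ : E k → ℝ) (x : E n) (r : ℝ), k ≤ n → 0 < c → Krn κ →
  (∀ z ∈ closedBall x r, TubAt h T c C z ∧ (h z).PosDef ∧ ContinuousAt h z) →
  (∀ i j : Fin n, i.val < k → DifferentiableOn ℂ (fun z => bl κ (T z) i j) (ball x r)) ∧
  ∀ z ∈ ball x r, (∀ᶠ v in 𝓝 (0 : E k), bl κ (T (z + io n k *ᵥ v)) = bl κ (T z)) ∧
    pr k * bl κ (T z) * pr k = pr k * bl κ (T x) * pr k

/-- The canonical kernel. -/
def St_PV4 : Prop := ∀ (n k : ℕ) (h : Mat n) (T : E k → Mat n) (c C : ℝ), k ≤ n → Bnd h T c C →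
  Krn (kN T) ∧ ∀ (A : Mat k) (J : Mat n), A.det ≠ 0 → J * io n k = io n k * A →
    kN (fun s => Jᴴ * T (A *ᵥ s) * J) = fun s => kN T (A *ᵥ s)

/-- The limit of the averages on the manifold. -/
def St_PV5 : Prop := ∀ (n : ℕ) (M : Mf n) (h P : M.Fam (Mat n)) (k : ℕ)
  (T : M.Ch → E n → E k → Mat n) (c C : ℝ), M.BA h P k → M.Tub h P k T c C → ∃ B, M.Bf h P k B

/-- The new metric. -/
def St_PFL : Prop := ∀ (n : ℕ) (M : Mf n) [M.Cpt] (h P B : M.Fam (Mat n)) (k : ℕ), M.BA h P k →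
  M.Bf h P k B → ∃ h' P', M.Met h' ∧ M.Fl0 h' P' k ∧
    (M.All fun e z => ∀ a b, tors (h' e) z (P' e z *ᵥ a) b = 0) ∧
    M.All fun e z => P e z * P' e z = P' e z

/-! ### 8. The end of the proof -/

/-- The twisted inequality of Chern and Lu. -/
def St_PCL : Prop := ∀ (n : ℕ) (M : Mf n) [M.Cpt] (H h : M.Fam (Mat n)) (α : ℝ), 0 < n →
  M.Kae H → M.Met h → 0 ≤ α → M.Pin h α → ∃ (h₁ : M.Fam (Mat n)) (c : ℝ), M.Met h₁ ∧ 0 < c ∧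
    ∀ B, M.Clo B → M.Le 0 B → ∀ ε : ℝ, 0 < ε → ∀ u, M.SolB H B ε u → ∀ x,
      c * ε * M.tr (M.gB H B ε u) h₁ x - (1 + α * n) ≤
        M.lap (M.gB H B ε u) (fun y => Real.log (M.tr (M.gB H B ε u) h₁ y) - α * u y) x

/-- Polynomial bounds from the maximum principle. -/
def St_PS1 : Prop := ∀ (n : ℕ) (M : Mf n) [M.Cpt] (H h B : M.Fam (Mat n)) (c μ N₀ : ℝ), 0 < n →
  M.Kae H → M.Met h → M.Form B → 0 < c → 0 ≤ μ →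
  (∀ ε ∈ Ioc (0 : ℝ) 1, ∀ u, M.SolB H B ε u → ∀ x, c * ε * M.tr (M.gB H B ε u) h x - N₀ ≤
    M.lap (M.gB H B ε u) (fun y => Real.log (M.tr (M.gB H B ε u) h y) - μ * u y) x) →
  ∃ (C : ℝ) (N : ℕ), 1 ≤ C ∧ ∀ ε ∈ Ioc (0 : ℝ) 1, ∀ u, M.SolB H B ε u → ∀ x,
    (-(C + N * -Real.log ε) ≤ u x ∧ u x ≤ C) ∧
    M.gr H (M.tr (M.gB H B ε u) h) (M.tr (M.gB H B ε u) h) x ≤ (C * ε⁻¹ ^ N) ^ 2

/-- The trace is small. -/
def St_PS2 : Prop := ∀ (n : ℕ) (M : Mf n) [M.Cpt] (H h B : M.Fam (Mat n)) (c C C₁ μ N₀ : ℝ)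
  (N : ℕ), 0 < n → M.Kae H → M.Met h → M.Form B → 0 < c → 1 ≤ C₁ → 0 ≤ μ →
  (∀ ε ∈ Ioc (0 : ℝ) 1, ∀ u, M.SolB H B ε u → ∀ x,
    -N₀ ≤ M.lap (M.gB H B ε u) (fun y => Real.log (M.tr (M.gB H B ε u) h y) - μ * u y) x ∧
    (-(C₁ + N * -Real.log ε) ≤ u x ∧ u x ≤ C₁) ∧
    M.gr H (M.tr (M.gB H B ε u) h) (M.tr (M.gB H B ε u) h) x ≤ (C₁ * ε⁻¹ ^ N) ^ 2) →
  (∀ ε ∈ Ioc (0 : ℝ) 1, ∀ u, M.SolB H B ε u → c ≤ (M.mu (M.gB H B ε u)).real univ ∧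
    ∫ x, M.dq (M.gB H B ε u) (M.gB H B ε u + H) x ∂M.mu (M.gB H B ε u) ≤ C) →
  ∀ᶠ ε in 𝓝[>] (0 : ℝ), ∀ u, M.SolB H B ε u → ∀ x, ε * M.tr (M.gB H B ε u) H x < 1

/-- The twisted class has positive volume. -/
def St_PVO : Prop := ∀ (n : ℕ) (M : Mf n) [M.Cpt] (H h h' P : M.Fam (Mat n)) (k k' : ℕ),
  M.Kae H → M.Met h → M.Met h' → M.Le 0 (-M.ric h) → M.Fl1 h' P k' →
  (M.All fun e z => M.ric h e z * P e z = 0) → M.Ord H k → k ≤ k' →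
  0 < ∫ x, M.dq H (h' * P - M.ric h') x ∂M.mu H

end Pool.Agent.Lib.PM
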