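import Pool.Agent.Lib.PM.SDefs
import Pool.Agent.Lib.TB.Defs
import Pool.Agent.Lib.HW.SDefs

/-! Project pm78: the objects. -/

open scoped Classical Topology ContDiff ComplexOrder Matrix
open Set MeasureTheory Complex Metric Filter

set_option linter.unusedVariables false

noncomputable section

namespace Pool.Agent.Lib.HS32

open Pool.Agent.Lib.SV (E)
open Pool.Agent.Lib.PM (levi2)

section euc

variable {n k : ℕ}

/-! ### Finsler metrics -/

/-- A smooth convex increasing function that vanishes on `(-∞, 1]`. -/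
def chi (r : ℝ) : ℝ := (r - 1) * expNegInvGlue (r - 1)

/-- The matrix of the second moments of the weight `exp (-φ)`. -/
def gm (φ : E n → ℝ) : Mat n := Matrix.of fun i j => ∫ v, (Real.exp (-φ v) : ℂ) * (v i * star (v j))

/-- The matrix of the second moments attached to a Finsler function. -/
def gF (F : E n → ℝ) : Mat n := gm fun v => chi (F v)

/-- A Finsler function on one vector space. -/
structure Fib (F : E n → ℝ) : Prop where
  cont : ContinuousOn F {0}ᶜ
  pos : ∀ v, v ≠ 0 → 0 < F v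
  hom : ∀ (c : ℂ) v, F (c • v) = normSq c * F v

/-- A smooth family of Finsler functions, at the parameter `z`. -/
structure FibAt (F : E n → E n → ℝ) (z : E n) : Prop where
  fib : Fib (F z)
  sm : ∀ v, v ≠ 0 → ContDiffAt ℝ ∞ (fun p : E n × E n => F p.1 p.2) (z, v)

/-- A family of weights that is plurisubharmonic along the fibre over `z`. -/
structure Wg (Φ : E n × E n → ℝ) (z : E n) : Prop where
  sm : ∀ᶠ w in 𝓝 z, ∀ v, ContDiffAt ℝ ∞ Φ (w, v)
  rot : ∀ᶠ w in 𝓝 z, ∀ v (c : ℂ), ‖c‖ = 1 → Φ (w, c • v) = Φ (w, v)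
  psh : ∀ v p, 0 ≤ levi2 Φ (z, v) p
  bd : ∃ c C : ℝ, 0 < c ∧ 0 ≤ C ∧ ∀ᶠ w in 𝓝 z, ∀ v, c * ‖v‖ ^ 2 - C ≤ Φ (w, v) ∧
    ‖fderiv ℝ Φ (w, v)‖ ≤ C * (1 + ‖v‖) ^ 4 ∧ ‖fderiv ℝ (fderiv ℝ Φ) (w, v)‖ ≤ C * (1 + ‖v‖) ^ 4

/-- The `(1,0)` derivative of the weight in the direction `a` of the base. -/
def da (Φ : E n × E n → ℝ) (z a v : E n) : ℂ :=
  (fderiv ℝ Φ (z, v) (a, 0) - I * fderiv ℝ Φ (z, v) (I • a, 0)) / 2

/-- The Laplacian at the origin of a function of one complex variable. -/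
def lap1 (f : ℂ → ℝ) : ℝ :=
  deriv (deriv fun s : ℝ => f s) 0 + deriv (deriv fun s : ℝ => f (s * I)) 0

/-! ### The limit field -/

/-- The right side of the equation for the `(1,0)` derivatives. -/
def wr (h : E n → Mat n) (i : Fin n) (z : E n) (A : Mat n) : Mat n :=
  A * gam h i z - gam h i z * A + (1 - A) * tm h i z * A

/-- The right side of the equation for the `(0,1)` derivatives. -/
def wb (h : E n → Mat n) (l : Fin n) (z : E n) (A : Mat n) : Mat n :=
  (h z)⁻¹ * ((1 - A) * tm h l z * A)ᴴ * h z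

/-- The equations of the limit field. -/
def Wde (h P : E n → Mat n) (z : E n) : Prop :=
  (∀ i, dM i P z = wr h i z (P z)) ∧ ∀ l, dMb l P z = wb h l z (P z)

/-- The limit field at a point. -/
structure L0 (h P : E n → Mat n) (z : E n) : Prop where
  sh : SmM h z
  sp : SmM P z
  pos : (h z).PosDef
  herm : (h z * P z).IsHermitian
  idem : P z * P z = P z
  de : Wde h P z
  th1 : ∀ l m, ∑ i, P z i m • th h i l z = 0
  th2 : ∀ i m, ∑ l, star (P z l m) • th h i l z = 0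
  tf : ∀ m, (1 - P z) * (∑ i, P z i m • tm h i z) * P z = 0

/-- The leaves are Kähler. -/
structure L1 (h P : E n → Mat n) (z : E n) : Prop extends L0 h P z where
  tff : ∀ m, (∑ i, P z i m • tm h i z) * P z = 0

/-- The covariant derivative of the torsion. -/
def nt (h : E n → Mat n) (i j : Fin n) (z : E n) : Mat n :=
  dM i (tm h j) z + gam h i z * tm h j z - tm h j z * gam h i z - ∑ m, gam h i z m j • tm h m z

/-- The torsion is parallel along the leaves. -/
structure L2 (h P : E n → Mat n) (z : E n) : Prop extends L1 h P z where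
  nab : ∀ j m, ∑ i, P z i m • nt h i j z = 0

/-- The field `P h⁻¹`. -/
def xi (h P : E n → Mat n) (z : E n) : Mat n := P z * (h z)⁻¹

/-- The vector field attached to the torsion and to the tensor `K`. -/
def vk (K h P : E n → Mat n) (z : E n) : E n :=
  xi h P z *ᵥ fun l => (xi h P z * (tm h l z)ᴴ * K z).trace

/-- The squared norm of the torsion. -/
def tn2 (h : E n → Mat n) (z : E n) : ℝ := tq h (h z)⁻¹ (h z)⁻¹ z

/-! ### Averages along the leaves -/

variable (n k) in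
/-- The inclusion of the first `k` directions. -/
def io : Matrix (Fin n) (Fin k) ℂ := Matrix.of fun i j => if i.val = j.val then 1 else 0

/-- The pull-backs of the Kähler form by the translations along the leaves, at a point. -/
structure TubAt (h : E n → Mat n) (T : E n → E k → Mat n) (c C : ℝ) (z : E n) : Prop where
  sm : ∀ s i j, ContDiffAt ℝ ∞ (fun p : E n × E k => T p.1 p.2 i j) (z, s)
  cl : ∀ s, ClM (fun w => T w s) z
  lo : ∀ s, (T z s - c • h z).PosSemidef
  hi : ∀ s, (C • h z - T z s).PosSemidef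
  tr : ∀ᶠ v in 𝓝 (0 : E k), ∀ s, T (z + io n k *ᵥ v) s = T z (s + v)

/-- Kernels. -/
structure Krn (κ : E k → ℝ) : Prop where
  nn : ∀ s, 0 ≤ κ s
  lip : ∃ L : ℝ, ∀ s t, |κ s - κ t| ≤ L * ‖s - t‖
  cpt : HasCompactSupport κ
  pos : 0 < ∫ s, κ s

/-- The average for a kernel. -/
def avg (κ : E k → ℝ) (T : E k → Mat n) : Mat n :=
  Matrix.of fun i j => (∫ s, (κ s : ℂ) * T s i j) / ((∫ s, κ s : ℝ) : ℂ)

/-- The rescaled kernels. -/
def sc (κ : E k → ℝ) (m : ℕ) (s : E k) : ℝ := κ (((m : ℝ) + 1)⁻¹ • s)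

/-- The limit of the averages. -/
def bl (κ : E k → ℝ) (T : E k → Mat n) : Mat n :=
  Matrix.of fun i j => limUnder (hyperfilter ℕ : Filter ℕ) fun m => avg (sc κ m) T i j

/-- The canonical squared norm. -/
def nN (T : E k → Mat n) (v : E k) : ℝ :=
  sSup {r | ∃ κ : E k → ℝ, Krn κ ∧ r = nq (bl κ T) (io n k *ᵥ v)}

/-- The canonical kernel. -/
def kN (T : E k → Mat n) (s : E k) : ℝ := max 0 (1 - √(nN T s))

/-- A bounded continuous family of Hermitian forms. -/
structure Bnd (h : Mat n) (T : E k → Mat n) (c C : ℝ) : Prop where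
  pos : h.PosDef
  c0 : 0 < c
  cont : ∀ i j, Continuous fun s => T s i j
  lo : ∀ s, (T s - c • h).PosSemidef
  hi : ∀ s, (C • h - T s).PosSemidef

end euc

namespace Mf

variable {n : ℕ} (M : Mf n)

/-- A smooth Finsler metric. -/
structure Fin' (F : M.Fam (E n → ℝ)) : Prop where
  loc : M.All fun e z => FibAt (F e) z
  cmp : M.Ov fun e e' x => ∀ v, F e' (e' x) v = F e (e x) (M.J e e' x *ᵥ v)

/-- The function `log F + a log det g` is plurisubharmonic, in one chart at each point. -/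
def FPs (F : M.Fam (E n → ℝ)) (g : M.Fam (Mat n)) (a : ℝ) : Prop :=
  ∀ x, ∃ e ∈ M.C, x ∈ e.source ∧ ∀ v, v ≠ 0 → ∀ p, 0 ≤ levi2
    (fun q => Real.log (F e q.1 q.2) + a * Real.log (g e q.1).det.re) (e x, v) p

/-- The curvature of `h` is bounded by the Ricci form of `g`, in one chart at each point. -/
def Pi0 (h g : M.Fam (Mat n)) (β : ℝ) : Prop :=
  ∀ x, ∃ e ∈ M.C, x ∈ e.source ∧ ∀ a v, (rm (h e) (e x) a a v v).re ≤
    β * nq (hess (ld (g e)) (e x)) a * nq (h e (e x)) v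

/-- The pinching condition. -/
def Pin (h : M.Fam (Mat n)) (α : ℝ) : Prop := M.All fun e z => ∀ a v,
  (rm (h e) z a a v v).re ≤ α * nq (hess (ld (h e)) z) a * nq (h e z) v

/-- A non-negative function that bounds the gradient term. -/
def yp (G h : M.Fam (Mat n)) (α s : ℝ) (x : M.X) : ℝ :=
  M.yw G h s x + α * n * M.tr G (-M.ric h) x

/-- The bound for the defect. -/
def dfc (G h : M.Fam (Mat n)) (α s : ℝ) (x : M.X) : ℝ :=
  (s + M.rho G h s x) * (1 + M.tr h G x) * M.yp G h α 1 x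

/-- The sequence. -/
structure Sp (H h : M.Fam (Mat n)) (α : ℝ) (ε s : ℕ → ℝ) (u f : ℕ → M.X → ℝ) : Prop where
  eps : ∀ j, ε j ∈ Ioc (0 : ℝ) 1
  scl : ∀ j, s j ∈ Ioc (0 : ℝ) 1
  sol : ∀ j, M.Sol H (ε j) (u j)
  s0 : Tendsto s atTop (𝓝 0)
  e0 : Tendsto (fun j => ε j / s j ^ n) atTop (𝓝 0)
  rb : Tendsto (fun j => ∫ x, (s j + M.rho (M.gE H (ε j) (u j)) h (s j) x) *
    (1 + M.tr h (M.gE H (ε j) (u j)) x) ∂M.mu H) atTop (𝓝 0)
  fs : ∀ j, M.Sm (f j)
  f01 : ∀ j x, 0 ≤ f j x ∧ f j x ≤ 1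
  f1 : Tendsto (fun j => ∫ x, (1 - f j x) ∂M.mu H) atTop (𝓝 0)
  df : Tendsto (fun j => ∫ x, √(M.gr H (f j) (f j) x) ∂M.mu H) atTop (𝓝 0)
  fx : Tendsto (fun j => ∫ x, f j x * √(M.dfc (M.gE H (ε j) (u j)) h α (s j) x) ∂M.mu H)
    atTop (𝓝 0)

/-- The limit field. -/
structure Lm (h P : M.Fam (Mat n)) (k : ℕ) : Prop where
  en : M.End P
  le : k ≤ n
  det : ∀ s : ℝ, M.All fun e z => (1 + s • P e z).det = ((1 + s : ℝ) : ℂ) ^ k
  loc : M.All fun e z => L0 (h e) (P e) z
  kill : M.All fun e z => M.ric h e z * P e z = 0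

/-- A chart in which the leaves are the first `k` directions and the metric does not depend on
the first `k` coordinates. -/
structure Box (h P : M.Fam (Mat n)) (k : ℕ) (e : M.Ch) : Prop where
  mem : e ∈ M.C
  im : ∀ z ∈ e.target, pr k * P e z = P e z
  fix : ∀ z ∈ e.target, P e z * pr k = pr k
  cst : ∀ z ∈ e.target, ∀ i : Fin n, i.val < k → dM i (h e) z = 0

/-- The boxes cover the manifold. -/
structure BA (h P : M.Fam (Mat n)) (k : ℕ) : Prop where
  met : M.Met h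
  en : M.End P
  le : k ≤ n
  cov : ∀ x, ∃ e, M.Box h P k e ∧ x ∈ e.source

/-- The block of the Jacobian matrix along the leaves. -/
def tA (k : ℕ) (e e' : M.Ch) (x : M.X) : Mat k := (io n k)ᴴ * M.J e e' x * io n k

/-- Near `v`, the map `ℓ` is an affine parametrization of a leaf, with matrix `A` in the chart
`e`. -/
def Fr {k : ℕ} (ℓ : E k → M.X) (e : M.Ch) (A : Mat k) (v : E k) : Prop :=
  ∀ᶠ w in 𝓝 v, ℓ w ∈ e.source ∧ e (ℓ w) = e (ℓ v) + (io n k * A) *ᵥ (w - v)

/-- An affine parametrization of a leaf. -/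
def Lf (h P : M.Fam (Mat n)) {k : ℕ} (ℓ : E k → M.X) (U : Set (E k)) : Prop :=
  ∀ v ∈ U, ∃ e A, M.Box h P k e ∧ M.Fr ℓ e A v

/-- The family of the parametrizations of the leaves through the points of the chart `e`. -/
def Lv (h P : M.Fam (Mat n)) {k : ℕ} (e : M.Ch) (L : E n → E k → M.X) : Prop :=
  ∀ z ∈ e.target, M.Lf h P (L z) univ ∧ L z 0 = e.symm z ∧ M.Fr (L z) e 1 0

/-- The pull-backs of the Kähler form by the translations along the leaves. -/
structure Tub (h P : M.Fam (Mat n)) (k : ℕ) (T : M.Ch → E n → E k → Mat n) (c C : ℝ) : Prop where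
  c0 : 0 < c
  loc : ∀ e, M.Box h P k e → ∀ z ∈ e.target, TubAt (h e) (T e) c C z
  cmp : ∀ e e', M.Box h P k e → M.Box h P k e' → ∀ x ∈ e.source, x ∈ e'.source → ∀ s,
    T e' (e' x) s = (M.J e e' x)ᴴ * T e (e x) (M.tA k e e' x *ᵥ s) * M.J e e' x

/-- The limit of the averages. -/
structure Bf (h P : M.Fam (Mat n)) (k : ℕ) (B : M.Fam (Mat n)) : Prop where
  loc : ∀ e, M.Box h P k e → ∀ z ∈ e.target, SmM (B e) z ∧ (∀ l, dMb l (B e) z = 0) ∧
    (∀ i : Fin n, i.val < k → dM i (B e) z = 0) ∧ pr k * B e z = B e z ∧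
    (B e z * pr k + (1 - pr k)).PosDef ∧ ∀ᶠ w in 𝓝 z, B e w * pr k = B e z * pr k
  cmp : ∀ e e', M.Box h P k e → M.Box h P k e' → ∀ x ∈ e.source, x ∈ e'.source →
    B e' (e' x) = pr k * (M.J e e' x)ᴴ * B e (e x) * M.J e e' x

end Mf

end Pool.Agent.Lib.HS32
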