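import Pool.Agent.Lib.GH.SDefs

/-! Definitions used in the statement: complex Finsler metrics, read in charts, and the
semi-positivity of the tautological bundle of the cotangent bundle twisted by a multiple of the
canonical bundle. -/

open scoped ContDiff Matrix

noncomputable section

namespace Pool.Agent.Lib.PM

open Pool.Agent.Lib.SV Pool.Agent.Lib.HS

variable {n : ℕ}

/-- The Levi form at `p`, on the vector `w`, of a real function of a point and a vector. -/
def levi2 (φ : E n × E n → ℝ) (p w : E n × E n) : ℝ :=
  (fderiv ℝ (fun q => fderiv ℝ φ q w) p w +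
    fderiv ℝ (fun q => fderiv ℝ φ q (Complex.I • w)) p (Complex.I • w)) / 4

variable {X : Type} [TopologicalSpace X] [ChartedSpace (E n) X]

/-- The value, on the tangent vector with coordinates `p = (z, v)` in the chart at `x`, of the
function whose value on the vector `v` at `y`, in the preferred chart of `y`, is `F y v`. -/
def inF (F : X → E n → ℝ) (x : X) (p : E n × E n) : ℝ :=
  F ((chartAt (E n) x).symm p.1) (jacM x p.1 *ᵥ p.2)

/-- `F` is a smooth complex Finsler metric: positive and smooth off the zero section, and
homogeneous. This is a smooth Hermitian metric on the tautological line bundle of the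
projectivised tangent bundle. -/
structure Finsler (F : X → E n → ℝ) : Prop where
  pos : ∀ x v, v ≠ 0 → 0 < F x v
  hom : ∀ x (c : ℂ) v, F x (c • v) = Complex.normSq c * F x v
  smooth : ∀ x v, v ≠ 0 → ContDiffAt ℝ ∞ (inF F x) (chartAt (E n) x x, v)

/-- The function `log F + a log det g` is plurisubharmonic off the zero section. -/
def SemiPos (F : X → E n → ℝ) (g : X → Mat n) (a : ℝ) : Prop :=
  ∀ x v, v ≠ 0 → ∀ w, 0 ≤ levi2
    (fun p => Real.log (inF F x p) + a * Real.log (inChart g x p.1).det.re) (chartAt (E n) x x, v) w

end Pool.Agent.Lib.PM
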